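import Mathlib

/-!
MP_c90581_an : best `m`-term trigonometric approximation, basic definitions.
-/

set_option autoImplicit false

namespace Pool.Agent.H72.MT

open Finset
open scoped BigOperators

noncomputable section

/-- `ee t = exp (2 π i t)`. -/
def ee (t : ℝ) : ℂ := Complex.exp (2 * Real.pi * t * Complex.I)

lemma ee_zero : ee 0 = 1 := by simp [ee]

lemma ee_add (s t : ℝ) : ee (s + t) = ee s * ee t := by
  unfold ee; rw [← Complex.exp_add]; congr 1; push_cast; ring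

lemma norm_ee (t : ℝ) : ‖ee t‖ = 1 := by
  unfold ee
  rw [show (2 * (Real.pi : ℂ) * t * Complex.I) = ((2 * Real.pi * t : ℝ) : ℂ) * Complex.I by
    push_cast; ring]
  exact Complex.norm_exp_ofReal_mul_I _

lemma ee_int (m : ℤ) : ee (m : ℝ) = 1 := by
  unfold ee
  rw [Complex.exp_eq_one_iff]
  exact ⟨m, by push_cast; ring⟩

lemma ee_nat (m : ℕ) : ee (m : ℝ) = 1 := by simpa using ee_int (m : ℤ)

lemma ee_neg (t : ℝ) : ee (-t) = (ee t)⁻¹ := by
  have h : ee (-t) * ee t = 1 := by rw [← ee_add]; simp [ee_zero]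
  exact eq_inv_of_mul_eq_one_left h

lemma ee_neg_eq_conj (t : ℝ) : ee (-t) = (starRingEnd ℂ) (ee t) := by
  rw [ee_neg, Complex.inv_def, Complex.normSq_eq_norm_sq, norm_ee]; simp

lemma ee_ne_zero (t : ℝ) : ee t ≠ 0 := by
  intro h; have := norm_ee t; rw [h] at this; simp at this

lemma ee_add_int (t : ℝ) (m : ℤ) : ee (t + m) = ee t := by rw [ee_add, ee_int, mul_one]

lemma ee_sum {ι : Type*} (s : Finset ι) (f : ι → ℝ) : ee (∑ i ∈ s, f i) = ∏ i ∈ s, ee (f i) := by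
  classical
  induction s using Finset.induction_on with
  | empty => simp [ee_zero]
  | insert a s ha ih => rw [Finset.sum_insert ha, Finset.prod_insert ha, ee_add, ih]

lemma ee_eq_one_iff (t : ℝ) : ee t = 1 ↔ ∃ m : ℤ, t = m := by
  constructor
  · intro h
    unfold ee at h
    rw [Complex.exp_eq_one_iff] at h
    obtain ⟨m, hm⟩ := h
    refine ⟨m, ?_⟩
    have h2 : (2 * (Real.pi : ℂ) * Complex.I) ≠ 0 := Complex.two_pi_I_ne_zero
    have h3 : (2 * (Real.pi : ℂ) * Complex.I) * (t : ℂ) = (2 * (Real.pi : ℂ) * Complex.I) * (m : ℂ) := by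
      rw [show (2 * (Real.pi : ℂ) * Complex.I) * (t : ℂ) = 2 * Real.pi * t * Complex.I by ring, hm]; ring
    have h4 := mul_left_cancel₀ h2 h3
    exact_mod_cast h4
  · rintro ⟨m, rfl⟩; exact ee_int m

lemma ee_mul_nat (t : ℝ) (j : ℕ) : ee (j * t) = ee t ^ j := by
  induction j with
  | zero => simp [ee_zero]
  | succ j ih => rw [pow_succ, ← ih, ← ee_add]; congr 1; push_cast; ring

/-- Orthogonality on the grid `(1/N) ℤ / ℤ`. -/
lemma grid_orth (N : ℕ) (hN : 0 < N) (ξ : ℤ) :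
    ∑ x ∈ range N, ee (ξ * ((x : ℝ) / N)) = if (N : ℤ) ∣ ξ then (N : ℂ) else 0 := by
  have hN' : (N : ℝ) ≠ 0 := by positivity
  have h1 : ∀ x ∈ range N, ee (ξ * ((x : ℝ) / N)) = ee ((ξ : ℝ) / N) ^ x := by
    intro x _
    rw [← ee_mul_nat]; congr 1; ring
  rw [Finset.sum_congr rfl h1]
  split_ifs with h
  · obtain ⟨m, rfl⟩ := h
    have : ee (((N * m : ℤ) : ℝ) / N) = 1 := by
      rw [show (((N * m : ℤ) : ℝ) / N) = (m : ℤ) by push_cast; field_simp]
      exact ee_int m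
    rw [this]; simp
  · have hne : ee ((ξ : ℝ) / N) ≠ 1 := by
      intro h1
      obtain ⟨m, hm⟩ := (ee_eq_one_iff _).1 h1
      apply h
      refine ⟨m, ?_⟩
      have : (ξ : ℝ) = N * m := by field_simp at hm; linarith
      exact_mod_cast this
    rw [geom_sum_eq hne]
    have : ee ((ξ : ℝ) / N) ^ N = 1 := by
      rw [← ee_mul_nat, show (N : ℝ) * ((ξ : ℝ) / N) = (ξ : ℤ) by field_simp]
      exact ee_int ξ
    rw [this]; simp

/-- triangle coefficients `(1 - |j|/h)_+`. -/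
def tri (h : ℕ) (j : ℤ) : ℝ := max 0 (1 - |(j : ℝ)| / h)

lemma tri_nonneg (h : ℕ) (j : ℤ) : 0 ≤ tri h j := le_max_left _ _

lemma tri_le_one (h : ℕ) (j : ℤ) : tri h j ≤ 1 := by
  unfold tri
  apply max_le zero_le_one
  have : 0 ≤ |(j : ℝ)| / h := by positivity
  linarith

lemma tri_zero (h : ℕ) : tri h 0 = 1 := by simp [tri]

lemma tri_eq_zero {h : ℕ} (hh : 0 < h) {j : ℤ} (hj : (h : ℤ) ≤ |j|) : tri h j = 0 := by
  unfold tri
  apply max_eq_left
  have h1 : (h : ℝ) ≤ |(j : ℝ)| := by exact_mod_cast hj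
  have h2 : (0 : ℝ) < h := by exact_mod_cast hh
  rw [sub_nonpos, one_le_div h2]; exact h1

/-- Fejér kernel `(1/h) |∑_{j<h} e(jt)|²`. -/
def Fej (h : ℕ) (t : ℝ) : ℝ := ‖∑ j ∈ range h, ee (j * t)‖ ^ 2 / h

lemma Fej_nonneg (h : ℕ) (t : ℝ) : 0 ≤ Fej h t := by unfold Fej; positivity

/-- distance to the nearest integer. -/
def dZ (t : ℝ) : ℝ := |t - round t|

end

end Pool.Agent.H72.MT
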