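import Pool.Agent.H72.MT.Basic

set_option autoImplicit false

namespace Pool.Agent.H72.MT

open Finset
open scoped BigOperators

noncomputable section

lemma card_diff (h : ℕ) (m : ℤ) :
    #{p ∈ range h ×ˢ range h | (p.1 : ℤ) - (p.2 : ℤ) = m} = ((h : ℤ) - |m|).toNat := by
  rcases le_or_gt 0 m with hm | hm
  · obtain ⟨k, rfl⟩ := Int.eq_ofNat_of_zero_le hm
    have : {p ∈ range h ×ˢ range h | (p.1 : ℤ) - (p.2 : ℤ) = (k : ℤ)} =
        (range (h - k)).image (fun l => (l + k, l)) := by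
      ext ⟨a, b⟩
      simp only [mem_filter, mem_product, mem_range, mem_image, Prod.mk.injEq]
      constructor
      · rintro ⟨⟨h1, h2⟩, h3⟩; exact ⟨b, by omega, by omega, rfl⟩
      · rintro ⟨l, hl, h1, h2⟩; subst h2; omega
    rw [this, card_image_of_injective]
    · rw [card_range]
      have : |(k : ℤ)| = k := abs_of_nonneg hm
      omega
    · intro a b hab; simpa using hab
  · obtain ⟨k, hk⟩ := Int.eq_ofNat_of_zero_le (by omega : 0 ≤ -m)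
    have hm' : m = -(k : ℤ) := by omega
    subst hm'
    have : {p ∈ range h ×ˢ range h | (p.1 : ℤ) - (p.2 : ℤ) = -(k : ℤ)} =
        (range (h - k)).image (fun l => (l, l + k)) := by
      ext ⟨a, b⟩
      simp only [mem_filter, mem_product, mem_range, mem_image, Prod.mk.injEq]
      constructor
      · rintro ⟨⟨h1, h2⟩, h3⟩; exact ⟨a, by omega, rfl, by omega⟩
      · rintro ⟨l, hl, h1, h2⟩; subst h1; omega
    rw [this, card_image_of_injective]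
    · rw [card_range]
      have : |(-(k : ℤ))| = k := by rw [abs_neg]; exact abs_of_nonneg (by omega)
      omega
    · intro a b hab; simpa using (congrArg Prod.fst hab)

lemma card_diff_real {h : ℕ} (hh : 0 < h) (m : ℤ) :
    (#{p ∈ range h ×ˢ range h | (p.1 : ℤ) - (p.2 : ℤ) = m} : ℝ) = h * tri h m := by
  rw [card_diff]
  have h2 : (0 : ℝ) < h := by exact_mod_cast hh
  unfold tri
  have _ := hh
  rcases le_or_gt ((h : ℤ)) |m| with hm | hm
  · have h1 : (h : ℝ) ≤ |(m : ℝ)| := by exact_mod_cast hm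
    rw [max_eq_left (by rw [sub_nonpos, one_le_div h2]; exact h1)]
    have : ((h : ℤ) - |m|).toNat = 0 := by omega
    simp [this]
  · have h1 : |(m : ℝ)| < (h : ℝ) := by exact_mod_cast hm
    rw [max_eq_right (by rw [sub_nonneg, div_le_one h2]; exact h1.le)]
    have h3 : ((((h : ℤ) - |m|).toNat : ℤ) : ℝ) = ((h : ℤ) - |m| : ℤ) := by
      congr 1; omega
    have h4 : ((((h : ℤ) - |m|).toNat : ℕ) : ℝ) = (h : ℝ) - |(m : ℝ)| := by
      rw [← Int.cast_natCast, h3]; push_cast; ring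
    rw [h4]; field_simp

/-- double sum form of the Fejér kernel -/
lemma Fej_double {h : ℕ} (hh : 0 < h) (t : ℝ) :
    (Fej h t : ℂ) = (h : ℂ)⁻¹ * ∑ p ∈ range h ×ˢ range h, ee (((p.1 : ℤ) - (p.2 : ℤ) : ℤ) * t) := by
  unfold Fej
  have h1 : ((‖∑ j ∈ range h, ee (j * t)‖ ^ 2 : ℝ) : ℂ) =
      (∑ j ∈ range h, ee (j * t)) * (starRingEnd ℂ) (∑ j ∈ range h, ee (j * t)) := by
    rw [Complex.mul_conj, Complex.normSq_eq_norm_sq]
  rw [Complex.ofReal_div, h1, map_sum, Finset.sum_mul_sum, ← Finset.sum_product']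
  rw [div_eq_inv_mul]
  simp only [Complex.ofReal_natCast]
  congr 1
  apply Finset.sum_congr rfl
  intro p _
  rw [← ee_neg_eq_conj, ← ee_add]
  congr 1; push_cast; ring

/-- Fourier expansion of the Fejér kernel. -/
lemma Fej_expand {h : ℕ} (hh : 0 < h) (t : ℝ) :
    (Fej h t : ℂ) = ∑ m ∈ Ioo (-(h : ℤ)) h, (tri h m : ℂ) * ee (m * t) := by
  rw [Fej_double hh]
  have hmaps : ∀ p ∈ range h ×ˢ range h, ((p.1 : ℤ) - (p.2 : ℤ)) ∈ Ioo (-(h : ℤ)) h := by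
    intro p hp
    simp only [mem_product, mem_range, mem_Ioo] at hp ⊢
    omega
  rw [← Finset.sum_fiberwise_of_maps_to hmaps, Finset.mul_sum]
  apply Finset.sum_congr rfl
  intro m _
  rw [Finset.sum_congr rfl (g := fun _ => ee (m * t))]
  · rw [Finset.sum_const, nsmul_eq_mul, ← mul_assoc]
    congr 1
    have := card_diff_real hh m
    have h2 : ((#{p ∈ range h ×ˢ range h | (p.1 : ℤ) - (p.2 : ℤ) = m} : ℝ) : ℂ) = ((h * tri h m : ℝ) : ℂ) := by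
      rw [this]
    push_cast at h2
    rw [h2]
    have : (h : ℂ) ≠ 0 := by exact_mod_cast hh.ne'
    field_simp
  · intro p hp
    rw [mem_filter] at hp
    rw [hp.2]

/-- exact orthogonality for frequencies with distinct residues mod `M`. -/
lemma grid_parseval (M : ℕ) (hM : 0 < M) (S : Finset ℤ)
    (hS : ∀ ξ ∈ S, ∀ η ∈ S, (M : ℤ) ∣ ξ - η → ξ = η) (u : ℤ → ℂ) (y : ℝ) :
    ∑ a ∈ range M, ‖∑ ξ ∈ S, u ξ * ee (ξ * ((a : ℝ) / M - y))‖ ^ 2 = M * ∑ ξ ∈ S, ‖u ξ‖ ^ 2 := by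
  have h1 : ∀ a : ℕ, ((‖∑ ξ ∈ S, u ξ * ee (ξ * ((a : ℝ) / M - y))‖ ^ 2 : ℝ) : ℂ) =
      ∑ ξ ∈ S, ∑ η ∈ S, (u ξ * (starRingEnd ℂ) (u η) * ee (-((ξ - η : ℤ) : ℝ) * y)) * ee ((ξ - η : ℤ) * ((a : ℝ) / M)) := by
    intro a
    rw [show ((‖∑ ξ ∈ S, u ξ * ee (ξ * ((a : ℝ) / M - y))‖ ^ 2 : ℝ) : ℂ) =
      (∑ ξ ∈ S, u ξ * ee (ξ * ((a : ℝ) / M - y))) * (starRingEnd ℂ) (∑ ξ ∈ S, u ξ * ee (ξ * ((a : ℝ) / M - y))) by
        rw [Complex.mul_conj, Complex.normSq_eq_norm_sq]]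
    rw [map_sum, Finset.sum_mul_sum]
    apply Finset.sum_congr rfl; intro ξ _
    apply Finset.sum_congr rfl; intro η _
    rw [map_mul, ← ee_neg_eq_conj]
    have : ee (ξ * ((a : ℝ) / M - y)) * ee (-(η * ((a : ℝ) / M - y))) =
        ee (-((ξ - η : ℤ) : ℝ) * y) * ee ((ξ - η : ℤ) * ((a : ℝ) / M)) := by
      rw [← ee_add, ← ee_add]; congr 1; push_cast; ring
    calc _ = u ξ * (starRingEnd ℂ) (u η) * (ee (ξ * ((a : ℝ) / M - y)) * ee (-(η * ((a : ℝ) / M - y)))) := by ring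
      _ = _ := by rw [this]; ring
  have h2 : ((∑ a ∈ range M, ‖∑ ξ ∈ S, u ξ * ee (ξ * ((a : ℝ) / M - y))‖ ^ 2 : ℝ) : ℂ) =
      ((M * ∑ ξ ∈ S, ‖u ξ‖ ^ 2 : ℝ) : ℂ) := by
    rw [Complex.ofReal_sum, Finset.sum_congr rfl (fun a _ => h1 a), Finset.sum_comm]
    rw [Complex.ofReal_mul, Complex.ofReal_sum, Complex.ofReal_natCast, Finset.mul_sum]
    apply Finset.sum_congr rfl
    intro ξ hξ
    rw [Finset.sum_comm, Finset.sum_eq_single ξ]
    · rw [← Finset.mul_sum, grid_orth M hM]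
      simp only [sub_self, dvd_zero, if_true, Int.cast_zero, neg_zero, zero_mul, ee_zero, mul_one]
      rw [Complex.mul_conj, Complex.normSq_eq_norm_sq]
      ring
    · intro η hη hne
      rw [← Finset.mul_sum, grid_orth M hM, if_neg, mul_zero]
      intro hd; exact hne (hS ξ hξ η hη hd).symm
    · intro h; exact absurd hξ h
  exact_mod_cast h2

/-- Bessel inequality on the grid. -/
lemma grid_bessel (N : ℕ) (hN : 0 < N) (S : Finset ℤ)
    (hS : ∀ ξ ∈ S, ∀ η ∈ S, (N : ℤ) ∣ ξ - η → ξ = η) (e : ℕ → ℂ) :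
    ∑ ξ ∈ S, ‖(N : ℂ)⁻¹ * ∑ x ∈ range N, e x * ee (-(ξ * ((x : ℝ) / N)))‖ ^ 2 ≤
      (N : ℝ)⁻¹ * ∑ x ∈ range N, ‖e x‖ ^ 2 := by
  have hNc : (N : ℂ) ≠ 0 := by exact_mod_cast hN.ne'
  have hNr : (0 : ℝ) < N := by exact_mod_cast hN
  set u : ℤ → ℂ := fun ξ => (N : ℂ)⁻¹ * ∑ x ∈ range N, e x * ee (-(ξ * ((x : ℝ) / N))) with hu
  set P : ℕ → ℂ := fun x => ∑ ξ ∈ S, u ξ * ee (ξ * ((x : ℝ) / N)) with hP
  have hPn : ∑ x ∈ range N, ‖P x‖ ^ 2 = N * ∑ ξ ∈ S, ‖u ξ‖ ^ 2 := by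
    have := grid_parseval N hN S hS u 0
    simpa [hP] using this
  have hcross : ∑ x ∈ range N, (e x * (starRingEnd ℂ) (P x)).re = N * ∑ ξ ∈ S, ‖u ξ‖ ^ 2 := by
    have h1 : ∑ x ∈ range N, (e x * (starRingEnd ℂ) (P x)) = ((N * ∑ ξ ∈ S, ‖u ξ‖ ^ 2 : ℝ) : ℂ) := by
      simp only [hP, map_sum, Finset.mul_sum]
      rw [Finset.sum_comm]
      push_cast
      apply Finset.sum_congr rfl
      intro ξ _
      have h2 : ∀ x ∈ range N, e x * (starRingEnd ℂ) (u ξ * ee (ξ * ((x : ℝ) / N))) =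
          (starRingEnd ℂ) (u ξ) * (e x * ee (-(ξ * ((x : ℝ) / N)))) := by
        intro x _
        rw [map_mul, ← ee_neg_eq_conj]; ring
      rw [Finset.sum_congr rfl h2, ← Finset.mul_sum]
      have h3 : ∑ x ∈ range N, e x * ee (-(ξ * ((x : ℝ) / N))) = N * u ξ := by
        simp only [hu]; field_simp
      rw [h3]
      have : (u ξ) * (starRingEnd ℂ) (u ξ) = ((‖u ξ‖ ^ 2 : ℝ) : ℂ) := by
        rw [Complex.mul_conj, Complex.normSq_eq_norm_sq]
      calc _ = (N : ℂ) * ((u ξ) * (starRingEnd ℂ) (u ξ)) := by ring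
        _ = _ := by rw [this]; push_cast; ring
    rw [← Complex.re_sum, h1, Complex.ofReal_re]
  have hexp : ∀ x, ‖e x - P x‖ ^ 2 = ‖e x‖ ^ 2 - 2 * (e x * (starRingEnd ℂ) (P x)).re + ‖P x‖ ^ 2 := by
    intro x
    rw [← Complex.normSq_eq_norm_sq, ← Complex.normSq_eq_norm_sq, ← Complex.normSq_eq_norm_sq,
      Complex.normSq_sub]; ring
  have h0 : 0 ≤ ∑ x ∈ range N, ‖e x - P x‖ ^ 2 := Finset.sum_nonneg (fun _ _ => by positivity)
  simp_rw [hexp] at h0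
  rw [Finset.sum_add_distrib, Finset.sum_sub_distrib, ← Finset.mul_sum, hcross, hPn] at h0
  rw [le_inv_mul_iff₀ hNr]
  linarith

end

end Pool.Agent.H72.MT
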