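import Pool.Agent.H72.MT.Hop

set_option autoImplicit false

namespace Pool.Agent.H72.MT

open Finset
open scoped BigOperators

noncomputable section

lemma tri_eq_zero_of_not_mem {k ω : ℕ} (hk : 1 ≤ k) {ξ : ℤ} (h : ξ ∉ bandF k ω) :
    tri (2 ^ (k - 1)) (ξ - ctr k ω) = 0 := by
  have h2 : (2 : ℤ) ^ k = 2 * 2 ^ (k - 1) := by
    obtain ⟨j, rfl⟩ : ∃ j, k = j + 1 := ⟨k - 1, by omega⟩
    rw [pow_succ]; simp; ring
  have hp : (0 : ℤ) < 2 ^ (k - 1) := by positivity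
  apply tri_eq_zero (by positivity)
  simp only [bandF, mem_Ioo, not_and_or, not_lt] at h
  unfold ctr
  push_cast
  rw [add_mul, one_mul, h2] at h
  rw [h2]
  rcases h with h | h
  · rw [abs_of_nonpos (by linarith)]; linarith
  · rw [abs_of_nonneg (by linarith)]; linarith

/-- action of the band projection on a character. -/
lemma Ph_char {k ω R a : ℕ} (hk : 1 ≤ k) (hb : (((ω : ℤ) + 1) * 2 ^ k) ≤ 2 ^ (R - 1)) (hR : 1 ≤ R)
    {ξ : ℤ} (hξ : |ξ| < 2 ^ (R - 1)) (e : ℕ → ℂ) (he : ∀ x < 2 ^ R, e x = ee (ξ * ((x : ℝ) / 2 ^ R))) :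
    Ph R k ω a e = (tri (2 ^ (k - 1)) (ξ - ctr k ω) : ℂ) * ee (ξ * ((a : ℝ) / 2 ^ k)) := by
  have hR2 : (2 : ℤ) ^ R = 2 * 2 ^ (R - 1) := by
    obtain ⟨j, rfl⟩ : ∃ j, R = j + 1 := ⟨R - 1, by omega⟩
    rw [pow_succ]; simp; ring
  have hd : ∀ η ∈ bandF k ω, dft R e η = if η = ξ then 1 else 0 := by
    intro η hη
    unfold dft
    have h1 : ∑ x ∈ range (2 ^ R), e x * ee (-(η * ((x : ℝ) / (2 ^ R : ℕ)))) =
        ∑ x ∈ range (2 ^ R), ee ((ξ - η : ℤ) * ((x : ℝ) / (2 ^ R : ℕ))) := by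
      apply Finset.sum_congr rfl
      intro x hx
      rw [he x (Finset.mem_range.1 hx), ← ee_add]
      congr 1; push_cast; ring
    rw [h1, grid_orth _ (by positivity)]
    have hiff : ((2 ^ R : ℕ) : ℤ) ∣ ξ - η ↔ η = ξ := by
      constructor
      · intro hdvd
        have h2 : |ξ - η| < ((2 ^ R : ℕ) : ℤ) := by
          simp only [bandF, mem_Ioo] at hη
          have h3 : (0 : ℤ) ≤ (ω : ℤ) * 2 ^ k := by positivity
          rw [abs_lt] at hξ ⊢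
          push_cast
          constructor <;> linarith [hη.1, hη.2, hξ.1, hξ.2]
        have := Int.eq_zero_of_abs_lt_dvd hdvd h2
        linarith
      · rintro rfl; simp
    by_cases h : η = ξ
    · rw [if_pos (hiff.2 h), if_pos h]
      have : ((2 ^ R : ℕ) : ℂ) ≠ 0 := Nat.cast_ne_zero.2 (by positivity)
      exact inv_mul_cancel₀ this
    · rw [if_neg (fun h' => h (hiff.1 h')), if_neg h, mul_zero]
  rw [Ph_eq hk]
  rw [Finset.sum_congr rfl (g := fun η => if η = ξ then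
    (tri (2 ^ (k - 1)) (ξ - ctr k ω) : ℂ) * ee (ξ * ((a : ℝ) / 2 ^ k)) else 0)]
  · rw [Finset.sum_ite_eq']
    split_ifs with h
    · rfl
    · rw [tri_eq_zero_of_not_mem hk h]; simp
  · intro η hη
    rw [hd η hη]
    by_cases h : η = ξ
    · subst h; simp
    · simp [h]

lemma KR_char {b R : ℕ} (hR : 2 ^ b + b + 2 ≤ R) (y : YT b) {ξ : ℤ} (hξ : |ξ| < 2 ^ (R - 1)) :
    ∑ x : Fin (2 ^ R), KR b R y x * ee (ξ * (((x : ℕ) : ℝ) / 2 ^ R)) =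
      (2 : ℂ) ^ b * ((tri (2 ^ (y.1 : ℕ)) (ξ - ctr ((y.1 : ℕ) + 1) (2 ^ b + (y.2.1 : ℕ))) : ℂ) *
        ee (ξ * (((y.2.2 : ℕ) : ℝ) / 2 ^ ((y.1 : ℕ) + 1)))) := by
  rw [KR_sum b R y (fun x => ee (ξ * (((x : ℕ) : ℝ) / 2 ^ R)))]
  have hR1 : 1 ≤ R := by have := Nat.two_pow_pos b; omega
  rw [Ph_char (by omega) ?_ hR1 hξ]
  · simp
  · intro x hx; simp [ext0, hx]
  · have h1 : ((2 ^ b + (y.2.1 : ℕ) : ℕ) : ℤ) + 1 ≤ 2 ^ (b + 1) := by
      have := y.2.1.isLt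
      have h3 : 2 ^ (b + 1) = 2 * 2 ^ b := by ring
      have h2 : 2 ^ b + (y.2.1 : ℕ) + 1 ≤ 2 ^ (b + 1) := by omega
      exact_mod_cast h2
    have h3 : (2 : ℤ) ^ ((y.1 : ℕ) + 1) ≤ 2 ^ (2 ^ b) := by
      apply pow_le_pow_right₀ (by norm_num)
      have := y.1.isLt; omega
    calc (((2 ^ b + (y.2.1 : ℕ) : ℕ) : ℤ) + 1) * 2 ^ ((y.1 : ℕ) + 1) ≤ 2 ^ (b + 1) * 2 ^ (2 ^ b) := by
          gcongr
      _ ≤ 2 ^ (R - 1) := by
          rw [← pow_add]; exact pow_le_pow_right₀ (by norm_num) (by omega)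

/-- one-dimensional multiplier of the operator at target `y` and frequency `ξ`. -/
def mulY {b : ℕ} (y : YT b) (ξ : ℤ) : ℂ :=
  (2 : ℂ) ^ b * ((tri (2 ^ (y.1 : ℕ)) (ξ - ctr ((y.1 : ℕ) + 1) (2 ^ b + (y.2.1 : ℕ))) : ℂ) *
        ee (ξ * (((y.2.2 : ℕ) : ℝ) / 2 ^ ((y.1 : ℕ) + 1))))

lemma Phi_char {D b R : ℕ} (hR : 2 ^ b + b + 2 ≤ R) (y : Fin D → YT b) (ξ : Fin (D + 1) → ℤ)
    (hξ : ∀ j, |ξ j| < 2 ^ (R - 1)) (x0 : Fin (2 ^ R)) :
    Phi b R y (chR R ξ) x0 = (∏ j, mulY (y j) (ξ j.succ)) * ee (ξ 0 * (((x0 : ℕ) : ℝ) / 2 ^ R)) := by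
  unfold Phi chR
  have h1 : ∀ x : Fin D → Fin (2 ^ R), (∏ j, KR b R (y j) (x j)) *
      ee (∑ j, (ξ j : ℝ) * ((((Fin.cons x0 x : Fin (D + 1) → Fin (2 ^ R)) j : ℕ) : ℝ) / 2 ^ R)) =
      (∏ j, (KR b R (y j) (x j) * ee ((ξ j.succ : ℝ) * (((x j : ℕ) : ℝ) / 2 ^ R)))) *
        ee (ξ 0 * (((x0 : ℕ) : ℝ) / 2 ^ R)) := by
    intro x
    rw [Fin.sum_univ_succ, ee_add, ee_sum, Finset.prod_mul_distrib]
    simp only [Fin.cons_zero, Fin.cons_succ]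
    ring
  simp_rw [h1]
  rw [← Finset.sum_mul]
  congr 1
  have := Finset.prod_univ_sum (fun _ : Fin D => (Finset.univ : Finset (Fin (2 ^ R))))
    (fun j x => KR b R (y j) x * ee ((ξ j.succ : ℝ) * (((x : ℕ) : ℝ) / 2 ^ R)))
  rw [Fintype.piFinset_univ] at this
  rw [← this]
  apply Finset.prod_congr rfl
  intro j _
  rw [KR_char hR (y j) (hξ _)]; rfl

lemma HH_char {D b L R : ℕ} (hR : 2 ^ b + b + 2 ≤ R) (hLR : L + 2 ≤ R) (hL : D * 2 ^ b + 1 ≤ L)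
    (y : Fin D → YT b) (a0 : ℕ) (ξ : Fin (D + 1) → ℤ) (hξ : ∀ j, |ξ j| < 2 ^ (R - 1)) :
    HH b L R y a0 (chR R ξ) = (∏ j, mulY (y j) (ξ j.succ)) *
      ((tri (2 ^ (ell L (fun j => (y j).1) - 1)) (ξ 0 - ctr (ell L (fun j => (y j).1)) 1) : ℂ) *
        ee (ξ 0 * ((a0 : ℝ) / 2 ^ (ell L (fun j => (y j).1))))) := by
  have hell : 1 ≤ ell L (fun j => (y j).1) := by
    unfold ell
    have : ∑ j : Fin D, (((y j).1 : ℕ) + 1) ≤ ∑ j : Fin D, 2 ^ b :=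
      Finset.sum_le_sum (fun j _ => (y j).1.isLt)
    simp at this
    simp only
    omega
  have hell2 : ell L (fun j => (y j).1) ≤ L := by unfold ell; omega
  unfold HH
  have h1 : ext0 (Phi b R y (chR R ξ)) = fun x => (∏ j, mulY (y j) (ξ j.succ)) *
      ext0 (fun x0 : Fin (2 ^ R) => ee (ξ 0 * (((x0 : ℕ) : ℝ) / 2 ^ R))) x := by
    funext x
    unfold ext0
    by_cases h : x < 2 ^ R
    · simp only [h, dif_pos, Phi_char hR y ξ hξ]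
    · simp [h]
  have h2 : ∀ (c : ℂ) (e : ℕ → ℂ) (k ω a : ℕ), Ph R k ω a (fun x => c * e x) = c * Ph R k ω a e := by
    intro c e k ω a
    unfold Ph
    simp only [Finset.mul_sum]
    apply Finset.sum_congr rfl; intro x _; ring
  rw [h1, h2]
  congr 1
  apply Ph_char hell ?_ (by omega) (hξ 0)
  · intro x hx; simp [ext0, hx]
  · calc (((1 : ℕ) : ℤ) + 1) * 2 ^ ell L (fun j => (y j).1) ≤ 2 * 2 ^ L := by
          have : (2 : ℤ) ^ ell L (fun j => (y j).1) ≤ 2 ^ L := pow_le_pow_right₀ (by norm_num) hell2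
          push_cast; linarith
      _ = 2 ^ (L + 1) := by rw [pow_succ]; ring
      _ ≤ 2 ^ (R - 1) := pow_le_pow_right₀ (by norm_num) (by omega)

end

end Pool.Agent.H72.MT
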