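import Pool.Agent.H72.MT.FunDefs

set_option autoImplicit false

namespace Pool.Agent.H72.MT

open Finset
open scoped BigOperators

noncomputable section

/-- one-dimensional orthogonality, with indices in `Fin (2 ^ n)`. -/
lemma orth_fin (n : ℕ) (p q : Fin (2 ^ n)) :
    ∑ a : Fin (2 ^ n), ee ((((q : ℕ) : ℝ) - ((p : ℕ) : ℝ)) * (((a : ℕ) : ℝ) / 2 ^ n)) =
      if p = q then (2 : ℂ) ^ n else 0 := by
  have h := grid_orth (2 ^ n) (by positivity) (((q : ℕ) : ℤ) - ((p : ℕ) : ℤ))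
  rw [Finset.sum_range] at h
  have h1 : ∀ a : Fin (2 ^ n), ee ((((((q : ℕ) : ℤ) - ((p : ℕ) : ℤ) : ℤ)) : ℝ) * (((a : ℕ) : ℝ) / ((2 ^ n : ℕ) : ℝ))) =
      ee ((((q : ℕ) : ℝ) - ((p : ℕ) : ℝ)) * (((a : ℕ) : ℝ) / 2 ^ n)) := by
    intro a; congr 1; push_cast; ring
  rw [Finset.sum_congr rfl (fun a _ => h1 a)] at h
  rw [h]
  by_cases hpq : p = q
  · subst hpq; simp
  · rw [if_neg, if_neg hpq]
    intro hd
    apply hpq
    have hp := p.2
    have hq := q.2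
    have h2 : |(((q : ℕ) : ℤ) - ((p : ℕ) : ℤ))| < ((2 ^ n : ℕ) : ℤ) := by
      rw [abs_lt]; constructor
      · have : ((p : ℕ) : ℤ) < ((2 ^ n : ℕ) : ℤ) := by exact_mod_cast hp
        omega
      · have : ((q : ℕ) : ℤ) < ((2 ^ n : ℕ) : ℤ) := by exact_mod_cast hq
        omega
    have h3 := Int.eq_zero_of_abs_lt_dvd hd h2
    apply Fin.ext; omega

lemma two_pow_split {D b : ℕ} (L : ℕ) (s : Fin D → Fin (2 ^ b))
    (hL : ∑ j, ((s j : ℕ) + 1) ≤ L) : 2 ^ ell L s * ∏ j, 2 ^ ((s j : ℕ) + 1) = 2 ^ L := by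
  rw [Finset.prod_pow_eq_pow_sum, ← pow_add]
  congr 1
  unfold ell
  omega

/-- Module G3 : the block DFT matrix is unitary. -/
theorem UU_unitary {D b : ℕ} (L : ℕ) (s : Fin D → Fin (2 ^ b))
    (hL : ∑ j, ((s j : ℕ) + 1) ≤ L) : (UU L s).conjTranspose * UU L s = 1 := by
  ext κ κ'
  rw [Matrix.mul_apply]
  have hs : (((Real.sqrt (2 ^ L))⁻¹ : ℝ) : ℂ) * (((Real.sqrt (2 ^ L))⁻¹ : ℝ) : ℂ) = ((2 : ℂ) ^ L)⁻¹ := by
    rw [← Complex.ofReal_mul, ← mul_inv, Real.mul_self_sqrt (by positivity)]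
    push_cast; rfl
  have h1 : ∀ a : Blk L s, (UU L s).conjTranspose κ a * UU L s a κ' =
      ((2 : ℂ) ^ L)⁻¹ * (ee ((((κ'.1 : ℕ) : ℝ) - ((κ.1 : ℕ) : ℝ)) * (((a.1 : ℕ) : ℝ) / 2 ^ ell L s)) *
        ∏ j, ee ((((κ'.2 j : ℕ) : ℝ) - ((κ.2 j : ℕ) : ℝ)) * (((a.2 j : ℕ) : ℝ) / 2 ^ ((s j : ℕ) + 1)))) := by
    intro a
    rw [Matrix.conjTranspose_apply]
    unfold UU
    rw [← ee_sum, ← ee_add, star_mul', RCLike.star_def, Complex.conj_ofReal,
      ← ee_neg_eq_conj, ← hs]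
    rw [mul_mul_mul_comm, ← ee_add]
    congr 2
    rw [show ∀ x y z w : ℝ, -(x + y) + (z + w) = (z - x) + (w - y) from fun x y z w => by ring,
      ← Finset.sum_sub_distrib]
    congr 1
    · ring
    · apply Finset.sum_congr rfl; intro j _; ring
  rw [Finset.sum_congr rfl (fun a _ => h1 a), ← Finset.mul_sum, Fintype.sum_prod_type]
  simp only
  rw [← Finset.sum_mul_sum, orth_fin,
    ← Fintype.prod_sum (fun j (x : Fin (2 ^ ((s j : ℕ) + 1))) =>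
      ee ((((κ'.2 j : ℕ) : ℝ) - ((κ.2 j : ℕ) : ℝ)) * (((x : ℕ) : ℝ) / 2 ^ ((s j : ℕ) + 1)))),
    Finset.prod_congr rfl (fun j _ => orth_fin ((s j : ℕ) + 1) (κ.2 j) (κ'.2 j))]
  have hsplit : (2 : ℂ) ^ ell L s * ∏ j, (2 : ℂ) ^ ((s j : ℕ) + 1) = 2 ^ L := by
    have := two_pow_split L s hL
    exact_mod_cast this
  by_cases h : κ = κ'
  · subst h
    simp only [if_true]
    rw [hsplit, Matrix.one_apply_eq, inv_mul_cancel₀ (pow_ne_zero _ two_ne_zero)]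
  · rw [Matrix.one_apply_ne h]
    by_cases h0 : κ.1 = κ'.1
    · have : ∃ j, κ.2 j ≠ κ'.2 j := by
        by_contra hne
        push Not at hne
        exact h (Prod.ext h0 (funext hne))
      obtain ⟨j, hj⟩ := this
      rw [Finset.prod_eq_zero (Finset.mem_univ j) (if_neg hj), mul_zero, mul_zero]
    · rw [if_neg h0, zero_mul, mul_zero]

theorem card_Blk {D b : ℕ} (L : ℕ) (s : Fin D → Fin (2 ^ b))
    (hL : ∑ j, ((s j : ℕ) + 1) ≤ L) : Fintype.card (Blk L s) = 2 ^ L := by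
  rw [Fintype.card_prod, Fintype.card_fin, Fintype.card_pi]
  simp only [Fintype.card_fin]
  exact two_pow_split L s hL

end

end Pool.Agent.H72.MT
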