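import Pool.Agent.H72.MT.Char
import Pool.Agent.H72.MT.Unit

set_option autoImplicit false

namespace Pool.Agent.H72.MT

open Finset
open scoped BigOperators

noncomputable section

lemma HH_kernel {D : ℕ} (b L R : ℕ) (y : Fin D → YT b) (a0 : ℕ) :
    ∃ K : (Fin (D + 1) → Fin (2 ^ R)) → ℂ, ∀ e : (Fin (D + 1) → Fin (2 ^ R)) → ℂ,
      HH b L R y a0 e = ∑ x, K x * e x := by
  refine ⟨fun x => ((2 : ℂ) ^ R)⁻¹ * ((∏ j, KR b R (y j) (x j.succ)) *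
    KK (ell L (fun j => (y j).1)) 1 ((a0 : ℝ) / 2 ^ (ell L (fun j => (y j).1)) -
      ((x 0 : ℕ) : ℝ) / 2 ^ R)), ?_⟩
  intro e
  unfold HH Ph
  rw [Finset.sum_range, sum_fin_succ_fun, Finset.mul_sum]
  apply Finset.sum_congr rfl; intro x0 _
  simp only [ext0, Fin.is_lt, dif_pos, Fin.eta, Phi, Fin.cons_zero, Fin.cons_succ]
  rw [Finset.sum_mul, Finset.mul_sum]
  apply Finset.sum_congr rfl; intro x _
  ring

/-- the half-open band. -/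
def inB (k ω : ℕ) (ξ : ℤ) : Prop := (ω : ℤ) * 2 ^ k ≤ ξ ∧ ξ < ((ω : ℤ) + 1) * 2 ^ k

lemma inB_unique {b : ℕ} {k ω k' ω' : ℕ} (hω : ω ∈ Ico (2 ^ b) (2 ^ (b + 1)))
    (hω' : ω' ∈ Ico (2 ^ b) (2 ^ (b + 1))) {ξ : ℤ} (h : inB k ω ξ) (h' : inB k' ω' ξ) :
    k = k' ∧ ω = ω' := by
  wlog hkk : k ≤ k' generalizing k k' ω ω'
  · have := this hω' hω h' h (by omega); exact ⟨this.1.symm, this.2.symm⟩
  simp only [inB, mem_Ico] at *
  rcases Nat.lt_or_ge k k' with hlt | hge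
  · exfalso
    have h1 : ((ω : ℤ) + 1) ≤ 2 ^ (b + 1) := by exact_mod_cast hω.2
    have h2 : ((2 : ℤ) ^ b) ≤ ω' := by exact_mod_cast hω'.1
    have h3 : ((ω : ℤ) + 1) * 2 ^ k ≤ 2 ^ (b + 1) * 2 ^ k := by gcongr
    have h4 : ((2 : ℤ) ^ b) * 2 ^ k' ≤ ω' * 2 ^ k' := by gcongr
    have h5 : (2 : ℤ) ^ (b + 1) * 2 ^ k ≤ 2 ^ b * 2 ^ k' := by
      rw [← pow_add, ← pow_add]; exact pow_le_pow_right₀ (by norm_num) (by omega)
    linarith [h.2, h'.1]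
  · have hk : k = k' := le_antisymm hkk hge
    subst hk
    refine ⟨rfl, ?_⟩
    have h2k : (0 : ℤ) < 2 ^ k := by positivity
    have a1 : (ω : ℤ) * 2 ^ k < ((ω' : ℤ) + 1) * 2 ^ k := lt_of_le_of_lt h.1 h'.2
    have a2 : (ω' : ℤ) * 2 ^ k < ((ω : ℤ) + 1) * 2 ^ k := lt_of_le_of_lt h'.1 h.2
    have b1 := lt_of_mul_lt_mul_right a1 h2k.le
    have b2 := lt_of_mul_lt_mul_right a2 h2k.le
    omega

lemma window_mem {b : ℕ} (w : Fin (2 ^ b)) : 2 ^ b + (w : ℕ) ∈ Ico (2 ^ b) (2 ^ (b + 1)) := by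
  have h := w.isLt
  have h2 : 2 ^ (b + 1) = 2 * 2 ^ b := by ring
  simp only [mem_Ico]; omega

lemma bandF_inB {k ω : ℕ} {ξ : ℤ} (h : ξ ∈ bandF k ω) : inB k ω ξ := by
  simp only [bandF, mem_Ioo] at h; exact ⟨h.1.le, h.2⟩

lemma freq_inB {D b : ℕ} (L : ℕ) (s w : Fin D → Fin (2 ^ b)) (κ : Blk L s) (j : Fin D) :
    inB ((s j : ℕ) + 1) (2 ^ b + (w j : ℕ)) (freq L s w κ j.succ) := by
  unfold freq inB
  rw [Fin.cons_succ]
  have h := (κ.2 j).isLt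
  have h1 : ((κ.2 j : ℕ) : ℤ) < 2 ^ ((s j : ℕ) + 1) := by exact_mod_cast h
  have h0 : (0 : ℤ) ≤ ((κ.2 j : ℕ) : ℤ) := by positivity
  constructor
  · linarith
  · rw [add_mul, one_mul]; linarith

lemma freq_inj {D b L : ℕ} {s w s' w' : Fin D → Fin (2 ^ b)} {κ : Blk L s} {κ' : Blk L s'}
    (h : freq L s w κ = freq L s' w' κ') : s = s' ∧ w = w' ∧ HEq κ κ' := by
  have hj : ∀ j, s j = s' j ∧ w j = w' j := by
    intro j
    have h1 := freq_inB L s w κ j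
    have h2 := freq_inB L s' w' κ' j
    rw [← h] at h2
    have h3 := inB_unique (window_mem (w j)) (window_mem (w' j)) h1 h2
    exact ⟨Fin.ext (by omega), Fin.ext (by omega)⟩
  have hs : s = s' := funext (fun j => (hj j).1)
  have hw : w = w' := funext (fun j => (hj j).2)
  subst hs hw
  refine ⟨rfl, rfl, heq_of_eq ?_⟩
  unfold freq at h
  have h0 := congrFun h 0
  simp only [Fin.cons_zero] at h0
  refine Prod.ext (Fin.ext (by omega)) (funext fun j => Fin.ext ?_)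
  have h1 := congrFun h j.succ
  simp only [Fin.cons_succ] at h1
  omega

lemma ell_add {D b L : ℕ} (s : Fin D → Fin (2 ^ b)) (hL : D * 2 ^ b + 1 ≤ L) :
    ∑ j, ((s j : ℕ) + 1) + 1 ≤ L ∧ 1 ≤ ell L s ∧ ell L s ≤ L := by
  have : ∑ j : Fin D, ((s j : ℕ) + 1) ≤ ∑ j : Fin D, 2 ^ b :=
    Finset.sum_le_sum (fun j _ => (s j).isLt)
  simp only [Finset.sum_const, Finset.card_univ, Fintype.card_fin, smul_eq_mul] at this
  unfold ell
  omega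

lemma freq_bound {D b L R : ℕ} (hR : 2 ^ b + b + 2 ≤ R) (hLR : L + 2 ≤ R) (hL : D * 2 ^ b + 1 ≤ L)
    (s w : Fin D → Fin (2 ^ b)) (κ : Blk L s) (j : Fin (D + 1)) : |freq L s w κ j| < 2 ^ (R - 1) := by
  refine Fin.cases ?_ (fun j => ?_) j
  · unfold freq
    rw [Fin.cons_zero]
    have h := κ.1.isLt
    have h1 : ((κ.1 : ℕ) : ℤ) < 2 ^ ell L s := by exact_mod_cast h
    have h0 : (0 : ℤ) ≤ ((κ.1 : ℕ) : ℤ) := by positivity
    have h2 : (2 : ℤ) ^ ell L s ≤ 2 ^ L := pow_le_pow_right₀ (by norm_num) (ell_add s hL).2.2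
    have h3 : (2 : ℤ) ^ (L + 1) ≤ 2 ^ (R - 1) := pow_le_pow_right₀ (by norm_num) (by omega)
    rw [abs_of_nonneg (by positivity)]
    rw [pow_succ] at h3
    linarith
  · have h := freq_inB L s w κ j
    unfold inB at h
    have h0 : (0 : ℤ) ≤ ((2 ^ b + (w j : ℕ) : ℕ) : ℤ) * 2 ^ ((s j : ℕ) + 1) := by positivity
    rw [abs_of_nonneg (by linarith [h.1])]
    refine lt_of_lt_of_le h.2 ?_
    have h1 : ((2 ^ b + (w j : ℕ) : ℕ) : ℤ) + 1 ≤ 2 ^ (b + 1) := by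
      have := (mem_Ico.1 (window_mem (w j))).2
      exact_mod_cast this
    have h3 : (2 : ℤ) ^ ((s j : ℕ) + 1) ≤ 2 ^ (2 ^ b) :=
      pow_le_pow_right₀ (by norm_num) (s j).isLt
    calc (((2 ^ b + (w j : ℕ) : ℕ) : ℤ) + 1) * 2 ^ ((s j : ℕ) + 1) ≤ 2 ^ (b + 1) * 2 ^ (2 ^ b) := by
          gcongr
      _ ≤ 2 ^ (R - 1) := by
          rw [← pow_add]; exact pow_le_pow_right₀ (by norm_num) (by omega)

/-- target with prescribed scale, window and sample point. -/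
def mkY {D b L : ℕ} (s w : Fin D → Fin (2 ^ b)) (a : Blk L s) (j : Fin D) : YT b := ⟨s j, (w j, a.2 j)⟩

lemma mulY_zero {b : ℕ} (y : YT b) {ξ : ℤ} (h : ξ ∉ bandF ((y.1 : ℕ) + 1) (2 ^ b + (y.2.1 : ℕ))) :
    mulY y ξ = 0 := by
  unfold mulY
  have := tri_eq_zero_of_not_mem (k := (y.1 : ℕ) + 1) (by omega) h
  simp only [Nat.add_sub_cancel] at this
  rw [this]; simp

lemma HH_freq_ne {D b L R : ℕ} (hR : 2 ^ b + b + 2 ≤ R) (hLR : L + 2 ≤ R) (hL : D * 2 ^ b + 1 ≤ L)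
    (s w s' w' : Fin D → Fin (2 ^ b)) (hne : ¬ (s = s' ∧ w = w')) (a : Blk L s) (κ : Blk L s') :
    HH b L R (mkY s w a) (a.1 : ℕ) (chR R (freq L s' w' κ)) = 0 := by
  rw [HH_char hR hLR hL _ _ _ (freq_bound hR hLR hL s' w' κ)]
  have : ∃ j, ¬ (s j = s' j ∧ w j = w' j) := by
    by_contra hcon
    push Not at hcon
    exact hne ⟨funext fun j => (hcon j).1, funext fun j => (hcon j).2⟩
  obtain ⟨j, hj⟩ := this
  have h0 : mulY (mkY s w a j) (freq L s' w' κ j.succ) = 0 := by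
    apply mulY_zero
    intro hmem
    have h1 := bandF_inB hmem
    have h2 := freq_inB L s' w' κ j
    simp only [mkY] at h1
    have h3 := inB_unique (window_mem (w j)) (window_mem (w' j)) h1 h2
    exact hj ⟨Fin.ext (by omega), Fin.ext (by omega)⟩
  rw [Finset.prod_eq_zero (Finset.mem_univ j) h0, zero_mul]

lemma HH_freq_same {D b L R : ℕ} (hR : 2 ^ b + b + 2 ≤ R) (hLR : L + 2 ≤ R) (hL : D * 2 ^ b + 1 ≤ L)
    (s w : Fin D → Fin (2 ^ b)) (a κ : Blk L s) :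
    HH b L R (mkY s w a) (a.1 : ℕ) (chR R (freq L s w κ)) =
      (((2 : ℝ) ^ b) ^ D * DD L s κ * Real.sqrt (2 ^ L) : ℝ) * UU L s a κ := by
  rw [HH_char hR hLR hL _ _ _ (freq_bound hR hLR hL s w κ)]
  have hj : ∀ j, mulY (mkY s w a j) (freq L s w κ j.succ) =
      ((2 : ℂ) ^ b) * ((del ((s j : ℕ) + 1) (κ.2 j) : ℂ) *
        ee (((κ.2 j : ℕ) : ℝ) * (((a.2 j : ℕ) : ℝ) / 2 ^ ((s j : ℕ) + 1)))) := by
    intro j
    unfold mulY mkY freq del ctr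
    rw [Fin.cons_succ]
    simp only [Nat.add_sub_cancel]
    rw [show ((κ.2 j : ℕ) : ℤ) + ((2 ^ b + (w j : ℕ) : ℕ) : ℤ) * 2 ^ ((s j : ℕ) + 1) -
      (((2 ^ b + (w j : ℕ) : ℕ) : ℤ) * 2 ^ ((s j : ℕ) + 1) + 2 ^ (s j : ℕ)) =
      ((κ.2 j : ℕ) : ℤ) - 2 ^ (s j : ℕ) by ring]
    congr 2
    rw [show (((((κ.2 j : ℕ) : ℤ) + ((2 ^ b + (w j : ℕ) : ℕ) : ℤ) * 2 ^ ((s j : ℕ) + 1) : ℤ) : ℝ) *
      (((a.2 j : ℕ) : ℝ) / 2 ^ ((s j : ℕ) + 1))) =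
      ((κ.2 j : ℕ) : ℝ) * (((a.2 j : ℕ) : ℝ) / 2 ^ ((s j : ℕ) + 1)) +
        (((2 ^ b + (w j : ℕ)) * (a.2 j : ℕ) : ℕ) : ℝ) by
      push_cast; field_simp, ee_add, ee_nat, mul_one]
  have h0 : (tri (2 ^ (ell L s - 1)) (freq L s w κ 0 - ctr (ell L s) 1) : ℂ) *
        ee (freq L s w κ 0 * (((a.1 : ℕ) : ℝ) / 2 ^ (ell L s))) =
      (del (ell L s) κ.1 : ℂ) * ee (((κ.1 : ℕ) : ℝ) * (((a.1 : ℕ) : ℝ) / 2 ^ (ell L s))) := by
    unfold freq del ctr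
    rw [Fin.cons_zero]
    rw [show ((κ.1 : ℕ) : ℤ) + 2 ^ ell L s - (((1 : ℕ) : ℤ) * 2 ^ ell L s + 2 ^ (ell L s - 1)) =
      ((κ.1 : ℕ) : ℤ) - 2 ^ (ell L s - 1) by push_cast; ring]
    congr 1
    rw [show (((((κ.1 : ℕ) : ℤ) + 2 ^ ell L s : ℤ) : ℝ) * (((a.1 : ℕ) : ℝ) / 2 ^ (ell L s))) =
      ((κ.1 : ℕ) : ℝ) * (((a.1 : ℕ) : ℝ) / 2 ^ (ell L s)) + ((a.1 : ℕ) : ℝ) by
      push_cast; field_simp, ee_add, ee_nat, mul_one]
  have hmk : ell L (fun j => (mkY s w a j).1) = ell L s := rfl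
  rw [hmk, h0, Finset.prod_congr rfl (fun j _ => hj j)]
  simp only [Finset.prod_mul_distrib, Finset.prod_const, Finset.card_univ, Fintype.card_fin]
  unfold UU DD
  rw [ee_add, ee_sum]
  have hs : (Real.sqrt (2 ^ L) : ℝ) ≠ 0 := by positivity
  have hsc : ((Real.sqrt (2 ^ L) : ℝ) : ℂ) ≠ 0 := by exact_mod_cast hs
  push_cast
  field_simp

/-- characters outside the band are killed. -/
lemma HH_char_zero {D b L R : ℕ} (hR : 2 ^ b + b + 2 ≤ R) (hLR : L + 2 ≤ R) (hL : D * 2 ^ b + 1 ≤ L)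
    (s w : Fin D → Fin (2 ^ b)) (a : Blk L s) (ξ : Fin (D + 1) → ℤ) (hξ : ∀ j, |ξ j| < 2 ^ (R - 1))
    (hne : ∀ κ : Blk L s, freq L s w κ ≠ ξ) :
    HH b L R (mkY s w a) (a.1 : ℕ) (chR R ξ) = 0 := by
  rw [HH_char hR hLR hL _ _ _ hξ]
  by_contra hcon
  have hmk : ell L (fun j => (mkY s w a j).1) = ell L s := rfl
  rw [hmk] at hcon
  have h1 := left_ne_zero_of_mul hcon
  have h2 := left_ne_zero_of_mul (right_ne_zero_of_mul hcon)
  have hj : ∀ j, ξ (Fin.succ j) ∈ bandF ((s j : ℕ) + 1) (2 ^ b + (w j : ℕ)) := by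
    intro j
    by_contra hj
    exact h1 (Finset.prod_eq_zero (Finset.mem_univ j) (mulY_zero (mkY s w a j) hj))
  have h0 : ξ 0 ∈ bandF (ell L s) 1 := by
    by_contra h0
    apply h2
    rw [tri_eq_zero_of_not_mem (ell_add s hL).2.1 h0]; simp
  have hj' := fun j => bandF_inB (hj j)
  have h0' := bandF_inB h0
  unfold inB at hj' h0'
  have e0 : (0 : ℤ) ≤ ξ 0 - 2 ^ ell L s ∧ ξ 0 - 2 ^ ell L s < 2 ^ ell L s := by
    push_cast at h0'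
    constructor
    · linarith [h0'.1]
    · linarith [h0'.2]
  have ej : ∀ j : Fin D, (0 : ℤ) ≤ ξ j.succ - ((2 ^ b + (w j : ℕ) : ℕ) : ℤ) * 2 ^ ((s j : ℕ) + 1) ∧
      ξ j.succ - ((2 ^ b + (w j : ℕ) : ℕ) : ℤ) * 2 ^ ((s j : ℕ) + 1) < 2 ^ ((s j : ℕ) + 1) := by
    intro j
    have := hj' j
    rw [add_mul, one_mul] at this
    constructor
    · linarith [this.1]
    · linarith [this.2]
  refine hne (⟨⟨(ξ 0 - 2 ^ ell L s).toNat, ?_⟩,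
    fun j => ⟨(ξ j.succ - ((2 ^ b + (w j : ℕ) : ℕ) : ℤ) * 2 ^ ((s j : ℕ) + 1)).toNat, ?_⟩⟩ : Blk L s) ?_
  · have := e0.2
    zify
    rw [Int.toNat_of_nonneg e0.1]; exact e0.2
  · have h3 := Int.toNat_of_nonneg (ej j).1
    have h4 := (ej j).2
    rw [← h3] at h4
    exact_mod_cast h4
  · funext i
    refine Fin.cases ?_ (fun j => ?_) i
    · unfold freq
      rw [Fin.cons_zero]
      simp only
      rw [Int.toNat_of_nonneg e0.1]; ring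
    · unfold freq
      rw [Fin.cons_succ]
      simp only
      rw [Int.toNat_of_nonneg (ej j).1]; ring

end

end Pool.Agent.H72.MT
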