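import Pool.Agent.H72.MT.Defs

set_option autoImplicit false

namespace Pool.Agent.H72.MT

open Finset
open scoped BigOperators ENNReal

noncomputable section

/-- multi-indices with `|s|_1 < n` -/
def hyp (d n : ℕ) : Finset (Fin d → ℕ) := {s ∈ Fintype.piFinset (fun _ : Fin d => range n) | ∑ j, s j < n}

lemma mem_hyp {d n : ℕ} (_hn : 1 ≤ n) (s : Fin d → ℕ) : s ∈ hyp d n ↔ ∑ j, s j < n := by
  unfold hyp
  rw [Finset.mem_filter, Fintype.mem_piFinset]
  constructor
  · exact fun h => h.2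
  · intro h
    refine ⟨fun j => ?_, h⟩
    rw [Finset.mem_range]
    exact lt_of_le_of_lt (Finset.single_le_sum (f := s) (fun i _ => Nat.zero_le _) (Finset.mem_univ j)) h

lemma card_blk_le (s : ℕ) : (blk s).card ≤ 2 ^ (s + 1) := by
  unfold blk
  refine (Finset.card_filter_le _ _).trans ?_
  rw [Int.card_Ioo]
  have h : (((2 : ℤ) ^ s - -(2 ^ s) - 1).toNat) ≤ 2 ^ (s + 1) := by
    have h2 : ((2 : ℤ) ^ s - -(2 ^ s) - 1) ≤ ((2 ^ (s + 1) : ℕ) : ℤ) := by
      push_cast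
      rw [pow_succ]; linarith
    exact Int.toNat_le.2 h2
  exact h

lemma card_rho_le {d : ℕ} (s : Fin d → ℕ) : (rho s).card ≤ 2 ^ d * 2 ^ (∑ j, s j) := by
  unfold rho
  rw [Fintype.card_piFinset]
  calc ∏ j, (blk (s j)).card ≤ ∏ j : Fin d, 2 ^ (s j + 1) :=
        Finset.prod_le_prod' (fun j _ => card_blk_le (s j))
    _ = 2 ^ d * 2 ^ (∑ j, s j) := by
        rw [← Finset.prod_pow_eq_pow_sum]
        simp only [pow_succ]
        rw [Finset.prod_mul_distrib]
        simp [mul_comm]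

lemma card_layer_le (D n k : ℕ) :
    #{s ∈ Fintype.piFinset (fun _ : Fin (D + 1) => range n) | ∑ j, s j = k} ≤ n ^ D := by
  have h : n ^ D = #(Fintype.piFinset (fun _ : Fin D => range n)) := by
    rw [Fintype.card_piFinset]; simp
  rw [h]
  refine Finset.card_le_card_of_injOn (fun s => Fin.tail s) ?_ ?_
  · intro s hs
    simp only [Finset.coe_filter, Set.mem_ofPred_eq, Fintype.mem_piFinset] at hs
    simp only [Finset.mem_coe, Fintype.mem_piFinset]
    intro j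
    exact hs.1 j.succ
  · intro s hs t ht hst
    simp only [Finset.coe_filter, Set.mem_ofPred_eq, Fintype.mem_piFinset] at hs ht
    have h1 := hs.2
    have h2 := ht.2
    rw [Fin.sum_univ_succ] at h1 h2
    have h3 : ∀ j : Fin D, s j.succ = t j.succ := fun j => congrFun hst j
    have h4 : ∑ j : Fin D, s j.succ = ∑ j : Fin D, t j.succ := Finset.sum_congr rfl (fun j _ => h3 j)
    funext j
    refine Fin.cases ?_ (fun i => h3 i) j
    omega

/-- Module L2a: number of frequencies of the hyperbolic cross. -/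
theorem card_hyp (d : ℕ) (hd : 1 ≤ d) : ∃ C : ℝ, 0 < C ∧ ∀ n : ℕ, 1 ≤ n →
    (((hyp d n).biUnion (fun s => rho s)).card : ℝ) ≤ C * 2 ^ n * (n : ℝ) ^ (d - 1) := by
  obtain ⟨D, rfl⟩ : ∃ D, d = D + 1 := ⟨d - 1, by omega⟩
  refine ⟨2 ^ (D + 1), by positivity, fun n hn => ?_⟩
  have key : ((hyp (D + 1) n).biUnion (fun s => rho s)).card ≤ 2 ^ (D + 1) * 2 ^ n * n ^ D := by
    calc ((hyp (D + 1) n).biUnion (fun s => rho s)).card
        ≤ ∑ s ∈ hyp (D + 1) n, (rho s).card := Finset.card_biUnion_le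
      _ ≤ ∑ s ∈ hyp (D + 1) n, 2 ^ (D + 1) * 2 ^ (∑ j, s j) :=
          Finset.sum_le_sum (fun s _ => card_rho_le s)
      _ = 2 ^ (D + 1) * ∑ s ∈ hyp (D + 1) n, 2 ^ (∑ j, s j) := by rw [Finset.mul_sum]
      _ = 2 ^ (D + 1) * ∑ k ∈ range n, ∑ s ∈ hyp (D + 1) n with ∑ j, s j = k, 2 ^ (∑ j, s j) := by
          rw [Finset.sum_fiberwise_of_maps_to]
          intro s hs
          rw [Finset.mem_range]
          exact (mem_hyp hn s).1 hs
      _ ≤ 2 ^ (D + 1) * ∑ k ∈ range n, n ^ D * 2 ^ k := by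
          refine Nat.mul_le_mul_left _ (Finset.sum_le_sum (fun k _ => ?_))
          have h1 : ∀ s ∈ (hyp (D + 1) n).filter (fun s => ∑ j, s j = k),
              2 ^ (∑ j, s j) = 2 ^ k := by
            intro s hs
            rw [(Finset.mem_filter.1 hs).2]
          rw [Finset.sum_congr rfl h1, Finset.sum_const, smul_eq_mul]
          refine Nat.mul_le_mul_right _ (le_trans (Finset.card_le_card ?_) (card_layer_le D n k))
          intro s hs
          rw [Finset.mem_filter] at hs ⊢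
          unfold hyp at hs
          exact ⟨(Finset.mem_filter.1 hs.1).1, hs.2⟩
      _ = 2 ^ (D + 1) * (n ^ D * ∑ k ∈ range n, 2 ^ k) := by rw [← Finset.mul_sum]
      _ ≤ 2 ^ (D + 1) * (n ^ D * 2 ^ n) := by
          refine Nat.mul_le_mul_left _ (Nat.mul_le_mul_left _ ?_)
          have := Nat.geomSum_eq (m := 2) (le_refl 2) n
          rw [this]
          simp
      _ = 2 ^ (D + 1) * 2 ^ n * n ^ D := by ring
  have key2 : (((hyp (D + 1) n).biUnion (fun s => rho s)).card : ℝ) ≤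
      ((2 ^ (D + 1) * 2 ^ n * n ^ D : ℕ) : ℝ) := by exact_mod_cast key
  refine key2.trans (le_of_eq ?_)
  push_cast
  simp

/-- Module L2b: tail sums over hyperbolic layers. -/
theorem tail_sum (d : ℕ) (hd : 1 ≤ d) (γ : ℝ) (hγ : 0 < γ) : ∃ C : ℝ, 0 < C ∧ ∀ n : ℕ, 1 ≤ n →
    ∑' s : {s : Fin d → ℕ // s ∉ hyp d n}, ENNReal.ofReal ((2 : ℝ) ^ (-(γ * ∑ j, ((s : Fin d → ℕ) j : ℝ)))) ≤
      ENNReal.ofReal (C * (2 : ℝ) ^ (-(γ * n)) * (n : ℝ) ^ (d - 1)) := by
  obtain ⟨D, rfl⟩ : ∃ D, d = D + 1 := ⟨d - 1, by omega⟩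
  simp only [Nat.add_sub_cancel]
  set r : ℝ := (2 : ℝ) ^ (-γ) with hr
  have hr0 : 0 < r := by positivity
  have hr1 : r < 1 := by
    rw [hr]
    exact Real.rpow_lt_one_of_one_lt_of_neg (by norm_num) (by linarith)
  have hpow : ∀ m : ℕ, (2 : ℝ) ^ (-(γ * m)) = r ^ m := by
    intro m
    rw [hr, ← Real.rpow_natCast, ← Real.rpow_mul (by norm_num)]
    congr 1; ring
  set a : ℕ → ℝ := fun i => ((i : ℝ) + 2) ^ D * r ^ i with ha
  have hsum : Summable a := by
    have h1 : Summable (fun i : ℕ => (i : ℝ) ^ D * r ^ i) := by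
      refine summable_pow_mul_geometric_of_norm_lt_one D ?_
      rw [Real.norm_eq_abs, abs_of_pos hr0]; exact hr1
    have h2 := (summable_nat_add_iff 2).2 h1
    have h3 := h2.mul_right ((r ^ 2)⁻¹)
    refine h3.congr (fun i => ?_)
    simp only [ha]
    push_cast
    field_simp
    ring
  have ha0 : ∀ i, 0 < a i := fun i => by simp only [ha]; positivity
  refine ⟨∑' i, a i, hsum.tsum_pos (fun i => (ha0 i).le) 0 (ha0 0), fun n hn => ?_⟩
  -- the injection
  let φ : {s : Fin (D + 1) → ℕ // s ∉ hyp (D + 1) n} → (Σ i : ℕ, (Fin D → Fin (n + i + 1))) :=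
    fun s => ⟨∑ j, (s : Fin (D + 1) → ℕ) j - n, fun j => ⟨(s : Fin (D + 1) → ℕ) j.succ, by
      have h1 : ¬ (∑ j, (s : Fin (D + 1) → ℕ) j < n) := fun h => s.2 ((mem_hyp hn _).2 h)
      have h2 : (s : Fin (D + 1) → ℕ) j.succ ≤ ∑ j, (s : Fin (D + 1) → ℕ) j :=
        Finset.single_le_sum (f := (s : Fin (D + 1) → ℕ)) (fun i _ => Nat.zero_le _) (Finset.mem_univ j.succ)
      omega⟩⟩
  have hge : ∀ s : {s : Fin (D + 1) → ℕ // s ∉ hyp (D + 1) n}, n ≤ ∑ j, (s : Fin (D + 1) → ℕ) j :=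
    fun s => not_lt.1 (fun h => s.2 ((mem_hyp hn _).2 h))
  have hφ : Function.Injective φ := by
    intro s t hst
    have h1 : ∑ j, (s : Fin (D + 1) → ℕ) j - n = ∑ j, (t : Fin (D + 1) → ℕ) j - n :=
      congrArg Sigma.fst hst
    have h2 : ∀ j : Fin D, (s : Fin (D + 1) → ℕ) j.succ = (t : Fin (D + 1) → ℕ) j.succ := by
      intro j
      have h3 : ∀ (p q : Σ i : ℕ, (Fin D → Fin (n + i + 1))), p = q → ((p.2 j : Fin _) : ℕ) = ((q.2 j : Fin _) : ℕ) := by
        rintro p q rfl; rfl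
      exact h3 _ _ hst
    have h4 := hge s
    have h5 := hge t
    have h6 : ∑ j, (s : Fin (D + 1) → ℕ) j = ∑ j, (t : Fin (D + 1) → ℕ) j := by omega
    rw [Fin.sum_univ_succ, Fin.sum_univ_succ, Finset.sum_congr rfl (fun j _ => h2 j)] at h6
    apply Subtype.ext
    funext j
    refine Fin.cases ?_ (fun i => h2 i) j
    omega
  let g : (Σ i : ℕ, (Fin D → Fin (n + i + 1))) → ℝ≥0∞ := fun p => ENNReal.ofReal (r ^ (n + p.1))
  have hfg : ∀ s : {s : Fin (D + 1) → ℕ // s ∉ hyp (D + 1) n},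
      ENNReal.ofReal ((2 : ℝ) ^ (-(γ * ∑ j, ((s : Fin (D + 1) → ℕ) j : ℝ)))) = g (φ s) := by
    intro s
    simp only [g, φ]
    congr 1
    have h1 : n + (∑ j, (s : Fin (D + 1) → ℕ) j - n) = ∑ j, (s : Fin (D + 1) → ℕ) j := by
      have := hge s; omega
    rw [h1, ← hpow]
    push_cast
    rfl
  calc ∑' s : {s : Fin (D + 1) → ℕ // s ∉ hyp (D + 1) n},
        ENNReal.ofReal ((2 : ℝ) ^ (-(γ * ∑ j, ((s : Fin (D + 1) → ℕ) j : ℝ))))
      = ∑' s, g (φ s) := tsum_congr hfg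
    _ ≤ ∑' p, g p := ENNReal.tsum_comp_le_tsum_of_injective hφ g
    _ = ∑' i : ℕ, ∑' t : Fin D → Fin (n + i + 1), ENNReal.ofReal (r ^ (n + i)) := by
        rw [ENNReal.tsum_sigma']
    _ = ∑' i : ℕ, ENNReal.ofReal (((n + i + 1 : ℕ) : ℝ) ^ D * r ^ (n + i)) := by
        refine tsum_congr (fun i => ?_)
        rw [tsum_fintype, Finset.sum_const, Finset.card_univ, nsmul_eq_mul,
          ENNReal.ofReal_mul (by positivity)]
        congr 1
        rw [Fintype.card_fun, Fintype.card_fin, Fintype.card_fin, ENNReal.ofReal_pow (by positivity),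
          ENNReal.ofReal_natCast]
        push_cast
        rfl
    _ ≤ ∑' i : ℕ, ENNReal.ofReal ((n : ℝ) ^ D * r ^ n * a i) := by
        refine ENNReal.tsum_le_tsum (fun i => ENNReal.ofReal_le_ofReal ?_)
        simp only [ha]
        have hn' : (1 : ℝ) ≤ n := by exact_mod_cast hn
        have h1 : ((n + i + 1 : ℕ) : ℝ) ≤ n * ((i : ℝ) + 2) := by
          push_cast
          have : (0 : ℝ) ≤ i := Nat.cast_nonneg i
          nlinarith
        calc ((n + i + 1 : ℕ) : ℝ) ^ D * r ^ (n + i) ≤ (n * ((i : ℝ) + 2)) ^ D * r ^ (n + i) :=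
              mul_le_mul_of_nonneg_right (pow_le_pow_left₀ (by positivity) h1 D) (by positivity)
          _ = (n : ℝ) ^ D * r ^ n * (((i : ℝ) + 2) ^ D * r ^ i) := by
              rw [mul_pow, pow_add]; ring
    _ = ENNReal.ofReal (∑' i, (n : ℝ) ^ D * r ^ n * a i) := by
        rw [ENNReal.ofReal_tsum_of_nonneg (fun i => by have := ha0 i; positivity) (hsum.mul_left _)]
    _ = ENNReal.ofReal ((∑' i, a i) * (2 : ℝ) ^ (-(γ * n)) * (n : ℝ) ^ D) := by
        rw [tsum_mul_left, hpow]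
        congr 1; ring

end

end Pool.Agent.H72.MT
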