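import Mathlib

set_option autoImplicit false

/-! Definitions for the final statements of MP_c90581_an.

`𝕋^d` is `UnitAddTorus (Fin d) = (ℝ/ℤ)^d` with normalised Haar measure `haarT d`;
the characters are `UnitAddTorus.mFourier k`, `k ∈ ℤ^d`. -/

namespace Pool.Agent.H72.MT

open MeasureTheory
open scoped BigOperators ENNReal

noncomputable section

/-- normalised Haar measure on the torus `(ℝ/ℤ)^d` -/
abbrev haarT (d : ℕ) : Measure (UnitAddTorus (Fin d)) :=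
  Measure.pi (fun _ : Fin d => (AddCircle.haarAddCircle : Measure UnitAddCircle))

/-- one-dimensional dyadic block `⌊2^{s-1}⌋ ≤ |k| < 2^s`. -/
def blk (s : ℕ) : Finset ℤ := {k ∈ Finset.Ioo (-(2 ^ s : ℤ)) (2 ^ s) | ((2 ^ s / 2 : ℕ) : ℤ) ≤ |k|}

/-- `ρ(s) = {k ∈ ℤ^d : ⌊2^{s_j-1}⌋ ≤ |k_j| < 2^{s_j}}`. -/
def rho {d : ℕ} (s : Fin d → ℕ) : Finset (Fin d → ℤ) := Fintype.piFinset (fun j => blk (s j))

/-- Fourier coefficient -/
def fc {d : ℕ} (f : UnitAddTorus (Fin d) → ℂ) (k : Fin d → ℤ) : ℂ :=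
  ∫ x, UnitAddTorus.mFourier (-k) x * f x ∂(haarT d)

/-- dyadic block `δ_s(f)` of `f` -/
def delta {d : ℕ} (s : Fin d → ℕ) (f : UnitAddTorus (Fin d) → ℂ) (x : UnitAddTorus (Fin d)) : ℂ :=
  ∑ k ∈ rho s, fc f k * UnitAddTorus.mFourier k x

/-- the `L_p` norm, as an extended nonnegative real -/
def nrm {d : ℕ} (p : ℝ) (f : UnitAddTorus (Fin d) → ℂ) : ℝ≥0∞ :=
  eLpNorm f (ENNReal.ofReal p) (haarT d)

/-- unit ball `H_q^r` of the Nikol'skii class -/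
def classH (d : ℕ) (q r : ℝ) : Set (UnitAddTorus (Fin d) → ℂ) :=
  {f | MemLp f (ENNReal.ofReal q) (haarT d) ∧
    ∀ s : Fin d → ℕ, ENNReal.ofReal ((2 : ℝ) ^ (r * ∑ j, (s j : ℝ))) * nrm q (delta s f) ≤ 1}

/-- unit ball `B_{q,θ}^r` of the Besov class, `1 ≤ θ < ∞` -/
def classB (d : ℕ) (q θ r : ℝ) : Set (UnitAddTorus (Fin d) → ℂ) :=
  {f | MemLp f (ENNReal.ofReal q) (haarT d) ∧
    ∑' s : Fin d → ℕ, (ENNReal.ofReal ((2 : ℝ) ^ (r * ∑ j, (s j : ℝ))) * nrm q (delta s f)) ^ θ ≤ 1}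

/-- best `m`-term trigonometric approximation of `f` in `L_p` -/
def sigmaF {d : ℕ} (m : ℕ) (p : ℝ) (f : UnitAddTorus (Fin d) → ℂ) : ℝ≥0∞ :=
  ⨅ (k : Fin m → (Fin d → ℤ)) (c : Fin m → ℂ),
    nrm p (fun x => f x - ∑ j, c j * UnitAddTorus.mFourier (k j) x)

/-- best `m`-term approximation of a class -/
def sigmaC {d : ℕ} (m : ℕ) (p : ℝ) (F : Set (UnitAddTorus (Fin d) → ℂ)) : ℝ≥0∞ :=
  ⨆ f ∈ F, sigmaF m p f

end

end Pool.Agent.H72.MT
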