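import Pool.Agent.H72.MT.FunDefs

set_option autoImplicit false

namespace Pool.Agent.H72.MT

open Finset
open scoped BigOperators

noncomputable section

private lemma del_nonneg (k κ : ℕ) : 0 ≤ del k κ := tri_nonneg _ _
private lemma del_le_one (k κ : ℕ) : del k κ ≤ 1 := tri_le_one _ _

private lemma del_ge {a k κ : ℕ} (hk : a + 1 ≤ k) (h1 : 2 ^ (k - 1 - a) ≤ κ)
    (h2 : κ + 2 ^ (k - 1 - a) ≤ 2 ^ k) : ((2 : ℝ) ^ a)⁻¹ ≤ del k κ := by
  unfold del tri
  apply le_max_of_le_right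
  obtain ⟨c, rfl⟩ : ∃ c, k = c + a + 1 := ⟨k - a - 1, by omega⟩
  have e1 : c + a + 1 - 1 - a = c := by omega
  have e2 : c + a + 1 - 1 = c + a := by omega
  rw [e1] at h1 h2
  rw [e2]
  have h1' : (2 : ℝ) ^ c ≤ κ := by exact_mod_cast h1
  have h2' : (κ : ℝ) + 2 ^ c ≤ 2 ^ (c + a + 1) := by exact_mod_cast h2
  have hp : (2 : ℝ) ^ (c + a + 1) = 2 * (2 ^ c * 2 ^ a) := by rw [pow_succ, pow_add]; ring
  rw [hp] at h2'
  have hc : (0 : ℝ) < 2 ^ c := by positivity
  have ha : (0 : ℝ) < 2 ^ a := by positivity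
  push_cast
  rw [pow_add]
  have key : |(κ : ℝ) - 2 ^ c * 2 ^ a| ≤ 2 ^ c * 2 ^ a - 2 ^ c := by
    rw [abs_le]
    constructor
    · linarith
    · linarith
  have : |(κ : ℝ) - 2 ^ c * 2 ^ a| / (2 ^ c * 2 ^ a) ≤ 1 - (2 ^ a)⁻¹ := by
    rw [div_le_iff₀ (by positivity)]
    have : (1 - ((2 : ℝ) ^ a)⁻¹) * (2 ^ c * 2 ^ a) = 2 ^ c * 2 ^ a - 2 ^ c := by
      field_simp
    rw [this]; exact key
  linarith

private lemma card_bad {a k : ℕ} (hk : a + 1 ≤ k) :
    2 ^ a * #{κ : Fin (2 ^ k) | del k κ < ((2 : ℝ) ^ a)⁻¹} ≤ 2 ^ k := by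
  obtain ⟨c, rfl⟩ : ∃ c, k = c + a + 1 := ⟨k - a - 1, by omega⟩
  set B : Finset (Fin (2 ^ (c + a + 1))) :=
    {κ : Fin (2 ^ (c + a + 1)) | del (c + a + 1) κ < ((2 : ℝ) ^ a)⁻¹} with hB
  have hsub : B.map ⟨Fin.val, Fin.val_injective⟩ ⊆
      range (2 ^ c) ∪ Ico (2 ^ (c + a + 1) - 2 ^ c + 1) (2 ^ (c + a + 1)) := by
    intro n hn
    rw [Finset.mem_map] at hn
    obtain ⟨κ, hκ, rfl⟩ := hn
    rw [hB, Finset.mem_filter] at hκ
    simp only [Function.Embedding.coeFn_mk, mem_union, mem_range, mem_Ico]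
    by_contra hcon
    push Not at hcon
    have h1 : 2 ^ c ≤ (κ : ℕ) := hcon.1
    have h2 : (κ : ℕ) + 2 ^ c ≤ 2 ^ (c + a + 1) := by
      by_contra h3
      have h4 := hcon.2 (by omega)
      have := κ.2
      omega
    have e1 : c + a + 1 - 1 - a = c := by omega
    have := del_ge (a := a) (k := c + a + 1) (κ := (κ : ℕ)) (by omega)
      (by rw [e1]; exact h1) (by rw [e1]; exact h2)
    exact absurd hκ.2 (not_lt.mpr this)
  have hcard : #B ≤ 2 ^ c + (2 ^ c - 1) := by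
    rw [← Finset.card_map (⟨Fin.val, Fin.val_injective⟩ : Fin (2 ^ (c + a + 1)) ↪ ℕ)]
    refine (Finset.card_le_card hsub).trans ((Finset.card_union_le _ _).trans ?_)
    rw [Finset.card_range, Nat.card_Ico]
    have : 2 ^ c ≤ 2 ^ (c + a + 1) := Nat.pow_le_pow_right (by norm_num) (by omega)
    omega
  have h5 : #B ≤ 2 * 2 ^ c := by omega
  calc 2 ^ a * #B ≤ 2 ^ a * (2 * 2 ^ c) := Nat.mul_le_mul_left _ h5
    _ = 2 ^ (c + a + 1) := by rw [pow_succ, pow_add]; ring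

private lemma card_fib {D b : ℕ} (s : Fin D → Fin (2 ^ b)) (a : ℕ) (j : Fin D)
    (B : Finset (Fin (2 ^ ((s j : ℕ) + 1)))) (hB : 2 ^ a * #B ≤ 2 ^ ((s j : ℕ) + 1)) :
    2 ^ a * #{κ : (j : Fin D) → Fin (2 ^ ((s j : ℕ) + 1)) | κ j ∈ B} ≤
      ∏ j : Fin D, 2 ^ ((s j : ℕ) + 1) := by
  classical
  have h1 : ({κ : (j : Fin D) → Fin (2 ^ ((s j : ℕ) + 1)) | κ j ∈ B} :
      Finset ((j : Fin D) → Fin (2 ^ ((s j : ℕ) + 1)))) =
      Fintype.piFinset (Function.update
        (fun j => (Finset.univ : Finset (Fin (2 ^ ((s j : ℕ) + 1))))) j B) := by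
    ext κ
    simp only [mem_filter, mem_univ, true_and, Fintype.mem_piFinset]
    constructor
    · intro h i
      by_cases hi : i = j
      · subst hi; rw [Function.update_self]; exact h
      · rw [Function.update_of_ne hi]; exact mem_univ _
    · intro h
      have := h j
      rwa [Function.update_self] at this
  rw [h1, Fintype.card_piFinset]
  have h2 : ∀ i, #(Function.update
        (fun j => (Finset.univ : Finset (Fin (2 ^ ((s j : ℕ) + 1))))) j B i) =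
      Function.update (fun i => 2 ^ ((s i : ℕ) + 1)) j (#B) i := by
    intro i
    by_cases hi : i = j
    · subst hi; rw [Function.update_self, Function.update_self]
    · rw [Function.update_of_ne hi, Function.update_of_ne hi, Finset.card_univ, Fintype.card_fin]
  rw [Finset.prod_congr rfl (fun i _ => h2 i), Finset.prod_update_of_mem (mem_univ j), ← mul_assoc]
  calc 2 ^ a * #B * ∏ x ∈ univ \ {j}, 2 ^ ((s x : ℕ) + 1)
      ≤ 2 ^ ((s j : ℕ) + 1) * ∏ x ∈ univ \ {j}, 2 ^ ((s x : ℕ) + 1) := Nat.mul_le_mul_right _ hB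
    _ = ∏ j : Fin D, 2 ^ ((s j : ℕ) + 1) := by
        rw [← Finset.prod_update_of_mem (mem_univ j) (fun i => 2 ^ ((s i : ℕ) + 1))]
        rw [Function.update_eq_self]

/-- Module G4 : the weight is bounded below on at least 7/8 of the block, if all scales are large. -/
theorem DD_large (D : ℕ) : ∃ (η : ℝ) (k₀ : ℕ), 0 < η ∧ ∀ (b L : ℕ) (s : Fin D → Fin (2 ^ b)),
    (∀ j, k₀ ≤ (s j : ℕ) + 1) → k₀ + ∑ j, ((s j : ℕ) + 1) ≤ L →
    (∀ κ, 0 ≤ DD L s κ ∧ DD L s κ ≤ 1) ∧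
    8 * #{κ : Blk L s | DD L s κ < η} ≤ Fintype.card (Blk L s) := by
  classical
  refine ⟨((2 : ℝ) ^ (D + 4))⁻¹ ^ (D + 1), D + 5, by positivity, fun b L s hs hL => ⟨?_, ?_⟩⟩
  · intro κ
    unfold DD
    constructor
    · exact mul_nonneg (del_nonneg _ _) (Finset.prod_nonneg fun _ _ => del_nonneg _ _)
    · exact mul_le_one₀ (del_le_one _ _) (Finset.prod_nonneg fun _ _ => del_nonneg _ _)
        (Finset.prod_le_one (fun _ _ => del_nonneg _ _) (fun _ _ => del_le_one _ _))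
  · set a := D + 4 with ha
    have hell : a + 1 ≤ ell L s := by unfold ell; omega
    set S0 : Finset (Blk L s) :=
      {κ : Blk L s | κ.1 ∈ ({κ : Fin (2 ^ ell L s) | del (ell L s) κ < ((2 : ℝ) ^ a)⁻¹} :
        Finset (Fin (2 ^ ell L s)))} with hS0
    set S : Fin D → Finset (Blk L s) := fun j =>
      {κ : Blk L s | κ.2 j ∈ ({κ : Fin (2 ^ ((s j : ℕ) + 1)) |
        del ((s j : ℕ) + 1) κ < ((2 : ℝ) ^ a)⁻¹} : Finset (Fin (2 ^ ((s j : ℕ) + 1))))} with hS
    have hcardBlk : Fintype.card (Blk L s) = 2 ^ ell L s * ∏ j : Fin D, 2 ^ ((s j : ℕ) + 1) := by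
      rw [Fintype.card_prod, Fintype.card_fin, Fintype.card_pi]
      simp only [Fintype.card_fin]
    have hc0 : 2 ^ a * #S0 ≤ Fintype.card (Blk L s) := by
      have h1 : S0 = ({κ : Fin (2 ^ ell L s) | del (ell L s) κ < ((2 : ℝ) ^ a)⁻¹} :
        Finset (Fin (2 ^ ell L s))) ×ˢ
          (Finset.univ : Finset ((j : Fin D) → Fin (2 ^ ((s j : ℕ) + 1)))) := by
        ext κ; simp [hS0]
      rw [h1, Finset.card_product, hcardBlk, ← mul_assoc, Finset.card_univ, Fintype.card_pi]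
      simp only [Fintype.card_fin]
      exact Nat.mul_le_mul_right _ (card_bad hell)
    have hcj : ∀ j, 2 ^ a * #(S j) ≤ Fintype.card (Blk L s) := by
      intro j
      have h1 : S j = (Finset.univ : Finset (Fin (2 ^ ell L s))) ×ˢ
          ({κ : (j : Fin D) → Fin (2 ^ ((s j : ℕ) + 1)) | κ j ∈ ({κ : Fin (2 ^ ((s j : ℕ) + 1)) |
            del ((s j : ℕ) + 1) κ < ((2 : ℝ) ^ a)⁻¹} : Finset (Fin (2 ^ ((s j : ℕ) + 1))))} :
            Finset ((j : Fin D) → Fin (2 ^ ((s j : ℕ) + 1)))) := by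
        ext κ; simp [hS]
      rw [h1, Finset.card_product, hcardBlk, Finset.card_univ, Fintype.card_fin, ← mul_assoc,
        mul_comm (2 ^ a), mul_assoc]
      exact Nat.mul_le_mul_left _ (card_fib s a j _ (card_bad (hs j)))
    have hsub : ({κ : Blk L s | DD L s κ < ((2 : ℝ) ^ a)⁻¹ ^ (D + 1)} : Finset (Blk L s)) ⊆
        S0 ∪ Finset.univ.biUnion S := by
      intro κ hκ
      rw [Finset.mem_filter] at hκ
      by_contra hcon
      rw [Finset.mem_union, not_or] at hcon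
      have h0 : ((2 : ℝ) ^ a)⁻¹ ≤ del (ell L s) κ.1 := by
        by_contra h
        exact hcon.1 (by rw [hS0]; simpa using h)
      have hj : ∀ j, ((2 : ℝ) ^ a)⁻¹ ≤ del ((s j : ℕ) + 1) (κ.2 j) := by
        intro j
        by_contra h
        refine hcon.2 (Finset.mem_biUnion.2 ⟨j, mem_univ _, ?_⟩)
        rw [hS]; simpa using h
      refine absurd hκ.2 (not_lt.mpr ?_)
      unfold DD
      rw [pow_succ, mul_comm]
      refine mul_le_mul h0 ?_ (by positivity) (del_nonneg _ _)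
      calc ((2 : ℝ) ^ a)⁻¹ ^ D = ∏ _j : Fin D, ((2 : ℝ) ^ a)⁻¹ := by
            rw [Finset.prod_const, Finset.card_univ, Fintype.card_fin]
        _ ≤ _ := Finset.prod_le_prod (fun _ _ => by positivity) (fun j _ => hj j)
    have hc : 2 ^ a * #({κ : Blk L s | DD L s κ < ((2 : ℝ) ^ a)⁻¹ ^ (D + 1)} : Finset (Blk L s))
        ≤ (D + 1) * Fintype.card (Blk L s) := by
      calc 2 ^ a * #({κ : Blk L s | DD L s κ < ((2 : ℝ) ^ a)⁻¹ ^ (D + 1)} : Finset (Blk L s))
          ≤ 2 ^ a * (#S0 + ∑ j, #(S j)) := by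
            refine Nat.mul_le_mul_left _ ((Finset.card_le_card hsub).trans
              ((Finset.card_union_le _ _).trans ?_))
            exact Nat.add_le_add_left Finset.card_biUnion_le _
        _ = 2 ^ a * #S0 + ∑ j, 2 ^ a * #(S j) := by rw [mul_add, Finset.mul_sum]
        _ ≤ Fintype.card (Blk L s) + ∑ _j : Fin D, Fintype.card (Blk L s) :=
            Nat.add_le_add hc0 (Finset.sum_le_sum fun j _ => hcj j)
        _ = (D + 1) * Fintype.card (Blk L s) := by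
            rw [Finset.sum_const, Finset.card_univ, Fintype.card_fin, smul_eq_mul]; ring
    have h2 : D + 1 ≤ 2 ^ D := Nat.lt_two_pow_self
    have h3 : 2 ^ a = 2 ^ D * 16 := by rw [ha, pow_add]; norm_num
    rw [h3] at hc
    have h4 : 2 ^ D * (16 * #({κ : Blk L s | DD L s κ < ((2 : ℝ) ^ a)⁻¹ ^ (D + 1)} :
        Finset (Blk L s))) ≤ 2 ^ D * Fintype.card (Blk L s) := by
      calc _ = 2 ^ D * 16 * #({κ : Blk L s | DD L s κ < ((2 : ℝ) ^ a)⁻¹ ^ (D + 1)} :
            Finset (Blk L s)) := by ring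
        _ ≤ (D + 1) * Fintype.card (Blk L s) := hc
        _ ≤ _ := Nat.mul_le_mul_right _ h2
    have h5 := Nat.le_of_mul_le_mul_left h4 (by positivity)
    omega

/-- Module G4' : at least half of the windows have coefficient `≥ 1/2`. -/
theorem win_half (b : ℕ) : (∀ w, 0 ≤ win b w ∧ win b w ≤ 1) ∧
    2 ^ b ≤ 2 * #{w : Fin (2 ^ b) | (1 / 2 : ℝ) ≤ win b w} := by
  classical
  refine ⟨fun w => ⟨tri_nonneg _ _, tri_le_one _ _⟩, ?_⟩
  rcases Nat.eq_zero_or_pos b with rfl | hb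
  · have : ({w : Fin (2 ^ 0) | (1 / 2 : ℝ) ≤ win 0 w} : Finset (Fin (2 ^ 0))) = Finset.univ := by
      ext w
      simp only [mem_filter, mem_univ, true_and, iff_true]
      have hw : (w : ℕ) = 0 := by have := w.2; simp at this; omega
      rw [hw]
      unfold win tri
      norm_num
    rw [this]; simp
  · obtain ⟨c, rfl⟩ : ∃ c, b = c + 1 := ⟨b - 1, by omega⟩
    set h := 2 ^ c with hh
    have hpos : 1 ≤ h := Nat.one_le_two_pow
    have e0 : 2 ^ (c + 1) = 2 * h := by rw [pow_succ]; ring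
    have e1 : 2 ^ (c + 1) / 2 = h := by rw [e0]; omega
    have hwin : ∀ n : ℕ, h - h / 2 ≤ n → n < h + h / 2 + 1 → (1 / 2 : ℝ) ≤ win (c + 1) n := by
      intro n h1 h2
      unfold win tri
      apply le_max_of_le_right
      rw [e1, max_eq_right hpos]
      have hR : (0 : ℝ) < h := by exact_mod_cast hpos
      have hd : ((h / 2 : ℕ) : ℝ) ≤ (h : ℝ) / 2 := Nat.cast_div_le
      have h1' : (h : ℝ) ≤ n + ((h / 2 : ℕ) : ℝ) := by exact_mod_cast (by omega : h ≤ n + h / 2)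
      have h2' : (n : ℝ) ≤ h + ((h / 2 : ℕ) : ℝ) := by exact_mod_cast (by omega : n ≤ h + h / 2)
      have key : |(((n : ℤ) - ((h : ℕ) : ℤ) : ℤ) : ℝ)| ≤ (h : ℝ) / 2 := by
        push_cast
        rw [abs_le]
        constructor <;> linarith
      have : |(((n : ℤ) - ((h : ℕ) : ℤ) : ℤ) : ℝ)| / h ≤ 1 / 2 := by
        rw [div_le_iff₀ hR]; linarith
      linarith
    set B : Finset (Fin (2 ^ (c + 1))) := {w : Fin (2 ^ (c + 1)) | (1 / 2 : ℝ) ≤ win (c + 1) w} with hB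
    have hsub : Ico (h - h / 2) (h + h / 2 + 1) ⊆ B.map ⟨Fin.val, Fin.val_injective⟩ := by
      intro n hn
      rw [mem_Ico] at hn
      rw [Finset.mem_map]
      have hn2 : n < 2 ^ (c + 1) := by rw [e0]; omega
      refine ⟨⟨n, hn2⟩, ?_, rfl⟩
      rw [hB, Finset.mem_filter]
      exact ⟨mem_univ _, hwin n hn.1 hn.2⟩
    have hcard := Finset.card_le_card hsub
    rw [Nat.card_Ico, Finset.card_map] at hcard
    refine e0.le.trans ?_
    omega

end

end Pool.Agent.H72.MT
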