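import Mathlib
set_option autoImplicit false
namespace Pool.Agent.H72.MT
open Finset
open scoped BigOperators

namespace Rigid

lemma binom_tail (M k q : ℕ) (hq : 1 ≤ q) :
    ((∑ i ∈ Iic k, M.choose i : ℕ) : ℝ) ≤ (1 + 1 / (q : ℝ)) ^ M * (q : ℝ) ^ k := by
  have hq0 : (0 : ℝ) < q := by exact_mod_cast hq
  have hq1 : (1 : ℝ) ≤ q := by exact_mod_cast hq
  have h1 : (1 + 1 / (q : ℝ)) ^ M = ∑ i ∈ range (M + 1), (1 / (q : ℝ)) ^ i * (M.choose i : ℝ) := by
    rw [add_comm, add_pow]
    apply Finset.sum_congr rfl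
    intro i _
    simp
  rw [h1, Finset.sum_mul]
  push_cast
  have h2 : ∑ i ∈ Iic k, (M.choose i : ℝ) ≤ ∑ i ∈ range (M + 1) ∩ Iic k, (M.choose i : ℝ) := by
    apply le_of_eq
    symm
    apply Finset.sum_subset Finset.inter_subset_right
    intro i hi hi'
    have : M < i := by
      by_contra hcon
      apply hi'
      rw [Finset.mem_inter]
      exact ⟨Finset.mem_range.2 (by omega), hi⟩
    simp [Nat.choose_eq_zero_of_lt this]
  refine h2.trans ?_
  have h3 : ∑ i ∈ range (M + 1) ∩ Iic k, (M.choose i : ℝ) ≤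
      ∑ i ∈ range (M + 1) ∩ Iic k, (1 / (q : ℝ)) ^ i * (M.choose i : ℝ) * (q : ℝ) ^ k := by
    apply Finset.sum_le_sum
    intro i hi
    have hik : i ≤ k := by
      rw [Finset.mem_inter] at hi
      exact Finset.mem_Iic.1 hi.2
    have h4 : (1 : ℝ) ≤ (1 / (q : ℝ)) ^ i * (q : ℝ) ^ k := by
      have : (1 / (q : ℝ)) ^ i * (q : ℝ) ^ k = (q : ℝ) ^ (k - i) := by
        obtain ⟨j, rfl⟩ := Nat.exists_eq_add_of_le hik
        rw [pow_add, Nat.add_sub_cancel_left, ← mul_assoc, ← mul_pow]
        field_simp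
        simp
      rw [this]
      exact one_le_pow₀ hq1
    have h5 : (0 : ℝ) ≤ M.choose i := by positivity
    nlinarith
  refine h3.trans ?_
  apply Finset.sum_le_sum_of_subset_of_nonneg Finset.inter_subset_left
  intro i _ _
  positivity

lemma card_small {J : Type*} [Fintype J] [DecidableEq J] (k : ℕ) :
    #{B : Finset J | #B ≤ k} ≤ ∑ i ∈ Iic k, (Fintype.card J).choose i := by
  have h : ({B : Finset J | #B ≤ k} : Finset (Finset J)) ⊆
      (Iic k).biUnion (fun i => powersetCard i univ) := by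
    intro B hB
    simp only [mem_filter, mem_univ, true_and] at hB
    simp only [mem_biUnion, mem_Iic, mem_powersetCard]
    exact ⟨#B, hB, subset_univ _, rfl⟩
  refine (card_le_card h).trans (card_biUnion_le.trans ?_)
  apply Finset.sum_le_sum
  intro i _
  rw [card_powersetCard, card_univ]

open Classical in
/-- sign patterns of `Re (V h)`, `h` supported on `B`. -/
noncomputable def pats {I J : Type} [Fintype I] [Fintype J] [DecidableEq I] [DecidableEq J]
    (V : Matrix I J ℂ) (B : Finset J) : Finset (Finset I) :=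
  univ.filter (fun P => ∃ h : J → ℂ, (∀ a, a ∉ B → h a = 0) ∧
    ∀ i, i ∈ P ↔ 0 < (V.mulVec h i).re)

lemma pats_shatters {I J : Type} [Fintype I] [Fintype J] [DecidableEq I] [DecidableEq J]
    (V : Matrix I J ℂ) (B : Finset J) (s : Finset I) (hs : (pats V B).Shatters s) :
    #s ≤ 2 * #B := by
  classical
  by_contra hcon
  push Not at hcon
  -- linear map from (s → ℝ) to (B → ℂ)
  let L : (s → ℝ) →ₗ[ℝ] (B → ℂ) :=
    { toFun := fun w b => ∑ i : s, (w i : ℂ) * V i.1 b.1
      map_add' := by
        intro w w'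
        ext b
        simp [add_mul, Finset.sum_add_distrib]
      map_smul' := by
        intro c w
        ext b
        simp only [Pi.smul_apply, smul_eq_mul, RingHom.id_apply, Complex.real_smul,
          Finset.mul_sum]
        apply Finset.sum_congr rfl
        intro i _
        push_cast
        ring }
  have hker : LinearMap.ker L ≠ ⊥ := by
    apply LinearMap.ker_ne_bot_of_finrank_lt
    rw [Module.finrank_pi_fintype, Module.finrank_pi]
    simp only [Complex.finrank_real_complex, Finset.sum_const, card_univ, Fintype.card_coe,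
      smul_eq_mul]
    omega
  obtain ⟨w, hw, hw0⟩ := (Submodule.ne_bot_iff _).1 hker
  -- WLOG some positive coordinate
  have key : ∀ w : s → ℝ, L w = 0 → (∃ i, 0 < w i) → False := by
    intro w hw hpos
    obtain ⟨i0, hi0⟩ := hpos
    let t : Finset I := (univ.filter (fun i : s => 0 < w i)).image Subtype.val
    have ht : t ⊆ s := by
      intro i hi
      simp only [t, mem_image, mem_filter, mem_univ, true_and] at hi
      obtain ⟨a, _, rfl⟩ := hi
      exact a.2
    obtain ⟨u, hu, hut⟩ := hs ht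
    simp only [pats, mem_filter, mem_univ, true_and] at hu
    obtain ⟨h, hB, hP⟩ := hu
    have hmem : ∀ i : s, 0 < (V.mulVec h i.1).re ↔ 0 < w i := by
      intro i
      rw [← hP]
      have h1 : (i.1 ∈ s ∩ u) ↔ i.1 ∈ t := by rw [hut]
      simp only [mem_inter, i.2, true_and] at h1
      rw [h1]
      simp only [t, mem_image, mem_filter, mem_univ, true_and]
      constructor
      · rintro ⟨a, ha, hai⟩
        have : a = i := Subtype.ext hai
        rwa [this] at ha
      · intro hi
        exact ⟨i, hi, rfl⟩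
    have hsum : ∑ i : s, w i * (V.mulVec h i.1).re = 0 := by
      have h1 : (∑ i : s, (w i : ℂ) * (V.mulVec h i.1)) = 0 := by
        have h2 : ∀ i : s, (w i : ℂ) * (V.mulVec h i.1) = ∑ b ∈ B, ((w i : ℂ) * V i.1 b) * h b := by
          intro i
          have : V.mulVec h i.1 = ∑ b ∈ B, V i.1 b * h b := by
            rw [Matrix.mulVec, dotProduct]
            symm
            apply Finset.sum_subset (subset_univ _)
            intro b _ hb
            rw [hB b hb, mul_zero]
          rw [this, Finset.mul_sum]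
          apply Finset.sum_congr rfl
          intro b _
          ring
        rw [Finset.sum_congr rfl (fun i _ => h2 i), Finset.sum_comm]
        apply Finset.sum_eq_zero
        intro b hb
        rw [← Finset.sum_mul]
        have h3 := congrFun hw ⟨b, hb⟩
        have h4 : ∑ i : s, (w i : ℂ) * V i.1 b = 0 := h3
        rw [h4, zero_mul]
      have h5 := congrArg Complex.re h1
      rw [Complex.re_sum] at h5
      simpa using h5
    have hpos' : 0 < ∑ i : s, w i * (V.mulVec h i.1).re := by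
      apply Finset.sum_pos'
      · intro i _
        by_cases hwi : 0 < w i
        · exact (mul_pos hwi ((hmem i).2 hwi)).le
        · have h6 : ¬ 0 < (V.mulVec h i.1).re := fun hh => hwi ((hmem i).1 hh)
          push Not at h6 hwi
          exact mul_nonneg_of_nonpos_of_nonpos hwi h6
      · exact ⟨i0, mem_univ _, mul_pos hi0 ((hmem i0).2 hi0)⟩
    linarith
  by_cases hpos : ∃ i, 0 < w i
  · exact key w (by simpa using hw) hpos
  · push Not at hpos
    apply key (-w)
    · rw [map_neg, (by simpa using hw : L w = 0), neg_zero]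
    · by_contra hcon2
      push Not at hcon2
      apply hw0
      ext i
      have h1 := hpos i
      have h2 := hcon2 i
      simp only [Pi.neg_apply] at h2
      simp only [Pi.zero_apply]
      linarith

lemma card_pats {I J : Type} [Fintype I] [Fintype J] [DecidableEq I] [DecidableEq J]
    (V : Matrix I J ℂ) (B : Finset J) :
    #(pats V B) ≤ ∑ i ∈ Iic (2 * #B), (Fintype.card I).choose i := by
  refine (card_le_card_shatterer _).trans (card_shatterer_le_sum_vcDim.trans ?_)
  apply Finset.sum_le_sum_of_subset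
  apply Finset.Iic_subset_Iic.2
  unfold vcDim
  apply Finset.sup_le
  intro s hs
  exact pats_shatters V B s (mem_shatterer.1 hs)

lemma numeric (M k1 k2 k3 : ℕ) (hM : 0 < M) (h1 : 128 * k1 ≤ M) (h2 : 64 * k2 ≤ M)
    (h3 : 32 * k3 ≤ 5 * M) :
    ((1 + 1 / ((128 : ℕ) : ℝ)) ^ M * ((128 : ℕ) : ℝ) ^ k1) *
      (((1 + 1 / ((64 : ℕ) : ℝ)) ^ M * ((64 : ℕ) : ℝ) ^ k2) *
        ((1 + 1 / ((4 : ℕ) : ℝ)) ^ M * ((4 : ℕ) : ℝ) ^ k3)) < 2 ^ M := by
  have e : ((1 + 1 / ((128 : ℕ) : ℝ)) ^ M * ((128 : ℕ) : ℝ) ^ k1) *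
      (((1 + 1 / ((64 : ℕ) : ℝ)) ^ M * ((64 : ℕ) : ℝ) ^ k2) *
        ((1 + 1 / ((4 : ℕ) : ℝ)) ^ M * ((4 : ℕ) : ℝ) ^ k3)) =
      (41925 / 32768 : ℝ) ^ M * 2 ^ (7 * k1 + 6 * k2 + 2 * k3) := by
    have a1 : (((128 : ℕ) : ℝ)) = 2 ^ 7 := by norm_num
    have a2 : (((64 : ℕ) : ℝ)) = 2 ^ 6 := by norm_num
    have a3 : (((4 : ℕ) : ℝ)) = 2 ^ 2 := by norm_num
    rw [a1, a2, a3, ← pow_mul, ← pow_mul, ← pow_mul]
    have a4 : (41925 / 32768 : ℝ) = (1 + 1 / 2 ^ 7) * ((1 + 1 / 2 ^ 6) * (1 + 1 / 2 ^ 2)) := by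
      norm_num
    rw [a4, mul_pow, mul_pow, pow_add, pow_add]
    ring
  rw [e]
  refine lt_of_pow_lt_pow_left₀ 128 (by positivity) ?_
  have e2 : ((41925 / 32768 : ℝ) ^ M * 2 ^ (7 * k1 + 6 * k2 + 2 * k3)) ^ 128 ≤
      ((41925 / 32768 : ℝ) ^ 128 * 2 ^ 59) ^ M := by
    rw [mul_pow, mul_pow, ← pow_mul, ← pow_mul, ← pow_mul, ← pow_mul, mul_comm M 128]
    apply mul_le_mul_of_nonneg_left _ (by positivity)
    apply pow_le_pow_right₀ (by norm_num)
    nlinarith
  refine e2.trans_lt ?_
  rw [← pow_mul, mul_comm M 128, pow_mul]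
  apply pow_lt_pow_left₀ _ (by positivity) (by omega)
  norm_num

lemma unitary_norm {I J : Type} [Fintype I] [Fintype J] [DecidableEq I] [DecidableEq J]
    (V : Matrix I J ℂ) (hV : V.conjTranspose * V = 1) (h : J → ℂ) :
    ∑ i, ‖V.mulVec h i‖ ^ 2 = ∑ a, ‖h a‖ ^ 2 := by
  have h1 : star (V.mulVec h) ⬝ᵥ (V.mulVec h) = star h ⬝ᵥ h := by
    rw [Matrix.star_mulVec, Matrix.dotProduct_mulVec, Matrix.vecMul_vecMul, hV, Matrix.vecMul_one]
  have h2 : ∀ {K : Type} [Fintype K] (v : K → ℂ), star v ⬝ᵥ v = ((∑ i, ‖v i‖ ^ 2 : ℝ) : ℂ) := by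
    intro K _ v
    rw [dotProduct]
    push_cast
    apply Finset.sum_congr rfl
    intro i _
    rw [Pi.star_apply, RCLike.star_def, Complex.conj_mul']
  rw [h2, h2] at h1
  exact_mod_cast h1

end Rigid

open Rigid in
/-- Rigidity of full-entropy sign vectors: for a unitary matrix `U` of size `M × M` and weights
`Δ ∈ [0,1]`, `Δ ≥ η` on at least `7/8` of the indices, some sign vector `σ` is such that
`U (Δ σ - τ)` has `ℓ₁` norm at least `δ M` for every `c M`-sparse `τ`. -/
theorem rigidity (η : ℝ) (hη : 0 < η) : ∃ c δ : ℝ, 0 < c ∧ 0 < δ ∧ ∃ M₀ : ℕ,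
    ∀ (I J : Type) [Fintype I] [Fintype J] [DecidableEq I] [DecidableEq J],
      Fintype.card J = Fintype.card I → M₀ ≤ Fintype.card I →
      ∀ U : Matrix J I ℂ, U.conjTranspose * U = 1 →
      ∀ Δ : I → ℝ, (∀ i, 0 ≤ Δ i ∧ Δ i ≤ 1) → (8 * #{i | Δ i < η} ≤ Fintype.card I) →
      ∃ σ : I → ℝ, (∀ i, σ i = 1 ∨ σ i = -1) ∧
        ∀ τ : I → ℂ, (#{i | τ i ≠ 0} : ℝ) ≤ c * Fintype.card I →
          δ * Fintype.card I ≤ ∑ a, ‖(U.mulVec (fun i => ((Δ i * σ i : ℝ) : ℂ) - τ i)) a‖ := by
  refine ⟨1 / 64, η / 128, by norm_num, by positivity, 1, ?_⟩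
  intro I J _ _ _ _ hcard hM U hU Δ hΔ hsmall
  classical
  by_contra hcon
  push Not at hcon
  set M := Fintype.card I with hMdef
  have hM0 : (0 : ℝ) < M := by exact_mod_cast hM
  set V := U.conjTranspose with hVdef
  have hV : V.conjTranspose * V = 1 := by
    rw [hVdef, Matrix.conjTranspose_conjTranspose]
    exact (Matrix.mul_eq_one_comm_of_card_eq J I ℂ hcard).2 hU
  let σ : Finset I → I → ℝ := fun A i => if i ∈ A then 1 else -1
  have hσ : ∀ A i, σ A i = 1 ∨ σ A i = -1 := by
    intro A i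
    by_cases h : i ∈ A <;> simp [σ, h]
  have hmain : ∀ A : Finset I, ∃ B : Finset J, ∃ P D : Finset I, #B ≤ M / 128 ∧ P ∈ pats V B ∧
      #D ≤ 5 * M / 32 ∧ A = symmDiff P D := by
    intro A
    obtain ⟨τ, hτ, hlt⟩ := hcon (σ A) (hσ A)
    set h := U.mulVec (fun i => ((Δ i * σ A i : ℝ) : ℂ) - τ i) with hh
    let B : Finset J := {a | η < ‖h a‖}
    let hB : J → ℂ := fun a => if a ∈ B then h a else 0
    let hS : J → ℂ := fun a => if a ∈ B then 0 else h a
    have hsum : h = hB + hS := by
      ext a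
      by_cases ha : a ∈ B <;> simp [hB, hS, ha]
    have hVh : V.mulVec h = fun i => ((Δ i * σ A i : ℝ) : ℂ) - τ i := by
      rw [hh, Matrix.mulVec_mulVec, hVdef, hU, Matrix.one_mulVec]
    let P : Finset I := {i | 0 < (V.mulVec hB i).re}
    refine ⟨B, P, symmDiff P A, ?_, ?_, ?_, ?_⟩
    · -- #B
      have h1 : (#B : ℝ) * η ≤ ∑ a, ‖h a‖ := by
        calc (#B : ℝ) * η = ∑ a ∈ B, η := by rw [Finset.sum_const, nsmul_eq_mul]
          _ ≤ ∑ a ∈ B, ‖h a‖ := by
            apply Finset.sum_le_sum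
            intro a ha
            simp only [B, mem_filter, mem_univ, true_and] at ha
            exact ha.le
          _ ≤ ∑ a, ‖h a‖ := by
            apply Finset.sum_le_sum_of_subset_of_nonneg (subset_univ _)
            intro a _ _
            positivity
      have h2 : (#B : ℝ) * 128 ≤ M := by
        have h3 : (#B : ℝ) * η < η / 128 * M := lt_of_le_of_lt h1 hlt
        have h4 : (#B : ℝ) < M / 128 := by
          by_contra hc
          push Not at hc
          nlinarith
        linarith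
      have h3 : #B * 128 ≤ M := by exact_mod_cast h2
      omega
    · simp only [pats, mem_filter, mem_univ, true_and]
      refine ⟨hB, ?_, ?_⟩
      · intro a ha
        simp [hB, ha]
      · intro i
        simp [P]
    · -- the exceptional set
      let E1 : Finset I := {i | Δ i < η}
      let E2 : Finset I := {i | τ i ≠ 0}
      let E3 : Finset I := {i | η ≤ ‖V.mulVec hS i‖}
      have hsub : symmDiff P A ⊆ E1 ∪ (E2 ∪ E3) := by
        intro i hi
        by_contra hn
        simp only [E1, E2, E3, mem_union, mem_filter, mem_univ, true_and, not_or, not_lt,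
          not_not, not_le] at hn
        obtain ⟨h1, h2, h3⟩ := hn
        have h4 : V.mulVec hB i = ((Δ i * σ A i : ℝ) : ℂ) - V.mulVec hS i := by
          have h5 : V.mulVec h i = ((Δ i * σ A i : ℝ) : ℂ) - τ i := congrFun hVh i
          rw [h2, sub_zero] at h5
          rw [← h5, hsum, Matrix.mulVec_add]
          simp
        have h6 : (V.mulVec hB i).re = Δ i * σ A i - (V.mulVec hS i).re := by
          rw [h4, Complex.sub_re, Complex.ofReal_re]
        have h7 : |(V.mulVec hS i).re| < η := lt_of_le_of_lt (Complex.abs_re_le_norm _) h3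
        rw [abs_lt] at h7
        have h8 : i ∈ P ↔ i ∈ A := by
          simp only [P, mem_filter, mem_univ, true_and]
          rw [h6]
          by_cases hA : i ∈ A
          · simp only [σ, hA, if_true, mul_one, iff_true]
            linarith [h7.1, h7.2]
          · simp only [σ, hA, if_false, iff_false]
            intro hc
            linarith [h7.1, h7.2]
        rw [mem_symmDiff] at hi
        tauto
      have c1 : 8 * #E1 ≤ M := hsmall
      have c2 : 64 * #E2 ≤ M := by
        have : (64 : ℝ) * #E2 ≤ M := by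
          have := hτ
          simp only [E2]
          linarith
        exact_mod_cast this
      have c3 : 128 * #E3 ≤ M := by
        have h1 : (#E3 : ℝ) * η ^ 2 ≤ ∑ i, ‖V.mulVec hS i‖ ^ 2 := by
          calc (#E3 : ℝ) * η ^ 2 = ∑ a ∈ E3, η ^ 2 := by rw [Finset.sum_const, nsmul_eq_mul]
            _ ≤ ∑ a ∈ E3, ‖V.mulVec hS a‖ ^ 2 := by
              apply Finset.sum_le_sum
              intro a ha
              simp only [E3, mem_filter, mem_univ, true_and] at ha
              exact pow_le_pow_left₀ hη.le ha 2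
            _ ≤ ∑ a, ‖V.mulVec hS a‖ ^ 2 := by
              apply Finset.sum_le_sum_of_subset_of_nonneg (subset_univ _)
              intro a _ _
              positivity
        rw [unitary_norm V hV] at h1
        have h2 : ∑ a, ‖hS a‖ ^ 2 ≤ η * ∑ a, ‖h a‖ := by
          rw [Finset.mul_sum]
          apply Finset.sum_le_sum
          intro a _
          by_cases ha : a ∈ B
          · simp only [hS, ha, if_true]
            simp only [norm_zero, ne_eq, OfNat.ofNat_ne_zero, not_false_eq_true, zero_pow]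
            positivity
          · simp only [hS, ha, if_false]
            simp only [B, mem_filter, mem_univ, true_and, not_lt] at ha
            nlinarith [norm_nonneg (h a)]
        have h3 : (#E3 : ℝ) * η ^ 2 < η * (η / 128 * M) :=
          lt_of_le_of_lt (h1.trans h2) (mul_lt_mul_of_pos_left hlt hη)
        have h4 : (128 : ℝ) * #E3 ≤ M := by
          by_contra hc
          push Not at hc
          have : η ^ 2 * M < η ^ 2 * (128 * #E3) := mul_lt_mul_of_pos_left hc (by positivity)
          nlinarith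
        exact_mod_cast h4
      have c4 := card_le_card hsub
      have c5 := (card_union_le E1 (E2 ∪ E3))
      have c6 := card_union_le E2 E3
      omega
    · rw [symmDiff_symmDiff_cancel_left]
  -- counting
  let SB : Finset (Finset J) := {B : Finset J | #B ≤ M / 128}
  let SD : Finset (Finset I) := {D : Finset I | #D ≤ 5 * M / 32}
  have hsub : (univ : Finset (Finset I)) ⊆
      SB.biUnion (fun B => (pats V B).biUnion (fun P => SD.image (fun D => symmDiff P D))) := by
    intro A _
    obtain ⟨B, P, D, hB, hP, hD, hA⟩ := hmain A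
    rw [mem_biUnion]
    refine ⟨B, by simpa [SB] using hB, ?_⟩
    rw [mem_biUnion]
    refine ⟨P, hP, ?_⟩
    rw [mem_image]
    exact ⟨D, by simpa [SD] using hD, hA.symm⟩
  have hc1 : 2 ^ M ≤ #SB * ((∑ i ∈ Iic (2 * (M / 128)), M.choose i) * #SD) := by
    have := card_le_card hsub
    rw [card_univ, Fintype.card_finset] at this
    refine this.trans (card_biUnion_le_card_mul _ _ _ ?_)
    intro B hB
    refine (card_biUnion_le_card_mul _ _ #SD ?_).trans ?_
    · intro P _
      exact card_image_le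
    · apply Nat.mul_le_mul_right
      refine (card_pats V B).trans ?_
      apply Finset.sum_le_sum_of_subset
      apply Finset.Iic_subset_Iic.2
      have : #B ≤ M / 128 := by simpa [SB] using hB
      omega
  have hb1 : (#SB : ℝ) ≤ (1 + 1 / ((128 : ℕ) : ℝ)) ^ M * ((128 : ℕ) : ℝ) ^ (M / 128) := by
    refine le_trans ?_ (binom_tail M (M / 128) 128 (by norm_num))
    have := card_small (J := J) (M / 128)
    rw [hcard] at this
    exact_mod_cast this
  have hb2 : ((∑ i ∈ Iic (2 * (M / 128)), M.choose i : ℕ) : ℝ) ≤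
      (1 + 1 / ((64 : ℕ) : ℝ)) ^ M * ((64 : ℕ) : ℝ) ^ (2 * (M / 128)) :=
    binom_tail M _ 64 (by norm_num)
  have hb3 : (#SD : ℝ) ≤ (1 + 1 / ((4 : ℕ) : ℝ)) ^ M * ((4 : ℕ) : ℝ) ^ (5 * M / 32) := by
    refine le_trans ?_ (binom_tail M (5 * M / 32) 4 (by norm_num))
    exact_mod_cast card_small (J := I) (5 * M / 32)
  have hnum := numeric M (M / 128) (2 * (M / 128)) (5 * M / 32) (by omega) (by omega) (by omega)
    (by omega)
  have hc2 : (2 : ℝ) ^ M ≤ #SB * (((∑ i ∈ Iic (2 * (M / 128)), M.choose i : ℕ) : ℝ) * #SD) := by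
    exact_mod_cast hc1
  have hc3 : #SB * (((∑ i ∈ Iic (2 * (M / 128)), M.choose i : ℕ) : ℝ) * #SD) ≤
      ((1 + 1 / ((128 : ℕ) : ℝ)) ^ M * ((128 : ℕ) : ℝ) ^ (M / 128)) *
      (((1 + 1 / ((64 : ℕ) : ℝ)) ^ M * ((64 : ℕ) : ℝ) ^ (2 * (M / 128))) *
        ((1 + 1 / ((4 : ℕ) : ℝ)) ^ M * ((4 : ℕ) : ℝ) ^ (5 * M / 32))) := by
    apply mul_le_mul hb1 _ (by positivity) (by positivity)
    apply mul_le_mul hb2 hb3 (by positivity) (by positivity)
  linarith

end Pool.Agent.H72.MT
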