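import Pool.Agent.H72.MT.Char2
import Pool.Agent.H72.MT.Rigid
import Pool.Agent.H72.MT.Delt

set_option autoImplicit false

namespace Pool.Agent.H72.MT

open Finset
open scoped BigOperators

noncomputable section

/-- weighted sum over targets is at least the sum over `(s,w,a)` -/
lemma sum_targets_ge {D b L : ℕ} (F : (Fin D → YT b) → ℕ → ℝ) (hF : ∀ y a0, 0 ≤ F y a0)
    (G : Finset ((Fin D → Fin (2 ^ b)) × (Fin D → Fin (2 ^ b))))
    (hL : D * 2 ^ b + 1 ≤ L) :
    ∑ g ∈ G, ((2 : ℝ) ^ L)⁻¹ * ∑ a : Blk L g.1, F (mkY g.1 g.2 a) a.1 ≤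
      ∑ y : Fin D → YT b, (∏ j, nuY (y j)) *
        (((2 : ℝ) ^ ell L (fun j => (y j).1))⁻¹ *
          ∑ a0 ∈ range (2 ^ ell L (fun j => (y j).1)), F y a0) := by
  classical
  -- index type
  let Z := (g : (Fin D → Fin (2 ^ b)) × (Fin D → Fin (2 ^ b))) × ((j : Fin D) → Fin (2 ^ ((g.1 j : ℕ) + 1)))
  let φ : Z → (Fin D → YT b) := fun z j => ⟨z.1.1 j, (z.1.2 j, z.2 j)⟩
  have hφ : Function.Injective φ := by
    rintro ⟨⟨s, w⟩, a⟩ ⟨⟨s', w'⟩, a'⟩ h
    have h1 : s = s' := funext fun j => by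
      have := congrFun h j
      simp only [φ] at this
      exact congrArg Sigma.fst this
    subst h1
    have h2 : ∀ j, w j = w' j ∧ a j = a' j := fun j => by
      have := congrFun h j
      simp only [φ, Sigma.mk.injEq, heq_eq_eq, true_and, Prod.mk.injEq] at this
      exact this
    have h3 : w = w' := funext fun j => (h2 j).1
    have h4 : a = a' := funext fun j => (h2 j).2
    subst h3 h4
    rfl
  set Q : (Fin D → YT b) → ℝ := fun y => (∏ j, nuY (y j)) *
        (((2 : ℝ) ^ ell L (fun j => (y j).1))⁻¹ *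
          ∑ a0 ∈ range (2 ^ ell L (fun j => (y j).1)), F y a0) with hQ
  have hQ0 : ∀ y, 0 ≤ Q y := fun y => by
    simp only [hQ]
    refine mul_nonneg (Finset.prod_nonneg fun j _ => by unfold nuY; positivity) ?_
    exact mul_nonneg (by positivity) (Finset.sum_nonneg fun a0 _ => hF y a0)
  have h1 : ∑ z ∈ G.sigma (fun _ => Finset.univ), Q (φ z) ≤ ∑ y, Q y := by
    rw [← Finset.sum_image (f := Q) (s := G.sigma (fun _ => Finset.univ)) (g := φ)
      (fun x _ y _ h => hφ h)]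
    exact Finset.sum_le_sum_of_subset_of_nonneg (Finset.subset_univ _) (fun y _ _ => hQ0 y)
  refine le_trans (le_of_eq ?_) h1
  rw [Finset.sum_sigma]
  apply Finset.sum_congr rfl
  rintro ⟨s, w⟩ _
  simp only
  rw [Fintype.sum_prod_type, Finset.sum_comm, Finset.mul_sum]
  apply Finset.sum_congr rfl
  intro a _
  simp only [hQ, φ]
  have hprod : ∏ j : Fin D, nuY (⟨s j, (w j, a j)⟩ : YT b) = ((2 : ℝ) ^ (∑ j, ((s j : ℕ) + 1)))⁻¹ := by
    simp only [nuY]
    rw [Finset.prod_inv_distrib, Finset.prod_pow_eq_pow_sum]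
  have key : ∑ j, ((s j : ℕ) + 1) + ell L (fun j => s j) = L := by
    have := (ell_add s hL).1
    unfold ell; simp only; omega
  rw [hprod, ← mul_assoc, ← mul_inv, ← pow_add, key, Finset.sum_range]
  rfl

/-- operator applied to `f - t`. -/
lemma HH_sub_eq {D b L R : ℕ} (hR : 2 ^ b + b + 2 ≤ R) (hLR : L + 2 ≤ R) (hL : D * 2 ^ b + 1 ≤ L)
    (Sc : Finset (Fin D → Fin (2 ^ b))) (σ : (s : Fin D → Fin (2 ^ b)) → Blk L s → ℝ)
    (Λ : Finset (Fin (D + 1) → ℤ)) (c : (Fin (D + 1) → ℤ) → ℂ)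
    (hΛ : ∀ ξ ∈ Λ, ∀ j, |ξ j| < 2 ^ (R - 1))
    (s w : Fin D → Fin (2 ^ b)) (hs : s ∈ Sc) (hw : ∏ j, win b (w j) ≠ 0) (a : Blk L s) :
    HH b L R (mkY s w a) (a.1 : ℕ)
      (fun x => ∑ s ∈ Sc, fsR L R s (σ s) x - ∑ ξ ∈ Λ, c ξ * chR R ξ x) =
    ((((2 : ℝ) ^ b) ^ D * ∏ j, win b (w j) : ℝ) : ℂ) *
      ((UU L s).mulVec (fun κ => ((DD L s κ * σ s κ : ℝ) : ℂ) -
        (if freq L s w κ ∈ Λ then c (freq L s w κ) * ((DD L s κ * Real.sqrt (2 ^ L) *
          (∏ j, win b (w j))⁻¹ : ℝ) : ℂ) else 0))) a := by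
  classical
  obtain ⟨K, hK⟩ := HH_kernel b L R (mkY s w a) (a.1 : ℕ)
  set HHa := HH b L R (mkY s w a) (a.1 : ℕ) with hHHa
  have hsq : (Real.sqrt (2 ^ L) : ℝ) ≠ 0 := by positivity
  have hsqc : ((Real.sqrt (2 ^ L) : ℝ) : ℂ) ≠ 0 := by exact_mod_cast hsq
  -- value on one block
  have hblock : ∀ s' ∈ Sc, ∑ x, K x * fsR L R s' (σ s') x =
      if s' = s then ∑ κ : Blk L s, (((((2 : ℝ) ^ b) ^ D * ∏ j, win b (w j) : ℝ) : ℂ) *
        (UU L s a κ * ((DD L s κ * σ s κ : ℝ) : ℂ))) else 0 := by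
    intro s' _
    have e1 : ∑ x, K x * fsR L R s' (σ s') x = ((Real.sqrt (2 ^ L))⁻¹ : ℝ) *
        ∑ w' : Fin D → Fin (2 ^ b), ∑ κ : Blk L s',
          (((∏ j, win b (w' j)) * σ s' κ : ℝ) : ℂ) * HHa (chR R (freq L s' w' κ)) := by
      simp only [hK, fsR, Finset.mul_sum]
      rw [Finset.sum_comm]
      apply Finset.sum_congr rfl; intro w' _
      rw [Finset.sum_comm]
      apply Finset.sum_congr rfl; intro κ _
      apply Finset.sum_congr rfl; intro x _
      ring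
    rw [e1]
    by_cases h : s' = s
    · subst h
      rw [if_pos rfl]
      rw [Finset.sum_eq_single w]
      · rw [Finset.mul_sum]
        apply Finset.sum_congr rfl; intro κ _
        rw [hHHa, HH_freq_same hR hLR hL s' w a κ]
        push_cast
        field_simp
      · intro w' _ hne
        apply Finset.sum_eq_zero
        intro κ _
        rw [hHHa, HH_freq_ne hR hLR hL s' w s' w' (fun h => hne h.2.symm) a κ, mul_zero]
      · intro h; exact absurd (Finset.mem_univ _) h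
    · rw [if_neg h]
      rw [Finset.sum_eq_zero, mul_zero]
      intro w' _
      apply Finset.sum_eq_zero
      intro κ _
      rw [hHHa, HH_freq_ne hR hLR hL s w s' w' (fun h' => h h'.1.symm) a κ, mul_zero]
  have hf : ∑ x, K x * ∑ s ∈ Sc, fsR L R s (σ s) x =
      ∑ κ : Blk L s, (((((2 : ℝ) ^ b) ^ D * ∏ j, win b (w j) : ℝ) : ℂ) *
        (UU L s a κ * ((DD L s κ * σ s κ : ℝ) : ℂ))) := by
    simp only [Finset.mul_sum]
    rw [Finset.sum_comm, Finset.sum_congr rfl hblock, Finset.sum_ite_eq' Sc s, if_pos hs]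
  have ht : ∑ x, K x * ∑ ξ ∈ Λ, c ξ * chR R ξ x =
      ∑ κ : Blk L s, (if freq L s w κ ∈ Λ then c (freq L s w κ) * HHa (chR R (freq L s w κ)) else 0) := by
    have e1 : ∑ x, K x * ∑ ξ ∈ Λ, c ξ * chR R ξ x = ∑ ξ ∈ Λ, c ξ * HHa (chR R ξ) := by
      simp only [hK, Finset.mul_sum]
      rw [Finset.sum_comm]
      apply Finset.sum_congr rfl; intro ξ _
      apply Finset.sum_congr rfl; intro x _
      ring
    rw [e1]
    have hinj : Function.Injective (fun κ : Blk L s => freq L s w κ) := by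
      intro κ κ' h
      exact eq_of_heq (freq_inj h).2.2
    have e2 : ∑ κ : Blk L s, (if freq L s w κ ∈ Λ then c (freq L s w κ) * HHa (chR R (freq L s w κ)) else 0)
        = ∑ ξ ∈ Finset.univ.image (fun κ : Blk L s => freq L s w κ),
          (if ξ ∈ Λ then c ξ * HHa (chR R ξ) else 0) := by
      rw [Finset.sum_image (fun x _ y _ h => hinj h)]
    rw [e2, ← Finset.sum_filter, Finset.filter_mem_eq_inter]
    symm
    apply Finset.sum_subset Finset.inter_subset_right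
    intro ξ hξ hn
    have hne : ∀ κ : Blk L s, freq L s w κ ≠ ξ := by
      intro κ h
      apply hn
      rw [Finset.mem_inter]
      exact ⟨Finset.mem_image.2 ⟨κ, Finset.mem_univ _, h⟩, hξ⟩
    rw [hHHa, HH_char_zero hR hLR hL s w a ξ (hΛ ξ hξ) hne, mul_zero]
  rw [hK]
  simp only [mul_sub, Finset.sum_sub_distrib]
  rw [hf, ht]
  simp only [Matrix.mulVec, dotProduct]
  rw [← Finset.sum_sub_distrib, Finset.mul_sum]
  apply Finset.sum_congr rfl
  intro κ _
  by_cases h : freq L s w κ ∈ Λ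
  · simp only [if_pos h]
    rw [hHHa, HH_freq_same hR hLR hL s w a κ]
    have hwc : ((∏ j, win b (w j) : ℝ) : ℂ) ≠ 0 := by exact_mod_cast hw
    push_cast at hwc ⊢
    field_simp
  · simp only [if_neg h]; push_cast; ring

end

end Pool.Agent.H72.MT
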