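import Pool.Agent.H72.MT.Hop

set_option autoImplicit false

namespace Pool.Agent.H72.MT

open Finset
open scoped BigOperators

noncomputable section

/-- weak (1,1) bound in the kernel form. -/
lemma KR_weak : ∃ C : ℝ, 0 < C ∧ ∀ (b R : ℕ), 2 ^ b + b + 1 ≤ R → ∀ (f : Fin (2 ^ R) → ℂ) (α : ℝ),
    0 < α → α * ∑ y : YT b, (if α < ‖∑ x, KR b R y x * f x‖ then nuY y else 0) ≤
      C * ((2 : ℝ) ^ b) ^ 2 * (((2 : ℝ) ^ R)⁻¹ * ∑ x, ‖f x‖) := by
  obtain ⟨Cw, hCw, hw⟩ := Ph_weak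
  refine ⟨Cw, hCw, ?_⟩
  intro b R hR f α hα
  have := hw b R hR (ext0 f) α hα
  rw [sum_ext0 f (fun z => ‖z‖)] at this
  refine le_trans (le_of_eq ?_) this
  congr 1
  have h2 : ∀ y : YT b, (if α < ‖∑ x, KR b R y x * f x‖ then nuY y else 0) =
      (fun k ω a => if α < ‖(2 : ℂ) ^ b * Ph R k ω a (ext0 f)‖ then ((2 : ℝ) ^ k)⁻¹ else 0)
        ((y.1 : ℕ) + 1) (2 ^ b + (y.2.1 : ℕ)) (y.2.2 : ℕ) := by
    intro y
    simp only [KR_sum, nuY]
  refine (Finset.sum_congr rfl (fun y _ => h2 y)).trans ((sum_YT b (fun k ω a =>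
    if α < ‖(2 : ℂ) ^ b * Ph R k ω a (ext0 f)‖ then ((2 : ℝ) ^ k)⁻¹ else 0)).trans ?_)
  apply Finset.sum_congr rfl; intro k _
  apply Finset.sum_congr rfl; intro ω _
  rw [← Finset.sum_filter, Finset.sum_const, nsmul_eq_mul, mul_comm]

/-- weak (1,1) bound of `Phi` for at most one windowed coordinate. -/
theorem Phi_weak (D : ℕ) (hD : D ≤ 1) : ∃ C : ℝ, 0 < C ∧ ∀ (b R : ℕ), 2 ^ b + b + 1 ≤ R →
    ∀ (e : (Fin (D + 1) → Fin (2 ^ R)) → ℂ) (α : ℝ), 0 < α →
    α * ∑ y : Fin D → YT b, ∑ x0 : Fin (2 ^ R),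
        (if α < ‖Phi b R y e x0‖ then (∏ j, nuY (y j)) * ((2 : ℝ) ^ R)⁻¹ else 0) ≤
      C * (((2 : ℝ) ^ b) ^ 2) ^ D * (((2 : ℝ) ^ (R * (D + 1)))⁻¹ * ∑ x, ‖e x‖) := by
  obtain ⟨C, hC, hw⟩ := KR_weak
  rcases Nat.le_one_iff_eq_zero_or_eq_one.1 hD with rfl | rfl
  · refine ⟨1, one_pos, ?_⟩
    intro b R hR e α hα
    rw [cons_sum]
    simp only [Finset.univ_unique, Finset.sum_singleton, Finset.prod_empty, one_mul,
      pow_zero, mul_one, Finset.univ_eq_empty, zero_add]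
    rw [Finset.mul_sum, Finset.mul_sum]
    apply Finset.sum_le_sum
    intro x0 _
    have hP : ∀ (y : Fin 0 → YT b) (z : Fin 0 → Fin (2 ^ R)), Phi b R y e x0 = e (Fin.cons x0 z) := by
      intro y z
      unfold Phi
      rw [Fintype.sum_unique]
      simp only [Finset.univ_eq_empty, Finset.prod_empty, one_mul]
      congr 2
      exact Subsingleton.elim _ _
    rw [hP _ (@default (Fin 0 → Fin (2 ^ R)) Unique.instInhabited)]
    split_ifs with h
    · rw [mul_comm]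
      exact mul_le_mul_of_nonneg_left h.le (by positivity)
    · simp only [mul_zero]; positivity
  · refine ⟨C, hC, ?_⟩
    intro b R hR e α hα
    have e1 : ∑ y : Fin 1 → YT b, ∑ x0 : Fin (2 ^ R),
        (if α < ‖Phi b R y e x0‖ then (∏ j, nuY (y j)) * ((2 : ℝ) ^ R)⁻¹ else 0) =
        ∑ x0 : Fin (2 ^ R), ((2 : ℝ) ^ R)⁻¹ * ∑ y : YT b,
          (if α < ‖∑ x, KR b R y x * e (Fin.cons x0 (fun _ => x))‖ then nuY y else 0) := by
      rw [Finset.sum_comm]
      apply Finset.sum_congr rfl; intro x0 _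
      rw [Finset.mul_sum]
      refine Fintype.sum_equiv (Equiv.funUnique (Fin 1) (YT b)) _ _ ?_
      intro y
      have hP : Phi b R y e x0 = ∑ x, KR b R (y 0) x * e (Fin.cons x0 (fun _ => x)) := by
        unfold Phi
        refine Fintype.sum_equiv (Equiv.funUnique (Fin 1) (Fin (2 ^ R))) _ _ ?_
        intro x
        simp only [Finset.univ_unique, Fin.default_eq_zero, Fin.isValue, Finset.prod_singleton,
          Equiv.funUnique_apply]
        congr 2
        congr 1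
        funext i
        rw [Subsingleton.elim i 0]
      rw [hP]
      simp only [Finset.univ_unique, Fin.default_eq_zero, Fin.isValue, Finset.prod_singleton,
        Equiv.funUnique_apply, mul_ite, mul_zero]
      split_ifs
      · ring
      · rfl
    have e2 : ∑ x : Fin (1 + 1) → Fin (2 ^ R), ‖e x‖ =
        ∑ x0 : Fin (2 ^ R), ∑ x : Fin (2 ^ R), ‖e (Fin.cons x0 (fun _ => x))‖ := by
      rw [cons_sum]
      apply Finset.sum_congr rfl; intro x0 _
      refine Fintype.sum_equiv (Equiv.funUnique (Fin 1) (Fin (2 ^ R))) _ _ ?_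
      intro x
      congr 2
      congr 1
      funext i
      rw [Subsingleton.elim i 0]; rfl
    rw [e1, e2, Finset.mul_sum, Finset.mul_sum, Finset.mul_sum]
    apply Finset.sum_le_sum
    intro x0 _
    have h := hw b R hR (fun x => e (Fin.cons x0 (fun _ => x))) α hα
    have h' := mul_le_mul_of_nonneg_left h (show (0:ℝ) ≤ ((2 : ℝ) ^ R)⁻¹ by positivity)
    calc α * (((2 : ℝ) ^ R)⁻¹ * ∑ y : YT b,
          (if α < ‖∑ x, KR b R y x * e (Fin.cons x0 (fun _ => x))‖ then nuY y else 0))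
        = ((2 : ℝ) ^ R)⁻¹ * (α * ∑ y : YT b,
          (if α < ‖∑ x, KR b R y x * e (Fin.cons x0 (fun _ => x))‖ then nuY y else 0)) := by ring
      _ ≤ _ := h'
      _ = _ := by
        have : ((2 : ℝ) ^ (R * (1 + 1)))⁻¹ = ((2 : ℝ) ^ R)⁻¹ * ((2 : ℝ) ^ R)⁻¹ := by
          rw [pow_mul, pow_two, mul_inv]
        rw [this]; ring

end

end Pool.Agent.H72.MT
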