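import Pool.Agent.H72.MT.Char2
import Pool.Agent.H72.MT.PhiWeak

set_option autoImplicit false

namespace Pool.Agent.H72.MT

open Finset
open scoped BigOperators

noncomputable section

/-- phases of the shifted grid. -/
def PX {D b : ℕ} (L : ℕ) (s : Fin D → Fin (2 ^ b)) (y : ℝ) (κ : Blk L s) : ℂ :=
  ee ((((κ.1 : ℕ) : ℝ) + 2 ^ ell L s) * (y / 2 ^ ell L s))

/-- product weight without the coordinate `0`. -/
def DD1 {D b : ℕ} (L : ℕ) (s : Fin D → Fin (2 ^ b)) (κ : Blk L s) : ℝ :=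
  ∏ j, del ((s j : ℕ) + 1) (κ.2 j)

/-- the point `(a0 + y0/2^(R-ell))/2^ell` of the fine grid. -/
def xx (R l : ℕ) (hl : l ≤ R) (a0 : Fin (2 ^ l)) (y0 : Fin (2 ^ (R - l))) : Fin (2 ^ R) :=
  ⟨(a0 : ℕ) * 2 ^ (R - l) + (y0 : ℕ), by
    have h1 : (a0 : ℕ) + 1 ≤ 2 ^ l := a0.isLt
    have h2 := y0.isLt
    have h3 : 2 ^ R = 2 ^ l * 2 ^ (R - l) := by rw [← pow_add]; congr 1; omega
    calc (a0 : ℕ) * 2 ^ (R - l) + (y0 : ℕ) < (a0 : ℕ) * 2 ^ (R - l) + 2 ^ (R - l) := by omega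
      _ = ((a0 : ℕ) + 1) * 2 ^ (R - l) := by ring
      _ ≤ 2 ^ l * 2 ^ (R - l) := Nat.mul_le_mul_right _ h1
      _ = 2 ^ R := h3.symm⟩

lemma xx_val (R l : ℕ) (hl : l ≤ R) (a0 : Fin (2 ^ l)) (y0 : Fin (2 ^ (R - l))) :
    (((xx R l hl a0 y0 : Fin (2 ^ R)) : ℕ) : ℝ) / 2 ^ R =
      ((a0 : ℕ) : ℝ) / 2 ^ l + (((y0 : ℕ) : ℝ) / 2 ^ (R - l)) / 2 ^ l := by
  have h3 : (2 : ℝ) ^ R = 2 ^ l * 2 ^ (R - l) := by rw [← pow_add]; congr 1; omega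
  unfold xx
  simp only
  push_cast
  rw [h3]
  field_simp

lemma xx_inj (R l : ℕ) (hl : l ≤ R) :
    Function.Injective (fun p : Fin (2 ^ l) × Fin (2 ^ (R - l)) => xx R l hl p.1 p.2) := by
  rintro ⟨a, y⟩ ⟨a', y'⟩ h
  simp only [xx, Fin.mk.injEq] at h
  have hy := y.isLt
  have hy' := y'.isLt
  have h1 : (a : ℕ) = (a' : ℕ) := by
    have e1 : ((a : ℕ) * 2 ^ (R - l) + (y : ℕ)) / 2 ^ (R - l) = (a : ℕ) := by
      rw [mul_comm, Nat.mul_add_div (by positivity), Nat.div_eq_of_lt hy]; omega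
    have e2 : ((a' : ℕ) * 2 ^ (R - l) + (y' : ℕ)) / 2 ^ (R - l) = (a' : ℕ) := by
      rw [mul_comm, Nat.mul_add_div (by positivity), Nat.div_eq_of_lt hy']; omega
    rw [← e1, ← e2, h]
  have h2 : (y : ℕ) = (y' : ℕ) := by
    rw [h1] at h; omega
  exact Prod.ext (Fin.ext h1) (Fin.ext h2)

/-- one-dimensional multiplier at a point of the band. -/
lemma mulY_eq {b : ℕ} (k w : Fin (2 ^ b)) (a : Fin (2 ^ ((k : ℕ) + 1))) (κ : ℕ) :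
    mulY (⟨k, (w, a)⟩ : YT b) ((κ : ℤ) + ((2 ^ b + (w : ℕ) : ℕ) : ℤ) * 2 ^ ((k : ℕ) + 1)) =
      ((2 : ℂ) ^ b) * ((del ((k : ℕ) + 1) κ : ℂ) *
        ee ((κ : ℝ) * (((a : ℕ) : ℝ) / 2 ^ ((k : ℕ) + 1)))) := by
  unfold mulY del ctr
  simp only [Nat.add_sub_cancel]
  rw [show (κ : ℤ) + ((2 ^ b + (w : ℕ) : ℕ) : ℤ) * 2 ^ ((k : ℕ) + 1) -
    (((2 ^ b + (w : ℕ) : ℕ) : ℤ) * 2 ^ ((k : ℕ) + 1) + 2 ^ (k : ℕ)) =
    (κ : ℤ) - 2 ^ (k : ℕ) by ring]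
  congr 2
  rw [show ((((κ : ℤ) + ((2 ^ b + (w : ℕ) : ℕ) : ℤ) * 2 ^ ((k : ℕ) + 1) : ℤ) : ℝ) *
    (((a : ℕ) : ℝ) / 2 ^ ((k : ℕ) + 1))) =
    (κ : ℝ) * (((a : ℕ) : ℝ) / 2 ^ ((k : ℕ) + 1)) +
      (((2 ^ b + (w : ℕ)) * (a : ℕ) : ℕ) : ℝ) by
    push_cast; field_simp, ee_add, ee_nat, mul_one]

/-- residue of a frequency. -/
def kap {D b : ℕ} (L : ℕ) (s : Fin D → Fin (2 ^ b)) (ξ : Fin (D + 1) → ℤ) : Blk L s :=
  (⟨(ξ 0 % (2 ^ ell L s : ℕ)).toNat, by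
      have h1 := Int.emod_lt_of_pos (ξ 0) (show (0 : ℤ) < ((2 ^ ell L s : ℕ) : ℤ) by positivity)
      have h2 := Int.emod_nonneg (ξ 0) (show ((2 ^ ell L s : ℕ) : ℤ) ≠ 0 by positivity)
      omega⟩,
   fun j => ⟨(ξ j.succ % (2 ^ ((s j : ℕ) + 1) : ℕ)).toNat, by
      have h1 := Int.emod_lt_of_pos (ξ j.succ) (show (0 : ℤ) < ((2 ^ ((s j : ℕ) + 1) : ℕ) : ℤ) by positivity)
      have h2 := Int.emod_nonneg (ξ j.succ) (show ((2 ^ ((s j : ℕ) + 1) : ℕ) : ℤ) ≠ 0 by positivity)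
      omega⟩)

lemma kap_zero {D b : ℕ} (L : ℕ) (s : Fin D → Fin (2 ^ b)) (ξ : Fin (D + 1) → ℤ) :
    ∃ q : ℤ, ξ 0 = (((kap L s ξ).1 : ℕ) : ℤ) + q * 2 ^ ell L s := by
  refine ⟨ξ 0 / (2 ^ ell L s : ℕ), ?_⟩
  unfold kap
  simp only
  have h2 := Int.emod_nonneg (ξ 0) (show ((2 ^ ell L s : ℕ) : ℤ) ≠ 0 by positivity)
  rw [Int.toNat_of_nonneg h2]
  have := Int.emod_add_mul_ediv (ξ 0) ((2 ^ ell L s : ℕ) : ℤ)
  push_cast at this ⊢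
  linarith

lemma kap_succ {D b : ℕ} (L : ℕ) (s w : Fin D → Fin (2 ^ b)) (ξ : Fin (D + 1) → ℤ) (j : Fin D)
    (h : ξ j.succ ∈ bandF ((s j : ℕ) + 1) (2 ^ b + (w j : ℕ))) :
    ξ j.succ = (((kap L s ξ).2 j : ℕ) : ℤ) + ((2 ^ b + (w j : ℕ) : ℕ) : ℤ) * 2 ^ ((s j : ℕ) + 1) := by
  have h' := bandF_inB h
  unfold inB at h'
  rw [add_mul, one_mul] at h'
  unfold kap
  simp only
  have h2 := Int.emod_nonneg (ξ j.succ) (show ((2 ^ ((s j : ℕ) + 1) : ℕ) : ℤ) ≠ 0 by positivity)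
  rw [Int.toNat_of_nonneg h2]
  have h3 : ξ j.succ % ((2 ^ ((s j : ℕ) + 1) : ℕ) : ℤ) =
      ξ j.succ - ((2 ^ b + (w j : ℕ) : ℕ) : ℤ) * 2 ^ ((s j : ℕ) + 1) := by
    have e : ξ j.succ = (ξ j.succ - ((2 ^ b + (w j : ℕ) : ℕ) : ℤ) * 2 ^ ((s j : ℕ) + 1)) +
        ((2 ^ ((s j : ℕ) + 1) : ℕ) : ℤ) * ((2 ^ b + (w j : ℕ) : ℕ) : ℤ) := by push_cast; ring
    conv_lhs => rw [e]
    rw [Int.add_mul_emod_self_left]
    apply Int.emod_eq_of_lt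
    · linarith [h'.1]
    · push_cast at h' ⊢; linarith [h'.2]
  rw [h3]; ring

/-- value of the tensor operator on a character of the band, on the shifted grid. -/
lemma Phi_band {D b L R : ℕ} (hR : 2 ^ b + b + 2 ≤ R) (s w : Fin D → Fin (2 ^ b)) (a : Blk L s)
    (hl : ell L s ≤ R) (y0 : Fin (2 ^ (R - ell L s))) (ξ : Fin (D + 1) → ℤ)
    (hξ : ∀ j, |ξ j| < 2 ^ (R - 1)) (κ : Blk L s)
    (h0 : ∃ q : ℤ, ξ 0 = ((κ.1 : ℕ) : ℤ) + q * 2 ^ ell L s)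
    (hj : ∀ j : Fin D, ξ j.succ = ((κ.2 j : ℕ) : ℤ) + ((2 ^ b + (w j : ℕ) : ℕ) : ℤ) * 2 ^ ((s j : ℕ) + 1)) :
    Phi b R (mkY s w a) (chR R ξ) (xx R (ell L s) hl a.1 y0) =
      (((2 : ℝ) ^ b) ^ D * DD1 L s κ * Real.sqrt (2 ^ L) : ℝ) * UU L s a κ *
        ee (ξ 0 * ((((y0 : ℕ) : ℝ) / 2 ^ (R - ell L s)) / 2 ^ ell L s)) := by
  rw [Phi_char hR _ _ hξ]
  have h1 : ∀ j, mulY (mkY s w a j) (ξ j.succ) =
      ((2 : ℂ) ^ b) * ((del ((s j : ℕ) + 1) (κ.2 j) : ℂ) *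
        ee (((κ.2 j : ℕ) : ℝ) * (((a.2 j : ℕ) : ℝ) / 2 ^ ((s j : ℕ) + 1)))) := by
    intro j
    rw [hj j]
    exact mulY_eq (s j) (w j) (a.2 j) (κ.2 j : ℕ)
  obtain ⟨q, hq⟩ := h0
  have h2 : ee (ξ 0 * ((((xx R (ell L s) hl a.1 y0 : Fin (2 ^ R)) : ℕ) : ℝ) / 2 ^ R)) =
      ee (((κ.1 : ℕ) : ℝ) * (((a.1 : ℕ) : ℝ) / 2 ^ (ell L s))) *
        ee (ξ 0 * ((((y0 : ℕ) : ℝ) / 2 ^ (R - ell L s)) / 2 ^ ell L s)) := by
    rw [xx_val, mul_add, ee_add]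
    congr 1
    rw [hq]
    rw [show (((((κ.1 : ℕ) : ℤ) + q * 2 ^ ell L s : ℤ) : ℝ) * (((a.1 : ℕ) : ℝ) / 2 ^ ell L s)) =
      ((κ.1 : ℕ) : ℝ) * (((a.1 : ℕ) : ℝ) / 2 ^ (ell L s)) + ((q * (a.1 : ℕ) : ℤ) : ℝ) by
      push_cast; field_simp, ee_add_int]
  rw [h2, Finset.prod_congr rfl (fun j _ => h1 j)]
  simp only [Finset.prod_mul_distrib, Finset.prod_const, Finset.card_univ, Fintype.card_fin]
  unfold UU DD1
  rw [ee_add, ee_sum]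
  have hs : (Real.sqrt (2 ^ L) : ℝ) ≠ 0 := by positivity
  have hsc : ((Real.sqrt (2 ^ L) : ℝ) : ℂ) ≠ 0 := by exact_mod_cast hs
  push_cast
  field_simp

lemma Phi_freq_ne {D b L R : ℕ} (hR : 2 ^ b + b + 2 ≤ R) (hLR : L + 2 ≤ R) (hL : D * 2 ^ b + 1 ≤ L)
    (s w s' w' : Fin D → Fin (2 ^ b)) (hne : ¬ (s = s' ∧ w = w')) (a : Blk L s) (κ : Blk L s')
    (x0 : Fin (2 ^ R)) :
    Phi b R (mkY s w a) (chR R (freq L s' w' κ)) x0 = 0 := by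
  rw [Phi_char hR _ _ (freq_bound hR hLR hL s' w' κ)]
  have : ∃ j, ¬ (s j = s' j ∧ w j = w' j) := by
    by_contra hcon
    push Not at hcon
    exact hne ⟨funext fun j => (hcon j).1, funext fun j => (hcon j).2⟩
  obtain ⟨j, hj⟩ := this
  have h0 : mulY (mkY s w a j) (freq L s' w' κ j.succ) = 0 := by
    apply mulY_zero
    intro hmem
    have h1 := bandF_inB hmem
    have h2 := freq_inB L s' w' κ j
    simp only [mkY] at h1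
    have h3 := inB_unique (window_mem (w j)) (window_mem (w' j)) h1 h2
    exact hj ⟨Fin.ext (by omega), Fin.ext (by omega)⟩
  rw [Finset.prod_eq_zero (Finset.mem_univ j) h0, zero_mul]

lemma Phi_freq_same {D b L R : ℕ} (hR : 2 ^ b + b + 2 ≤ R) (hLR : L + 2 ≤ R) (hL : D * 2 ^ b + 1 ≤ L)
    (s w : Fin D → Fin (2 ^ b)) (a κ : Blk L s) (hl : ell L s ≤ R) (y0 : Fin (2 ^ (R - ell L s))) :
    Phi b R (mkY s w a) (chR R (freq L s w κ)) (xx R (ell L s) hl a.1 y0) =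
      (((2 : ℝ) ^ b) ^ D * DD1 L s κ * Real.sqrt (2 ^ L) : ℝ) * UU L s a κ *
        PX L s (((y0 : ℕ) : ℝ) / 2 ^ (R - ell L s)) κ := by
  rw [Phi_band hR s w a hl y0 _ (freq_bound hR hLR hL s w κ) κ ⟨1, by unfold freq; rw [Fin.cons_zero]; ring⟩
    (fun j => by unfold freq; rw [Fin.cons_succ])]
  unfold PX
  congr 2
  unfold freq
  rw [Fin.cons_zero]
  push_cast
  ring

/-- frequencies of `Λ` in the band of `(s,w)` (all frequencies in coordinate `0`). -/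
def Lam {D b : ℕ} (s w : Fin D → Fin (2 ^ b)) (Λ : Finset (Fin (D + 1) → ℤ)) :
    Finset (Fin (D + 1) → ℤ) := by
  classical exact Λ.filter (fun ξ => ∀ j : Fin D, ξ j.succ ∈ bandF ((s j : ℕ) + 1) (2 ^ b + (w j : ℕ)))

lemma mem_Lam {D b : ℕ} {s w : Fin D → Fin (2 ^ b)} {Λ : Finset (Fin (D + 1) → ℤ)} {ξ : Fin (D + 1) → ℤ} :
    ξ ∈ Lam s w Λ ↔ ξ ∈ Λ ∧ ∀ j : Fin D, ξ j.succ ∈ bandF ((s j : ℕ) + 1) (2 ^ b + (w j : ℕ)) := by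
  classical
  unfold Lam; rw [Finset.mem_filter]

/-- the operator applied to `f - t`, on the shifted grid. -/
lemma Phi_sub_eq {D b L R : ℕ} (hR : 2 ^ b + b + 2 ≤ R) (hLR : L + 2 ≤ R) (hL : D * 2 ^ b + 1 ≤ L)
    (Sc : Finset (Fin D → Fin (2 ^ b))) (σ : (s : Fin D → Fin (2 ^ b)) → Blk L s → ℝ)
    (Λ : Finset (Fin (D + 1) → ℤ)) (c : (Fin (D + 1) → ℤ) → ℂ)
    (hΛ : ∀ ξ ∈ Λ, ∀ j, |ξ j| < 2 ^ (R - 1))
    (s w : Fin D → Fin (2 ^ b)) (hs : s ∈ Sc) (hw : ∏ j, win b (w j) ≠ 0)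
    (hl : ell L s ≤ R) (y0 : Fin (2 ^ (R - ell L s))) :
    ∃ τ : Blk L s → ℂ, #{κ | τ κ ≠ 0} ≤ #(Lam s w Λ) ∧ ∀ a : Blk L s,
    Phi b R (mkY s w a)
      (fun x => ∑ s ∈ Sc, fsR L R s (σ s) x - ∑ ξ ∈ Λ, c ξ * chR R ξ x) (xx R (ell L s) hl a.1 y0) =
    ((((2 : ℝ) ^ b) ^ D * ∏ j, win b (w j) : ℝ) : ℂ) *
      ((UU L s).mulVec (fun κ => PX L s (((y0 : ℕ) : ℝ) / 2 ^ (R - ell L s)) κ *
        ((DD1 L s κ * σ s κ : ℝ) : ℂ) - τ κ)) a := by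
  classical
  set y : ℝ := ((y0 : ℕ) : ℝ) / 2 ^ (R - ell L s) with hy
  have hsq : (Real.sqrt (2 ^ L) : ℝ) ≠ 0 := by positivity
  have hsqc : ((Real.sqrt (2 ^ L) : ℝ) : ℂ) ≠ 0 := by exact_mod_cast hsq
  have hwc : ((∏ j, win b (w j) : ℝ) : ℂ) ≠ 0 := by exact_mod_cast hw
  refine ⟨fun κ => ((Real.sqrt (2 ^ L) * DD1 L s κ * (∏ j, win b (w j))⁻¹ : ℝ) : ℂ) *
    ∑ ξ ∈ Lam s w Λ, (if kap L s ξ = κ then c ξ * ee (ξ 0 * (y / 2 ^ ell L s)) else 0), ?_, ?_⟩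
  · refine le_trans (Finset.card_le_card (t := (Lam s w Λ).image (kap L s)) ?_) Finset.card_image_le
    intro κ hκ
    simp only [Finset.mem_filter, Finset.mem_univ, true_and] at hκ
    have h1 := right_ne_zero_of_mul hκ
    obtain ⟨ξ, hξ, hne⟩ := Finset.exists_ne_zero_of_sum_ne_zero h1
    rw [Finset.mem_image]
    refine ⟨ξ, hξ, ?_⟩
    by_contra hcon
    exact hne (if_neg hcon)
  intro a
  set K : (Fin D → Fin (2 ^ R)) → ℂ := fun x => ∏ j, KR b R (mkY s w a j) (x j) with hK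
  set x0 := xx R (ell L s) hl a.1 y0 with hx0
  have hPhi : ∀ e : (Fin (D + 1) → Fin (2 ^ R)) → ℂ, Phi b R (mkY s w a) e x0 =
      ∑ x : Fin D → Fin (2 ^ R), K x * e (Fin.cons x0 x) := fun e => rfl
  -- value on one block
  have hblock : ∀ s' ∈ Sc, ∑ x, K x * fsR L R s' (σ s') (Fin.cons x0 x) =
      if s' = s then ∑ κ : Blk L s, (((((2 : ℝ) ^ b) ^ D * ∏ j, win b (w j) : ℝ) : ℂ) *
        (UU L s a κ * (PX L s y κ * ((DD1 L s κ * σ s κ : ℝ) : ℂ)))) else 0 := by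
    intro s' _
    have e1 : ∑ x, K x * fsR L R s' (σ s') (Fin.cons x0 x) = ((Real.sqrt (2 ^ L))⁻¹ : ℝ) *
        ∑ w' : Fin D → Fin (2 ^ b), ∑ κ : Blk L s',
          (((∏ j, win b (w' j)) * σ s' κ : ℝ) : ℂ) * Phi b R (mkY s w a) (chR R (freq L s' w' κ)) x0 := by
      simp only [hPhi, fsR, Finset.mul_sum]
      rw [Finset.sum_comm]
      apply Finset.sum_congr rfl; intro w' _
      rw [Finset.sum_comm]
      apply Finset.sum_congr rfl; intro κ _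
      apply Finset.sum_congr rfl; intro x _
      ring
    rw [e1]
    by_cases h : s' = s
    · subst h
      rw [if_pos rfl]
      rw [Finset.sum_eq_single w]
      · rw [Finset.mul_sum]
        apply Finset.sum_congr rfl; intro κ _
        rw [hx0, Phi_freq_same hR hLR hL s' w a κ hl y0, ← hy]
        push_cast
        field_simp
      · intro w' _ hne
        apply Finset.sum_eq_zero
        intro κ _
        rw [Phi_freq_ne hR hLR hL s' w s' w' (fun h => hne h.2.symm) a κ, mul_zero]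
      · intro h; exact absurd (Finset.mem_univ _) h
    · rw [if_neg h]
      rw [Finset.sum_eq_zero, mul_zero]
      intro w' _
      apply Finset.sum_eq_zero
      intro κ _
      rw [Phi_freq_ne hR hLR hL s w s' w' (fun h' => h h'.1.symm) a κ, mul_zero]
  have hf : ∑ x, K x * ∑ s ∈ Sc, fsR L R s (σ s) (Fin.cons x0 x) =
      ∑ κ : Blk L s, (((((2 : ℝ) ^ b) ^ D * ∏ j, win b (w j) : ℝ) : ℂ) *
        (UU L s a κ * (PX L s y κ * ((DD1 L s κ * σ s κ : ℝ) : ℂ)))) := by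
    simp only [Finset.mul_sum]
    rw [Finset.sum_comm, Finset.sum_congr rfl hblock, Finset.sum_ite_eq' Sc s, if_pos hs]
  have ht : ∑ x, K x * ∑ ξ ∈ Λ, c ξ * chR R ξ (Fin.cons x0 x) =
      ∑ ξ ∈ Lam s w Λ, c ξ * ((((2 : ℝ) ^ b) ^ D * DD1 L s (kap L s ξ) * Real.sqrt (2 ^ L) : ℝ) *
        UU L s a (kap L s ξ) * ee (ξ 0 * (y / 2 ^ ell L s))) := by
    have e1 : ∑ x, K x * ∑ ξ ∈ Λ, c ξ * chR R ξ (Fin.cons x0 x) =
        ∑ ξ ∈ Λ, c ξ * Phi b R (mkY s w a) (chR R ξ) x0 := by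
      simp only [hPhi, Finset.mul_sum]
      rw [Finset.sum_comm]
      apply Finset.sum_congr rfl; intro ξ _
      apply Finset.sum_congr rfl; intro x _
      ring
    rw [e1]
    have hsub : Lam s w Λ ⊆ Λ := fun ξ hξ => (mem_Lam.1 hξ).1
    rw [← Finset.sum_subset hsub]
    · apply Finset.sum_congr rfl
      intro ξ hξ
      have hb := (mem_Lam.1 hξ).2
      rw [hx0, Phi_band hR s w a hl y0 ξ (hΛ ξ (hsub hξ)) (kap L s ξ) (kap_zero L s ξ)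
        (fun j => kap_succ L s w ξ j (hb j))]
    · intro ξ hξ hn
      have : ∃ j : Fin D, ξ j.succ ∉ bandF ((s j : ℕ) + 1) (2 ^ b + (w j : ℕ)) := by
        by_contra hcon
        push Not at hcon
        exact hn (mem_Lam.2 ⟨hξ, hcon⟩)
      obtain ⟨j, hj⟩ := this
      rw [Phi_char hR _ _ (hΛ ξ hξ), Finset.prod_eq_zero (Finset.mem_univ j) (mulY_zero (mkY s w a j) hj),
        zero_mul, mul_zero]
  rw [hPhi]
  simp only [mul_sub, Finset.sum_sub_distrib]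
  rw [hf, ht]
  simp only [Matrix.mulVec, dotProduct, mul_sub, Finset.sum_sub_distrib]
  congr 1
  · rw [Finset.mul_sum]
  · -- the sparse part
    have e2 : ∑ κ : Blk L s, UU L s a κ * (((Real.sqrt (2 ^ L) * DD1 L s κ * (∏ j, win b (w j))⁻¹ : ℝ) : ℂ) *
        ∑ ξ ∈ Lam s w Λ, (if kap L s ξ = κ then c ξ * ee (ξ 0 * (y / 2 ^ ell L s)) else 0)) =
        ∑ ξ ∈ Lam s w Λ, UU L s a (kap L s ξ) *
          (((Real.sqrt (2 ^ L) * DD1 L s (kap L s ξ) * (∏ j, win b (w j))⁻¹ : ℝ) : ℂ) *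
            (c ξ * ee (ξ 0 * (y / 2 ^ ell L s)))) := by
      simp only [Finset.mul_sum]
      rw [Finset.sum_comm]
      apply Finset.sum_congr rfl; intro ξ _
      rw [Finset.sum_eq_single (kap L s ξ)]
      · rw [if_pos rfl]
      · intro κ _ hne
        rw [if_neg (fun h => hne h.symm), mul_zero, mul_zero]
      · intro h; exact absurd (Finset.mem_univ _) h
    rw [e2, Finset.mul_sum]
    apply Finset.sum_congr rfl; intro ξ _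
    push_cast at hwc ⊢
    field_simp

end

end Pool.Agent.H72.MT
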