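import Mathlib
set_option autoImplicit false
namespace Pool.Agent.H72.MT
open Finset
open scoped BigOperators

namespace Marc
open MeasureTheory Set

lemma low_int (s c : ℝ) (hs : -1 < s) (hc : 0 ≤ c) :
    IntegrableOn (fun α : ℝ => if α < c then α ^ s else 0) (Ioi 0) ∧
      ∫ α in Ioi (0 : ℝ), (if α < c then α ^ s else 0) = c ^ (s + 1) / (s + 1) := by
  have e : (fun α : ℝ => if α < c then α ^ s else 0) = (Iio c).indicator (fun α => α ^ s) := by
    ext α
    simp [Set.indicator]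
  have hset : Ioi (0 : ℝ) ∩ Iio c = Ioo 0 c := rfl
  have hint : IntegrableOn (fun α : ℝ => α ^ s) (Ioo 0 c) := by
    have h1 : IntervalIntegrable (fun x : ℝ => x ^ s) volume 0 c :=
      intervalIntegral.intervalIntegrable_rpow' hs
    rw [intervalIntegrable_iff_integrableOn_Ioc_of_le hc] at h1
    exact h1.mono_set Ioo_subset_Ioc_self
  constructor
  · rw [e]
    unfold IntegrableOn
    rw [integrable_indicator_iff measurableSet_Iio]
    unfold IntegrableOn
    rw [Measure.restrict_restrict measurableSet_Iio, inter_comm, hset]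
    exact hint
  · rw [e, setIntegral_indicator measurableSet_Iio, hset, ← integral_Ioc_eq_integral_Ioo,
      ← intervalIntegral.integral_of_le hc, integral_rpow (Or.inl hs)]
    rw [Real.zero_rpow (by linarith)]
    ring

lemma high_int (s c : ℝ) (hs : s < -1) (hc : 0 < c) :
    IntegrableOn (fun α : ℝ => if α < c then 0 else α ^ s) (Ioi 0) ∧
      ∫ α in Ioi (0 : ℝ), (if α < c then 0 else α ^ s) = -c ^ (s + 1) / (s + 1) := by
  have e : (fun α : ℝ => if α < c then 0 else α ^ s) = (Ici c).indicator (fun α => α ^ s) := by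
    ext α
    by_cases h : α < c
    · rw [if_pos h, Set.indicator_of_notMem]
      simp only [Set.mem_Ici]
      exact not_le.2 h
    · rw [if_neg h, Set.indicator_of_mem]
      simp only [Set.mem_Ici]
      exact not_lt.1 h
  have hset : Ioi (0 : ℝ) ∩ Ici c = Ici c := by
    ext α
    simp only [Set.mem_inter_iff, Set.mem_Ioi, Set.mem_Ici]
    constructor
    · exact fun h => h.2
    · intro h
      exact ⟨lt_of_lt_of_le hc h, h⟩
  constructor
  · rw [e]
    unfold IntegrableOn
    rw [integrable_indicator_iff measurableSet_Ici]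
    unfold IntegrableOn
    rw [Measure.restrict_restrict measurableSet_Ici, inter_comm, hset]
    have := integrableOn_Ioi_rpow_of_lt hs hc
    rw [← integrableOn_Ici_iff_integrableOn_Ioi] at this
    exact this
  · rw [e, setIntegral_indicator measurableSet_Ici, hset, integral_Ici_eq_integral_Ioi,
      integral_Ioi_rpow_of_lt hs hc]

end Marc

open MeasureTheory in
/-- Marcinkiewicz interpolation between weak (1,1) and strong (2,2) on finite weighted spaces. -/
theorem marcinkiewicz {ι κ : Type*} [Fintype ι] [Fintype κ] (μ : ι → ℝ) (ν : κ → ℝ)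
    (hμ : ∀ i, 0 ≤ μ i) (hν : ∀ i, 0 ≤ ν i) (T : (ι → ℂ) → (κ → ℂ))
    (hT : ∀ f g, T (f + g) = T f + T g) (A B : ℝ) (hA : 0 ≤ A) (hB : 0 ≤ B)
    (h1 : ∀ (f : ι → ℂ) (α : ℝ), 0 < α →
      α * ∑ y, (if α < ‖T f y‖ then ν y else 0) ≤ A * ∑ x, μ x * ‖f x‖)
    (h2 : ∀ f : ι → ℂ, ∑ y, ν y * ‖T f y‖ ^ 2 ≤ B * ∑ x, μ x * ‖f x‖ ^ 2)
    (p : ℝ) (hp : 1 < p) (hp2 : p < 2) (f : ι → ℂ) :
    ∑ y, ν y * ‖T f y‖ ^ p ≤
      (2 * A * p / (p - 1) + 4 * B * p / (2 - p)) * ∑ x, μ x * ‖f x‖ ^ p := by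
  classical
  -- the distributional inequality
  have key : ∀ α : ℝ, 0 < α → ∑ y, (if α < ‖T f y‖ then ν y else 0) ≤
      (2 * A / α) * ∑ x, μ x * (if α < ‖f x‖ then ‖f x‖ else 0) +
      (4 * B / α ^ 2) * ∑ x, μ x * (if α < ‖f x‖ then 0 else ‖f x‖ ^ 2) := by
    intro α hα
    let g : ι → ℂ := fun x => if α < ‖f x‖ then f x else 0
    let l : ι → ℂ := fun x => if α < ‖f x‖ then 0 else f x
    have hgl : f = g + l := by
      ext x
      by_cases h : α < ‖f x‖ <;> simp [g, l, h]
    have hsplit : ∑ y, (if α < ‖T f y‖ then ν y else 0) ≤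
        ∑ y, (if α / 2 < ‖T g y‖ then ν y else 0) + ∑ y, (if α / 2 < ‖T l y‖ then ν y else 0) := by
      rw [← Finset.sum_add_distrib]
      apply Finset.sum_le_sum
      intro y _
      have hy : T f y = T g y + T l y := by
        rw [hgl, hT]; rfl
      have hn : ‖T f y‖ ≤ ‖T g y‖ + ‖T l y‖ := by rw [hy]; exact norm_add_le _ _
      have hνy := hν y
      split_ifs with c1 c2 c3 c3 c2 c3 c3 <;> first | linarith | (exfalso; linarith)
    have e1 : ∑ x, μ x * ‖g x‖ = ∑ x, μ x * (if α < ‖f x‖ then ‖f x‖ else 0) := by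
      apply Finset.sum_congr rfl
      intro x _
      by_cases h : α < ‖f x‖ <;> simp [g, h]
    have e2 : ∑ x, μ x * ‖l x‖ ^ 2 = ∑ x, μ x * (if α < ‖f x‖ then 0 else ‖f x‖ ^ 2) := by
      apply Finset.sum_congr rfl
      intro x _
      by_cases h : α < ‖f x‖ <;> simp [l, h]
    have b1 : ∑ y, (if α / 2 < ‖T g y‖ then ν y else 0) ≤
        (2 * A / α) * ∑ x, μ x * (if α < ‖f x‖ then ‖f x‖ else 0) := by
      have h3 := h1 g (α / 2) (by positivity)
      rw [e1] at h3
      have h4 : ∀ X Y : ℝ, α / 2 * X ≤ A * Y → X ≤ 2 * A / α * Y := by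
        intro X Y h
        have : X = 2 / α * (α / 2 * X) := by field_simp
        rw [this]
        have h5 : 2 / α * (α / 2 * X) ≤ 2 / α * (A * Y) :=
          mul_le_mul_of_nonneg_left h (by positivity)
        refine h5.trans (le_of_eq ?_)
        ring
      exact h4 _ _ h3
    have b2 : ∑ y, (if α / 2 < ‖T l y‖ then ν y else 0) ≤
        (4 * B / α ^ 2) * ∑ x, μ x * (if α < ‖f x‖ then 0 else ‖f x‖ ^ 2) := by
      have h3 := h2 l
      rw [e2] at h3
      have h5 : (α / 2) ^ 2 * ∑ y, (if α / 2 < ‖T l y‖ then ν y else 0) ≤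
          ∑ y, ν y * ‖T l y‖ ^ 2 := by
        rw [Finset.mul_sum]
        apply Finset.sum_le_sum
        intro y _
        split_ifs with c
        · rw [mul_comm]
          apply mul_le_mul_of_nonneg_left _ (hν y)
          exact pow_le_pow_left₀ (by positivity) c.le 2
        · rw [mul_zero]
          exact mul_nonneg (hν y) (by positivity)
      have h4 : ∀ X Y : ℝ, (α / 2) ^ 2 * X ≤ B * Y → X ≤ 4 * B / α ^ 2 * Y := by
        intro X Y h
        have : X = 4 / α ^ 2 * ((α / 2) ^ 2 * X) := by field_simp; norm_num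
        rw [this]
        have h5 : 4 / α ^ 2 * ((α / 2) ^ 2 * X) ≤ 4 / α ^ 2 * (B * Y) :=
          mul_le_mul_of_nonneg_left h (by positivity)
        refine h5.trans (le_of_eq ?_)
        ring
      exact h4 _ _ (h5.trans h3)
    linarith
  -- integrate
  let L : ℝ → ℝ := fun α => ∑ y, (ν y * p) * (if α < ‖T f y‖ then α ^ (p - 1) else 0)
  let R : ℝ → ℝ := fun α => ∑ x, ((2 * A * p * μ x * ‖f x‖) * (if α < ‖f x‖ then α ^ (p - 2) else 0)
    + (4 * B * p * μ x * ‖f x‖ ^ 2) * (if α < ‖f x‖ then 0 else α ^ (p - 3)))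
  have hLR : ∀ α ∈ Set.Ioi (0 : ℝ), L α ≤ R α := by
    intro α hα
    have hα : 0 < α := hα
    have h3 := mul_le_mul_of_nonneg_left (key α hα) (show 0 ≤ p * α ^ (p - 1) by positivity)
    have e3 : L α = p * α ^ (p - 1) * ∑ y, (if α < ‖T f y‖ then ν y else 0) := by
      simp only [L]
      rw [Finset.mul_sum]
      apply Finset.sum_congr rfl
      intro y _
      split_ifs <;> ring
    have e4 : R α = p * α ^ (p - 1) * ((2 * A / α) * ∑ x, μ x * (if α < ‖f x‖ then ‖f x‖ else 0) +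
      (4 * B / α ^ 2) * ∑ x, μ x * (if α < ‖f x‖ then 0 else ‖f x‖ ^ 2)) := by
      simp only [R]
      rw [mul_add, Finset.mul_sum, Finset.mul_sum, Finset.mul_sum, Finset.mul_sum,
        ← Finset.sum_add_distrib]
      apply Finset.sum_congr rfl
      intro x _
      have r1 : α ^ (p - 2) = α ^ (p - 1) / α := by
        rw [show p - 2 = (p - 1) - 1 by ring, Real.rpow_sub_one hα.ne']
      have r2 : α ^ (p - 3) = α ^ (p - 1) / α ^ 2 := by
        rw [show p - 3 = ((p - 1) - 1) - 1 by ring, Real.rpow_sub_one hα.ne',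
          Real.rpow_sub_one hα.ne']
        field_simp
      rw [r1, r2]
      split_ifs <;> field_simp <;> ring
    rw [e3, e4]
    exact h3
  have hLi : ∀ y, IntegrableOn
      (fun α : ℝ => (ν y * p) * (if α < ‖T f y‖ then α ^ (p - 1) else 0)) (Set.Ioi 0) := by
    intro y
    exact ((Marc.low_int (p - 1) ‖T f y‖ (by linarith) (norm_nonneg _)).1).const_mul _
  have hRi1 : ∀ x, IntegrableOn
      (fun α : ℝ => (2 * A * p * μ x * ‖f x‖) * (if α < ‖f x‖ then α ^ (p - 2) else 0))
      (Set.Ioi 0) := by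
    intro x
    exact ((Marc.low_int (p - 2) ‖f x‖ (by linarith) (norm_nonneg _)).1).const_mul _
  have hRi2 : ∀ x, IntegrableOn
      (fun α : ℝ => (4 * B * p * μ x * ‖f x‖ ^ 2) * (if α < ‖f x‖ then 0 else α ^ (p - 3)))
      (Set.Ioi 0) := by
    intro x
    by_cases hx : 0 < ‖f x‖
    · exact ((Marc.high_int (p - 3) ‖f x‖ (by linarith) hx).1).const_mul _
    · have : ‖f x‖ = 0 := le_antisymm (not_lt.1 hx) (norm_nonneg _)
      simp [this]
  have hLI : IntegrableOn L (Set.Ioi 0) := by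
    apply integrable_finsetSum
    intro y _
    exact hLi y
  have hRI : IntegrableOn R (Set.Ioi 0) := by
    apply integrable_finsetSum
    intro x _
    exact (hRi1 x).add (hRi2 x)
  have hmono : ∫ α in Set.Ioi (0 : ℝ), L α ≤ ∫ α in Set.Ioi (0 : ℝ), R α :=
    setIntegral_mono_on hLI hRI measurableSet_Ioi hLR
  have hLval : ∫ α in Set.Ioi (0 : ℝ), L α = ∑ y, ν y * ‖T f y‖ ^ p := by
    simp only [L]
    rw [integral_finsetSum _ (fun y _ => hLi y)]
    apply Finset.sum_congr rfl
    intro y _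
    rw [integral_const_mul, (Marc.low_int (p - 1) ‖T f y‖ (by linarith) (norm_nonneg _)).2]
    have : p - 1 + 1 = p := by ring
    rw [this]
    have hp0 : p ≠ 0 := by linarith
    field_simp
  have hRval : ∫ α in Set.Ioi (0 : ℝ), R α =
      (2 * A * p / (p - 1) + 4 * B * p / (2 - p)) * ∑ x, μ x * ‖f x‖ ^ p := by
    simp only [R]
    have hRi : ∀ x ∈ (Finset.univ : Finset ι), Integrable
        (fun α : ℝ => (2 * A * p * μ x * ‖f x‖) * (if α < ‖f x‖ then α ^ (p - 2) else 0) +
          (4 * B * p * μ x * ‖f x‖ ^ 2) * (if α < ‖f x‖ then 0 else α ^ (p - 3)))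
        (volume.restrict (Set.Ioi 0)) := fun x _ => (hRi1 x).add (hRi2 x)
    rw [integral_finsetSum _ hRi, Finset.mul_sum]
    apply Finset.sum_congr rfl
    intro x _
    rw [integral_add (hRi1 x) (hRi2 x), integral_const_mul, integral_const_mul,
      (Marc.low_int (p - 2) ‖f x‖ (by linarith) (norm_nonneg _)).2]
    have hp1 : p - 1 ≠ 0 := by linarith
    have hp2' : 2 - p ≠ 0 := by linarith
    by_cases hx : 0 < ‖f x‖
    · rw [(Marc.high_int (p - 3) ‖f x‖ (by linarith) hx).2]
      have r1 : p - 2 + 1 = p - 1 := by ring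
      have r2 : p - 3 + 1 = p - 2 := by ring
      rw [r1, r2]
      have s1 : ‖f x‖ * ‖f x‖ ^ (p - 1) = ‖f x‖ ^ p := by
        rw [Real.rpow_sub_one hx.ne']
        field_simp
      have s2 : ‖f x‖ ^ 2 * ‖f x‖ ^ (p - 2) = ‖f x‖ ^ p := by
        rw [show p - 2 = (p - 1) - 1 by ring, Real.rpow_sub_one hx.ne', Real.rpow_sub_one hx.ne']
        field_simp
      have s3 : -‖f x‖ ^ (p - 2) / (p - 2) = ‖f x‖ ^ (p - 2) / (2 - p) := by
        rw [div_eq_div_iff (by linarith) (by linarith)]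
        ring
      rw [s3]
      calc 2 * A * p * μ x * ‖f x‖ * (‖f x‖ ^ (p - 1) / (p - 1)) +
            4 * B * p * μ x * ‖f x‖ ^ 2 * (‖f x‖ ^ (p - 2) / (2 - p))
          = 2 * A * p * μ x / (p - 1) * (‖f x‖ * ‖f x‖ ^ (p - 1)) +
            4 * B * p * μ x / (2 - p) * (‖f x‖ ^ 2 * ‖f x‖ ^ (p - 2)) := by ring
        _ = _ := by rw [s1, s2]; ring
    · have h0 : ‖f x‖ = 0 := le_antisymm (not_lt.1 hx) (norm_nonneg _)
      rw [h0]
      have : (0 : ℝ) ^ p = 0 := Real.zero_rpow (by linarith)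
      rw [this]
      simp
  rw [← hLval, ← hRval]
  exact hmono
end Pool.Agent.H72.MT
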