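import Pool.Agent.H72.MT.Basic2
import Pool.Agent.H72.MT.Defs
import Pool.Agent.H72.MT.Marc

set_option autoImplicit false

namespace Pool.Agent.H72.MT

open Finset
open scoped BigOperators

noncomputable section

namespace Dya

/-- coefficients of the de la Vallée Poussin kernel -/
def Vc (M : ℕ) (j : ℤ) : ℝ := 2 * tri (2 * M) j - tri M j

lemma Vc_eq {M : ℕ} (hM : 0 < M) (j : ℤ) : Vc M j = min 1 (max 0 (2 - |(j : ℝ)| / M)) := by
  have hM' : (0 : ℝ) < M := by exact_mod_cast hM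
  have h2 : |(j : ℝ)| / ((2 * M : ℕ) : ℝ) = |(j : ℝ)| / M / 2 := by
    push_cast
    field_simp
  unfold Vc tri
  rw [h2]
  set a := |(j : ℝ)| / M with ha
  have ha0 : 0 ≤ a := by positivity
  rcases le_total a 1 with h | h
  · rw [max_eq_right (by linarith : (0 : ℝ) ≤ 1 - a / 2), max_eq_right (by linarith : (0 : ℝ) ≤ 1 - a),
      max_eq_right (by linarith : (0 : ℝ) ≤ 2 - a), min_eq_left (by linarith)]
    ring
  · rw [max_eq_left (by linarith : 1 - a ≤ (0 : ℝ))]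
    rcases le_total a 2 with h' | h'
    · rw [max_eq_right (by linarith : (0 : ℝ) ≤ 1 - a / 2),
        max_eq_right (by linarith : (0 : ℝ) ≤ 2 - a), min_eq_right (by linarith)]
      ring
    · rw [max_eq_left (by linarith : 1 - a / 2 ≤ (0 : ℝ)), max_eq_left (by linarith : 2 - a ≤ (0 : ℝ)),
        min_eq_right (by norm_num)]
      ring

lemma Vc_nonneg {M : ℕ} (hM : 0 < M) (j : ℤ) : 0 ≤ Vc M j := by
  rw [Vc_eq hM]
  exact le_min zero_le_one (le_max_left _ _)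

lemma Vc_le_one {M : ℕ} (hM : 0 < M) (j : ℤ) : Vc M j ≤ 1 := by
  rw [Vc_eq hM]
  exact min_le_left _ _

lemma Vc_one {M : ℕ} (hM : 0 < M) {j : ℤ} (hj : |j| ≤ M) : Vc M j = 1 := by
  have hM' : (0 : ℝ) < M := by exact_mod_cast hM
  rw [Vc_eq hM]
  have h1 : |(j : ℝ)| / M ≤ 1 := by
    rw [div_le_one hM']
    exact_mod_cast hj
  rw [max_eq_right (by linarith), min_eq_left (by linarith)]

lemma Vc_zero {M : ℕ} (hM : 0 < M) {j : ℤ} (hj : 2 * (M : ℤ) ≤ |j|) : Vc M j = 0 := by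
  have hM' : (0 : ℝ) < M := by exact_mod_cast hM
  rw [Vc_eq hM]
  have h1 : 2 ≤ |(j : ℝ)| / M := by
    rw [le_div_iff₀ hM']
    exact_mod_cast hj
  rw [max_eq_left (by linarith), min_eq_right (by norm_num)]

lemma Vc_mono {M M' : ℕ} (hM : 0 < M) (h : M ≤ M') (j : ℤ) : Vc M j ≤ Vc M' j := by
  have hM' : (0 : ℝ) < M := by exact_mod_cast hM
  rw [Vc_eq hM, Vc_eq (lt_of_lt_of_le hM h)]
  apply min_le_min le_rfl
  apply max_le_max le_rfl
  have : |(j : ℝ)| / M' ≤ |(j : ℝ)| / M := by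
    apply div_le_div_of_nonneg_left (abs_nonneg _) hM'
    exact_mod_cast h
  linarith

/-- de la Vallée Poussin kernel -/
def Vk (M : ℕ) (t : ℝ) : ℝ := 2 * Fej (2 * M) t - Fej M t

/-- coefficients of the block multiplier -/
def vc (s : ℕ) (j : ℤ) : ℝ := Vc (2 ^ s) j - (if 2 ≤ s then Vc (2 ^ (s - 2)) j else 0)

/-- kernel of the block multiplier -/
def vk (s : ℕ) (t : ℝ) : ℝ := Vk (2 ^ s) t - (if 2 ≤ s then Vk (2 ^ (s - 2)) t else 0)

lemma vc_nonneg (s : ℕ) (j : ℤ) : 0 ≤ vc s j := by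
  unfold vc
  split_ifs with h
  · have := Vc_mono (M := 2 ^ (s - 2)) (M' := 2 ^ s) (by positivity)
      (Nat.pow_le_pow_right (by norm_num) (by omega)) j
    linarith
  · have := Vc_nonneg (M := 2 ^ s) (by positivity) j
    linarith

lemma vc_le_one (s : ℕ) (j : ℤ) : vc s j ≤ 1 := by
  unfold vc
  have h1 := Vc_le_one (M := 2 ^ s) (by positivity) j
  split_ifs with h
  · have := Vc_nonneg (M := 2 ^ (s - 2)) (by positivity) j
    linarith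
  · linarith

lemma vc_sum (S : ℕ) (j : ℤ) : ∑ s ∈ range (S + 1), vc s j ≤ 2 := by
  have h : ∀ S : ℕ, ∑ s ∈ range (S + 1), vc s j =
      Vc (2 ^ S) j + (if 1 ≤ S then Vc (2 ^ (S - 1)) j else 0) := by
    intro S
    induction S with
    | zero => simp [vc]
    | succ S ih =>
      rw [Finset.sum_range_succ, ih]
      unfold vc
      rcases Nat.eq_zero_or_pos S with h0 | h0
      · subst h0
        simp
        ring
      · rw [if_pos (by omega : 1 ≤ S), if_pos (by omega : 2 ≤ S + 1), if_pos (by omega : 1 ≤ S + 1)]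
        have e1 : S + 1 - 2 = S - 1 := by omega
        have e2 : S + 1 - 1 = S := by omega
        rw [e1, e2]
        ring
  rw [h S]
  have h1 := Vc_le_one (M := 2 ^ S) (by positivity) j
  split_ifs
  · have h2 := Vc_le_one (M := 2 ^ (S - 1)) (by positivity) j
    linarith
  · linarith

lemma vc_blk {s : ℕ} {j : ℤ} (hj : j ∈ blk s) : vc s j = 1 := by
  unfold blk at hj
  rw [mem_filter, mem_Ioo] at hj
  obtain ⟨⟨h1, h2⟩, h3⟩ := hj
  have h4 : |j| ≤ ((2 ^ s : ℕ) : ℤ) := by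
    push_cast
    rw [abs_le]
    constructor <;> linarith
  unfold vc
  rw [Vc_one (by positivity) h4]
  split_ifs with hs
  · have h5 : 2 * ((2 ^ (s - 2) : ℕ) : ℤ) ≤ |j| := by
      have e : (2 ^ s / 2 : ℕ) = 2 * 2 ^ (s - 2) := by
        obtain ⟨k, rfl⟩ : ∃ k, s = k + 2 := ⟨s - 2, by omega⟩
        rw [pow_add]
        simp
        omega
      rw [e] at h3
      push_cast at h3 ⊢
      exact h3
    rw [Vc_zero (by positivity) h5]
    ring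
  · ring

/-- frequencies -/
def Xi (S : ℕ) : Finset ℤ := Ioo (-(2 ^ (S + 1) : ℤ)) (2 ^ (S + 1))

lemma Fej_expand' {h S : ℕ} (hh : 0 < h) (hS : h ≤ 2 ^ (S + 1)) (t : ℝ) :
    (Fej h t : ℂ) = ∑ m ∈ Xi S, (tri h m : ℂ) * ee (m * t) := by
  rw [Fej_expand hh]
  apply Finset.sum_subset
  · intro m hm
    unfold Xi
    rw [mem_Ioo] at hm ⊢
    have : (h : ℤ) ≤ 2 ^ (S + 1) := by exact_mod_cast hS
    constructor <;> linarith [hm.1, hm.2]
  · intro m _ hm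
    rw [tri_eq_zero hh]
    · simp
    · by_contra hc
      push Not at hc
      apply hm
      rw [mem_Ioo]
      exact abs_lt.1 hc

lemma Vk_expand {M S : ℕ} (hM : 0 < M) (hS : 2 * M ≤ 2 ^ (S + 1)) (t : ℝ) :
    (Vk M t : ℂ) = ∑ m ∈ Xi S, (Vc M m : ℂ) * ee (m * t) := by
  unfold Vk Vc
  push_cast
  rw [Fej_expand' (by positivity : 0 < 2 * M) hS, Fej_expand' hM (by omega : M ≤ 2 ^ (S + 1)),
    Finset.mul_sum, ← Finset.sum_sub_distrib]
  apply Finset.sum_congr rfl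
  intro m _
  ring

lemma vk_expand {s S : ℕ} (hs : s ≤ S) (t : ℝ) :
    (vk s t : ℂ) = ∑ m ∈ Xi S, (vc s m : ℂ) * ee (m * t) := by
  have h1 : 2 * 2 ^ s ≤ 2 ^ (S + 1) := by
    have : 2 ^ (s + 1) ≤ 2 ^ (S + 1) := Nat.pow_le_pow_right (by norm_num) (by omega)
    rw [pow_succ] at this
    linarith
  have h2 : 2 * 2 ^ (s - 2) ≤ 2 ^ (S + 1) := by
    have : 2 ^ (s - 2 + 1) ≤ 2 ^ (S + 1) := Nat.pow_le_pow_right (by norm_num) (by omega)
    rw [pow_succ] at this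
    linarith
  unfold vk vc
  split_ifs with h
  · push_cast
    rw [Vk_expand (by positivity) h1, Vk_expand (by positivity) h2, ← Finset.sum_sub_distrib]
    apply Finset.sum_congr rfl
    intro m _
    ring
  · rw [sub_zero, Vk_expand (by positivity) h1]
    apply Finset.sum_congr rfl
    intro m _
    rw [sub_zero]

lemma Fej_grid_mean {h N : ℕ} (hh : 0 < h) (hN : h ≤ N) (y : ℝ) :
    ∑ x ∈ range N, Fej h ((x : ℝ) / N - y) = N := by
  have hN0 : 0 < N := lt_of_lt_of_le hh hN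
  have h1 : ((∑ x ∈ range N, Fej h ((x : ℝ) / N - y) : ℝ) : ℂ) = (N : ℂ) := by
    push_cast
    have h2 : ∀ x ∈ range N, (Fej h ((x : ℝ) / N - y) : ℂ) =
        ∑ m ∈ Ioo (-(h : ℤ)) h, ((tri h m : ℂ) * ee (-(m * y))) * ee (m * ((x : ℝ) / N)) := by
      intro x _
      rw [Fej_expand hh]
      apply Finset.sum_congr rfl
      intro m _
      rw [show (m : ℝ) * ((x : ℝ) / N - y) = -(m * y) + m * ((x : ℝ) / N) by ring, ee_add]
      ring
    rw [Finset.sum_congr rfl h2, Finset.sum_comm, Finset.sum_eq_single 0]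
    · rw [← Finset.mul_sum, grid_orth N hN0]
      simp [tri_zero, ee_zero]
    · intro m hm hm0
      rw [← Finset.mul_sum, grid_orth N hN0, if_neg, mul_zero]
      intro hd
      rw [mem_Ioo] at hm
      have h3 := Int.le_of_dvd (abs_pos.2 hm0) ((dvd_abs _ _).2 hd)
      have h4 : |m| < h := abs_lt.2 hm
      have h5 : (h : ℤ) ≤ N := by exact_mod_cast hN
      linarith
    · intro h0
      exfalso
      apply h0
      rw [mem_Ioo]
      constructor <;> omega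
  exact_mod_cast h1

lemma Vk_grid {M N : ℕ} (hM : 0 < M) (hN : 2 * M ≤ N) (y : ℝ) :
    ∑ x ∈ range N, |Vk M ((x : ℝ) / N - y)| ≤ 3 * N := by
  have h1 : ∀ x ∈ range N, |Vk M ((x : ℝ) / N - y)| ≤
      2 * Fej (2 * M) ((x : ℝ) / N - y) + Fej M ((x : ℝ) / N - y) := by
    intro x _
    unfold Vk
    have a := Fej_nonneg (2 * M) ((x : ℝ) / N - y)
    have b := Fej_nonneg M ((x : ℝ) / N - y)
    rw [abs_le]
    constructor <;> linarith
  refine (Finset.sum_le_sum h1).trans ?_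
  rw [Finset.sum_add_distrib, ← Finset.mul_sum, Fej_grid_mean (by positivity) hN,
    Fej_grid_mean hM (by omega)]
  linarith

lemma vk_grid {s N : ℕ} (hN : 2 * 2 ^ s ≤ N) (y : ℝ) :
    ∑ x ∈ range N, |vk s ((x : ℝ) / N - y)| ≤ 6 * N := by
  have hle : 2 ^ (s - 2) ≤ 2 ^ s := Nat.pow_le_pow_right (by norm_num) (by omega)
  have h1 : ∀ x ∈ range N, |vk s ((x : ℝ) / N - y)| ≤
      |Vk (2 ^ s) ((x : ℝ) / N - y)| + |Vk (2 ^ (s - 2)) ((x : ℝ) / N - y)| := by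
    intro x _
    unfold vk
    split_ifs
    · exact abs_sub _ _
    · rw [sub_zero]
      linarith [abs_nonneg (Vk (2 ^ (s - 2)) ((x : ℝ) / N - y))]
  refine (Finset.sum_le_sum h1).trans ?_
  rw [Finset.sum_add_distrib]
  have a := Vk_grid (M := 2 ^ s) (by positivity) hN y
  have b := Vk_grid (M := 2 ^ (s - 2)) (N := N) (by positivity) (by omega) y
  linarith

/-- the operator -/
def TT (R S : ℕ) (H : ℕ → ℕ → ℂ) (x : ℕ) : ℂ :=
  ((2 ^ R : ℕ) : ℂ)⁻¹ * ∑ s ∈ range (S + 1), ∑ y ∈ range (2 ^ R),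
    H s y * (vk s ((x : ℝ) / (2 ^ R : ℕ) - (y : ℝ) / (2 ^ R : ℕ)) : ℂ)

/-- discrete Fourier coefficients -/
def dc (R : ℕ) (h : ℕ → ℂ) (ξ : ℤ) : ℂ :=
  ((2 ^ R : ℕ) : ℂ)⁻¹ * ∑ x ∈ range (2 ^ R), h x * ee (-(ξ * ((x : ℝ) / (2 ^ R : ℕ))))

lemma TT_add (R S : ℕ) (H G : ℕ → ℕ → ℂ) (x : ℕ) :
    TT R S (fun s y => H s y + G s y) x = TT R S H x + TT R S G x := by
  unfold TT
  rw [← mul_add, ← Finset.sum_add_distrib]
  congr 1
  apply Finset.sum_congr rfl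
  intro s _
  rw [← Finset.sum_add_distrib]
  apply Finset.sum_congr rfl
  intro y _
  ring

lemma TT_eq (R S : ℕ) (H : ℕ → ℕ → ℂ) (x : ℕ) :
    TT R S H x = ∑ ξ ∈ Xi S, (∑ s ∈ range (S + 1), (vc s ξ : ℂ) * dc R (H s) ξ) *
      ee (ξ * ((x : ℝ) / (2 ^ R : ℕ))) := by
  have h1 : ∀ s ∈ range (S + 1), ∑ y ∈ range (2 ^ R),
      H s y * (vk s ((x : ℝ) / (2 ^ R : ℕ) - (y : ℝ) / (2 ^ R : ℕ)) : ℂ) =
      ∑ ξ ∈ Xi S, (((2 ^ R : ℕ) : ℂ) * ((vc s ξ : ℂ) * dc R (H s) ξ)) *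
        ee (ξ * ((x : ℝ) / (2 ^ R : ℕ))) := by
    intro s hs
    have hs' : s ≤ S := by rw [mem_range] at hs; omega
    have h2 : ∀ y ∈ range (2 ^ R), H s y * (vk s ((x : ℝ) / (2 ^ R : ℕ) - (y : ℝ) / (2 ^ R : ℕ)) : ℂ) =
        ∑ ξ ∈ Xi S, (vc s ξ : ℂ) * (H s y * ee (-(ξ * ((y : ℝ) / (2 ^ R : ℕ))))) *
          ee (ξ * ((x : ℝ) / (2 ^ R : ℕ))) := by
      intro y _
      rw [vk_expand hs', Finset.mul_sum]
      apply Finset.sum_congr rfl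
      intro ξ _
      rw [show (ξ : ℝ) * ((x : ℝ) / (2 ^ R : ℕ) - (y : ℝ) / (2 ^ R : ℕ)) =
        -(ξ * ((y : ℝ) / (2 ^ R : ℕ))) + ξ * ((x : ℝ) / (2 ^ R : ℕ)) by ring, ee_add]
      ring
    rw [Finset.sum_congr rfl h2, Finset.sum_comm]
    apply Finset.sum_congr rfl
    intro ξ _
    rw [← Finset.sum_mul, ← Finset.mul_sum]
    unfold dc
    have : ((2 ^ R : ℕ) : ℂ) ≠ 0 := by
      have : (2 ^ R : ℕ) ≠ 0 := by positivity
      exact_mod_cast this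
    field_simp
  unfold TT
  rw [Finset.sum_congr rfl h1, Finset.sum_comm, Finset.mul_sum]
  apply Finset.sum_congr rfl
  intro ξ _
  rw [← Finset.sum_mul, ← Finset.mul_sum]
  have : ((2 ^ R : ℕ) : ℂ) ≠ 0 := by
    have : (2 ^ R : ℕ) ≠ 0 := by positivity
    exact_mod_cast this
  field_simp

lemma Xi_res {R S : ℕ} (hR : S + 3 ≤ R) : ∀ ξ ∈ Xi S, ∀ η ∈ Xi S,
    (((2 ^ R : ℕ) : ℤ)) ∣ ξ - η → ξ = η := by
  intro ξ hξ η hη hd
  unfold Xi at hξ hη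
  rw [mem_Ioo] at hξ hη
  have h1 : (2 : ℤ) ^ (S + 1) * 2 ≤ 2 ^ R := by
    rw [← pow_succ]
    exact pow_le_pow_right₀ (by norm_num) (by omega)
  have h2 : |ξ - η| < ((2 ^ R : ℕ) : ℤ) := by
    push_cast
    rw [abs_lt]
    constructor <;> linarith [hξ.1, hξ.2, hη.1, hη.2]
  have := Int.eq_zero_of_abs_lt_dvd hd h2
  linarith

lemma TT_l1 {R S : ℕ} (hR : S + 3 ≤ R) (H : ℕ → ℕ → ℂ) :
    ∑ x ∈ range (2 ^ R), ‖TT R S H x‖ ≤ 6 * ∑ s ∈ range (S + 1), ∑ y ∈ range (2 ^ R), ‖H s y‖ := by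
  have hN : (0 : ℝ) < ((2 ^ R : ℕ) : ℝ) := by positivity
  have h1 : ∀ x ∈ range (2 ^ R), ‖TT R S H x‖ ≤ ((2 ^ R : ℕ) : ℝ)⁻¹ *
      ∑ s ∈ range (S + 1), ∑ y ∈ range (2 ^ R),
        ‖H s y‖ * |vk s ((x : ℝ) / (2 ^ R : ℕ) - (y : ℝ) / (2 ^ R : ℕ))| := by
    intro x _
    unfold TT
    rw [norm_mul, norm_inv, Complex.norm_natCast]
    apply mul_le_mul_of_nonneg_left _ (by positivity)
    refine (norm_sum_le _ _).trans ?_
    apply Finset.sum_le_sum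
    intro s _
    refine (norm_sum_le _ _).trans ?_
    apply Finset.sum_le_sum
    intro y _
    rw [norm_mul, Complex.norm_real, Real.norm_eq_abs]
  refine (Finset.sum_le_sum h1).trans ?_
  rw [← Finset.mul_sum, Finset.sum_comm, Finset.mul_sum, Finset.mul_sum]
  apply Finset.sum_le_sum
  intro s hs
  have hs' : s ≤ S := by rw [mem_range] at hs; omega
  rw [Finset.sum_comm, Finset.mul_sum, Finset.mul_sum]
  apply Finset.sum_le_sum
  intro y _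
  rw [← Finset.mul_sum]
  have h2 : 2 * 2 ^ s ≤ 2 ^ R := by
    have : 2 ^ (s + 1) ≤ 2 ^ R := Nat.pow_le_pow_right (by norm_num) (by omega)
    rw [pow_succ] at this
    linarith
  have h3 := vk_grid h2 ((y : ℝ) / (2 ^ R : ℕ))
  rw [inv_mul_le_iff₀ hN]
  calc ‖H s y‖ * ∑ x ∈ range (2 ^ R), |vk s ((x : ℝ) / (2 ^ R : ℕ) - (y : ℝ) / (2 ^ R : ℕ))|
      ≤ ‖H s y‖ * (6 * ((2 ^ R : ℕ) : ℝ)) := mul_le_mul_of_nonneg_left h3 (norm_nonneg _)
    _ = _ := by ring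

lemma TT_l2 {R S : ℕ} (hR : S + 3 ≤ R) (H : ℕ → ℕ → ℂ) :
    ∑ x ∈ range (2 ^ R), ‖TT R S H x‖ ^ 2 ≤
      2 * ∑ s ∈ range (S + 1), ∑ y ∈ range (2 ^ R), ‖H s y‖ ^ 2 := by
  have hN : (0 : ℝ) < ((2 ^ R : ℕ) : ℝ) := by positivity
  have h1 : ∑ x ∈ range (2 ^ R), ‖TT R S H x‖ ^ 2 =
      ((2 ^ R : ℕ) : ℝ) * ∑ ξ ∈ Xi S, ‖∑ s ∈ range (S + 1), (vc s ξ : ℂ) * dc R (H s) ξ‖ ^ 2 := by
    rw [← grid_parseval (2 ^ R) (by positivity) (Xi S) (Xi_res hR) _ 0]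
    apply Finset.sum_congr rfl
    intro x _
    rw [TT_eq]
    simp
  rw [h1]
  have h2 : ∀ ξ ∈ Xi S, ‖∑ s ∈ range (S + 1), (vc s ξ : ℂ) * dc R (H s) ξ‖ ^ 2 ≤
      2 * ∑ s ∈ range (S + 1), ‖dc R (H s) ξ‖ ^ 2 := by
    intro ξ _
    have a1 : ‖∑ s ∈ range (S + 1), (vc s ξ : ℂ) * dc R (H s) ξ‖ ≤
        ∑ s ∈ range (S + 1), vc s ξ * ‖dc R (H s) ξ‖ := by
      refine (norm_sum_le _ _).trans (le_of_eq ?_)
      apply Finset.sum_congr rfl
      intro s _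
      rw [norm_mul, Complex.norm_real, Real.norm_eq_abs, abs_of_nonneg (vc_nonneg s ξ)]
    have a2 : (∑ s ∈ range (S + 1), vc s ξ * ‖dc R (H s) ξ‖) ^ 2 ≤
        (∑ s ∈ range (S + 1), vc s ξ ^ 2) * ∑ s ∈ range (S + 1), ‖dc R (H s) ξ‖ ^ 2 :=
      Finset.sum_mul_sq_le_sq_mul_sq _ _ _
    have a3 : ∑ s ∈ range (S + 1), vc s ξ ^ 2 ≤ 2 := by
      refine le_trans ?_ (vc_sum S ξ)
      apply Finset.sum_le_sum
      intro s _
      nlinarith [vc_nonneg s ξ, vc_le_one s ξ]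
    have a4 : 0 ≤ ∑ s ∈ range (S + 1), ‖dc R (H s) ξ‖ ^ 2 :=
      Finset.sum_nonneg (fun _ _ => by positivity)
    calc ‖∑ s ∈ range (S + 1), (vc s ξ : ℂ) * dc R (H s) ξ‖ ^ 2
        ≤ (∑ s ∈ range (S + 1), vc s ξ * ‖dc R (H s) ξ‖) ^ 2 :=
          pow_le_pow_left₀ (norm_nonneg _) a1 2
      _ ≤ _ := a2
      _ ≤ _ := mul_le_mul_of_nonneg_right a3 a4
  calc ((2 ^ R : ℕ) : ℝ) * ∑ ξ ∈ Xi S, ‖∑ s ∈ range (S + 1), (vc s ξ : ℂ) * dc R (H s) ξ‖ ^ 2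
      ≤ ((2 ^ R : ℕ) : ℝ) * ∑ ξ ∈ Xi S, (2 * ∑ s ∈ range (S + 1), ‖dc R (H s) ξ‖ ^ 2) :=
        mul_le_mul_of_nonneg_left (Finset.sum_le_sum h2) hN.le
    _ = 2 * ∑ s ∈ range (S + 1), ((2 ^ R : ℕ) : ℝ) * ∑ ξ ∈ Xi S, ‖dc R (H s) ξ‖ ^ 2 := by
        rw [← Finset.mul_sum, Finset.sum_comm, ← Finset.mul_sum]
        ring
    _ ≤ 2 * ∑ s ∈ range (S + 1), ∑ y ∈ range (2 ^ R), ‖H s y‖ ^ 2 := by
        apply mul_le_mul_of_nonneg_left _ (by norm_num)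
        apply Finset.sum_le_sum
        intro s _
        have := grid_bessel (2 ^ R) (by positivity) (Xi S) (Xi_res hR) (H s)
        have h3 : ∑ ξ ∈ Xi S, ‖dc R (H s) ξ‖ ^ 2 ≤
            ((2 ^ R : ℕ) : ℝ)⁻¹ * ∑ y ∈ range (2 ^ R), ‖H s y‖ ^ 2 := this
        rw [le_inv_mul_iff₀ hN] at h3
        exact h3

lemma dc_trig {R S : ℕ} (hR : S + 3 ≤ R) (Q : Finset ℤ) (hQ : Q ⊆ Xi S) (u : ℤ → ℂ) (ξ : ℤ)
    (hξ : ξ ∈ Xi S) :
    dc R (fun x => ∑ η ∈ Q, u η * ee (η * ((x : ℝ) / (2 ^ R : ℕ)))) ξ = if ξ ∈ Q then u ξ else 0 := by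
  have hNn : 0 < (2 ^ R : ℕ) := by positivity
  have hN : ((2 ^ R : ℕ) : ℂ) ≠ 0 := by exact_mod_cast hNn.ne'
  unfold dc
  have h1 : ∀ x ∈ range (2 ^ R), (∑ η ∈ Q, u η * ee (η * ((x : ℝ) / (2 ^ R : ℕ)))) *
      ee (-(ξ * ((x : ℝ) / (2 ^ R : ℕ)))) =
      ∑ η ∈ Q, u η * ee (((η - ξ : ℤ) : ℝ) * ((x : ℝ) / (2 ^ R : ℕ))) := by
    intro x _
    rw [Finset.sum_mul]
    apply Finset.sum_congr rfl
    intro η _
    rw [mul_assoc, ← ee_add]
    congr 2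
    push_cast
    ring
  rw [Finset.sum_congr rfl h1, Finset.sum_comm]
  have h2 : ∀ η ∈ Q, ∑ x ∈ range (2 ^ R), u η * ee (((η - ξ : ℤ) : ℝ) * ((x : ℝ) / (2 ^ R : ℕ))) =
      if η = ξ then u η * ((2 ^ R : ℕ) : ℂ) else 0 := by
    intro η hη
    rw [← Finset.mul_sum, grid_orth (2 ^ R) hNn]
    split_ifs with c1 c2 c2
    · rfl
    · exact absurd (Xi_res hR η (hQ hη) ξ hξ c1) c2
    · exact absurd (by rw [c2, sub_self]; exact dvd_zero _) c1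
    · rw [mul_zero]
  rw [Finset.sum_congr rfl h2]
  by_cases hq : ξ ∈ Q
  · rw [Finset.sum_eq_single ξ]
    · rw [if_pos rfl, if_pos hq]
      field_simp
    · intro η _ hne
      rw [if_neg hne]
    · intro h; exact absurd hq h
  · rw [if_neg hq, Finset.sum_eq_zero, mul_zero]
    intro η hη
    rw [if_neg]
    rintro rfl
    exact hq hη

lemma blk_sub {s S : ℕ} (hs : s ≤ S) : blk s ⊆ Xi S := by
  intro j hj
  unfold blk at hj
  rw [mem_filter, mem_Ioo] at hj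
  unfold Xi
  rw [mem_Ioo]
  have : (2 : ℤ) ^ s ≤ 2 ^ (S + 1) := pow_le_pow_right₀ (by norm_num) (by omega)
  constructor <;> linarith [hj.1.1, hj.1.2]

lemma TT_rep {R S : ℕ} (hR : S + 3 ≤ R) (u : ℤ → ℂ) (x : ℕ) :
    TT R S (fun s y => ∑ ξ ∈ blk s, u ξ * ee (ξ * ((y : ℝ) / (2 ^ R : ℕ)))) x =
      ∑ s ∈ range (S + 1), ∑ ξ ∈ blk s, u ξ * ee (ξ * ((x : ℝ) / (2 ^ R : ℕ))) := by
  rw [TT_eq]
  have h1 : ∀ ξ ∈ Xi S, (∑ s ∈ range (S + 1), (vc s ξ : ℂ) *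
      dc R (fun y => ∑ ξ ∈ blk s, u ξ * ee (ξ * ((y : ℝ) / (2 ^ R : ℕ)))) ξ) *
      ee (ξ * ((x : ℝ) / (2 ^ R : ℕ))) =
      ∑ s ∈ range (S + 1), (if ξ ∈ blk s then u ξ * ee (ξ * ((x : ℝ) / (2 ^ R : ℕ))) else 0) := by
    intro ξ hξ
    rw [Finset.sum_mul]
    apply Finset.sum_congr rfl
    intro s hs
    have hs' : s ≤ S := by rw [mem_range] at hs; omega
    rw [dc_trig hR (blk s) (blk_sub hs') u ξ hξ]
    split_ifs with h
    · rw [vc_blk h]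
      push_cast
      ring
    · ring
  rw [Finset.sum_congr rfl h1, Finset.sum_comm]
  apply Finset.sum_congr rfl
  intro s hs
  have hs' : s ≤ S := by rw [mem_range] at hs; omega
  rw [← Finset.sum_filter]
  apply Finset.sum_congr _ (fun _ _ => rfl)
  ext ξ
  rw [mem_filter]
  exact ⟨fun h => h.2, fun h => ⟨blk_sub hs' h, h⟩⟩

/-- extension of a function on a finite type -/
def extF {S N : ℕ} (h : Fin (S + 1) × Fin N → ℂ) (s y : ℕ) : ℂ :=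
  if hs : s < S + 1 then if hy : y < N then h (⟨s, hs⟩, ⟨y, hy⟩) else 0 else 0

lemma extF_add {S N : ℕ} (h g : Fin (S + 1) × Fin N → ℂ) :
    extF (h + g) = fun s y => extF h s y + extF g s y := by
  funext s y
  unfold extF
  split_ifs <;> simp

lemma sum_extF {S N : ℕ} (h : Fin (S + 1) × Fin N → ℂ) (φ : ℂ → ℝ) :
    ∑ s ∈ range (S + 1), ∑ y ∈ range N, φ (extF h s y) = ∑ p, φ (h p) := by
  rw [Fintype.sum_prod_type, Finset.sum_range]
  apply Finset.sum_congr rfl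
  intro s _
  rw [Finset.sum_range]
  apply Finset.sum_congr rfl
  intro y _
  unfold extF
  rw [dif_pos s.2, dif_pos y.2]

end Dya

open Dya in
/-- Module J. One-dimensional type-`q` inequality for dyadic blocks on the grid:
Marcinkiewicz for `T(h) = ∑_s v_s * h_s`, `v_s` de la Vallée Poussin differences
(`v_s = V_{2^s} - V_{2^(s-2)}`, `V_M = 2 Fej_{2M} - Fej_M`; (1,1) norm ≤ 6; each frequency in at most
4 supports gives (2,2)). -/
theorem dyadic_1d (q : ℝ) (hq : 1 < q) (hq2 : q < 2) : ∃ C : ℝ, 0 < C ∧ ∀ (R S : ℕ), S + 3 ≤ R →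
    ∀ u : ℤ → ℂ,
    ∑ x ∈ range (2 ^ R), ‖∑ s ∈ range (S + 1), ∑ ξ ∈ blk s, u ξ * ee (ξ * ((x : ℝ) / 2 ^ R))‖ ^ q ≤
      C * ∑ s ∈ range (S + 1), ∑ x ∈ range (2 ^ R),
        ‖∑ ξ ∈ blk s, u ξ * ee (ξ * ((x : ℝ) / 2 ^ R))‖ ^ q := by
  have hq1 : 0 < q - 1 := by linarith
  have hq3 : 0 < 2 - q := by linarith
  refine ⟨2 * 6 * q / (q - 1) + 4 * 2 * q / (2 - q), by positivity, ?_⟩
  intro R S hR u
  let T : (Fin (S + 1) × Fin (2 ^ R) → ℂ) → (Fin (2 ^ R) → ℂ) := fun h x => TT R S (extF h) x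
  have hT : ∀ f g, T (f + g) = T f + T g := by
    intro f g
    funext x
    simp only [T, Pi.add_apply]
    rw [extF_add, TT_add]
  have h1 : ∀ (f : Fin (S + 1) × Fin (2 ^ R) → ℂ) (α : ℝ), 0 < α →
      α * ∑ y, (if α < ‖T f y‖ then (1 : ℝ) else 0) ≤ 6 * ∑ x, (1 : ℝ) * ‖f x‖ := by
    intro f α hα
    have a1 : α * ∑ y, (if α < ‖T f y‖ then (1 : ℝ) else 0) ≤ ∑ y, ‖T f y‖ := by
      rw [Finset.mul_sum]
      apply Finset.sum_le_sum
      intro y _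
      split_ifs with h
      · linarith
      · rw [mul_zero]; exact norm_nonneg _
    refine a1.trans ?_
    have a2 := TT_l1 hR (extF f)
    rw [Finset.sum_range, sum_extF f (fun z => ‖z‖)] at a2
    simpa using a2
  have h2 : ∀ f : Fin (S + 1) × Fin (2 ^ R) → ℂ, ∑ y, (1 : ℝ) * ‖T f y‖ ^ 2 ≤
      2 * ∑ x, (1 : ℝ) * ‖f x‖ ^ 2 := by
    intro f
    have a2 := TT_l2 hR (extF f)
    rw [Finset.sum_range, sum_extF f (fun z => ‖z‖ ^ 2)] at a2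
    simpa using a2
  let f : Fin (S + 1) × Fin (2 ^ R) → ℂ := fun p =>
    ∑ ξ ∈ blk p.1, u ξ * ee (ξ * (((p.2 : ℕ) : ℝ) / (2 ^ R : ℕ)))
  have hm := marcinkiewicz (fun _ : Fin (S + 1) × Fin (2 ^ R) => (1 : ℝ))
    (fun _ : Fin (2 ^ R) => (1 : ℝ)) (fun _ => zero_le_one) (fun _ => zero_le_one) T hT 6 2
    (by norm_num) (by norm_num) h1 h2 q hq hq2 f
  have e1 : ∑ y : Fin (2 ^ R), (1 : ℝ) * ‖T f y‖ ^ q =
      ∑ x ∈ range (2 ^ R),
        ‖∑ s ∈ range (S + 1), ∑ ξ ∈ blk s, u ξ * ee (ξ * ((x : ℝ) / 2 ^ R))‖ ^ q := by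
    rw [Finset.sum_range]
    apply Finset.sum_congr rfl
    intro x _
    rw [one_mul]
    congr 2
    have a3 : T f x = TT R S (fun s y => ∑ ξ ∈ blk s, u ξ * ee (ξ * ((y : ℝ) / (2 ^ R : ℕ)))) x := by
      simp only [T]
      unfold TT
      congr 1
      apply Finset.sum_congr rfl
      intro s hs
      apply Finset.sum_congr rfl
      intro y hy
      congr 1
      rw [mem_range] at hs hy
      unfold extF
      rw [dif_pos hs, dif_pos hy]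
    rw [a3, TT_rep hR u x]
    push_cast
    rfl
  have e2 : ∑ p : Fin (S + 1) × Fin (2 ^ R), (1 : ℝ) * ‖f p‖ ^ q =
      ∑ s ∈ range (S + 1), ∑ x ∈ range (2 ^ R),
        ‖∑ ξ ∈ blk s, u ξ * ee (ξ * ((x : ℝ) / 2 ^ R))‖ ^ q := by
    rw [Fintype.sum_prod_type, Finset.sum_range]
    apply Finset.sum_congr rfl
    intro s _
    rw [Finset.sum_range]
    apply Finset.sum_congr rfl
    intro x _
    simp only [f, one_mul]
    push_cast
    rfl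
  rw [e1, e2] at hm
  exact hm

end

end Pool.Agent.H72.MT
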