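import Pool.Agent.H72.MT.Op

set_option autoImplicit false

/-! The extremal function: index types, windows, weights, coefficients.  `D = d - 1`.
Scales of the windowed coordinates: `k_j = s j + 1`, `s : Fin D → Fin (2^b)`.
Windows: `ω_j = 2^b + w j`, `w : Fin D → Fin (2^b)`. -/

namespace Pool.Agent.H72.MT

open Finset
open scoped BigOperators

noncomputable section

/-- scale of the unwindowed coordinate. -/
def ell {D b : ℕ} (L : ℕ) (s : Fin D → Fin (2 ^ b)) : ℕ := L - ∑ j, ((s j : ℕ) + 1)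

/-- index type of one block (and of its sampling grid): `2^L` elements. -/
abbrev Blk {D b : ℕ} (L : ℕ) (s : Fin D → Fin (2 ^ b)) : Type :=
  Fin (2 ^ ell L s) × ((j : Fin D) → Fin (2 ^ ((s j : ℕ) + 1)))

/-- unitary DFT matrix of the block. -/
def UU {D b : ℕ} (L : ℕ) (s : Fin D → Fin (2 ^ b)) : Matrix (Blk L s) (Blk L s) ℂ :=
  fun a κ => ((Real.sqrt (2 ^ L))⁻¹ : ℝ) *
    ee (((κ.1 : ℕ) : ℝ) * (((a.1 : ℕ) : ℝ) / 2 ^ ell L s) +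
      ∑ j, ((κ.2 j : ℕ) : ℝ) * (((a.2 j : ℕ) : ℝ) / 2 ^ ((s j : ℕ) + 1)))

/-- one-dimensional weight `tri_{2^(k-1)} (κ - 2^(k-1))`. -/
def del (k : ℕ) (κ : ℕ) : ℝ := tri (2 ^ (k - 1)) ((κ : ℤ) - 2 ^ (k - 1))

/-- product weight. -/
def DD {D b : ℕ} (L : ℕ) (s : Fin D → Fin (2 ^ b)) (κ : Blk L s) : ℝ :=
  del (ell L s) κ.1 * ∏ j, del ((s j : ℕ) + 1) (κ.2 j)

/-- window coefficients: `win b w = tri_h (2^b + w - (2^b + 2^b/2))`, `h = max 1 (2^b/2)`. -/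
def win (b w : ℕ) : ℝ := tri (max 1 (2 ^ b / 2)) ((w : ℤ) - (2 ^ b / 2 : ℕ))

/-- frequency vector `(κ_0 + 2^ell ; κ_j + ω_j 2^{k_j})` (coordinate `0` first). -/
def freq {D b : ℕ} (L : ℕ) (s w : Fin D → Fin (2 ^ b)) (κ : Blk L s) : Fin (D + 1) → ℤ :=
  Fin.cons (((κ.1 : ℕ) : ℤ) + 2 ^ ell L s)
    (fun j => ((κ.2 j : ℕ) : ℤ) + ((2 ^ b + (w j : ℕ) : ℕ) : ℤ) * 2 ^ ((s j : ℕ) + 1))

/-- character on the grid `(2^{-R} ℤ)^{D+1}`. -/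
def chR {d : ℕ} (R : ℕ) (ξ : Fin d → ℤ) (x : Fin d → Fin (2 ^ R)) : ℂ :=
  ee (∑ j, (ξ j : ℝ) * (((x j : ℕ) : ℝ) / 2 ^ R))

/-- one block of the extremal function, on the grid. -/
def fsR {D b : ℕ} (L R : ℕ) (s : Fin D → Fin (2 ^ b)) (σ : Blk L s → ℝ)
    (x : Fin (D + 1) → Fin (2 ^ R)) : ℂ :=
  ((Real.sqrt (2 ^ L))⁻¹ : ℝ) * ∑ w : Fin D → Fin (2 ^ b), ∑ κ : Blk L s,
    (((∏ j, win b (w j)) * σ κ : ℝ) : ℂ) * chR R (freq L s w κ) x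

end

end Pool.Agent.H72.MT
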