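import Pool.Agent.H72.MT.Basic
import Pool.Agent.H72.MT.Defs
set_option autoImplicit false
namespace Pool.Agent.H72.MT
open Finset MeasureTheory
open scoped BigOperators Topology

namespace Lim

/-- Riemann sum of a complex function. -/
noncomputable def RS (d R : ℕ) (h : C(UnitAddTorus (Fin d), ℂ)) : ℂ :=
  ((2 : ℂ) ^ (R * d))⁻¹ *
    ∑ x : Fin d → Fin (2 ^ R), h (fun i => ((((x i : ℕ) : ℝ) / 2 ^ R : ℝ) : UnitAddCircle))

lemma RS_add (d R : ℕ) (h g : C(UnitAddTorus (Fin d), ℂ)) : RS d R (h + g) = RS d R h + RS d R g := by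
  simp [RS, Finset.sum_add_distrib, mul_add]

lemma RS_smul (d R : ℕ) (c : ℂ) (h : C(UnitAddTorus (Fin d), ℂ)) :
    RS d R (c • h) = c * RS d R h := by
  simp only [RS, ContinuousMap.coe_smul, Pi.smul_apply, smul_eq_mul, ← Finset.mul_sum]
  ring

lemma RS_sub (d R : ℕ) (h g : C(UnitAddTorus (Fin d), ℂ)) : RS d R (h - g) = RS d R h - RS d R g := by
  simp [RS, Finset.sum_sub_distrib, mul_sub]

lemma RS_norm (d R : ℕ) (h : C(UnitAddTorus (Fin d), ℂ)) : ‖RS d R h‖ ≤ ‖h‖ := by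
  unfold RS
  rw [norm_mul, norm_inv, norm_pow, Complex.norm_two]
  have h1 : ‖∑ x : Fin d → Fin (2 ^ R), h (fun i => ((((x i : ℕ) : ℝ) / 2 ^ R : ℝ) : UnitAddCircle))‖
      ≤ 2 ^ (R * d) * ‖h‖ := by
    refine (norm_sum_le _ _).trans ?_
    refine (Finset.sum_le_card_nsmul _ _ ‖h‖ (fun x _ => h.norm_coe_le_norm _)).trans ?_
    rw [Finset.card_univ, Fintype.card_fun, Fintype.card_fin, Fintype.card_fin, nsmul_eq_mul]
    push_cast
    rw [← pow_mul]
  rw [inv_mul_le_iff₀ (by positivity)]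
  exact h1

lemma int_fourier (n : ℤ) :
    ∫ x, fourier n x ∂(AddCircle.haarAddCircle : Measure UnitAddCircle) = if n = 0 then 1 else 0 := by
  split_ifs with h
  · subst h
    simp
  · exact integral_eq_zero_of_add_right_eq_neg (μ := AddCircle.haarAddCircle)
      (fourier_add_half_inv_index h one_pos)

lemma sum_fourier (n : ℤ) (R : ℕ) (hR : |n| < 2 ^ R) :
    ∑ k : Fin (2 ^ R), fourier n ((((k : ℕ) : ℝ) / 2 ^ R : ℝ) : UnitAddCircle) =
      if n = 0 then (2 : ℂ) ^ R else 0 := by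
  have h1 : ∀ k : ℕ, fourier n ((((k : ℕ) : ℝ) / 2 ^ R : ℝ) : UnitAddCircle) =
      ee (n * ((k : ℝ) / ((2 ^ R : ℕ) : ℝ))) := by
    intro k
    rw [fourier_coe_apply]
    unfold ee
    congr 1
    push_cast
    ring
  have h1' : ∑ k : Fin (2 ^ R), fourier n ((((k : ℕ) : ℝ) / 2 ^ R : ℝ) : UnitAddCircle) =
      ∑ k : Fin (2 ^ R), ee (n * (((k : ℕ) : ℝ) / ((2 ^ R : ℕ) : ℝ))) :=
    Finset.sum_congr rfl (fun k _ => h1 k)
  rw [h1']
  have h2 := Finset.sum_range (n := 2 ^ R)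
    (fun k : ℕ => ee (n * ((k : ℝ) / ((2 ^ R : ℕ) : ℝ))))
  rw [← h2, grid_orth (2 ^ R) (by positivity) n]
  by_cases hn : n = 0
  · simp [hn]
  · have : ¬ (((2 ^ R : ℕ) : ℤ) ∣ n) := by
      intro hd
      have := Int.le_of_dvd (abs_pos.2 hn) ((dvd_abs _ _).2 hd)
      push_cast at this
      omega
    rw [if_neg this, if_neg hn]

lemma RS_mFourier (d : ℕ) (n : Fin d → ℤ) (R : ℕ) (hR : ∀ i, |n i| < 2 ^ R) :
    RS d R (UnitAddTorus.mFourier n) = ∫ x, UnitAddTorus.mFourier n x ∂(haarT d) := by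
  have h1 : ∫ x, UnitAddTorus.mFourier n x ∂(haarT d) = ∏ i, if n i = 0 then (1 : ℂ) else 0 := by
    have : ∀ x : UnitAddTorus (Fin d), UnitAddTorus.mFourier n x = ∏ i, fourier (n i) (x i) :=
      fun x => rfl
    simp_rw [this]
    rw [haarT, MeasureTheory.integral_fintype_prod_eq_prod (𝕜 := ℂ)
      (f := fun i => fun y : UnitAddCircle => fourier (n i) y)]
    apply Finset.prod_congr rfl
    intro i _
    exact int_fourier (n i)
  rw [h1]
  unfold RS
  have h2 : ∑ x : Fin d → Fin (2 ^ R), UnitAddTorus.mFourier n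
      (fun i => ((((x i : ℕ) : ℝ) / 2 ^ R : ℝ) : UnitAddCircle)) =
      ∏ i, ∑ k : Fin (2 ^ R), fourier (n i) ((((k : ℕ) : ℝ) / 2 ^ R : ℝ) : UnitAddCircle) := by
    rw [Fintype.prod_sum]
    rfl
  rw [h2, Finset.prod_congr rfl (fun i _ => sum_fourier (n i) R (hR i))]
  have h3 : ((2 : ℂ) ^ (R * d))⁻¹ = ∏ i : Fin d, ((2 : ℂ) ^ R)⁻¹ := by
    rw [Finset.prod_const, Finset.card_univ, Fintype.card_fin, pow_mul, inv_pow]
  rw [h3, ← Finset.prod_mul_distrib]
  apply Finset.prod_congr rfl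
  intro i _
  split_ifs
  · rw [inv_mul_cancel₀]
    exact pow_ne_zero _ two_ne_zero
  · simp

instance (d : ℕ) : IsProbabilityMeasure (haarT d) := by
  unfold haarT; infer_instance

lemma integrable_cont (d : ℕ) (h : C(UnitAddTorus (Fin d), ℂ)) :
    Integrable (fun x => h x) (haarT d) := by
  refine Integrable.of_bound (C := ‖h‖) ?_ ?_
  · exact h.continuous.aestronglyMeasurable
  · exact Filter.Eventually.of_forall (fun x => h.norm_coe_le_norm x)

lemma int_norm (d : ℕ) (h : C(UnitAddTorus (Fin d), ℂ)) : ‖∫ x, h x ∂(haarT d)‖ ≤ ‖h‖ := by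
  have := norm_integral_le_of_norm_le_const (μ := haarT d) (f := fun x => h x) (C := ‖h‖)
    (Filter.Eventually.of_forall (fun x => h.norm_coe_le_norm x))
  simpa using this

lemma riemannC (d : ℕ) (h : C(UnitAddTorus (Fin d), ℂ)) :
    Filter.Tendsto (fun R : ℕ => RS d R h) Filter.atTop (𝓝 (∫ x, h x ∂(haarT d))) := by
  -- on the span
  have hspan : ∀ g ∈ Submodule.span ℂ (Set.range (UnitAddTorus.mFourier (d := Fin d))),
      Filter.Tendsto (fun R : ℕ => RS d R g) Filter.atTop (𝓝 (∫ x, g x ∂(haarT d))) := by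
    intro g hg
    induction hg using Submodule.span_induction with
    | mem g hg =>
      obtain ⟨n, rfl⟩ := hg
      apply tendsto_const_nhds.congr'
      have : ∀ᶠ R : ℕ in Filter.atTop, ∀ i, |n i| < 2 ^ R := by
        rw [Filter.eventually_all]
        intro i
        filter_upwards [Filter.eventually_ge_atTop (n i).natAbs] with R hR
        have h1 : (n i).natAbs < 2 ^ R := lt_of_le_of_lt hR Nat.lt_two_pow_self
        have h2 : ((n i).natAbs : ℤ) < 2 ^ R := by exact_mod_cast h1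
        rwa [Int.natCast_natAbs] at h2
      filter_upwards [this] with R hR
      exact (RS_mFourier d n R hR).symm
    | zero =>
      have h0 : ∀ R, RS d R (0 : C(UnitAddTorus (Fin d), ℂ)) = 0 := by
        intro R; simp [RS]
      simp [h0]
    | add g g' _ _ h1 h2 =>
      have e : (fun R => RS d R (g + g')) = fun R => RS d R g + RS d R g' := by
        ext R; exact RS_add d R g g'
      rw [e]
      have e2 : ∫ x, (g + g') x ∂(haarT d) = ∫ x, g x ∂(haarT d) + ∫ x, g' x ∂(haarT d) := by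
        rw [← integral_add (integrable_cont d g) (integrable_cont d g')]
        rfl
      rw [e2]
      exact h1.add h2
    | smul c g _ h1 =>
      have e : (fun R => RS d R (c • g)) = fun R => c * RS d R g := by
        ext R; exact RS_smul d R c g
      rw [e]
      have e2 : ∫ x, (c • g) x ∂(haarT d) = c * ∫ x, g x ∂(haarT d) := by
        rw [← integral_const_mul]
        rfl
      rw [e2]
      exact h1.const_mul c
  rw [Metric.tendsto_atTop]
  intro ε hε
  have hmem : h ∈ (Submodule.span ℂ (Set.range (UnitAddTorus.mFourier (d := Fin d)))).topologicalClosure := by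
    rw [UnitAddTorus.span_mFourier_closure_eq_top]; trivial
  have hmem' : h ∈ closure ((Submodule.span ℂ (Set.range (UnitAddTorus.mFourier (d := Fin d))) :
      Submodule ℂ _) : Set C(UnitAddTorus (Fin d), ℂ)) := hmem
  rw [Metric.mem_closure_iff] at hmem'
  obtain ⟨g, hg, hgh⟩ := hmem' (ε / 3) (by positivity)
  rw [dist_eq_norm] at hgh
  obtain ⟨N, hN⟩ := (Metric.tendsto_atTop.1 (hspan g hg)) (ε / 3) (by positivity)
  refine ⟨N, fun R hR => ?_⟩
  have h1 := hN R hR
  rw [dist_eq_norm] at h1 ⊢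
  have h2 : ‖RS d R h - RS d R g‖ < ε / 3 := by
    rw [← RS_sub]
    exact lt_of_le_of_lt (RS_norm d R _) hgh
  have h3 : ‖∫ x, h x ∂(haarT d) - ∫ x, g x ∂(haarT d)‖ < ε / 3 := by
    rw [← integral_sub (integrable_cont d h) (integrable_cont d g)]
    exact lt_of_le_of_lt (int_norm d (h - g)) hgh
  have h4 : RS d R h - ∫ x, h x ∂(haarT d) = (RS d R h - RS d R g) +
      (RS d R g - ∫ x, g x ∂(haarT d)) - (∫ x, h x ∂(haarT d) - ∫ x, g x ∂(haarT d)) := by ring
  rw [h4]
  refine lt_of_le_of_lt (norm_sub_le _ _) ?_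
  have h5 := norm_add_le (RS d R h - RS d R g) (RS d R g - ∫ x, g x ∂(haarT d))
  linarith

end Lim

/-- Riemann sums over the grid `(2^{-R} ℤ / ℤ)^d` converge to the Haar integral. -/
theorem riemann (d : ℕ) (h : C(UnitAddTorus (Fin d), ℝ)) :
    Filter.Tendsto (fun R : ℕ => ((2 : ℝ) ^ (R * d))⁻¹ *
        ∑ x : Fin d → Fin (2 ^ R), h (fun i => ((((x i : ℕ) : ℝ) / 2 ^ R : ℝ) : UnitAddCircle)))
      Filter.atTop (𝓝 (∫ x, h x ∂(haarT d))) := by
  let g : C(UnitAddTorus (Fin d), ℂ) := ⟨fun x => (h x : ℂ), by fun_prop⟩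
  have h1 := Lim.riemannC d g
  have h2 : ∫ x, g x ∂(haarT d) = ((∫ x, h x ∂(haarT d) : ℝ) : ℂ) := by
    rw [← integral_complex_ofReal]
    rfl
  rw [h2] at h1
  have h3 := (Complex.continuous_re.tendsto _).comp h1
  rw [Complex.ofReal_re] at h3
  refine h3.congr ?_
  intro R
  simp only [Function.comp_apply, Lim.RS]
  have : (((2 : ℂ) ^ (R * d))⁻¹ * ∑ x : Fin d → Fin (2 ^ R),
      g (fun i => ((((x i : ℕ) : ℝ) / 2 ^ R : ℝ) : UnitAddCircle))) =
      ((((2 : ℝ) ^ (R * d))⁻¹ * ∑ x : Fin d → Fin (2 ^ R),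
        h (fun i => ((((x i : ℕ) : ℝ) / 2 ^ R : ℝ) : UnitAddCircle)) : ℝ) : ℂ) := by
    push_cast
    rfl
  rw [this, Complex.ofReal_re]
end Pool.Agent.H72.MT
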