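import Pool.Agent.H72.MT.Dyadic
import Pool.Agent.H72.MT.FunDefs
import Pool.Agent.H72.MT.Lim

set_option autoImplicit false

namespace Pool.Agent.H72.MT

open Finset MeasureTheory
open scoped BigOperators

noncomputable section

namespace DyN

theorem fsum_cons {X M : Type*} [Fintype X] [AddCommMonoid M] (D : ℕ)
    (f : (Fin (D + 1) → X) → M) :
    ∑ x : Fin (D + 1) → X, f x = ∑ x0 : X, ∑ x' : Fin D → X, f (Fin.cons x0 x') := by
  rw [← Fintype.sum_prod_type' (f := fun (x0 : X) (x' : Fin D → X) => f (Fin.cons x0 x'))]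
  exact (Fintype.sum_equiv (Fin.consEquiv (fun _ : Fin (D + 1) => X)) _ _ (fun x => rfl)).symm

theorem sum_rho_cons {M : Type*} [AddCommMonoid M] (D : ℕ) (s0 : ℕ) (s' : Fin D → ℕ)
    (f : (Fin (D + 1) → ℤ) → M) :
    ∑ ξ ∈ rho (Fin.cons s0 s' : Fin (D + 1) → ℕ), f ξ =
      ∑ ξ0 ∈ blk s0, ∑ ξ' ∈ rho s', f (Fin.cons ξ0 ξ') := by
  rw [← Finset.sum_product']
  refine Finset.sum_bij' (fun ξ _ => (ξ 0, Fin.tail ξ)) (fun p _ => Fin.cons p.1 p.2) ?_ ?_ ?_ ?_ ?_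
  · intro ξ hξ
    simp only [rho, Fintype.mem_piFinset] at hξ
    rw [Finset.mem_product]
    refine ⟨by simpa using hξ 0, ?_⟩
    simp only [rho, Fintype.mem_piFinset]
    intro j
    simpa [Fin.tail] using hξ j.succ
  · intro p hp
    rw [Finset.mem_product] at hp
    simp only [rho, Fintype.mem_piFinset] at hp ⊢
    intro j
    refine Fin.cases ?_ (fun j => ?_) j
    · simpa using hp.1
    · simpa using hp.2 j
  · intro ξ _
    exact Fin.cons_self_tail ξ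
  · intro p _
    simp
  · intro ξ _
    simp only
    rw [Fin.cons_self_tail]

theorem chR_cons {D : ℕ} (R : ℕ) (ξ0 : ℤ) (ξ' : Fin D → ℤ) (x0 : Fin (2 ^ R))
    (x' : Fin D → Fin (2 ^ R)) :
    chR R (Fin.cons ξ0 ξ' : Fin (D + 1) → ℤ) (Fin.cons x0 x' : Fin (D + 1) → Fin (2 ^ R)) =
      ee ((ξ0 : ℝ) * (((x0 : ℕ) : ℝ) / 2 ^ R)) * chR R ξ' x' := by
  unfold chR
  rw [Fin.sum_univ_succ]
  simp only [Fin.cons_zero, Fin.cons_succ]
  rw [ee_add]

theorem fcons_val {D S : ℕ} (s0 : Fin (S + 1)) (s' : Fin D → Fin (S + 1)) :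
    (fun j => (((Fin.cons s0 s' : Fin (D + 1) → Fin (S + 1)) j : Fin (S + 1)) : ℕ)) =
      (Fin.cons (s0 : ℕ) (fun j => (s' j : ℕ)) : Fin (D + 1) → ℕ) := by
  funext j
  refine Fin.cases ?_ (fun j => ?_) j <;> simp

end DyN

open DyN

/-- Module K. `d`-dimensional version on the grid (iterate `dyadic_1d` over the coordinates, Fubini). -/
theorem dyadic_nd (d : ℕ) (q : ℝ) (hq : 1 < q) (hq2 : q < 2) : ∃ C : ℝ, 0 < C ∧
    ∀ (R S : ℕ), S + 3 ≤ R → ∀ u : (Fin d → ℤ) → ℂ,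
    ∑ x : Fin d → Fin (2 ^ R), ‖∑ s : Fin d → Fin (S + 1), ∑ ξ ∈ rho (fun j => (s j : ℕ)), u ξ * chR R ξ x‖ ^ q ≤
      C * ∑ s : Fin d → Fin (S + 1), ∑ x : Fin d → Fin (2 ^ R),
        ‖∑ ξ ∈ rho (fun j => (s j : ℕ)), u ξ * chR R ξ x‖ ^ q := by
  obtain ⟨C₁, hC₁, h1d⟩ := dyadic_1d q hq hq2
  induction d with
  | zero =>
    refine ⟨1, one_pos, fun R S _ u => ?_⟩
    rw [one_mul, Finset.sum_comm]
    refine Finset.sum_le_sum fun x _ => ?_
    rw [Fintype.sum_unique, Fintype.sum_unique]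
  | succ d ih =>
    obtain ⟨C, hC, h⟩ := ih
    refine ⟨C₁ * C, mul_pos hC₁ hC, fun R S hRS u => ?_⟩
    -- 1-dimensional inequality in `Fin` form
    have h1 : ∀ v : ℤ → ℂ,
        ∑ x : Fin (2 ^ R), ‖∑ s : Fin (S + 1), ∑ ξ ∈ blk (s : ℕ), v ξ * ee (ξ * (((x : ℕ) : ℝ) / 2 ^ R))‖ ^ q ≤
        C₁ * ∑ s : Fin (S + 1), ∑ x : Fin (2 ^ R),
          ‖∑ ξ ∈ blk (s : ℕ), v ξ * ee (ξ * (((x : ℕ) : ℝ) / 2 ^ R))‖ ^ q := by
      intro v
      have := h1d R S hRS v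
      simpa only [Finset.sum_range] using this
    have hA : ∀ (s0 : Fin (S + 1)) (s' : Fin d → Fin (S + 1)) (x0 : Fin (2 ^ R)) (x' : Fin d → Fin (2 ^ R)),
        ∑ ξ ∈ rho (fun j => (((Fin.cons s0 s' : Fin (d + 1) → Fin (S + 1)) j : Fin (S + 1)) : ℕ)),
          u ξ * chR R ξ (Fin.cons x0 x' : Fin (d + 1) → Fin (2 ^ R)) =
        ∑ ξ0 ∈ blk (s0 : ℕ), ∑ ξ' ∈ rho (fun j => (s' j : ℕ)),
          u (Fin.cons ξ0 ξ') * (ee ((ξ0 : ℝ) * (((x0 : ℕ) : ℝ) / 2 ^ R)) * chR R ξ' x') := by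
      intro s0 s' x0 x'
      rw [fcons_val, sum_rho_cons]
      simp only [chR_cons]
    calc ∑ x : Fin (d + 1) → Fin (2 ^ R), ‖∑ s : Fin (d + 1) → Fin (S + 1),
            ∑ ξ ∈ rho (fun j => (s j : ℕ)), u ξ * chR R ξ x‖ ^ q
        = ∑ x' : Fin d → Fin (2 ^ R), ∑ x0 : Fin (2 ^ R), ‖∑ s0 : Fin (S + 1), ∑ ξ0 ∈ blk (s0 : ℕ),
            (∑ s' : Fin d → Fin (S + 1), ∑ ξ' ∈ rho (fun j => (s' j : ℕ)),
              u (Fin.cons ξ0 ξ') * chR R ξ' x') * ee ((ξ0 : ℝ) * (((x0 : ℕ) : ℝ) / 2 ^ R))‖ ^ q := by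
          rw [fsum_cons, Finset.sum_comm]
          refine Finset.sum_congr rfl fun x' _ => Finset.sum_congr rfl fun x0 _ => ?_
          congr 2
          rw [fsum_cons]
          refine Finset.sum_congr rfl fun s0 _ => ?_
          simp only [hA]
          rw [Finset.sum_comm]
          refine Finset.sum_congr rfl fun ξ0 _ => ?_
          rw [Finset.sum_mul]
          refine Finset.sum_congr rfl fun s' _ => ?_
          rw [Finset.sum_mul]
          refine Finset.sum_congr rfl fun ξ' _ => ?_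
          ring
      _ ≤ ∑ x' : Fin d → Fin (2 ^ R), C₁ * ∑ s0 : Fin (S + 1), ∑ x0 : Fin (2 ^ R),
            ‖∑ ξ0 ∈ blk (s0 : ℕ),
            (∑ s' : Fin d → Fin (S + 1), ∑ ξ' ∈ rho (fun j => (s' j : ℕ)),
              u (Fin.cons ξ0 ξ') * chR R ξ' x') * ee ((ξ0 : ℝ) * (((x0 : ℕ) : ℝ) / 2 ^ R))‖ ^ q :=
          Finset.sum_le_sum fun x' _ => h1 (fun ξ0 => ∑ s' : Fin d → Fin (S + 1),
            ∑ ξ' ∈ rho (fun j => (s' j : ℕ)), u (Fin.cons ξ0 ξ') * chR R ξ' x')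
      _ = C₁ * ∑ s0 : Fin (S + 1), ∑ x0 : Fin (2 ^ R), ∑ x' : Fin d → Fin (2 ^ R),
            ‖∑ s' : Fin d → Fin (S + 1), ∑ ξ' ∈ rho (fun j => (s' j : ℕ)),
              (∑ ξ0 ∈ blk (s0 : ℕ), u (Fin.cons ξ0 ξ') * ee ((ξ0 : ℝ) * (((x0 : ℕ) : ℝ) / 2 ^ R))) *
                chR R ξ' x'‖ ^ q := by
          rw [← Finset.mul_sum, Finset.sum_comm]
          congr 1
          refine Finset.sum_congr rfl fun s0 _ => ?_
          rw [Finset.sum_comm]
          refine Finset.sum_congr rfl fun x0 _ => Finset.sum_congr rfl fun x' _ => ?_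
          congr 2
          simp only [Finset.sum_mul]
          rw [Finset.sum_comm]
          refine Finset.sum_congr rfl fun s' _ => ?_
          rw [Finset.sum_comm]
          refine Finset.sum_congr rfl fun ξ' _ => Finset.sum_congr rfl fun ξ0 _ => ?_
          ring
      _ ≤ C₁ * ∑ s0 : Fin (S + 1), ∑ x0 : Fin (2 ^ R), (C * ∑ s' : Fin d → Fin (S + 1),
            ∑ x' : Fin d → Fin (2 ^ R), ‖∑ ξ' ∈ rho (fun j => (s' j : ℕ)),
              (∑ ξ0 ∈ blk (s0 : ℕ), u (Fin.cons ξ0 ξ') * ee ((ξ0 : ℝ) * (((x0 : ℕ) : ℝ) / 2 ^ R))) *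
                chR R ξ' x'‖ ^ q) := by
          refine mul_le_mul_of_nonneg_left ?_ hC₁.le
          exact Finset.sum_le_sum fun s0 _ => Finset.sum_le_sum fun x0 _ => h R S hRS _
      _ = C₁ * C * ∑ s : Fin (d + 1) → Fin (S + 1), ∑ x : Fin (d + 1) → Fin (2 ^ R),
            ‖∑ ξ ∈ rho (fun j => (s j : ℕ)), u ξ * chR R ξ x‖ ^ q := by
          rw [mul_assoc]
          congr 1
          rw [fsum_cons]
          simp only [← Finset.mul_sum]
          congr 1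
          refine Finset.sum_congr rfl fun s0 _ => ?_
          rw [Finset.sum_comm]
          refine Finset.sum_congr rfl fun s' _ => ?_
          rw [fsum_cons]
          refine Finset.sum_congr rfl fun x0 _ => Finset.sum_congr rfl fun x' _ => ?_
          congr 2
          rw [hA, Finset.sum_comm]
          refine Finset.sum_congr rfl fun ξ' _ => ?_
          rw [Finset.sum_mul]
          refine Finset.sum_congr rfl fun ξ0 _ => ?_
          ring

namespace DyN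

theorem blk_disj {s t : ℕ} {k : ℤ} (h1 : k ∈ blk s) (h2 : k ∈ blk t) : s = t := by
  wlog hst : s ≤ t generalizing s t
  · exact (this h2 h1 (by omega)).symm
  by_contra hne
  have hlt : s < t := lt_of_le_of_ne hst hne
  simp only [blk, mem_filter, mem_Ioo] at h1 h2
  obtain ⟨c, rfl⟩ : ∃ c, t = c + 1 := ⟨t - 1, by omega⟩
  have e : (2 ^ (c + 1) / 2 : ℕ) = 2 ^ c := by rw [pow_succ]; omega
  rw [e] at h2
  have h3 : |k| < 2 ^ s := abs_lt.mpr h1.1
  have h4 : (2 : ℤ) ^ s ≤ 2 ^ c := pow_le_pow_right₀ (by norm_num) (by omega)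
  have h5 := h2.2
  push_cast at h5
  linarith

theorem rho_disj {d : ℕ} {s t : Fin d → ℕ} {k : Fin d → ℤ} (h1 : k ∈ rho s) (h2 : k ∈ rho t) :
    s = t := by
  simp only [rho, Fintype.mem_piFinset] at h1 h2
  funext j
  exact blk_disj (h1 j) (h2 j)

theorem sum_fin_to {M : Type*} [AddCommMonoid M] {d : ℕ} (S : ℕ) (F : Finset (Fin d → ℕ))
    (hF : ∀ s ∈ F, ∀ j, s j < S + 1) (G : (Fin d → ℕ) → M) (hG : ∀ s, s ∉ F → G s = 0) :
    ∑ s : Fin d → Fin (S + 1), G (fun j => (s j : ℕ)) = ∑ s ∈ F, G s := by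
  classical
  have hinj : Function.Injective (fun (s : Fin d → Fin (S + 1)) (j : Fin d) => (s j : ℕ)) := by
    intro s t h
    funext j
    exact Fin.ext (congrFun h j)
  rw [← Finset.sum_image (s := Finset.univ) (f := G)
    (g := fun (s : Fin d → Fin (S + 1)) (j : Fin d) => (s j : ℕ)) (fun a _ b _ h => hinj h)]
  symm
  refine Finset.sum_subset ?_ (fun s _ hs => hG s hs)
  intro s hs
  rw [Finset.mem_image]
  exact ⟨fun j => ⟨s j, hF s hs j⟩, mem_univ _, rfl⟩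

theorem mFourier_grid {d : ℕ} (R : ℕ) (ξ : Fin d → ℤ) (x : Fin d → Fin (2 ^ R)) :
    UnitAddTorus.mFourier ξ (fun i => ((((x i : ℕ) : ℝ) / 2 ^ R : ℝ) : UnitAddCircle)) =
      chR R ξ x := by
  unfold chR
  rw [ee_sum]
  simp only [UnitAddTorus.mFourier, ContinuousMap.coe_mk]
  refine Finset.prod_congr rfl fun i _ => ?_
  rw [fourier_coe_apply]
  unfold ee
  congr 1
  push_cast
  ring

theorem int_fourier1 (m : ℤ) :
    ∫ x, (fourier m : C(UnitAddCircle, ℂ)) x ∂(AddCircle.haarAddCircle : Measure UnitAddCircle)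
      = if m = 0 then 1 else 0 := by
  have h := congrFun (fourierCoeff_fourier (T := 1) m) 0
  unfold fourierCoeff at h
  simp only [neg_zero, fourier_zero, one_smul] at h
  rw [h]
  by_cases hm : m = 0
  · subst hm; simp
  · simp [hm, Ne.symm hm]

theorem int_mFourier (d : ℕ) (n : Fin d → ℤ) :
    ∫ x, UnitAddTorus.mFourier n x ∂(haarT d) = if n = 0 then 1 else 0 := by
  have := integral_fintype_prod_eq_prod (𝕜 := ℂ) (ι := Fin d)
    (E := fun _ => UnitAddCircle) (fun i (x : UnitAddCircle) => (fourier (n i) : C(UnitAddCircle, ℂ)) x)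
    (μ := fun _ => (AddCircle.haarAddCircle : Measure UnitAddCircle))
  simp only [int_fourier1] at this
  have h2 : ∫ x, UnitAddTorus.mFourier n x ∂(haarT d) = ∏ i, (if n i = 0 then (1 : ℂ) else 0) := this
  rw [h2]
  by_cases hn : n = 0
  · subst hn; simp
  · rw [if_neg hn]
    obtain ⟨i, hi⟩ := Function.ne_iff.mp hn
    exact Finset.prod_eq_zero (mem_univ i) (if_neg hi)

theorem integ (d : ℕ) (f : C(UnitAddTorus (Fin d), ℂ)) : Integrable f (haarT d) :=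
  f.continuous.integrable_of_hasCompactSupport (HasCompactSupport.of_compactSpace _)

theorem pars {d : ℕ} (A : Finset (Fin d → ℤ)) (a : (Fin d → ℤ) → ℂ) :
    ∫ x, ‖∑ ξ ∈ A, a ξ * UnitAddTorus.mFourier ξ x‖ ^ (2 : ℝ) ∂(haarT d) = ∑ ξ ∈ A, ‖a ξ‖ ^ 2 := by
  have key : ((∫ x, ‖∑ ξ ∈ A, a ξ * UnitAddTorus.mFourier ξ x‖ ^ (2 : ℝ) ∂(haarT d) : ℝ) : ℂ) =
      ((∑ ξ ∈ A, ‖a ξ‖ ^ 2 : ℝ) : ℂ) := by
    rw [← integral_complex_ofReal]
    have h1 : ∀ x, ((‖∑ ξ ∈ A, a ξ * UnitAddTorus.mFourier ξ x‖ ^ (2 : ℝ) : ℝ) : ℂ) =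
        ∑ ξ ∈ A, ∑ η ∈ A, (a ξ * (starRingEnd ℂ) (a η)) * UnitAddTorus.mFourier (ξ - η) x := by
      intro x
      rw [Real.rpow_two]
      have : (((‖∑ ξ ∈ A, a ξ * UnitAddTorus.mFourier ξ x‖ ^ 2 : ℝ)) : ℂ) =
          (∑ ξ ∈ A, a ξ * UnitAddTorus.mFourier ξ x) *
            (starRingEnd ℂ) (∑ ξ ∈ A, a ξ * UnitAddTorus.mFourier ξ x) := by
        rw [Complex.mul_conj, Complex.normSq_eq_norm_sq]
      rw [this, map_sum, Finset.sum_mul_sum]
      refine Finset.sum_congr rfl fun ξ _ => Finset.sum_congr rfl fun η _ => ?_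
      rw [sub_eq_add_neg, UnitAddTorus.mFourier_add, UnitAddTorus.mFourier_neg, map_mul]
      ring
    simp only [h1]
    rw [integral_finsetSum _ (fun ξ _ => integrable_finsetSum _
      (fun η _ => (integ d (UnitAddTorus.mFourier (ξ - η))).const_mul _))]
    push_cast
    refine Finset.sum_congr rfl fun ξ hξ => ?_
    rw [integral_finsetSum _ (fun η _ => (integ d (UnitAddTorus.mFourier (ξ - η))).const_mul _)]
    simp only [integral_const_mul, int_mFourier]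
    rw [Finset.sum_eq_single ξ]
    · simp only [sub_self, if_true, mul_one]
      rw [Complex.mul_conj, Complex.normSq_eq_norm_sq]
      push_cast; rfl
    · intro η _ hη
      rw [if_neg (sub_ne_zero.mpr hη.symm), mul_zero]
    · intro h; exact absurd hξ h
  exact_mod_cast key

theorem cont_pow {d : ℕ} (q : ℝ) (hq : 0 ≤ q) (f : UnitAddTorus (Fin d) → ℂ) (hf : Continuous f) :
    Continuous (fun x => ‖f x‖ ^ q) :=
  hf.norm.rpow_const (fun _ => Or.inr hq)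

end DyN

/-- Module K'. continuous version, by `riemann`. -/
theorem dyadic_cont (d : ℕ) (q : ℝ) (hq : 1 < q) (hq2 : q ≤ 2) : ∃ C : ℝ, 0 < C ∧
    ∀ (F : Finset (Fin d → ℕ)) (u : (Fin d → ℤ) → ℂ),
    ∫ x, ‖∑ s ∈ F, ∑ ξ ∈ rho s, u ξ * UnitAddTorus.mFourier ξ x‖ ^ q ∂(haarT d) ≤
      C * ∑ s ∈ F, ∫ x, ‖∑ ξ ∈ rho s, u ξ * UnitAddTorus.mFourier ξ x‖ ^ q ∂(haarT d) := by
  classical
  rcases lt_or_eq_of_le hq2 with hlt | rfl
  · obtain ⟨C, hC, h⟩ := dyadic_nd d q hq hlt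
    refine ⟨C, hC, fun F u => ?_⟩
    set u' : (Fin d → ℤ) → ℂ := fun ξ => if ∃ s ∈ F, ξ ∈ rho s then u ξ else 0 with hu'
    have hin : ∀ s ∈ F, ∀ c : (Fin d → ℤ) → ℂ, ∑ ξ ∈ rho s, u' ξ * c ξ = ∑ ξ ∈ rho s, u ξ * c ξ := by
      intro s hs c
      refine Finset.sum_congr rfl fun ξ hξ => ?_
      simp only [hu']
      rw [if_pos ⟨s, hs, hξ⟩]
    have hout : ∀ s, s ∉ F → ∀ c : (Fin d → ℤ) → ℂ, ∑ ξ ∈ rho s, u' ξ * c ξ = 0 := by
      intro s hs c
      refine Finset.sum_eq_zero fun ξ hξ => ?_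
      simp only [hu']
      rw [if_neg, zero_mul]
      rintro ⟨t, ht, hξt⟩
      exact hs (rho_disj hξ hξt ▸ ht)
    set S : ℕ := ∑ s ∈ F, ∑ j, s j with hS
    have hF : ∀ s ∈ F, ∀ j, s j < S + 1 := by
      intro s hs j
      have h1 : s j ≤ ∑ j, s j := Finset.single_le_sum (f := fun j => s j) (fun _ _ => Nat.zero_le _) (mem_univ j)
      have h2 : ∑ j, s j ≤ S := Finset.single_le_sum (f := fun s : Fin d → ℕ => ∑ j, s j)
        (fun _ _ => Nat.zero_le _) hs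
      omega
    -- grid inequality
    have hgrid : ∀ R : ℕ, S + 3 ≤ R →
        ∑ x : Fin d → Fin (2 ^ R), ‖∑ s ∈ F, ∑ ξ ∈ rho s, u ξ * chR R ξ x‖ ^ q ≤
        C * ∑ s ∈ F, ∑ x : Fin d → Fin (2 ^ R), ‖∑ ξ ∈ rho s, u ξ * chR R ξ x‖ ^ q := by
      intro R hR
      have h0 := h R S hR u'
      have e1 : ∀ x : Fin d → Fin (2 ^ R),
          ∑ s : Fin d → Fin (S + 1), ∑ ξ ∈ rho (fun j => (s j : ℕ)), u' ξ * chR R ξ x =
          ∑ s ∈ F, ∑ ξ ∈ rho s, u ξ * chR R ξ x := by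
        intro x
        rw [sum_fin_to S F hF (fun s => ∑ ξ ∈ rho s, u' ξ * chR R ξ x)
          (fun s hs => hout s hs (fun ξ => chR R ξ x))]
        exact Finset.sum_congr rfl fun s hs => hin s hs (fun ξ => chR R ξ x)
      have e2 : ∑ s : Fin d → Fin (S + 1), ∑ x : Fin d → Fin (2 ^ R),
          ‖∑ ξ ∈ rho (fun j => (s j : ℕ)), u' ξ * chR R ξ x‖ ^ q =
          ∑ s ∈ F, ∑ x : Fin d → Fin (2 ^ R), ‖∑ ξ ∈ rho s, u ξ * chR R ξ x‖ ^ q := by
        rw [sum_fin_to S F hF (fun s => ∑ x : Fin d → Fin (2 ^ R),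
          ‖∑ ξ ∈ rho s, u' ξ * chR R ξ x‖ ^ q)]
        · refine Finset.sum_congr rfl fun s hs => Finset.sum_congr rfl fun x _ => ?_
          rw [hin s hs (fun ξ => chR R ξ x)]
        · intro s hs
          refine Finset.sum_eq_zero fun x _ => ?_
          rw [hout s hs (fun ξ => chR R ξ x), norm_zero, Real.zero_rpow (by linarith)]
      rw [e2] at h0
      simpa only [e1] using h0
    -- limits
    have hc1 : Continuous (fun x : UnitAddTorus (Fin d) =>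
        ‖∑ s ∈ F, ∑ ξ ∈ rho s, u ξ * UnitAddTorus.mFourier ξ x‖ ^ q) :=
      cont_pow q (by linarith) _ (by fun_prop)
    have hc2 : ∀ s : Fin d → ℕ, Continuous (fun x : UnitAddTorus (Fin d) =>
        ‖∑ ξ ∈ rho s, u ξ * UnitAddTorus.mFourier ξ x‖ ^ q) :=
      fun s => cont_pow q (by linarith) _ (by fun_prop)
    have l1 := riemann d ⟨_, hc1⟩
    have l2 : Filter.Tendsto (fun R : ℕ => C * ∑ s ∈ F, ((2 : ℝ) ^ (R * d))⁻¹ *
        ∑ x : Fin d → Fin (2 ^ R), (⟨_, hc2 s⟩ : C(UnitAddTorus (Fin d), ℝ))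
          (fun i => ((((x i : ℕ) : ℝ) / 2 ^ R : ℝ) : UnitAddCircle))) Filter.atTop
        (nhds (C * ∑ s ∈ F, ∫ x, (⟨_, hc2 s⟩ : C(UnitAddTorus (Fin d), ℝ)) x ∂(haarT d))) :=
      (tendsto_finsetSum _ fun s _ => riemann d ⟨_, hc2 s⟩).const_mul C
    refine le_of_tendsto_of_tendsto l1 l2 ?_
    rw [Filter.EventuallyLE, Filter.eventually_atTop]
    refine ⟨S + 3, fun R hR => ?_⟩
    simp only [ContinuousMap.coe_mk, mFourier_grid]
    rw [← Finset.mul_sum, ← mul_assoc, mul_comm C, mul_assoc]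
    exact mul_le_mul_of_nonneg_left (hgrid R hR) (by positivity)
  · refine ⟨1, one_pos, fun F u => ?_⟩
    have hd : (F : Set (Fin d → ℕ)).PairwiseDisjoint (fun s => rho s) := by
      intro s _ t _ hst
      rw [Function.onFun, Finset.disjoint_left]
      intro k h1 h2
      exact hst (rho_disj h1 h2)
    have e : ∀ x : UnitAddTorus (Fin d), ∑ s ∈ F, ∑ ξ ∈ rho s, u ξ * UnitAddTorus.mFourier ξ x =
        ∑ ξ ∈ F.biUnion (fun s => rho s), u ξ * UnitAddTorus.mFourier ξ x := by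
      intro x
      rw [Finset.sum_biUnion hd]
    simp only [e, pars]
    rw [Finset.sum_biUnion hd, one_mul]

end

end Pool.Agent.H72.MT
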