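import Pool.Agent.H72.MT.FunDefs

set_option autoImplicit false

namespace Pool.Agent.H72.MT

open Finset
open scoped BigOperators

noncomputable section

/-- window polynomial -/
def WW (b : ℕ) (t : ℝ) : ℂ :=
  ∑ w : Fin (2 ^ b), (win b w : ℂ) * ee (((2 ^ b + (w : ℕ) : ℕ) : ℝ) * t)

lemma WW_range (b : ℕ) (t : ℝ) :
    WW b t = ∑ w ∈ range (2 ^ b), (win b w : ℂ) * ee (((2 ^ b + w : ℕ) : ℝ) * t) := by
  unfold WW
  rw [← Fin.sum_univ_eq_sum_range (fun w => (win b w : ℂ) * ee (((2 ^ b + w : ℕ) : ℝ) * t))]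

lemma WW_eq (b : ℕ) (t : ℝ) :
    WW b t = ee (((2 ^ b + 2 ^ b / 2 : ℕ) : ℝ) * t) * (Fej (max 1 (2 ^ b / 2)) t : ℂ) := by
  set h : ℕ := max 1 (2 ^ b / 2) with hh
  set c : ℕ := 2 ^ b / 2 with hc
  have h1 : 1 ≤ h := le_max_left _ _
  have h2 : c + h ≤ 2 ^ b := by
    rcases Nat.eq_zero_or_pos b with rfl | hb
    · simp [hh, hc]
    · obtain ⟨j, rfl⟩ : ∃ j, b = j + 1 := ⟨b - 1, by omega⟩
      have : 1 ≤ 2 ^ j := Nat.one_le_two_pow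
      have e : 2 ^ (j + 1) = 2 * 2 ^ j := by rw [pow_succ]; ring
      omega
  have h3 : h ≤ c + 1 := by
    rw [hh]; omega
  rw [Fej_expand h1, Finset.mul_sum, WW_range]
  have hz : ∀ w ∈ range (2 ^ b), (win b w : ℂ) * ee (((2 ^ b + w : ℕ) : ℝ) * t) ≠ 0 →
      |(w : ℤ) - (c : ℤ)| < (h : ℤ) := by
    intro w _ hne
    by_contra hcon
    apply hne
    have : win b w = 0 := by
      unfold win
      exact tri_eq_zero (by omega) (by push Not at hcon; exact hcon)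
    rw [this]; simp
  rw [← Finset.sum_filter_of_ne hz]
  refine Finset.sum_bij' (fun w _ => (w : ℤ) - c) (fun m _ => (m + c).toNat) ?_ ?_ ?_ ?_ ?_
  · intro w hw
    rw [mem_filter, abs_lt] at hw
    rw [mem_Ioo]; exact hw.2
  · intro m hm
    rw [mem_Ioo] at hm
    rw [mem_filter, mem_range, abs_lt]
    refine ⟨by omega, by omega, by omega⟩
  · intro w hw
    simp
  · intro m hm
    rw [mem_Ioo] at hm
    omega
  · intro w hw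
    unfold win
    rw [← mul_assoc, mul_comm (ee _) _, mul_assoc, ← ee_add]
    congr 2
    push_cast
    ring

lemma norm_WW (b : ℕ) (t : ℝ) : ‖WW b t‖ = Fej (max 1 (2 ^ b / 2)) t := by
  rw [WW_eq, norm_mul, norm_ee, one_mul, Complex.norm_real, Real.norm_eq_abs,
    abs_of_nonneg (Fej_nonneg _ _)]

lemma grid_l2 (R k n : ℕ) (hn : n * 2 ^ k ≤ 2 ^ R) (u : ℕ → ℂ) :
    ∑ y ∈ range (2 ^ R), ‖∑ j ∈ range n, u j * ee ((j : ℝ) * (2 ^ k * ((y : ℝ) / 2 ^ R)))‖ ^ 2 =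
      2 ^ R * ∑ j ∈ range n, ‖u j‖ ^ 2 := by
  have hk : (0 : ℤ) < 2 ^ k := by positivity
  set S : Finset ℤ := (range n).image (fun j : ℕ => (j : ℤ) * 2 ^ k) with hS
  have hinj : Set.InjOn (fun j : ℕ => (j : ℤ) * 2 ^ k) (range n) := by
    intro a _ b _ hab
    simp only at hab
    have := mul_right_cancel₀ hk.ne' hab
    exact_mod_cast this
  have hSd : ∀ ξ ∈ S, ∀ η ∈ S, (((2 ^ R : ℕ) : ℤ)) ∣ ξ - η → ξ = η := by
    intro ξ hξ η hη hd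
    rw [hS, mem_image] at hξ hη
    obtain ⟨i, hi, rfl⟩ := hξ
    obtain ⟨j, hj, rfl⟩ := hη
    rw [mem_range] at hi hj
    have h1 : |(i : ℤ) * 2 ^ k - (j : ℤ) * 2 ^ k| < ((2 ^ R : ℕ) : ℤ) := by
      have hn' : (n : ℤ) * 2 ^ k ≤ ((2 ^ R : ℕ) : ℤ) := by exact_mod_cast hn
      have hi' : ((i : ℤ)) * 2 ^ k < (n : ℤ) * 2 ^ k := by
        have : (i : ℤ) < n := by exact_mod_cast hi
        exact mul_lt_mul_of_pos_right this hk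
      have hj' : ((j : ℤ)) * 2 ^ k < (n : ℤ) * 2 ^ k := by
        have : (j : ℤ) < n := by exact_mod_cast hj
        exact mul_lt_mul_of_pos_right this hk
      have hi0 : (0 : ℤ) ≤ (i : ℤ) * 2 ^ k := by positivity
      have hj0 : (0 : ℤ) ≤ (j : ℤ) * 2 ^ k := by positivity
      rw [abs_lt]; constructor <;> linarith
    have := Int.eq_zero_of_abs_lt_dvd hd h1
    linarith
  have key := grid_parseval (2 ^ R) (by positivity) S hSd (fun ξ => u ((ξ / 2 ^ k).toNat)) 0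
  rw [hS] at key
  simp_rw [Finset.sum_image hinj] at key
  have hdiv : ∀ j : ℕ, (((j : ℤ) * 2 ^ k) / 2 ^ k).toNat = j := by
    intro j
    rw [Int.mul_ediv_cancel _ hk.ne']; simp
  simp_rw [hdiv] at key
  push_cast at key
  rw [← key]
  apply Finset.sum_congr rfl
  intro y _
  congr 2
  apply Finset.sum_congr rfl
  intro j _
  congr 2
  ring

lemma sum_norm_WW (b R k : ℕ) (hR : b + k ≤ R) :
    ∑ y ∈ range (2 ^ R), ‖WW b (2 ^ k * ((y : ℝ) / 2 ^ R))‖ = 2 ^ R := by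
  simp_rw [norm_WW]
  set h : ℕ := max 1 (2 ^ b / 2) with hh
  have h1 : 1 ≤ h := le_max_left _ _
  have h2 : h ≤ 2 ^ b := by
    have : 1 ≤ 2 ^ b := Nat.one_le_two_pow
    omega
  have hn : h * 2 ^ k ≤ 2 ^ R := by
    calc h * 2 ^ k ≤ 2 ^ b * 2 ^ k := Nat.mul_le_mul_right _ h2
      _ = 2 ^ (b + k) := by rw [pow_add]
      _ ≤ 2 ^ R := Nat.pow_le_pow_right (by norm_num) hR
  have := grid_l2 R k h hn (fun _ => 1)
  simp only [one_mul, norm_one, one_pow, sum_const, card_range, nsmul_eq_mul, mul_one] at this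
  unfold Fej
  rw [← Finset.sum_div, this]
  have h3 : (h : ℝ) ≠ 0 := by positivity
  field_simp

lemma sum_norm_WW_sq (b R k : ℕ) (hR : b + k ≤ R) :
    ∑ y ∈ range (2 ^ R), ‖WW b (2 ^ k * ((y : ℝ) / 2 ^ R))‖ ^ 2 ≤ 2 ^ R * 2 ^ b := by
  have hn : 2 ^ b * 2 ^ k ≤ 2 ^ R := by
    calc 2 ^ b * 2 ^ k = 2 ^ (b + k) := by rw [pow_add]
      _ ≤ 2 ^ R := Nat.pow_le_pow_right (by norm_num) hR
  have h1 : ∀ t, ‖WW b t‖ = ‖∑ w ∈ range (2 ^ b), (win b w : ℂ) * ee ((w : ℝ) * t)‖ := by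
    intro t
    have : WW b t = ee ((2 ^ b : ℕ) * t) * ∑ w ∈ range (2 ^ b), (win b w : ℂ) * ee ((w : ℝ) * t) := by
      rw [WW_range, Finset.mul_sum]
      apply Finset.sum_congr rfl
      intro w _
      rw [← mul_assoc, mul_comm (ee _) _, mul_assoc, ← ee_add]
      congr 2
      push_cast; ring
    rw [this, norm_mul, norm_ee, one_mul]
  simp_rw [h1]
  rw [grid_l2 R k _ hn]
  have h2 : ∀ w ∈ range (2 ^ b), ‖(win b w : ℂ)‖ ^ 2 ≤ 1 := by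
    intro w _
    rw [Complex.norm_real, Real.norm_eq_abs]
    have a1 : 0 ≤ win b w := tri_nonneg _ _
    have a2 : win b w ≤ 1 := tri_le_one _ _
    rw [abs_of_nonneg a1]
    nlinarith
  have h3 : ∑ w ∈ range (2 ^ b), ‖(win b w : ℂ)‖ ^ 2 ≤ 2 ^ b := by
    calc _ ≤ ∑ w ∈ range (2 ^ b), (1 : ℝ) := Finset.sum_le_sum h2
      _ = 2 ^ b := by simp
  gcongr

lemma sum_norm_WW_rpow (b R k : ℕ) (hR : b + k ≤ R) (q : ℝ) (hq1 : 1 ≤ q) (hq2 : q ≤ 2) :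
    ∑ y ∈ range (2 ^ R), ‖WW b (2 ^ k * ((y : ℝ) / 2 ^ R))‖ ^ q ≤ 2 ^ R * ((2 : ℝ) ^ b) ^ (q - 1) := by
  have hB : (0 : ℝ) < 2 ^ b := by positivity
  have key : ∀ t : ℝ, 0 ≤ t → t ^ q ≤ ((2 : ℝ) ^ b) ^ (q - 1) * ((2 - q) * t + (q - 1) * (t ^ 2 / 2 ^ b)) := by
    intro t ht
    rcases ht.eq_or_lt with h0 | h0
    · rw [← h0, Real.zero_rpow (by linarith)]; simp
    · have h1 : (t / 2 ^ b) ^ (q - 1) ≤ 1 + (q - 1) * (t / 2 ^ b - 1) := by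
        have := rpow_one_add_le_one_add_mul_self (s := t / 2 ^ b - 1) (p := q - 1)
          (by have : 0 ≤ t / 2 ^ b := by positivity
              linarith) (by linarith) (by linarith)
        simpa using this
      have h2 : t ^ q = t * (((2 : ℝ) ^ b) ^ (q - 1) * (t / 2 ^ b) ^ (q - 1)) := by
        rw [← Real.mul_rpow hB.le (by positivity), mul_div_cancel₀ _ hB.ne']
        rw [Real.rpow_sub_one h0.ne']
        field_simp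
      rw [h2]
      have h3 : 0 ≤ t * ((2 : ℝ) ^ b) ^ (q - 1) := by positivity
      calc t * (((2 : ℝ) ^ b) ^ (q - 1) * (t / 2 ^ b) ^ (q - 1))
          = (t * ((2 : ℝ) ^ b) ^ (q - 1)) * (t / 2 ^ b) ^ (q - 1) := by ring
        _ ≤ (t * ((2 : ℝ) ^ b) ^ (q - 1)) * (1 + (q - 1) * (t / 2 ^ b - 1)) := by gcongr
        _ = _ := by ring
  calc _ ≤ ∑ y ∈ range (2 ^ R), ((2 : ℝ) ^ b) ^ (q - 1) *
        ((2 - q) * ‖WW b (2 ^ k * ((y : ℝ) / 2 ^ R))‖ +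
          (q - 1) * (‖WW b (2 ^ k * ((y : ℝ) / 2 ^ R))‖ ^ 2 / 2 ^ b)) :=
        Finset.sum_le_sum (fun y _ => key _ (norm_nonneg _))
    _ = ((2 : ℝ) ^ b) ^ (q - 1) * ((2 - q) * (∑ y ∈ range (2 ^ R), ‖WW b (2 ^ k * ((y : ℝ) / 2 ^ R))‖) +
          (q - 1) * ((∑ y ∈ range (2 ^ R), ‖WW b (2 ^ k * ((y : ℝ) / 2 ^ R))‖ ^ 2) / 2 ^ b)) := by
        rw [← Finset.mul_sum, Finset.sum_add_distrib, ← Finset.mul_sum, ← Finset.mul_sum, Finset.sum_div]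
    _ ≤ ((2 : ℝ) ^ b) ^ (q - 1) * ((2 - q) * 2 ^ R + (q - 1) * (2 ^ R * 2 ^ b / 2 ^ b)) := by
        rw [sum_norm_WW b R k hR]
        have := sum_norm_WW_sq b R k hR
        have hq : 0 ≤ q - 1 := by linarith
        gcongr
    _ = 2 ^ R * ((2 : ℝ) ^ b) ^ (q - 1) := by
        rw [mul_div_assoc, div_self hB.ne']; ring

lemma sum_range_mul' {M : Type*} [AddCommMonoid M] (P K : ℕ) (f : ℕ → M) :
    ∑ y ∈ range (P * K), f y = ∑ a ∈ range K, ∑ r ∈ range P, f (P * a + r) := by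
  induction K with
  | zero => simp
  | succ K ih =>
    rw [Nat.mul_succ, Finset.sum_range_add, ih, Finset.sum_range_succ]

/-- orthogonality with a periodic weight. -/
lemma grid_orth_weight (R k : ℕ) (hk : k ≤ R) (F : ℝ → ℝ) (hF : ∀ (t : ℝ) (a : ℕ), F (t + a) = F t)
    (m : ℤ) (hm : m ≠ 0) (hm2 : |m| < 2 ^ k) :
    ∑ y ∈ range (2 ^ R), (F (2 ^ k * ((y : ℝ) / 2 ^ R)) : ℂ) * ee (m * ((y : ℝ) / 2 ^ R)) = 0 := by
  obtain ⟨P, rfl⟩ : ∃ P, R = P + k := ⟨R - k, by omega⟩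
  rw [pow_add 2 P k, sum_range_mul', Finset.sum_comm]
  apply Finset.sum_eq_zero
  intro r _
  have h1 : ∀ a ∈ range (2 ^ k),
      (F (2 ^ k * (((2 ^ P * a + r : ℕ) : ℝ) / 2 ^ (P + k))) : ℂ) * ee (m * (((2 ^ P * a + r : ℕ) : ℝ) / 2 ^ (P + k))) =
      (F (2 ^ k * ((r : ℝ) / 2 ^ (P + k))) : ℂ) * ee (m * ((r : ℝ) / 2 ^ (P + k))) *
        ee (m * ((a : ℝ) / (2 ^ k : ℕ))) := by
    intro a _
    have e1 : (2 : ℝ) ^ k * (((2 ^ P * a + r : ℕ) : ℝ) / 2 ^ (P + k)) =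
        2 ^ k * ((r : ℝ) / 2 ^ (P + k)) + (a : ℕ) := by
      rw [pow_add]; push_cast; field_simp; ring
    have e2 : (m : ℝ) * (((2 ^ P * a + r : ℕ) : ℝ) / 2 ^ (P + k)) =
        m * ((r : ℝ) / 2 ^ (P + k)) + m * ((a : ℝ) / (2 ^ k : ℕ)) := by
      rw [pow_add]; push_cast; field_simp; ring
    rw [e1, hF, e2, ee_add]; ring
  rw [Finset.sum_congr rfl h1, ← Finset.mul_sum, grid_orth (2 ^ k) (by positivity), if_neg, mul_zero]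
  intro hd
  exact hm (Int.eq_zero_of_abs_lt_dvd hd (by push_cast; exact hm2))

lemma WW_periodic (b : ℕ) (t : ℝ) (a : ℕ) : WW b (t + a) = WW b t := by
  unfold WW
  apply Finset.sum_congr rfl
  intro w _
  rw [mul_add, ee_add]
  have : ee (((2 ^ b + (w : ℕ) : ℕ) : ℝ) * (a : ℝ)) = 1 := by
    have := ee_nat ((2 ^ b + (w : ℕ)) * a)
    push_cast at this ⊢
    exact this
  rw [this, mul_one]

/-- the unwindowed part. -/
def gg {D b : ℕ} (L R : ℕ) (s : Fin D → Fin (2 ^ b)) (σ : Blk L s → ℝ)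
    (x : Fin (D + 1) → Fin (2 ^ R)) : ℂ :=
  ((Real.sqrt (2 ^ L))⁻¹ : ℝ) * ∑ κ : Blk L s, (σ κ : ℂ) *
    (ee ((((κ.1 : ℕ) : ℝ) + 2 ^ ell L s) * (((x 0 : ℕ) : ℝ) / 2 ^ R)) *
      ∏ j, ee (((κ.2 j : ℕ) : ℝ) * (((x (Fin.succ j) : ℕ) : ℝ) / 2 ^ R)))

lemma fsR_factor {D b : ℕ} (L R : ℕ) (s : Fin D → Fin (2 ^ b)) (σ : Blk L s → ℝ)
    (x : Fin (D + 1) → Fin (2 ^ R)) :
    fsR L R s σ x = (∏ j, WW b (2 ^ ((s j : ℕ) + 1) * (((x (Fin.succ j) : ℕ) : ℝ) / 2 ^ R))) *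
      gg L R s σ x := by
  unfold fsR gg WW
  rw [Finset.prod_univ_sum, Fintype.piFinset_univ, mul_left_comm, Finset.sum_mul_sum]
  congr 1
  apply Finset.sum_congr rfl; intro w _
  apply Finset.sum_congr rfl; intro κ _
  unfold chR freq
  rw [Fin.sum_univ_succ, ee_add, ee_sum]
  simp only [Fin.cons_zero, Fin.cons_succ]
  rw [Finset.prod_mul_distrib]
  have h1 : ∀ j : Fin D, ee (((((κ.2 j : ℕ) : ℤ) + ((2 ^ b + (w j : ℕ) : ℕ) : ℤ) * 2 ^ ((s j : ℕ) + 1) : ℤ) : ℝ) *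
      (((x (Fin.succ j) : ℕ) : ℝ) / 2 ^ R)) =
      ee (((κ.2 j : ℕ) : ℝ) * (((x (Fin.succ j) : ℕ) : ℝ) / 2 ^ R)) *
      ee (((2 ^ b + (w j : ℕ) : ℕ) : ℝ) * (2 ^ ((s j : ℕ) + 1) * (((x (Fin.succ j) : ℕ) : ℝ) / 2 ^ R))) := by
    intro j
    rw [← ee_add]; congr 1; push_cast; ring
  rw [Finset.prod_congr rfl (fun j _ => h1 j), Finset.prod_mul_distrib]
  push_cast
  ring

lemma sum_fun_prod {D N : ℕ} (A0 : Fin N → ℂ) (A : Fin D → Fin N → ℂ) :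
    ∑ x : Fin (D + 1) → Fin N, (A0 (x 0) * ∏ j, A j (x (Fin.succ j))) =
      (∑ y, A0 y) * ∏ j, ∑ y, A j y := by
  have := Finset.prod_univ_sum (fun _ : Fin (D + 1) => (univ : Finset (Fin N)))
    (fun i y => (Fin.cons A0 A : Fin (D + 1) → Fin N → ℂ) i y)
  rw [Fintype.piFinset_univ, Fin.prod_univ_succ] at this
  simp only [Fin.cons_zero, Fin.cons_succ] at this
  rw [this]
  apply Finset.sum_congr rfl; intro x _
  rw [Fin.prod_univ_succ]; simp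

lemma card_Blk' {D b : ℕ} (L : ℕ) (s : Fin D → Fin (2 ^ b))
    (hL : ∑ j, ((s j : ℕ) + 1) ≤ L) : Fintype.card (Blk L s) = 2 ^ L := by
  unfold Blk
  rw [Fintype.card_prod, Fintype.card_fin, Fintype.card_pi]
  simp only [Fintype.card_fin]
  rw [Finset.prod_pow_eq_pow_sum, ← pow_add]
  congr 1
  unfold ell; omega

lemma gg_sq {D b : ℕ} (L R : ℕ) (s : Fin D → Fin (2 ^ b)) (σ : Blk L s → ℝ)
    (x : Fin (D + 1) → Fin (2 ^ R)) :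
    ((‖gg L R s σ x‖ ^ 2 : ℝ) : ℂ) = ((2 : ℂ) ^ L)⁻¹ * ∑ κ : Blk L s, ∑ κ' : Blk L s,
      ((σ κ : ℂ) * (σ κ' : ℂ)) * (ee (((((κ.1 : ℕ) : ℤ) - ((κ'.1 : ℕ) : ℤ) : ℤ) : ℝ) * (((x 0 : ℕ) : ℝ) / 2 ^ R)) *
        ∏ j, ee (((((κ.2 j : ℕ) : ℤ) - ((κ'.2 j : ℕ) : ℤ) : ℤ) : ℝ) * (((x (Fin.succ j) : ℕ) : ℝ) / 2 ^ R))) := by
  have h0 : ((‖gg L R s σ x‖ ^ 2 : ℝ) : ℂ) = gg L R s σ x * (starRingEnd ℂ) (gg L R s σ x) := by
    rw [Complex.mul_conj, Complex.normSq_eq_norm_sq]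
  rw [h0]
  unfold gg
  rw [map_mul, Complex.conj_ofReal, map_sum]
  have h1 : ∀ A B : ℂ, ((((Real.sqrt (2 ^ L))⁻¹ : ℝ)) : ℂ) * A * (((((Real.sqrt (2 ^ L))⁻¹ : ℝ)) : ℂ) * B) =
      ((2 : ℂ) ^ L)⁻¹ * (A * B) := by
    intro A B
    have : ((((Real.sqrt (2 ^ L))⁻¹ : ℝ)) : ℂ) * ((((Real.sqrt (2 ^ L))⁻¹ : ℝ)) : ℂ) = ((2 : ℂ) ^ L)⁻¹ := by
      rw [← Complex.ofReal_mul, ← mul_inv, Real.mul_self_sqrt (by positivity)]
      push_cast; rfl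
    rw [← this]; ring
  rw [h1, Finset.sum_mul_sum]
  congr 1
  apply Finset.sum_congr rfl; intro κ _
  apply Finset.sum_congr rfl; intro κ' _
  rw [map_mul, map_mul, Complex.conj_ofReal, map_prod]
  simp_rw [← ee_neg_eq_conj]
  have h2 : ee (((((κ.1 : ℕ) : ℤ) - ((κ'.1 : ℕ) : ℤ) : ℤ) : ℝ) * (((x 0 : ℕ) : ℝ) / 2 ^ R)) =
      ee ((((κ.1 : ℕ) : ℝ) + 2 ^ ell L s) * (((x 0 : ℕ) : ℝ) / 2 ^ R)) *
      ee (-((((κ'.1 : ℕ) : ℝ) + 2 ^ ell L s) * (((x 0 : ℕ) : ℝ) / 2 ^ R))) := by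
    rw [← ee_add]; congr 1; push_cast; ring
  have h3 : ∀ j : Fin D, ee (((((κ.2 j : ℕ) : ℤ) - ((κ'.2 j : ℕ) : ℤ) : ℤ) : ℝ) * (((x (Fin.succ j) : ℕ) : ℝ) / 2 ^ R)) =
      ee (((κ.2 j : ℕ) : ℝ) * (((x (Fin.succ j) : ℕ) : ℝ) / 2 ^ R)) *
      ee (-(((κ'.2 j : ℕ) : ℝ) * (((x (Fin.succ j) : ℕ) : ℝ) / 2 ^ R))) := by
    intro j
    rw [← ee_add]; congr 1; push_cast; ring
  rw [h2, Finset.prod_congr rfl (fun j _ => h3 j), Finset.prod_mul_distrib]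
  ring

lemma gg_weight {D b : ℕ} (L R : ℕ) (s : Fin D → Fin (2 ^ b)) (hL : ∑ j, ((s j : ℕ) + 1) ≤ L)
    (hR : L ≤ R) (σ : Blk L s → ℝ) (hσ : ∀ κ, σ κ = 1 ∨ σ κ = -1) (V : Fin D → ℝ → ℝ)
    (hV : ∀ j t (a : ℕ), V j (t + a) = V j t) :
    ∑ x : Fin (D + 1) → Fin (2 ^ R),
      (∏ j, V j (2 ^ ((s j : ℕ) + 1) * (((x (Fin.succ j) : ℕ) : ℝ) / 2 ^ R))) * ‖gg L R s σ x‖ ^ 2 =
    ∑ x : Fin (D + 1) → Fin (2 ^ R),
      (∏ j, V j (2 ^ ((s j : ℕ) + 1) * (((x (Fin.succ j) : ℕ) : ℝ) / 2 ^ R))) := by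
  set T : ℂ := ((2 : ℂ) ^ R) * ∏ j, ∑ y : Fin (2 ^ R),
    (V j (2 ^ ((s j : ℕ) + 1) * (((y : ℕ) : ℝ) / 2 ^ R)) : ℂ) with hT
  have hRHS : ((∑ x : Fin (D + 1) → Fin (2 ^ R),
      (∏ j, V j (2 ^ ((s j : ℕ) + 1) * (((x (Fin.succ j) : ℕ) : ℝ) / 2 ^ R))) : ℝ) : ℂ) = T := by
    have := sum_fun_prod (D := D) (N := 2 ^ R) (fun _ => 1)
      (fun j y => (V j (2 ^ ((s j : ℕ) + 1) * (((y : ℕ) : ℝ) / 2 ^ R)) : ℂ))
    push_cast
    simp only [one_mul, sum_const, card_univ, Fintype.card_fin, nsmul_eq_mul, mul_one] at this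
    push_cast at this
    rw [this]
  have hterm : ∀ κ κ' : Blk L s, ∑ x : Fin (D + 1) → Fin (2 ^ R),
      (∏ j, (V j (2 ^ ((s j : ℕ) + 1) * (((x (Fin.succ j) : ℕ) : ℝ) / 2 ^ R)) : ℂ)) *
      (ee (((((κ.1 : ℕ) : ℤ) - ((κ'.1 : ℕ) : ℤ) : ℤ) : ℝ) * (((x 0 : ℕ) : ℝ) / 2 ^ R)) *
        ∏ j, ee (((((κ.2 j : ℕ) : ℤ) - ((κ'.2 j : ℕ) : ℤ) : ℤ) : ℝ) * (((x (Fin.succ j) : ℕ) : ℝ) / 2 ^ R))) =
      if κ' = κ then T else 0 := by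
    intro κ κ'
    have h1 := sum_fun_prod (D := D) (N := 2 ^ R)
      (fun y => ee (((((κ.1 : ℕ) : ℤ) - ((κ'.1 : ℕ) : ℤ) : ℤ) : ℝ) * (((y : ℕ) : ℝ) / 2 ^ R)))
      (fun j y => (V j (2 ^ ((s j : ℕ) + 1) * (((y : ℕ) : ℝ) / 2 ^ R)) : ℂ) *
        ee (((((κ.2 j : ℕ) : ℤ) - ((κ'.2 j : ℕ) : ℤ) : ℤ) : ℝ) * (((y : ℕ) : ℝ) / 2 ^ R)))
    have h2 : ∀ x : Fin (D + 1) → Fin (2 ^ R),
      (∏ j, (V j (2 ^ ((s j : ℕ) + 1) * (((x (Fin.succ j) : ℕ) : ℝ) / 2 ^ R)) : ℂ)) *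
      (ee (((((κ.1 : ℕ) : ℤ) - ((κ'.1 : ℕ) : ℤ) : ℤ) : ℝ) * (((x 0 : ℕ) : ℝ) / 2 ^ R)) *
        ∏ j, ee (((((κ.2 j : ℕ) : ℤ) - ((κ'.2 j : ℕ) : ℤ) : ℤ) : ℝ) * (((x (Fin.succ j) : ℕ) : ℝ) / 2 ^ R))) =
      ee (((((κ.1 : ℕ) : ℤ) - ((κ'.1 : ℕ) : ℤ) : ℤ) : ℝ) * (((x 0 : ℕ) : ℝ) / 2 ^ R)) *
      ∏ j, ((V j (2 ^ ((s j : ℕ) + 1) * (((x (Fin.succ j) : ℕ) : ℝ) / 2 ^ R)) : ℂ) *
        ee (((((κ.2 j : ℕ) : ℤ) - ((κ'.2 j : ℕ) : ℤ) : ℤ) : ℝ) * (((x (Fin.succ j) : ℕ) : ℝ) / 2 ^ R))) := by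
      intro x
      rw [Finset.prod_mul_distrib]; ring
    rw [Finset.sum_congr rfl (fun x _ => h2 x), h1]
    split_ifs with heq
    · subst heq
      simp only [sub_self, Int.cast_zero, zero_mul, ee_zero, mul_one, sum_const, card_univ,
        Fintype.card_fin, nsmul_eq_mul, hT]
      push_cast; rfl
    · have hor : κ'.1 ≠ κ.1 ∨ ∃ j, κ'.2 j ≠ κ.2 j := by
        by_contra hcon
        push Not at hcon
        exact heq (Prod.ext hcon.1 (funext hcon.2))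
      rcases hor with h | ⟨j, hj⟩
      · have hz : ∑ y : Fin (2 ^ R), ee (((((κ.1 : ℕ) : ℤ) - ((κ'.1 : ℕ) : ℤ) : ℤ) : ℝ) * (((y : ℕ) : ℝ) / 2 ^ R)) = 0 := by
          rw [Fin.sum_univ_eq_sum_range (fun y : ℕ =>
            ee (((((κ.1 : ℕ) : ℤ) - ((κ'.1 : ℕ) : ℤ) : ℤ) : ℝ) * ((y : ℝ) / 2 ^ R)))]
          have := grid_orth_weight R (ell L s) (by unfold ell; omega) (fun _ => 1) (by simp)
            (((κ.1 : ℕ) : ℤ) - ((κ'.1 : ℕ) : ℤ))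
            (by intro h0; apply h; apply Fin.ext; omega)
            (by
              have a1 := κ.1.isLt
              have a2 := κ'.1.isLt
              have b1 : ((κ.1 : ℕ) : ℤ) < 2 ^ ell L s := by exact_mod_cast a1
              have b2 : ((κ'.1 : ℕ) : ℤ) < 2 ^ ell L s := by exact_mod_cast a2
              rw [abs_lt]; constructor <;> linarith [Int.natCast_nonneg (κ.1 : ℕ), Int.natCast_nonneg (κ'.1 : ℕ)])
          simpa using this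
        rw [hz, zero_mul]
      · have hz : ∑ y : Fin (2 ^ R), (V j (2 ^ ((s j : ℕ) + 1) * (((y : ℕ) : ℝ) / 2 ^ R)) : ℂ) *
            ee (((((κ.2 j : ℕ) : ℤ) - ((κ'.2 j : ℕ) : ℤ) : ℤ) : ℝ) * (((y : ℕ) : ℝ) / 2 ^ R)) = 0 := by
          rw [Fin.sum_univ_eq_sum_range (fun y : ℕ => (V j (2 ^ ((s j : ℕ) + 1) * ((y : ℝ) / 2 ^ R)) : ℂ) *
            ee (((((κ.2 j : ℕ) : ℤ) - ((κ'.2 j : ℕ) : ℤ) : ℤ) : ℝ) * ((y : ℝ) / 2 ^ R)))]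
          refine grid_orth_weight R ((s j : ℕ) + 1) ?_ (V j) (hV j) _ ?_ ?_
          · have : (s j : ℕ) + 1 ≤ ∑ j, ((s j : ℕ) + 1) :=
              Finset.single_le_sum (f := fun j => (s j : ℕ) + 1) (fun _ _ => Nat.zero_le _) (mem_univ j)
            omega
          · intro h0; apply hj; apply Fin.ext; omega
          · have a1 := (κ.2 j).isLt
            have a2 := (κ'.2 j).isLt
            have b1 : ((κ.2 j : ℕ) : ℤ) < 2 ^ ((s j : ℕ) + 1) := by exact_mod_cast a1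
            have b2 : ((κ'.2 j : ℕ) : ℤ) < 2 ^ ((s j : ℕ) + 1) := by exact_mod_cast a2
            rw [abs_lt]; constructor <;> linarith [Int.natCast_nonneg (κ.2 j : ℕ), Int.natCast_nonneg (κ'.2 j : ℕ)]
        rw [Finset.prod_eq_zero (mem_univ j) hz, mul_zero]
  have hLHS : ((∑ x : Fin (D + 1) → Fin (2 ^ R),
      (∏ j, V j (2 ^ ((s j : ℕ) + 1) * (((x (Fin.succ j) : ℕ) : ℝ) / 2 ^ R))) * ‖gg L R s σ x‖ ^ 2 : ℝ) : ℂ) = T := by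
    rw [Complex.ofReal_sum]
    have h1 : ∀ x : Fin (D + 1) → Fin (2 ^ R),
      (((∏ j, V j (2 ^ ((s j : ℕ) + 1) * (((x (Fin.succ j) : ℕ) : ℝ) / 2 ^ R))) * ‖gg L R s σ x‖ ^ 2 : ℝ) : ℂ) =
      ∑ κ : Blk L s, ∑ κ' : Blk L s, (((2 : ℂ) ^ L)⁻¹ * ((σ κ : ℂ) * (σ κ' : ℂ))) *
        ((∏ j, (V j (2 ^ ((s j : ℕ) + 1) * (((x (Fin.succ j) : ℕ) : ℝ) / 2 ^ R)) : ℂ)) *
        (ee (((((κ.1 : ℕ) : ℤ) - ((κ'.1 : ℕ) : ℤ) : ℤ) : ℝ) * (((x 0 : ℕ) : ℝ) / 2 ^ R)) *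
        ∏ j, ee (((((κ.2 j : ℕ) : ℤ) - ((κ'.2 j : ℕ) : ℤ) : ℤ) : ℝ) * (((x (Fin.succ j) : ℕ) : ℝ) / 2 ^ R)))) := by
      intro x
      rw [Complex.ofReal_mul, gg_sq, Complex.ofReal_prod, Finset.mul_sum, Finset.mul_sum]
      apply Finset.sum_congr rfl; intro κ _
      rw [Finset.mul_sum, Finset.mul_sum]
      apply Finset.sum_congr rfl; intro κ' _
      ring
    rw [Finset.sum_congr rfl (fun x _ => h1 x), Finset.sum_comm]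
    have h2 : ∀ κ : Blk L s, ∑ x : Fin (D + 1) → Fin (2 ^ R), ∑ κ' : Blk L s, (((2 : ℂ) ^ L)⁻¹ * ((σ κ : ℂ) * (σ κ' : ℂ))) *
        ((∏ j, (V j (2 ^ ((s j : ℕ) + 1) * (((x (Fin.succ j) : ℕ) : ℝ) / 2 ^ R)) : ℂ)) *
        (ee (((((κ.1 : ℕ) : ℤ) - ((κ'.1 : ℕ) : ℤ) : ℤ) : ℝ) * (((x 0 : ℕ) : ℝ) / 2 ^ R)) *
        ∏ j, ee (((((κ.2 j : ℕ) : ℤ) - ((κ'.2 j : ℕ) : ℤ) : ℤ) : ℝ) * (((x (Fin.succ j) : ℕ) : ℝ) / 2 ^ R)))) =
        ((2 : ℂ) ^ L)⁻¹ * T := by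
      intro κ
      rw [Finset.sum_comm]
      simp_rw [← Finset.mul_sum, hterm]
      simp only [mul_ite, mul_zero, Finset.sum_ite_eq', mem_univ, if_true]
      rcases hσ κ with h | h <;> rw [h] <;> push_cast <;> ring
    rw [Finset.sum_congr rfl (fun κ _ => h2 κ), sum_const, card_univ, card_Blk' L s hL, nsmul_eq_mul]
    push_cast
    rw [mul_inv_cancel_left₀ (pow_ne_zero _ two_ne_zero)]
  have := hLHS.trans hRHS.symm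
  exact_mod_cast this

/-- Module H : norms of the blocks on the grid. -/
theorem fsR_norm {D b : ℕ} (L R : ℕ) (s : Fin D → Fin (2 ^ b)) (hL : ∑ j, ((s j : ℕ) + 1) + 1 ≤ L)
    (hR : L + 2 ^ b + b + 3 ≤ R) (σ : Blk L s → ℝ) (hσ : ∀ κ, σ κ = 1 ∨ σ κ = -1)
    (q : ℝ) (hq1 : 1 ≤ q) (hq2 : q ≤ 2) :
    ((2 : ℝ) ^ (R * (D + 1)))⁻¹ * ∑ x, ‖fsR L R s σ x‖ ^ q ≤ ((2 : ℝ) ^ (b * D)) ^ (q - 1) := by
  set V : Fin D → ℝ → ℝ := fun _ t => ‖WW b t‖ ^ q with hVdef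
  have hV : ∀ j t (a : ℕ), V j (t + a) = V j t := by
    intro j t a
    simp only [hVdef, WW_periodic]
  have hVnn : ∀ j t, 0 ≤ V j t := fun j t => by simp only [hVdef]; positivity
  have hnorm : ∀ x : Fin (D + 1) → Fin (2 ^ R), ‖fsR L R s σ x‖ ^ q =
      (∏ j, V j (2 ^ ((s j : ℕ) + 1) * (((x (Fin.succ j) : ℕ) : ℝ) / 2 ^ R))) * ‖gg L R s σ x‖ ^ q := by
    intro x
    rw [fsR_factor, norm_mul, Real.mul_rpow (norm_nonneg _) (norm_nonneg _), norm_prod,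
      ← Real.finsetProd_rpow _ _ (fun j _ => norm_nonneg _)]
  have hbern : ∀ t : ℝ, 0 ≤ t → t ^ q ≤ (1 - q / 2) + (q / 2) * t ^ 2 := by
    intro t ht
    have := rpow_one_add_le_one_add_mul_self (s := t ^ 2 - 1) (p := q / 2)
      (by have : 0 ≤ t ^ 2 := by positivity
          linarith) (by linarith) (by linarith)
    rw [show (1 : ℝ) + (t ^ 2 - 1) = t ^ 2 by ring] at this
    have h2 : t ^ q = (t ^ 2) ^ (q / 2) := by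
      rw [← Real.rpow_natCast t 2, ← Real.rpow_mul ht]; congr 1; push_cast; ring
    rw [h2]; linarith
  set A : ℝ := ∑ x : Fin (D + 1) → Fin (2 ^ R),
      (∏ j, V j (2 ^ ((s j : ℕ) + 1) * (((x (Fin.succ j) : ℕ) : ℝ) / 2 ^ R))) with hA
  have h1 : ∑ x, ‖fsR L R s σ x‖ ^ q ≤ A := by
    calc ∑ x, ‖fsR L R s σ x‖ ^ q ≤ ∑ x : Fin (D + 1) → Fin (2 ^ R),
          (∏ j, V j (2 ^ ((s j : ℕ) + 1) * (((x (Fin.succ j) : ℕ) : ℝ) / 2 ^ R))) *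
            ((1 - q / 2) + (q / 2) * ‖gg L R s σ x‖ ^ 2) := by
          apply Finset.sum_le_sum; intro x _
          rw [hnorm]
          have := hbern _ (norm_nonneg (gg L R s σ x))
          have hnn : 0 ≤ ∏ j, V j (2 ^ ((s j : ℕ) + 1) * (((x (Fin.succ j) : ℕ) : ℝ) / 2 ^ R)) :=
            Finset.prod_nonneg (fun j _ => hVnn j _)
          gcongr
      _ = (1 - q / 2) * A + (q / 2) * ∑ x : Fin (D + 1) → Fin (2 ^ R),
          (∏ j, V j (2 ^ ((s j : ℕ) + 1) * (((x (Fin.succ j) : ℕ) : ℝ) / 2 ^ R))) * ‖gg L R s σ x‖ ^ 2 := by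
          rw [hA, Finset.mul_sum, Finset.mul_sum, ← Finset.sum_add_distrib]
          apply Finset.sum_congr rfl; intro x _; ring
      _ = A := by
          have h2b : 1 ≤ 2 ^ b := Nat.one_le_two_pow
          rw [gg_weight L R s (by omega) (by omega) σ hσ V hV]; ring
  have h2 : A = 2 ^ R * ∏ j : Fin D, ∑ y ∈ range (2 ^ R), V j (2 ^ ((s j : ℕ) + 1) * ((y : ℝ) / 2 ^ R)) := by
    have := sum_fun_prod (D := D) (N := 2 ^ R) (fun _ => 1)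
      (fun j y => (V j (2 ^ ((s j : ℕ) + 1) * (((y : ℕ) : ℝ) / 2 ^ R)) : ℂ))
    simp only [one_mul, sum_const, card_univ, Fintype.card_fin, nsmul_eq_mul, mul_one] at this
    have h3 : (A : ℂ) = ((2 ^ R * ∏ j : Fin D, ∑ y ∈ range (2 ^ R),
        V j (2 ^ ((s j : ℕ) + 1) * ((y : ℝ) / 2 ^ R)) : ℝ) : ℂ) := by
      rw [hA]
      push_cast at this ⊢
      rw [this]
      congr 1
      apply Finset.prod_congr rfl; intro j _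
      rw [Fin.sum_univ_eq_sum_range (fun y : ℕ => (V j (2 ^ ((s j : ℕ) + 1) * ((y : ℝ) / 2 ^ R)) : ℂ))]
    exact_mod_cast h3
  have h3 : A ≤ 2 ^ R * (2 ^ R * ((2 : ℝ) ^ b) ^ (q - 1)) ^ D := by
    rw [h2]
    have : ∏ j : Fin D, ∑ y ∈ range (2 ^ R), V j (2 ^ ((s j : ℕ) + 1) * ((y : ℝ) / 2 ^ R)) ≤
        ∏ j : Fin D, (2 ^ R * ((2 : ℝ) ^ b) ^ (q - 1)) := by
      apply Finset.prod_le_prod
      · intro j _; exact Finset.sum_nonneg (fun y _ => hVnn j _)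
      · intro j _
        refine sum_norm_WW_rpow b R ((s j : ℕ) + 1) ?_ q hq1 hq2
        have := (s j).isLt
        omega
    rw [Finset.prod_const, card_univ, Fintype.card_fin] at this
    gcongr
  have h4 : (2 : ℝ) ^ R * (2 ^ R * ((2 : ℝ) ^ b) ^ (q - 1)) ^ D =
      (2 : ℝ) ^ (R * (D + 1)) * ((2 : ℝ) ^ (b * D)) ^ (q - 1) := by
    rw [mul_pow, ← Real.rpow_natCast (((2 : ℝ) ^ b) ^ (q - 1)) D, ← Real.rpow_mul (by positivity),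
      mul_comm (q - 1), Real.rpow_mul (by positivity), Real.rpow_natCast, ← pow_mul, ← mul_assoc,
      ← pow_mul, ← pow_add]
    congr 2
    ring
  rw [inv_mul_le_iff₀ (by positivity), ← h4]
  exact h1.trans h3

end

end Pool.Agent.H72.MT
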