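import Mathlib

set_option autoImplicit false

namespace Pool.Agent.H72.MT

open Finset
open scoped BigOperators

lemma sum_fin_succ_fun {X : Type*} [Fintype X] {R : Type*} [AddCommMonoid R] (D : ℕ)
    (F : (Fin (D + 1) → X) → R) :
    ∑ x : Fin (D + 1) → X, F x = ∑ x0 : X, ∑ x' : Fin D → X, F (Fin.cons x0 x') := by
  rw [← Fintype.sum_prod_type' (f := fun (x0 : X) (x' : Fin D → X) => F (Fin.cons x0 x'))]
  symm
  exact Fintype.sum_equiv (Fin.consEquiv (fun _ => X)) _ _ (fun x => rfl)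

/-- Module G1 : abstract tensorisation of a kernel bound. -/
theorem tensor_abs {X Y : Type*} [Fintype X] [Fintype Y] (μ : X → ℝ) (ν : Y → ℝ)
    (hμ : ∀ x, 0 ≤ μ x) (hν : ∀ y, 0 ≤ ν y) (K : Y → X → ℂ) (p C : ℝ) (hp : 0 < p) (hC : 0 ≤ C)
    (hK : ∀ e : X → ℂ, ∑ y, ν y * ‖∑ x, K y x * e x‖ ^ p ≤ C * ∑ x, μ x * ‖e x‖ ^ p)
    (D : ℕ) (e : (Fin D → X) → ℂ) :
    ∑ y : Fin D → Y, (∏ j, ν (y j)) * ‖∑ x : Fin D → X, (∏ j, K (y j) (x j)) * e x‖ ^ p ≤
      C ^ D * ∑ x : Fin D → X, (∏ j, μ (x j)) * ‖e x‖ ^ p := by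
  induction D with
  | zero => simp
  | succ D ih =>
    rw [sum_fin_succ_fun, sum_fin_succ_fun]
    simp only [Fin.prod_univ_succ, Fin.cons_zero, Fin.cons_succ]
    -- the inner sum
    let E : (Fin D → Y) → X → ℂ := fun y' x0 =>
      ∑ x' : Fin D → X, (∏ j, K (y' j) (x' j)) * e (Fin.cons x0 x')
    have h1 : ∀ (y0 : Y) (y' : Fin D → Y),
        ∑ x : Fin (D + 1) → X, (K y0 (x 0) * ∏ i : Fin D, K (y' i) (x i.succ)) * e x =
          ∑ x0, K y0 x0 * E y' x0 := by
      intro y0 y'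
      rw [sum_fin_succ_fun]
      apply Finset.sum_congr rfl
      intro x0 _
      simp only [E, Fin.cons_zero, Fin.cons_succ, Finset.mul_sum]
      apply Finset.sum_congr rfl
      intro x' _
      ring
    simp only [h1]
    rw [Finset.sum_comm]
    calc ∑ y' : Fin D → Y, ∑ y0, (ν y0 * ∏ i, ν (y' i)) * ‖∑ x0, K y0 x0 * E y' x0‖ ^ p
        = ∑ y' : Fin D → Y, (∏ i, ν (y' i)) * ∑ y0, ν y0 * ‖∑ x0, K y0 x0 * E y' x0‖ ^ p := by
          apply Finset.sum_congr rfl
          intro y' _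
          rw [Finset.mul_sum]
          apply Finset.sum_congr rfl
          intro y0 _
          ring
      _ ≤ ∑ y' : Fin D → Y, (∏ i, ν (y' i)) * (C * ∑ x0, μ x0 * ‖E y' x0‖ ^ p) := by
          apply Finset.sum_le_sum
          intro y' _
          apply mul_le_mul_of_nonneg_left (hK (E y'))
          exact Finset.prod_nonneg (fun i _ => hν _)
      _ = ∑ x0, (C * μ x0) * ∑ y' : Fin D → Y, (∏ i, ν (y' i)) * ‖E y' x0‖ ^ p := by
          simp only [Finset.mul_sum]
          rw [Finset.sum_comm]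
          apply Finset.sum_congr rfl
          intro x0 _
          apply Finset.sum_congr rfl
          intro y' _
          ring
      _ ≤ ∑ x0, (C * μ x0) * (C ^ D * ∑ x' : Fin D → X, (∏ j, μ (x' j)) * ‖e (Fin.cons x0 x')‖ ^ p) := by
          apply Finset.sum_le_sum
          intro x0 _
          apply mul_le_mul_of_nonneg_left (ih (fun x' => e (Fin.cons x0 x')))
          exact mul_nonneg hC (hμ _)
      _ = _ := by
          simp only [Finset.mul_sum]
          apply Finset.sum_congr rfl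
          intro x0 _
          apply Finset.sum_congr rfl
          intro x' _
          rw [pow_succ]
          ring

end Pool.Agent.H72.MT
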