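import Pool.Agent.H72.MT.Strong
import Pool.Agent.H72.MT.TensorAbs
import Pool.Agent.H72.MT.FunDefs

set_option autoImplicit false

namespace Pool.Agent.H72.MT

open Finset
open scoped BigOperators

noncomputable section

lemma Fej_grid_mean {k : ℕ} (hk : 1 ≤ k) (t : ℝ) :
    ((2 : ℝ) ^ k)⁻¹ * ∑ a ∈ range (2 ^ k), Fej (2 ^ (k - 1)) ((a : ℝ) / 2 ^ k - t) = 1 := by
  have hS : ∀ ξ ∈ Ico (0 : ℤ) ((2 ^ (k - 1) : ℕ) : ℤ), ∀ η ∈ Ico (0 : ℤ) ((2 ^ (k - 1) : ℕ) : ℤ),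
      (((2 ^ k : ℕ) : ℤ)) ∣ ξ - η → ξ = η := by
    intro ξ hξ η hη hd
    simp only [mem_Ico] at hξ hη
    have h0 : (2 : ℤ) ^ (k - 1) ≤ 2 ^ k := pow_le_pow_right₀ (by norm_num) (by omega)
    have h1 : |ξ - η| < ((2 ^ k : ℕ) : ℤ) := by
      push_cast at hξ hη ⊢
      rw [abs_lt]; constructor <;> linarith [hξ.1, hξ.2, hη.1, hη.2]
    have := Int.eq_zero_of_abs_lt_dvd hd h1
    linarith
  have key := grid_parseval (2 ^ k) (by positivity) (Ico (0 : ℤ) ((2 ^ (k - 1) : ℕ) : ℤ)) hS (fun _ => 1) t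
  have h1 : ∀ s : ℝ, ∑ ξ ∈ Ico (0 : ℤ) ((2 ^ (k - 1) : ℕ) : ℤ), (1 : ℂ) * ee (ξ * s) =
      ∑ j ∈ range (2 ^ (k - 1)), ee (j * s) := by
    intro s
    refine Finset.sum_bij' (fun m _ => m.toNat) (fun j _ => (j : ℤ)) ?_ ?_ ?_ ?_ ?_
    · intro m hm; simp only [mem_Ico, mem_range] at hm ⊢; omega
    · intro j hj; simp only [mem_Ico, mem_range] at hj ⊢; omega
    · intro m hm; simp only [mem_Ico] at hm; omega
    · intro j _; simp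
    · intro m hm
      simp only [mem_Ico] at hm
      rw [one_mul]; congr 2
      have : ((m.toNat : ℤ) : ℝ) = (m : ℝ) := by congr 1; omega
      rw [← this]; push_cast; rfl
  simp only [h1, norm_one, one_pow, Finset.sum_const, nsmul_eq_mul, mul_one, Int.card_Ico, sub_zero,
    Int.toNat_natCast] at key
  unfold Fej
  rw [← Finset.sum_div]
  push_cast at key ⊢
  rw [key]
  field_simp

lemma norm_KK {k : ℕ} (ω : ℕ) (t : ℝ) : ‖KK k ω t‖ = Fej (2 ^ (k - 1)) t := by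
  unfold KK
  rw [norm_mul, norm_ee, one_mul, Complex.norm_real, Real.norm_eq_abs, abs_of_nonneg (Fej_nonneg _ _)]

/-- `L_1` contraction of the band projections (sampled). -/
lemma Ph_L1 {k : ℕ} (hk : 1 ≤ k) (R ω : ℕ) (e : ℕ → ℂ) :
    ((2 : ℝ) ^ k)⁻¹ * ∑ a ∈ range (2 ^ k), ‖Ph R k ω a e‖ ≤
      ((2 : ℝ) ^ R)⁻¹ * ∑ x ∈ range (2 ^ R), ‖e x‖ := by
  have h1 : ∀ a : ℕ, ‖Ph R k ω a e‖ ≤ ((2 : ℝ) ^ R)⁻¹ * ∑ x ∈ range (2 ^ R),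
      ‖e x‖ * Fej (2 ^ (k - 1)) ((a : ℝ) / 2 ^ k - (x : ℝ) / 2 ^ R) := by
    intro a
    unfold Ph
    rw [norm_mul, norm_inv, norm_pow, Complex.norm_ofNat]
    gcongr
    refine (norm_sum_le _ _).trans (le_of_eq ?_)
    apply Finset.sum_congr rfl
    intro x _
    rw [norm_mul, norm_KK]
  calc ((2 : ℝ) ^ k)⁻¹ * ∑ a ∈ range (2 ^ k), ‖Ph R k ω a e‖
      ≤ ((2 : ℝ) ^ k)⁻¹ * ∑ a ∈ range (2 ^ k), (((2 : ℝ) ^ R)⁻¹ * ∑ x ∈ range (2 ^ R),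
      ‖e x‖ * Fej (2 ^ (k - 1)) ((a : ℝ) / 2 ^ k - (x : ℝ) / 2 ^ R)) := by
        gcongr with a _; exact h1 a
    _ = ((2 : ℝ) ^ R)⁻¹ * ∑ x ∈ range (2 ^ R), ‖e x‖ *
          (((2 : ℝ) ^ k)⁻¹ * ∑ a ∈ range (2 ^ k), Fej (2 ^ (k - 1)) ((a : ℝ) / 2 ^ k - (x : ℝ) / 2 ^ R)) := by
        simp_rw [Finset.mul_sum]
        rw [Finset.sum_comm]
        apply Finset.sum_congr rfl; intro x _
        apply Finset.sum_congr rfl; intro a _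
        ring
    _ = _ := by simp_rw [Fej_grid_mean hk, mul_one]

/-- the tensor operator on the windowed coordinates. -/
def Phi {D : ℕ} (b R : ℕ) (y : Fin D → YT b) (e : (Fin (D + 1) → Fin (2 ^ R)) → ℂ) (x0 : Fin (2 ^ R)) : ℂ :=
  ∑ x : Fin D → Fin (2 ^ R), (∏ j, KR b R (y j) (x j)) * e (Fin.cons x0 x)

/-- the complete operator -/
def HH {D : ℕ} (b L R : ℕ) (y : Fin D → YT b) (a0 : ℕ) (e : (Fin (D + 1) → Fin (2 ^ R)) → ℂ) : ℂ :=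
  Ph R (ell L (fun j => (y j).1)) 1 a0 (ext0 (Phi b R y e))

lemma sum_nuY (b : ℕ) : ∑ y : YT b, nuY y = ((2 : ℝ) ^ b) ^ 2 := by
  rw [Fintype.sum_sigma]
  simp only [nuY, Finset.sum_const, Finset.card_univ, Fintype.card_prod, Fintype.card_fin, nsmul_eq_mul]
  have : ∀ k : Fin (2 ^ b), ((2 ^ b * 2 ^ ((k : ℕ) + 1) : ℕ) : ℝ) * ((2 : ℝ) ^ ((k : ℕ) + 1))⁻¹ = 2 ^ b := by
    intro k; push_cast; field_simp
  simp_rw [this]
  simp [pow_two]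

lemma cons_sum {D : ℕ} {X : Type*} [Fintype X] (F : (Fin (D + 1) → X) → ℝ) :
    ∑ x : Fin (D + 1) → X, F x = ∑ x0 : X, ∑ x : Fin D → X, F (Fin.cons x0 x) := by
  rw [← Fintype.sum_prod_type']
  exact (Fintype.sum_equiv (Fin.consEquiv (fun _ => X)) _ _ (fun p => rfl)).symm

/-- main linear inequality -/
theorem HH_bound (D : ℕ) (p : ℝ) (hp : 1 < p) (hp2 : p < 2) : ∃ C : ℝ, 0 < C ∧ ∀ (b L R : ℕ),
    D * 2 ^ b + 1 ≤ L → 2 ^ b + b + 1 ≤ R → ∀ e : (Fin (D + 1) → Fin (2 ^ R)) → ℂ,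
    ∑ y : Fin D → YT b, (∏ j, nuY (y j)) *
      (((2 : ℝ) ^ ell L (fun j => (y j).1))⁻¹ *
        ∑ a0 ∈ range (2 ^ ell L (fun j => (y j).1)), ‖HH b L R y a0 e‖) ≤
      C * (((2 : ℝ) ^ b) ^ 2) ^ D * (((2 : ℝ) ^ (R * (D + 1)))⁻¹ * ∑ x, ‖e x‖ ^ p) ^ (1 / p) := by
  obtain ⟨C₁, hC₁, hs⟩ := Ph_strong p hp hp2
  have hp0 : 0 < p := by linarith
  refine ⟨(C₁ ^ D) ^ (1 / p), by positivity, ?_⟩
  intro b L R hL hR e
  -- weights on `(y, x0)`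
  set W : (Fin D → YT b) → ℝ := fun y => ∏ j, nuY (y j) with hW
  have hWnn : ∀ y, 0 ≤ W y := fun y => Finset.prod_nonneg (fun j _ => by unfold nuY; positivity)
  have hell : ∀ y : Fin D → YT b, 1 ≤ ell L (fun j => (y j).1) := by
    intro y
    unfold ell
    have : ∑ j : Fin D, (((y j).1 : ℕ) + 1) ≤ ∑ j : Fin D, 2 ^ b :=
      Finset.sum_le_sum (fun j _ => (y j).1.isLt)
    simp at this
    simp only
    omega
  have step1 : ∑ y : Fin D → YT b, W y * (((2 : ℝ) ^ ell L (fun j => (y j).1))⁻¹ *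
        ∑ a0 ∈ range (2 ^ ell L (fun j => (y j).1)), ‖HH b L R y a0 e‖) ≤
      ∑ q : (Fin D → YT b) × Fin (2 ^ R), (W q.1 * ((2 : ℝ) ^ R)⁻¹) * ‖Phi b R q.1 e q.2‖ := by
    rw [Fintype.sum_prod_type]
    apply Finset.sum_le_sum
    intro y _
    have h := Ph_L1 (hell y) R 1 (ext0 (Phi b R y e))
    rw [sum_ext0 (Phi b R y e) (fun z => ‖z‖)] at h
    have h' := mul_le_mul_of_nonneg_left h (hWnn y)
    refine h'.trans (le_of_eq ?_)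
    rw [Finset.mul_sum, Finset.mul_sum]
    apply Finset.sum_congr rfl; intro x _; simp only; ring
  have step2 : ∑ q : (Fin D → YT b) × Fin (2 ^ R), (W q.1 * ((2 : ℝ) ^ R)⁻¹) * ‖Phi b R q.1 e q.2‖ ^ p ≤
      (C₁ * ((2 : ℝ) ^ b) ^ 2) ^ D * (((2 : ℝ) ^ (R * (D + 1)))⁻¹ * ∑ x, ‖e x‖ ^ p) := by
    rw [Fintype.sum_prod_type_right]
    have h1 : ∀ x0 : Fin (2 ^ R), ∑ y : Fin D → YT b, (W y * ((2 : ℝ) ^ R)⁻¹) * ‖Phi b R y e x0‖ ^ p ≤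
        ((2 : ℝ) ^ R)⁻¹ * ((C₁ * ((2 : ℝ) ^ b) ^ 2) ^ D * ∑ x : Fin D → Fin (2 ^ R),
          (∏ _j : Fin D, ((2 : ℝ) ^ R)⁻¹) * ‖e (Fin.cons x0 x)‖ ^ p) := by
      intro x0
      have := tensor_abs (X := Fin (2 ^ R)) (Y := YT b) (fun _ => ((2 : ℝ) ^ R)⁻¹) nuY
        (fun _ => by positivity) (fun _ => by unfold nuY; positivity) (KR b R) p
        (C₁ * ((2 : ℝ) ^ b) ^ 2) hp0 (by positivity) (hs b R hR) D (fun x => e (Fin.cons x0 x))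
      have h2 := mul_le_mul_of_nonneg_left this (show (0:ℝ) ≤ ((2 : ℝ) ^ R)⁻¹ by positivity)
      refine le_trans (le_of_eq ?_) h2
      rw [Finset.mul_sum]
      apply Finset.sum_congr rfl; intro y _; simp only [hW, Phi]; ring
    refine (Finset.sum_le_sum (fun x0 _ => h1 x0)).trans (le_of_eq ?_)
    rw [cons_sum]
    simp only [Finset.prod_const, Finset.card_univ, Fintype.card_fin, Finset.mul_sum]
    apply Finset.sum_congr rfl; intro x0 _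
    apply Finset.sum_congr rfl; intro x _
    have : ((2 : ℝ) ^ (R * (D + 1)))⁻¹ = ((2 : ℝ) ^ R)⁻¹ * (((2 : ℝ) ^ R)⁻¹) ^ D := by
      rw [pow_mul, pow_succ, mul_inv, inv_pow]; ring
    rw [this]; ring
  have hWsum : ∑ q : (Fin D → YT b) × Fin (2 ^ R), (W q.1 * ((2 : ℝ) ^ R)⁻¹) = (((2 : ℝ) ^ b) ^ 2) ^ D := by
    rw [Fintype.sum_prod_type]
    simp only [Finset.sum_const, Finset.card_univ, Fintype.card_fin, nsmul_eq_mul]
    have h1 : ∀ y : Fin D → YT b, ((2 ^ R : ℕ) : ℝ) * (W y * ((2 : ℝ) ^ R)⁻¹) = W y := by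
      intro y; push_cast; field_simp
    simp_rw [h1, hW]
    rw [← sum_nuY b]
    have := Finset.prod_univ_sum (fun _ : Fin D => (Finset.univ : Finset (YT b))) (fun _ y => nuY y)
    rw [Fintype.piFinset_univ] at this
    rw [← this]; simp
  -- Hölder
  have step3 : ∑ q : (Fin D → YT b) × Fin (2 ^ R), (W q.1 * ((2 : ℝ) ^ R)⁻¹) * ‖Phi b R q.1 e q.2‖ ≤
      (∑ q : (Fin D → YT b) × Fin (2 ^ R), (W q.1 * ((2 : ℝ) ^ R)⁻¹)) ^ (1 - p⁻¹) *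
      (∑ q : (Fin D → YT b) × Fin (2 ^ R), (W q.1 * ((2 : ℝ) ^ R)⁻¹) * ‖Phi b R q.1 e q.2‖ ^ p) ^ p⁻¹ := by
    exact Real.inner_le_weight_mul_Lp_of_nonneg Finset.univ hp.le _ _
      (fun q => mul_nonneg (hWnn _) (by positivity)) (fun q => norm_nonneg _)
  refine step1.trans (step3.trans ?_)
  rw [hWsum]
  have hA : (0:ℝ) ≤ (((2 : ℝ) ^ (R * (D + 1)))⁻¹ * ∑ x, ‖e x‖ ^ p) := by
    apply mul_nonneg (by positivity); exact Finset.sum_nonneg (fun _ _ => by positivity)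
  set A := (((2 : ℝ) ^ (R * (D + 1)))⁻¹ * ∑ x, ‖e x‖ ^ p) with hAdef
  set N2 := (((2 : ℝ) ^ b) ^ 2) ^ D with hN2
  have hN2pos : 0 < N2 := by positivity
  calc N2 ^ (1 - p⁻¹) * (∑ q : (Fin D → YT b) × Fin (2 ^ R), (W q.1 * ((2 : ℝ) ^ R)⁻¹) * ‖Phi b R q.1 e q.2‖ ^ p) ^ p⁻¹
      ≤ N2 ^ (1 - p⁻¹) * ((C₁ * ((2 : ℝ) ^ b) ^ 2) ^ D * A) ^ p⁻¹ := by
        gcongr
        exact Finset.sum_nonneg (fun q _ => mul_nonneg (mul_nonneg (hWnn _) (by positivity)) (by positivity))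
    _ = N2 ^ (1 - p⁻¹) * ((C₁ ^ D) ^ p⁻¹ * N2 ^ p⁻¹ * A ^ p⁻¹) := by
        rw [mul_pow, Real.mul_rpow (by positivity) hA, Real.mul_rpow (by positivity) (by positivity)]
    _ = (C₁ ^ D) ^ p⁻¹ * (N2 ^ (1 - p⁻¹) * N2 ^ p⁻¹) * A ^ p⁻¹ := by ring
    _ = (C₁ ^ D) ^ (1 / p) * N2 * A ^ (1 / p) := by
        rw [← Real.rpow_add hN2pos]; simp

end

end Pool.Agent.H72.MT
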