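import Pool.Agent.H72.MT.Disc1

set_option autoImplicit false

namespace Pool.Agent.H72.MT

open Finset
open scoped BigOperators

noncomputable section

/-- total number of frequencies of `Λ` caught by the bands. -/
lemma sum_card_bands {D b L : ℕ} (Λ : Finset (Fin (D + 1) → ℤ))
    (G : Finset ((Fin D → Fin (2 ^ b)) × (Fin D → Fin (2 ^ b)))) :
    ∑ g ∈ G, #{κ : Blk L g.1 | freq L g.1 g.2 κ ∈ Λ} ≤ #Λ := by
  classical
  let Z := (g : (Fin D → Fin (2 ^ b)) × (Fin D → Fin (2 ^ b))) × Blk L g.1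
  let S : Finset Z := G.sigma (fun g => {κ : Blk L g.1 | freq L g.1 g.2 κ ∈ Λ})
  have h1 : ∑ g ∈ G, #{κ : Blk L g.1 | freq L g.1 g.2 κ ∈ Λ} = #S := by
    rw [Finset.card_sigma]
  rw [h1]
  apply Finset.card_le_card_of_injOn (fun z : Z => freq L z.1.1 z.1.2 z.2)
  · intro z hz
    have hz' := (Finset.mem_sigma.1 (show z ∈ S from hz)).2
    exact (Finset.mem_filter.1 hz').2
  · rintro ⟨⟨s, w⟩, κ⟩ _ ⟨⟨s', w'⟩, κ'⟩ _ h
    obtain ⟨h1, h2, h3⟩ := freq_inj h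
    simp only at h1 h2
    subst h1 h2
    simp only [heq_eq_eq] at h3
    subst h3
    rfl

lemma card_pi_filter {D n : ℕ} (P : Fin n → Prop) [DecidablePred P] :
    #{s : Fin D → Fin n | ∀ j, P (s j)} = #{k : Fin n | P k} ^ D := by
  classical
  have : ({s : Fin D → Fin n | ∀ j, P (s j)} : Finset (Fin D → Fin n)) =
      Fintype.piFinset (fun _ => {k : Fin n | P k}) := by
    ext s; simp [Fintype.mem_piFinset]
  rw [this, Fintype.card_piFinset]; simp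

/-- Discrete lower bound. -/
theorem lower_disc (D : ℕ) (p : ℝ) (hp : 1 < p) (hp2 : p < 2) :
    ∃ (c₁ c₂ : ℝ) (b₀ k₀ : ℕ), 0 < c₁ ∧ 0 < c₂ ∧ ∀ b L : ℕ, b₀ ≤ b → D * 2 ^ b + k₀ ≤ L →
      ∃ (Sc : Finset (Fin D → Fin (2 ^ b))) (σ : (s : Fin D → Fin (2 ^ b)) → Blk L s → ℝ),
        (∀ s κ, σ s κ = 1 ∨ σ s κ = -1) ∧
        ∀ (R : ℕ), L + 2 ^ b + b + 3 ≤ R →
          ∀ (Λ : Finset (Fin (D + 1) → ℤ)) (c : (Fin (D + 1) → ℤ) → ℂ),
          (∀ ξ ∈ Λ, ∀ j, |ξ j| < 2 ^ (R - 1)) →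
          (Λ.card : ℝ) ≤ c₂ * (((2 : ℝ) ^ (b * D)) ^ 2 * 2 ^ L) →
          (c₁ * 2 ^ (b * D)) ^ p ≤ ((2 : ℝ) ^ (R * (D + 1)))⁻¹ *
            ∑ x : Fin (D + 1) → Fin (2 ^ R),
              ‖∑ s ∈ Sc, fsR L R s (σ s) x - ∑ ξ ∈ Λ, c ξ * chR R ξ x‖ ^ p := by
  classical
  obtain ⟨C, hC, hH⟩ := HH_bound D p hp hp2
  obtain ⟨η, kD, hη, hDD⟩ := DD_large D
  obtain ⟨cr, δ, hcr, hδ, M₀, hrig⟩ := rigidity η hη
  have hp0 : 0 < p := by linarith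
  refine ⟨(2⁻¹ * ((4 : ℝ) ^ D)⁻¹ * ((2 : ℝ) ^ D)⁻¹ * δ) / C, cr / (2 * 4 ^ D), 2 * kD, kD + M₀ + 1,
    by positivity, by positivity, ?_⟩
  intro b L hb hL
  -- the set of scales
  let Sc : Finset (Fin D → Fin (2 ^ b)) := {s | ∀ j, kD ≤ (s j : ℕ) + 1}
  have hL1 : D * 2 ^ b + 1 ≤ L := by omega
  have hLs : ∀ s : Fin D → Fin (2 ^ b), kD + ∑ j, ((s j : ℕ) + 1) ≤ L := by
    intro s
    have : ∑ j : Fin D, ((s j : ℕ) + 1) ≤ ∑ j : Fin D, 2 ^ b :=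
      Finset.sum_le_sum (fun j _ => (s j).isLt)
    simp only [Finset.sum_const, Finset.card_univ, Fintype.card_fin, smul_eq_mul] at this
    omega
  have hML : M₀ ≤ 2 ^ L := by
    have h1 : L < 2 ^ L := Nat.lt_two_pow_self
    omega
  have hσ : ∀ s : Fin D → Fin (2 ^ b), ∃ σ : Blk L s → ℝ, (∀ i, σ i = 1 ∨ σ i = -1) ∧
      (s ∈ Sc → ∀ τ : Blk L s → ℂ, (#{i | τ i ≠ 0} : ℝ) ≤ cr * 2 ^ L →
          δ * 2 ^ L ≤ ∑ a, ‖((UU L s).mulVec (fun i => ((DD L s i * σ i : ℝ) : ℂ) - τ i)) a‖) := by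
    intro s
    by_cases hs : s ∈ Sc
    · have hs' : ∀ j, kD ≤ (s j : ℕ) + 1 := by
        simpa [Sc] using hs
      have hcard : Fintype.card (Blk L s) = 2 ^ L := card_Blk L s (by have := hLs s; omega)
      obtain ⟨σ, h1, h2⟩ := hrig (Blk L s) (Blk L s) rfl (by rw [hcard]; exact hML) (UU L s)
        (UU_unitary L s (by have := hLs s; omega)) (DD L s) (hDD b L s hs' (hLs s)).1
        (by have := (hDD b L s hs' (hLs s)).2; convert! this)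
      refine ⟨σ, h1, fun _ τ hτ => ?_⟩
      have h3 := h2 τ (by rw [hcard]; push_cast; convert! hτ)
      rw [hcard] at h3
      push_cast at h3 ⊢
      exact h3
    · exact ⟨fun _ => 1, fun _ => Or.inl rfl, fun h => absurd h hs⟩
  choose σ hσ1 hσ2 using hσ
  refine ⟨Sc, σ, hσ1, ?_⟩
  intro R hR Λ c hΛ hcard
  set e : (Fin (D + 1) → Fin (2 ^ R)) → ℂ :=
    fun x => ∑ s ∈ Sc, fsR L R s (σ s) x - ∑ ξ ∈ Λ, c ξ * chR R ξ x with he
  have h2b := Nat.two_pow_pos b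
  have hR2 : 2 ^ b + b + 2 ≤ R := by omega
  have hLR : L + 2 ≤ R := by omega
  -- good windows
  let Wc : Finset (Fin D → Fin (2 ^ b)) := {w | ∀ j, (1 / 2 : ℝ) ≤ win b (w j)}
  have hScard : (2 ^ b) ^ D ≤ 2 ^ D * #Sc := by
    have h1 : #Sc = #{k : Fin (2 ^ b) | kD ≤ (k : ℕ) + 1} ^ D := card_pi_filter (fun k : Fin (2 ^ b) => kD ≤ (k : ℕ) + 1)
    rw [h1, ← mul_pow]
    apply Nat.pow_le_pow_left
    have h2 : #{k : Fin (2 ^ b) | ¬ (kD ≤ (k : ℕ) + 1)} ≤ kD := by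
      have : #{k : Fin (2 ^ b) | ¬ (kD ≤ (k : ℕ) + 1)} ≤ #(range kD) := by
        apply Finset.card_le_card_of_injOn (fun k : Fin (2 ^ b) => (k : ℕ))
        · intro k hk
          simp only [Finset.coe_filter, Finset.mem_univ, true_and, Set.mem_ofPred_eq, not_le] at hk
          simp only [Finset.coe_range, Set.mem_Iio]; omega
        · intro k _ k' _ h; exact Fin.ext h
      simpa using this
    have h3 := Finset.card_filter_add_card_filter_not (s := (Finset.univ : Finset (Fin (2 ^ b))))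
      (fun k => kD ≤ (k : ℕ) + 1)
    rw [Finset.card_univ, Fintype.card_fin] at h3
    have h4 : b < 2 ^ b := Nat.lt_two_pow_self
    omega
  have hWcard : (2 ^ b) ^ D ≤ 2 ^ D * #Wc := by
    have h1 : #Wc = #{k : Fin (2 ^ b) | (1 / 2 : ℝ) ≤ win b k} ^ D :=
      card_pi_filter (fun k : Fin (2 ^ b) => (1 / 2 : ℝ) ≤ win b k)
    rw [h1, ← mul_pow]
    apply Nat.pow_le_pow_left
    have := (win_half b).2
    convert! this
  -- pairs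
  let P := Sc ×ˢ Wc
  let good : Finset ((Fin D → Fin (2 ^ b)) × (Fin D → Fin (2 ^ b))) :=
    {g ∈ P | (#{κ : Blk L g.1 | freq L g.1 g.2 κ ∈ Λ} : ℝ) ≤ cr * 2 ^ L}
  set N : ℝ := (2 : ℝ) ^ (b * D) with hN
  have hN' : ((2 : ℝ) ^ b) ^ D = N := by rw [hN, pow_mul]
  have hNpos : 0 < N := by positivity
  have hPcard : ((4 : ℝ) ^ D)⁻¹ * N ^ 2 ≤ #P := by
    have h1 : N ≤ 2 ^ D * (#Sc : ℝ) := by rw [← hN']; exact_mod_cast hScard
    have h2 : N ≤ 2 ^ D * (#Wc : ℝ) := by rw [← hN']; exact_mod_cast hWcard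
    have h3 : N * N ≤ (2 ^ D * (#Sc : ℝ)) * (2 ^ D * (#Wc : ℝ)) := by gcongr
    have h4 : (#P : ℝ) = (#Sc : ℝ) * (#Wc : ℝ) := by
      simp only [P, Finset.card_product]; push_cast; ring
    rw [h4, inv_mul_le_iff₀ (by positivity)]
    have h5 : (4 : ℝ) ^ D = 2 ^ D * 2 ^ D := by rw [← mul_pow]; norm_num
    rw [h5, pow_two]
    linarith
  have hbad : ((#P : ℝ) - good.card) * (cr * 2 ^ L) ≤ cr / (2 * 4 ^ D) * (N ^ 2 * 2 ^ L) := by
    have h1 : (#P : ℝ) - good.card = #{g ∈ P | ¬ (#{κ : Blk L g.1 | freq L g.1 g.2 κ ∈ Λ} : ℝ) ≤ cr * 2 ^ L} := by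
      have := Finset.card_filter_add_card_filter_not (s := P)
        (fun g => (#{κ : Blk L g.1 | freq L g.1 g.2 κ ∈ Λ} : ℝ) ≤ cr * 2 ^ L)
      rw [← this]; push_cast; simp only [good]; ring
    rw [h1]
    refine le_trans ?_ hcard
    refine le_trans ?_ (show ((∑ g ∈ P, #{κ : Blk L g.1 | freq L g.1 g.2 κ ∈ Λ} : ℕ) : ℝ) ≤ #Λ by
      exact_mod_cast sum_card_bands Λ P)
    push_cast
    rw [← nsmul_eq_mul]
    refine le_trans (Finset.card_nsmul_le_sum _ (fun g => (#{κ : Blk L g.1 | freq L g.1 g.2 κ ∈ Λ} : ℝ)) _ ?_) ?_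
    · intro g hg
      rw [Finset.mem_filter] at hg
      exact (lt_of_not_ge hg.2).le
    · exact Finset.sum_le_sum_of_subset_of_nonneg (Finset.filter_subset _ _) (fun _ _ _ => by positivity)
  have hgood : 2⁻¹ * ((4 : ℝ) ^ D)⁻¹ * N ^ 2 ≤ good.card := by
    have h1 : ((#P : ℝ) - good.card) * (cr * 2 ^ L) ≤ (2⁻¹ * ((4 : ℝ) ^ D)⁻¹ * N ^ 2) * (cr * 2 ^ L) := by
      refine hbad.trans (le_of_eq ?_)
      field_simp
    have h2 : (#P : ℝ) - good.card ≤ 2⁻¹ * ((4 : ℝ) ^ D)⁻¹ * N ^ 2 := le_of_mul_le_mul_right h1 (by positivity)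
    linarith
  -- each good pair contributes
  have hpair : ∀ g ∈ good, N * ((2 : ℝ) ^ D)⁻¹ * δ ≤ ((2 : ℝ) ^ L)⁻¹ *
      ∑ a : Blk L g.1, ‖HH b L R (mkY g.1 g.2 a) a.1 e‖ := by
    rintro ⟨s, w⟩ hg
    simp only [good, P, Finset.mem_filter, Finset.mem_product] at hg
    obtain ⟨⟨hs, hw⟩, hcardg⟩ := hg
    have hw' : ∀ j, (1 / 2 : ℝ) ≤ win b (w j) := by simpa [Wc] using hw
    have hwprod : ((2 : ℝ) ^ D)⁻¹ ≤ ∏ j, win b (w j) := by
      calc ((2 : ℝ) ^ D)⁻¹ = ∏ _j : Fin D, (1 / 2 : ℝ) := by simp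
        _ ≤ ∏ j, win b (w j) := Finset.prod_le_prod (fun _ _ => by norm_num) (fun j _ => hw' j)
    have hwpos : 0 < ∏ j, win b (w j) := lt_of_lt_of_le (by positivity) hwprod
    set τ : Blk L s → ℂ := fun κ => if freq L s w κ ∈ Λ then c (freq L s w κ) *
      ((DD L s κ * Real.sqrt (2 ^ L) * (∏ j, win b (w j))⁻¹ : ℝ) : ℂ) else 0 with hτ
    have hHa : ∀ a : Blk L s, ‖HH b L R (mkY s w a) a.1 e‖ =
        (N * ∏ j, win b (w j)) * ‖((UU L s).mulVec (fun i => ((DD L s i * σ s i : ℝ) : ℂ) - τ i)) a‖ := by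
      intro a
      rw [he, HH_sub_eq hR2 hLR hL1 Sc σ Λ c hΛ s w hs hwpos.ne' a, norm_mul, Complex.norm_real,
        Real.norm_eq_abs, hN', abs_of_nonneg (by positivity)]
    rw [Finset.sum_congr rfl (fun a _ => hHa a), ← Finset.mul_sum]
    have h1 : (#{i | τ i ≠ 0} : ℝ) ≤ cr * 2 ^ L := by
      refine le_trans ?_ hcardg
      norm_cast
      apply Finset.card_le_card
      intro κ hκ
      simp only [Finset.mem_filter, Finset.mem_univ, true_and] at hκ ⊢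
      by_contra hcon
      exact hκ (by simp only [hτ]; rw [if_neg hcon])
    have h2 := hσ2 s hs τ (by convert! h1)
    calc N * ((2 : ℝ) ^ D)⁻¹ * δ = ((2 : ℝ) ^ L)⁻¹ * ((N * ((2 : ℝ) ^ D)⁻¹) * (δ * 2 ^ L)) := by
          field_simp
      _ ≤ ((2 : ℝ) ^ L)⁻¹ * ((N * ∏ j, win b (w j)) * ∑ a, ‖((UU L s).mulVec (fun i => ((DD L s i * σ s i : ℝ) : ℂ) - τ i)) a‖) := by
          gcongr
  have hsum := sum_targets_ge (L := L) (fun y a0 => ‖HH b L R y a0 e‖) (fun _ _ => norm_nonneg _) good hL1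
  have hB := hH b L R hL1 (by omega) e
  have htot : (good.card : ℝ) * (N * ((2 : ℝ) ^ D)⁻¹ * δ) ≤ C * (((2 : ℝ) ^ b) ^ 2) ^ D *
      (((2 : ℝ) ^ (R * (D + 1)))⁻¹ * ∑ x, ‖e x‖ ^ p) ^ (1 / p) := by
    refine le_trans ?_ (hsum.trans hB)
    rw [← nsmul_eq_mul]
    exact Finset.card_nsmul_le_sum _ _ _ hpair
  have hN2 : (((2 : ℝ) ^ b) ^ 2) ^ D = N ^ 2 := by rw [← hN']; ring
  rw [hN2] at htot
  set A := ((2 : ℝ) ^ (R * (D + 1)))⁻¹ * ∑ x, ‖e x‖ ^ p with hA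
  have hA0 : 0 ≤ A := by
    rw [hA]; exact mul_nonneg (by positivity) (Finset.sum_nonneg fun _ _ => by positivity)
  have hfin : (2⁻¹ * ((4 : ℝ) ^ D)⁻¹ * ((2 : ℝ) ^ D)⁻¹ * δ) / C * N ≤ A ^ (1 / p) := by
    have h1 : (2⁻¹ * ((4 : ℝ) ^ D)⁻¹ * N ^ 2) * (N * ((2 : ℝ) ^ D)⁻¹ * δ) ≤ C * N ^ 2 * A ^ (1 / p) := by
      refine le_trans ?_ htot
      gcongr
    rw [div_mul_eq_mul_div, div_le_iff₀ hC]
    have h2 : N ^ 2 * (2⁻¹ * ((4 : ℝ) ^ D)⁻¹ * ((2 : ℝ) ^ D)⁻¹ * δ * N) ≤ N ^ 2 * (A ^ (1 / p) * C) := by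
      calc _ = (2⁻¹ * ((4 : ℝ) ^ D)⁻¹ * N ^ 2) * (N * ((2 : ℝ) ^ D)⁻¹ * δ) := by ring
        _ ≤ _ := h1
        _ = _ := by ring
    exact le_of_mul_le_mul_left h2 (by positivity)
  have hfin2 := Real.rpow_le_rpow (by positivity) hfin hp0.le
  rw [← Real.rpow_mul hA0, one_div, inv_mul_cancel₀ hp0.ne', Real.rpow_one] at hfin2
  exact hfin2

end

end Pool.Agent.H72.MT
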