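import Pool.Agent.H72.MT.Rigid

set_option autoImplicit false

namespace Pool.Agent.H72.MT

open Finset
open scoped BigOperators

namespace Rigid

/-- numerical counting inequality with an extra factor `K` -/
lemma numeric_fam (K M k1 k2 k3 : ℕ) (hM : 0 < M) (hK : 8 * K ≤ M) (h1 : 128 * k1 ≤ M)
    (h2 : 64 * k2 ≤ M) (h3 : 32 * k3 ≤ 5 * M) :
    (K : ℝ) * (((1 + 1 / ((128 : ℕ) : ℝ)) ^ M * ((128 : ℕ) : ℝ) ^ k1) *
      (((1 + 1 / ((64 : ℕ) : ℝ)) ^ M * ((64 : ℕ) : ℝ) ^ k2) *
        ((1 + 1 / ((4 : ℕ) : ℝ)) ^ M * ((4 : ℕ) : ℝ) ^ k3))) < 2 ^ M := by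
  have e : ((1 + 1 / ((128 : ℕ) : ℝ)) ^ M * ((128 : ℕ) : ℝ) ^ k1) *
      (((1 + 1 / ((64 : ℕ) : ℝ)) ^ M * ((64 : ℕ) : ℝ) ^ k2) *
        ((1 + 1 / ((4 : ℕ) : ℝ)) ^ M * ((4 : ℕ) : ℝ) ^ k3)) =
      (41925 / 32768 : ℝ) ^ M * 2 ^ (7 * k1 + 6 * k2 + 2 * k3) := by
    have a1 : (((128 : ℕ) : ℝ)) = 2 ^ 7 := by norm_num
    have a2 : (((64 : ℕ) : ℝ)) = 2 ^ 6 := by norm_num
    have a3 : (((4 : ℕ) : ℝ)) = 2 ^ 2 := by norm_num
    rw [a1, a2, a3, ← pow_mul, ← pow_mul, ← pow_mul]
    have a4 : (41925 / 32768 : ℝ) = (1 + 1 / 2 ^ 7) * ((1 + 1 / 2 ^ 6) * (1 + 1 / 2 ^ 2)) := by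
      norm_num
    rw [a4, mul_pow, mul_pow, pow_add, pow_add]
    ring
  rw [e]
  refine lt_of_pow_lt_pow_left₀ 128 (by positivity) ?_
  have eK : (K : ℝ) ^ 128 ≤ (2 ^ 16 : ℝ) ^ M := by
    have b1 : (K : ℝ) ≤ 2 ^ K := by exact_mod_cast (Nat.lt_two_pow_self (n := K)).le
    calc (K : ℝ) ^ 128 ≤ (2 ^ K : ℝ) ^ 128 := pow_le_pow_left₀ (by positivity) b1 128
      _ = 2 ^ (K * 128) := by rw [← pow_mul]
      _ ≤ 2 ^ (16 * M) := pow_le_pow_right₀ (by norm_num) (by omega)
      _ = (2 ^ 16 : ℝ) ^ M := by rw [← pow_mul]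
  have e2 : ((41925 / 32768 : ℝ) ^ M * 2 ^ (7 * k1 + 6 * k2 + 2 * k3)) ^ 128 ≤
      ((41925 / 32768 : ℝ) ^ 128 * 2 ^ 59) ^ M := by
    rw [mul_pow, mul_pow, ← pow_mul, ← pow_mul, ← pow_mul, ← pow_mul, mul_comm M 128]
    apply mul_le_mul_of_nonneg_left _ (by positivity)
    apply pow_le_pow_right₀ (by norm_num)
    nlinarith
  have e3 : ((K : ℝ) * ((41925 / 32768 : ℝ) ^ M * 2 ^ (7 * k1 + 6 * k2 + 2 * k3))) ^ 128 ≤
      ((2 ^ 16 : ℝ) * ((41925 / 32768 : ℝ) ^ 128 * 2 ^ 59)) ^ M := by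
    rw [mul_pow, mul_pow (2 ^ 16 : ℝ)]
    exact mul_le_mul eK e2 (by positivity) (by positivity)
  refine e3.trans_lt ?_
  rw [← pow_mul, mul_comm M 128, pow_mul]
  apply pow_lt_pow_left₀ _ (by positivity) (by omega)
  norm_num

end Rigid

open Rigid in
/-- Rigidity, weak form, uniform over a finite family of unitaries (`K` fixed, `M₀` depends on `K`). -/
theorem rigidity_fam (η : ℝ) (hη : 0 < η) : ∃ c β lam : ℝ, 0 < c ∧ 0 < β ∧ 0 < lam ∧
    ∀ K : ℕ, ∃ M₀ : ℕ,
    ∀ (I J : Type) [Fintype I] [Fintype J] [DecidableEq I] [DecidableEq J],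
      Fintype.card J = Fintype.card I → M₀ ≤ Fintype.card I →
      ∀ U : Fin K → Matrix J I ℂ, (∀ y, (U y).conjTranspose * U y = 1) →
      ∀ Δ : I → ℝ, (∀ i, 0 ≤ Δ i ∧ Δ i ≤ 1) → (8 * #{i | Δ i < η} ≤ Fintype.card I) →
      ∃ σ : I → ℝ, (∀ i, σ i = 1 ∨ σ i = -1) ∧
        ∀ (y : Fin K) (τ : I → ℂ), (#{i | τ i ≠ 0} : ℝ) ≤ c * Fintype.card I →
          β * Fintype.card I ≤
            #{a | lam < ‖((U y).mulVec (fun i => ((Δ i * σ i : ℝ) : ℂ) - τ i)) a‖} := by
  refine ⟨1 / 64, 1 / 128, η / 12, by norm_num, by norm_num, by positivity, ?_⟩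
  intro K
  refine ⟨8 * K + 1, ?_⟩
  intro I J _ _ _ _ hcard hM U hU Δ hΔ hsmall
  classical
  by_contra hcon
  push Not at hcon
  set M := Fintype.card I with hMdef
  have hM1 : 0 < M := by omega
  have hM0 : (0 : ℝ) < M := by exact_mod_cast hM1
  have hV : ∀ y, ((U y).conjTranspose).conjTranspose * (U y).conjTranspose = 1 := by
    intro y
    rw [Matrix.conjTranspose_conjTranspose]
    exact (Matrix.mul_eq_one_comm_of_card_eq J I ℂ hcard).2 (hU y)
  let σ : Finset I → I → ℝ := fun A i => if i ∈ A then 1 else -1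
  have hσ : ∀ A i, σ A i = 1 ∨ σ A i = -1 := by
    intro A i
    by_cases h : i ∈ A <;> simp [σ, h]
  have hmain : ∀ A : Finset I, ∃ y : Fin K, ∃ B : Finset J, ∃ P D : Finset I, #B ≤ M / 128 ∧
      P ∈ pats (U y).conjTranspose B ∧ #D ≤ 5 * M / 32 ∧ A = symmDiff P D := by
    intro A
    obtain ⟨y, τ, hτ, hlt⟩ := hcon (σ A) (hσ A)
    set h := (U y).mulVec (fun i => ((Δ i * σ A i : ℝ) : ℂ) - τ i) with hh
    set V := (U y).conjTranspose with hVdef
    let B : Finset J := {a | η / 12 < ‖h a‖}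
    let hB : J → ℂ := fun a => if a ∈ B then h a else 0
    let hS : J → ℂ := fun a => if a ∈ B then 0 else h a
    have hsum : h = hB + hS := by
      ext a
      by_cases ha : a ∈ B <;> simp [hB, hS, ha]
    have hVh : V.mulVec h = fun i => ((Δ i * σ A i : ℝ) : ℂ) - τ i := by
      rw [hh, Matrix.mulVec_mulVec, hVdef, hU y, Matrix.one_mulVec]
    let P : Finset I := {i | 0 < (V.mulVec hB i).re}
    refine ⟨y, B, P, symmDiff P A, ?_, ?_, ?_, ?_⟩
    · -- #B
      have h2 : (#B : ℝ) * 128 ≤ M := by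
        have h3 : (#B : ℝ) < 1 / 128 * M := hlt
        linarith
      have h3 : #B * 128 ≤ M := by exact_mod_cast h2
      omega
    · simp only [pats, mem_filter, mem_univ, true_and]
      refine ⟨hB, ?_, ?_⟩
      · intro a ha
        simp [hB, ha]
      · intro i
        simp only [P, mem_filter, mem_univ, true_and, hVdef]
    · -- the exceptional set
      let E1 : Finset I := {i | Δ i < η}
      let E2 : Finset I := {i | τ i ≠ 0}
      let E3 : Finset I := {i | η ≤ ‖V.mulVec hS i‖}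
      have hsub : symmDiff P A ⊆ E1 ∪ (E2 ∪ E3) := by
        intro i hi
        by_contra hn
        simp only [E1, E2, E3, mem_union, mem_filter, mem_univ, true_and, not_or, not_lt,
          not_not, not_le] at hn
        obtain ⟨h1, h2, h3⟩ := hn
        have h4 : V.mulVec hB i = ((Δ i * σ A i : ℝ) : ℂ) - V.mulVec hS i := by
          have h5 : V.mulVec h i = ((Δ i * σ A i : ℝ) : ℂ) - τ i := congrFun hVh i
          rw [h2, sub_zero] at h5
          rw [← h5, hsum, Matrix.mulVec_add]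
          simp
        have h6 : (V.mulVec hB i).re = Δ i * σ A i - (V.mulVec hS i).re := by
          rw [h4, Complex.sub_re, Complex.ofReal_re]
        have h7 : |(V.mulVec hS i).re| < η := lt_of_le_of_lt (Complex.abs_re_le_norm _) h3
        rw [abs_lt] at h7
        have h8 : i ∈ P ↔ i ∈ A := by
          simp only [P, mem_filter, mem_univ, true_and]
          rw [h6]
          by_cases hA : i ∈ A
          · simp only [σ, hA, if_true, mul_one, iff_true]
            linarith [h7.1, h7.2]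
          · simp only [σ, hA, if_false, iff_false]
            intro hc
            linarith [h7.1, h7.2]
        rw [mem_symmDiff] at hi
        tauto
      have c1 : 8 * #E1 ≤ M := hsmall
      have c2 : 64 * #E2 ≤ M := by
        have : (64 : ℝ) * #E2 ≤ M := by
          have := hτ
          simp only [E2]
          linarith
        exact_mod_cast this
      have c3 : 128 * #E3 ≤ M := by
        have h1 : (#E3 : ℝ) * η ^ 2 ≤ ∑ i, ‖V.mulVec hS i‖ ^ 2 := by
          calc (#E3 : ℝ) * η ^ 2 = ∑ a ∈ E3, η ^ 2 := by rw [Finset.sum_const, nsmul_eq_mul]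
            _ ≤ ∑ a ∈ E3, ‖V.mulVec hS a‖ ^ 2 := by
              apply Finset.sum_le_sum
              intro a ha
              simp only [E3, mem_filter, mem_univ, true_and] at ha
              exact pow_le_pow_left₀ hη.le ha 2
            _ ≤ ∑ a, ‖V.mulVec hS a‖ ^ 2 := by
              apply Finset.sum_le_sum_of_subset_of_nonneg (subset_univ _)
              intro a _ _
              positivity
        rw [unitary_norm V (hV y)] at h1
        have h2 : ∑ a, ‖hS a‖ ^ 2 ≤ (η / 12) ^ 2 * M := by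
          calc ∑ a, ‖hS a‖ ^ 2 ≤ ∑ a : J, (η / 12) ^ 2 := by
                apply Finset.sum_le_sum
                intro a _
                by_cases ha : a ∈ B
                · simp only [hS, ha, if_true]
                  simp only [norm_zero, ne_eq, OfNat.ofNat_ne_zero, not_false_eq_true, zero_pow]
                  positivity
                · simp only [hS, ha, if_false]
                  simp only [B, mem_filter, mem_univ, true_and, not_lt] at ha
                  exact pow_le_pow_left₀ (norm_nonneg _) ha 2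
            _ = (η / 12) ^ 2 * M := by
                rw [Finset.sum_const, card_univ, hcard, nsmul_eq_mul, mul_comm]
        have h3 : (#E3 : ℝ) * η ^ 2 ≤ (η / 12) ^ 2 * M := h1.trans h2
        have h4 : (128 : ℝ) * #E3 ≤ M := by
          have h5 : η ^ 2 * ((144 : ℝ) * #E3) ≤ η ^ 2 * M := by nlinarith
          have h6 : (144 : ℝ) * #E3 ≤ M := le_of_mul_le_mul_left h5 (by positivity)
          have h7 : (0 : ℝ) ≤ #E3 := Nat.cast_nonneg _
          linarith
        exact_mod_cast h4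
      have c4 := card_le_card hsub
      have c5 := (card_union_le E1 (E2 ∪ E3))
      have c6 := card_union_le E2 E3
      omega
    · rw [symmDiff_symmDiff_cancel_left]
  -- counting
  let SB : Finset (Finset J) := {B : Finset J | #B ≤ M / 128}
  let SD : Finset (Finset I) := {D : Finset I | #D ≤ 5 * M / 32}
  have hsub : (univ : Finset (Finset I)) ⊆
      (univ : Finset (Fin K)).biUnion (fun y => SB.biUnion (fun B =>
        (pats (U y).conjTranspose B).biUnion (fun P => SD.image (fun D => symmDiff P D)))) := by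
    intro A _
    obtain ⟨y, B, P, D, hB, hP, hD, hA⟩ := hmain A
    rw [mem_biUnion]
    refine ⟨y, mem_univ _, ?_⟩
    rw [mem_biUnion]
    refine ⟨B, by simpa [SB] using hB, ?_⟩
    rw [mem_biUnion]
    refine ⟨P, hP, ?_⟩
    rw [mem_image]
    exact ⟨D, by simpa [SD] using hD, hA.symm⟩
  have hc1 : 2 ^ M ≤ K * (#SB * ((∑ i ∈ Iic (2 * (M / 128)), M.choose i) * #SD)) := by
    have h0 := card_le_card hsub
    rw [card_univ, Fintype.card_finset] at h0
    refine h0.trans ?_
    have h1 := card_biUnion_le_card_mul (univ : Finset (Fin K)) (fun y => SB.biUnion (fun B =>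
        (pats (U y).conjTranspose B).biUnion (fun P => SD.image (fun D => symmDiff P D))))
        (#SB * ((∑ i ∈ Iic (2 * (M / 128)), M.choose i) * #SD)) ?_
    · rwa [card_univ, Fintype.card_fin] at h1
    intro y _
    refine card_biUnion_le_card_mul _ _ _ ?_
    intro B hB
    refine (card_biUnion_le_card_mul _ _ #SD ?_).trans ?_
    · intro P _
      exact card_image_le
    · apply Nat.mul_le_mul_right
      refine (card_pats _ B).trans ?_
      apply Finset.sum_le_sum_of_subset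
      apply Finset.Iic_subset_Iic.2
      have : #B ≤ M / 128 := by simpa [SB] using hB
      omega
  have hb1 : (#SB : ℝ) ≤ (1 + 1 / ((128 : ℕ) : ℝ)) ^ M * ((128 : ℕ) : ℝ) ^ (M / 128) := by
    refine le_trans ?_ (binom_tail M (M / 128) 128 (by norm_num))
    have := card_small (J := J) (M / 128)
    rw [hcard] at this
    exact_mod_cast this
  have hb2 : ((∑ i ∈ Iic (2 * (M / 128)), M.choose i : ℕ) : ℝ) ≤
      (1 + 1 / ((64 : ℕ) : ℝ)) ^ M * ((64 : ℕ) : ℝ) ^ (2 * (M / 128)) :=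
    binom_tail M _ 64 (by norm_num)
  have hb3 : (#SD : ℝ) ≤ (1 + 1 / ((4 : ℕ) : ℝ)) ^ M * ((4 : ℕ) : ℝ) ^ (5 * M / 32) := by
    refine le_trans ?_ (binom_tail M (5 * M / 32) 4 (by norm_num))
    exact_mod_cast card_small (J := I) (5 * M / 32)
  have hnum := numeric_fam K M (M / 128) (2 * (M / 128)) (5 * M / 32) hM1 (by omega) (by omega)
    (by omega) (by omega)
  have hc2 : (2 : ℝ) ^ M ≤
      K * (#SB * (((∑ i ∈ Iic (2 * (M / 128)), M.choose i : ℕ) : ℝ) * #SD)) := by
    exact_mod_cast hc1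
  have hc3 : #SB * (((∑ i ∈ Iic (2 * (M / 128)), M.choose i : ℕ) : ℝ) * #SD) ≤
      ((1 + 1 / ((128 : ℕ) : ℝ)) ^ M * ((128 : ℕ) : ℝ) ^ (M / 128)) *
      (((1 + 1 / ((64 : ℕ) : ℝ)) ^ M * ((64 : ℕ) : ℝ) ^ (2 * (M / 128))) *
        ((1 + 1 / ((4 : ℕ) : ℝ)) ^ M * ((4 : ℕ) : ℝ) ^ (5 * M / 32))) := by
    apply mul_le_mul hb1 _ (by positivity) (by positivity)
    apply mul_le_mul hb2 hb3 (by positivity) (by positivity)
  have hc4 := mul_le_mul_of_nonneg_left hc3 (Nat.cast_nonneg (α := ℝ) K)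
  linarith

end Pool.Agent.H72.MT
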