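import Pool.Agent.H72.MT.Disc1P
import Pool.Agent.H72.MT.RigidFam
import Pool.Agent.H72.MT.Delt
import Pool.Agent.H72.MT.LowerDisc

set_option autoImplicit false

namespace Pool.Agent.H72.MT

open Finset
open scoped BigOperators

noncomputable section

lemma norm_ee_sub_le (s t : ℝ) : ‖ee s - ee t‖ ≤ 2 * Real.pi * |s - t| := by
  have h1 : ee s - ee t = ee t * (ee (s - t) - 1) := by
    rw [mul_sub, ← ee_add, mul_one]; congr 2; ring
  rw [h1, norm_mul, norm_ee, one_mul]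
  have h2 : ee (s - t) = Complex.exp (Complex.I * ((2 * Real.pi * (s - t) : ℝ) : ℂ)) := by
    unfold ee; congr 1; push_cast; ring
  rw [h2]
  refine (Real.norm_exp_I_mul_ofReal_sub_one_le).trans (le_of_eq ?_)
  rw [Real.norm_eq_abs, abs_mul, abs_of_nonneg (by positivity)]

lemma norm_PX {D b : ℕ} (L : ℕ) (s : Fin D → Fin (2 ^ b)) (y : ℝ) (κ : Blk L s) : ‖PX L s y κ‖ = 1 :=
  norm_ee _

lemma PX_close {D b : ℕ} (L : ℕ) (s : Fin D → Fin (2 ^ b)) (y y' : ℝ) (κ : Blk L s) :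
    ‖PX L s y κ - PX L s y' κ‖ ≤ 4 * Real.pi * |y - y'| := by
  unfold PX
  refine (norm_ee_sub_le _ _).trans ?_
  have hk : ((κ.1 : ℕ) : ℝ) < 2 ^ ell L s := by exact_mod_cast κ.1.isLt
  have hp : (0 : ℝ) < 2 ^ ell L s := by positivity
  have h1 : (((κ.1 : ℕ) : ℝ) + 2 ^ ell L s) * (y / 2 ^ ell L s) -
      (((κ.1 : ℕ) : ℝ) + 2 ^ ell L s) * (y' / 2 ^ ell L s) =
      ((((κ.1 : ℕ) : ℝ) + 2 ^ ell L s) / 2 ^ ell L s) * (y - y') := by ring
  rw [h1, abs_mul]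
  have h2 : |(((κ.1 : ℕ) : ℝ) + 2 ^ ell L s) / 2 ^ ell L s| ≤ 2 := by
    rw [abs_of_nonneg (by positivity), div_le_iff₀ hp]; linarith
  have := Real.pi_pos
  calc 2 * Real.pi * (|(((κ.1 : ℕ) : ℝ) + 2 ^ ell L s) / 2 ^ ell L s| * |y - y'|)
      ≤ 2 * Real.pi * (2 * |y - y'|) := by gcongr
    _ = _ := by ring

lemma DD1_bounds {D b : ℕ} (L : ℕ) (s : Fin D → Fin (2 ^ b)) (κ : Blk L s) :
    0 ≤ DD1 L s κ ∧ DD1 L s κ ≤ 1 ∧ DD L s κ ≤ DD1 L s κ := by
  have h0 : 0 ≤ DD1 L s κ := Finset.prod_nonneg (fun j _ => tri_nonneg _ _)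
  refine ⟨h0, Finset.prod_le_one (fun j _ => tri_nonneg _ _) (fun j _ => tri_le_one _ _), ?_⟩
  unfold DD
  have h1 : del (ell L s) κ.1 ≤ 1 := tri_le_one _ _
  calc del (ell L s) κ.1 * ∏ j, del ((s j : ℕ) + 1) (κ.2 j) ≤ 1 * DD1 L s κ :=
        mul_le_mul_of_nonneg_right h1 h0
    _ = _ := one_mul _

/-- phased block matrix -/
def UP {D b : ℕ} (L : ℕ) (s : Fin D → Fin (2 ^ b)) (y : ℝ) : Matrix (Blk L s) (Blk L s) ℂ :=
  fun a κ => UU L s a κ * PX L s y κ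

lemma UP_unitary {D b : ℕ} (L : ℕ) (s : Fin D → Fin (2 ^ b)) (hL : ∑ j, ((s j : ℕ) + 1) ≤ L) (y : ℝ) :
    (UP L s y).conjTranspose * UP L s y = 1 := by
  have hU := UU_unitary L s hL
  ext κ κ'
  have h1 := congrFun (congrFun hU κ) κ'
  rw [Matrix.mul_apply] at h1 ⊢
  have h2 : ∀ a, (UP L s y).conjTranspose κ a * UP L s y a κ' =
      ((UU L s).conjTranspose κ a * UU L s a κ') * ((starRingEnd ℂ) (PX L s y κ) * PX L s y κ') := by
    intro a
    simp only [UP, Matrix.conjTranspose_apply, RCLike.star_def, map_mul]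
    ring
  rw [Finset.sum_congr rfl (fun a _ => h2 a), ← Finset.sum_mul, h1]
  by_cases h : κ = κ'
  · subst h
    rw [Matrix.one_apply_eq, one_mul, mul_comm, Complex.mul_conj, Complex.normSq_eq_norm_sq, norm_PX]
    simp
  · rw [Matrix.one_apply_ne h, zero_mul]

/-- total number of frequencies in the bands. -/
lemma sum_card_Lam {D b : ℕ} (Λ : Finset (Fin (D + 1) → ℤ))
    (G : Finset ((Fin D → Fin (2 ^ b)) × (Fin D → Fin (2 ^ b)))) :
    ∑ g ∈ G, #(Lam g.1 g.2 Λ) ≤ #Λ := by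
  classical
  have hdisj : ∀ g ∈ G, ∀ g' ∈ G, g ≠ g' → Disjoint (Lam g.1 g.2 Λ) (Lam g'.1 g'.2 Λ) := by
    rintro ⟨s, w⟩ _ ⟨s', w'⟩ _ hne
    rw [Finset.disjoint_left]
    intro ξ h1 h2
    apply hne
    have h1' : ∀ j : Fin D, ξ j.succ ∈ bandF ((s j : ℕ) + 1) (2 ^ b + (w j : ℕ)) := (mem_Lam.1 h1).2
    have h2' : ∀ j : Fin D, ξ j.succ ∈ bandF ((s' j : ℕ) + 1) (2 ^ b + (w' j : ℕ)) := (mem_Lam.1 h2).2
    have hj : ∀ j, s j = s' j ∧ w j = w' j := by
      intro j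
      have h3 := inB_unique (window_mem (w j)) (window_mem (w' j)) (bandF_inB (h1' j)) (bandF_inB (h2' j))
      exact ⟨Fin.ext (by omega), Fin.ext (by omega)⟩
    exact Prod.ext (funext fun j => (hj j).1) (funext fun j => (hj j).2)
  rw [← Finset.card_biUnion hdisj]
  apply Finset.card_le_card
  intro ξ hξ
  rw [Finset.mem_biUnion] at hξ
  obtain ⟨g, _, hg⟩ := hξ
  exact (mem_Lam.1 hg).1

/-- weighted sum over targets and fine points is at least the sum over `(s,w,a,y0)` -/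
lemma sum_targets_ge1 {D b L R : ℕ} (F : (Fin D → YT b) → Fin (2 ^ R) → ℝ) (hF : ∀ y x0, 0 ≤ F y x0)
    (G : Finset ((Fin D → Fin (2 ^ b)) × (Fin D → Fin (2 ^ b))))
    (hL : D * 2 ^ b + 1 ≤ L) (hLR : L ≤ R) :
    ∑ g ∈ G, ((2 : ℝ) ^ (∑ j, ((g.1 j : ℕ) + 1)))⁻¹ * ((2 : ℝ) ^ R)⁻¹ *
      ∑ y0 : Fin (2 ^ (R - ell L g.1)), ∑ a : Blk L g.1,
        F (mkY g.1 g.2 a) (xx R (ell L g.1) ((ell_add g.1 hL).2.2.trans hLR) a.1 y0) ≤
      ∑ y : Fin D → YT b, ∑ x0 : Fin (2 ^ R), (∏ j, nuY (y j)) * ((2 : ℝ) ^ R)⁻¹ * F y x0 := by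
  classical
  let Z := (g : (Fin D → Fin (2 ^ b)) × (Fin D → Fin (2 ^ b))) × ((j : Fin D) → Fin (2 ^ ((g.1 j : ℕ) + 1)))
  let φ : Z → (Fin D → YT b) := fun z j => ⟨z.1.1 j, (z.1.2 j, z.2 j)⟩
  have hφ : Function.Injective φ := by
    rintro ⟨⟨s, w⟩, a⟩ ⟨⟨s', w'⟩, a'⟩ h
    have h1 : s = s' := funext fun j => by
      have := congrFun h j
      simp only [φ] at this
      exact congrArg Sigma.fst this
    subst h1
    have h2 : ∀ j, w j = w' j ∧ a j = a' j := fun j => by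
      have := congrFun h j
      simp only [φ, Sigma.mk.injEq, heq_eq_eq, true_and, Prod.mk.injEq] at this
      exact this
    have h3 : w = w' := funext fun j => (h2 j).1
    have h4 : a = a' := funext fun j => (h2 j).2
    subst h3 h4
    rfl
  set Q : (Fin D → YT b) → ℝ := fun y => ∑ x0 : Fin (2 ^ R), (∏ j, nuY (y j)) * ((2 : ℝ) ^ R)⁻¹ * F y x0 with hQ
  have hQ0 : ∀ y, 0 ≤ Q y := fun y => by
    simp only [hQ]
    exact Finset.sum_nonneg fun x0 _ => mul_nonneg (mul_nonneg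
      (Finset.prod_nonneg fun j _ => by unfold nuY; positivity) (by positivity)) (hF y x0)
  have h1 : ∑ z ∈ G.sigma (fun _ => Finset.univ), Q (φ z) ≤ ∑ y, Q y := by
    rw [← Finset.sum_image (f := Q) (s := G.sigma (fun _ => Finset.univ)) (g := φ)
      (fun x _ y _ h => hφ h)]
    exact Finset.sum_le_sum_of_subset_of_nonneg (Finset.subset_univ _) (fun y _ _ => hQ0 y)
  refine le_trans ?_ h1
  rw [Finset.sum_sigma]
  apply Finset.sum_le_sum
  rintro ⟨s, w⟩ _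
  simp only
  have hl : ell L s ≤ R := (ell_add s hL).2.2.trans hLR
  have hre : ∑ y0 : Fin (2 ^ (R - ell L s)), ∑ a : Blk L s, F (mkY s w a) (xx R (ell L s) hl a.1 y0) =
      ∑ a' : (j : Fin D) → Fin (2 ^ ((s j : ℕ) + 1)), ∑ p : Fin (2 ^ ell L s) × Fin (2 ^ (R - ell L s)),
        F (fun j => ⟨s j, (w j, a' j)⟩) (xx R (ell L s) hl p.1 p.2) := by
    have e1 : ∀ y0 : Fin (2 ^ (R - ell L s)), ∑ a : Blk L s, F (mkY s w a) (xx R (ell L s) hl a.1 y0) =
        ∑ a' : (j : Fin D) → Fin (2 ^ ((s j : ℕ) + 1)), ∑ a0 : Fin (2 ^ ell L s),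
          F (fun j => ⟨s j, (w j, a' j)⟩) (xx R (ell L s) hl a0 y0) := by
      intro y0
      rw [Fintype.sum_prod_type, Finset.sum_comm]
      rfl
    rw [Finset.sum_congr rfl (fun y0 _ => e1 y0), Finset.sum_comm]
    apply Finset.sum_congr rfl
    intro a' _
    rw [Fintype.sum_prod_type, Finset.sum_comm]
  rw [hre, Finset.mul_sum]
  apply Finset.sum_le_sum
  intro a' _
  simp only [hQ, φ]
  have hprod : ∏ j : Fin D, nuY (⟨s j, (w j, a' j)⟩ : YT b) = ((2 : ℝ) ^ (∑ j, ((s j : ℕ) + 1)))⁻¹ := by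
    simp only [nuY]
    rw [Finset.prod_inv_distrib, Finset.prod_pow_eq_pow_sum]
  rw [hprod, Finset.mul_sum]
  have hinj := xx_inj R (ell L s) hl
  have h3 := Finset.sum_image (f := fun x0 : Fin (2 ^ R) => ((2 : ℝ) ^ (∑ j, ((s j : ℕ) + 1)))⁻¹ *
    ((2 : ℝ) ^ R)⁻¹ * F (fun j => ⟨s j, (w j, a' j)⟩) x0)
    (s := (Finset.univ : Finset (Fin (2 ^ ell L s) × Fin (2 ^ (R - ell L s)))))
    (g := fun p => xx R (ell L s) hl p.1 p.2) (fun x _ y _ h => hinj h)
  rw [← h3]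
  exact Finset.sum_le_sum_of_subset_of_nonneg (Finset.subset_univ _) (fun x0 _ _ =>
    mul_nonneg (by positivity) (hF _ _))

/-- Discrete lower bound for `p = 1`, at most one windowed coordinate (`d ≤ 2`). -/
theorem lower_disc1 (D : ℕ) (hD1 : D ≤ 1) :
    ∃ (c₁ c₂ : ℝ) (b₀ k₀ : ℕ), 0 < c₁ ∧ 0 < c₂ ∧ ∀ b L : ℕ, b₀ ≤ b → D * 2 ^ b + k₀ ≤ L →
      ∃ (Sc : Finset (Fin D → Fin (2 ^ b))) (σ : (s : Fin D → Fin (2 ^ b)) → Blk L s → ℝ),
        (∀ s κ, σ s κ = 1 ∨ σ s κ = -1) ∧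
        ∀ (R : ℕ), L + 2 ^ b + b + 3 ≤ R →
          ∀ (Λ : Finset (Fin (D + 1) → ℤ)) (c : (Fin (D + 1) → ℤ) → ℂ),
          (∀ ξ ∈ Λ, ∀ j, |ξ j| < 2 ^ (R - 1)) →
          (Λ.card : ℝ) ≤ c₂ * (((2 : ℝ) ^ (b * D)) ^ 2 * 2 ^ L) →
          c₁ * 2 ^ (b * D) ≤ ((2 : ℝ) ^ (R * (D + 1)))⁻¹ *
            ∑ x : Fin (D + 1) → Fin (2 ^ R),
              ‖∑ s ∈ Sc, fsR L R s (σ s) x - ∑ ξ ∈ Λ, c ξ * chR R ξ x‖ := by
  classical
  obtain ⟨C, hC, hW⟩ := Phi_weak D hD1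
  obtain ⟨η, kD, hη, hDD⟩ := DD_large D
  obtain ⟨cr, β, lam, hcr, hβ, hlam, hrig⟩ := rigidity_fam η hη
  -- number of phases
  have hpi := Real.pi_pos
  obtain ⟨K0, hK0⟩ := exists_nat_gt (max 1 ((4 * Real.pi) ^ 2 * 8 / (lam ^ 2 * β)))
  have hK0pos : (1 : ℝ) < K0 := lt_of_le_of_lt (le_max_left _ _) hK0
  have hK0big : (4 * Real.pi) ^ 2 * 8 / (lam ^ 2 * β) < K0 := lt_of_le_of_lt (le_max_right _ _) hK0
  have hK0n : 0 < K0 := by
    have : (0 : ℝ) < K0 := by linarith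
    exact_mod_cast this
  obtain ⟨M₀, hrig⟩ := hrig K0
  refine ⟨((2 : ℝ) ^ D)⁻¹ * (lam / 2) * (2⁻¹ * ((4 : ℝ) ^ D)⁻¹ * (β / 2)) / C, cr / (2 * 4 ^ D), 2 * kD,
    kD + M₀ + 1, by positivity, by positivity, ?_⟩
  intro b L hb hL
  let Sc : Finset (Fin D → Fin (2 ^ b)) := {s | ∀ j, kD ≤ (s j : ℕ) + 1}
  have hL1 : D * 2 ^ b + 1 ≤ L := by omega
  have hLs : ∀ s : Fin D → Fin (2 ^ b), kD + ∑ j, ((s j : ℕ) + 1) ≤ L := by
    intro s
    have : ∑ j : Fin D, ((s j : ℕ) + 1) ≤ ∑ j : Fin D, 2 ^ b :=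
      Finset.sum_le_sum (fun j _ => (s j).isLt)
    simp only [Finset.sum_const, Finset.card_univ, Fintype.card_fin, smul_eq_mul] at this
    omega
  have hML : M₀ ≤ 2 ^ L := by
    have h1 : L < 2 ^ L := Nat.lt_two_pow_self
    omega
  have hσ : ∀ s : Fin D → Fin (2 ^ b), ∃ σ : Blk L s → ℝ, (∀ i, σ i = 1 ∨ σ i = -1) ∧
      (s ∈ Sc → ∀ (i : Fin K0) (τ : Blk L s → ℂ), (#{κ | τ κ ≠ 0} : ℝ) ≤ cr * 2 ^ L →
          β * 2 ^ L ≤ #{a | lam < ‖((UP L s ((i : ℕ) / K0)).mulVec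
            (fun κ => ((DD1 L s κ * σ κ : ℝ) : ℂ) - τ κ)) a‖}) := by
    intro s
    by_cases hs : s ∈ Sc
    · have hs' : ∀ j, kD ≤ (s j : ℕ) + 1 := by
        simpa [Sc] using hs
      have hcard : Fintype.card (Blk L s) = 2 ^ L := card_Blk L s (by have := hLs s; omega)
      have hsm := (hDD b L s hs' (hLs s)).2
      obtain ⟨σ, h1, h2⟩ := hrig (Blk L s) (Blk L s) rfl (by rw [hcard]; exact hML)
        (fun i => UP L s ((i : ℕ) / K0))
        (fun i => UP_unitary L s (by have := hLs s; omega) _) (DD1 L s)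
        (fun κ => ⟨(DD1_bounds L s κ).1, (DD1_bounds L s κ).2.1⟩)
        (by
          refine le_trans (Nat.mul_le_mul_left 8 (Finset.card_le_card ?_)) hsm
          intro κ hκ
          simp only [Finset.mem_filter, Finset.mem_univ, true_and] at hκ ⊢
          exact lt_of_le_of_lt (DD1_bounds L s κ).2.2 hκ)
      refine ⟨σ, h1, fun _ i τ hτ => ?_⟩
      have h3 := h2 i τ (by rw [hcard]; push_cast; convert! hτ)
      rw [hcard] at h3
      push_cast at h3 ⊢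
      convert! h3
    · exact ⟨fun _ => 1, fun _ => Or.inl rfl, fun h => absurd h hs⟩
  choose σ hσ1 hσ2 using hσ
  refine ⟨Sc, σ, hσ1, ?_⟩
  intro R hR Λ c hΛ hcard
  set e : (Fin (D + 1) → Fin (2 ^ R)) → ℂ :=
    fun x => ∑ s ∈ Sc, fsR L R s (σ s) x - ∑ ξ ∈ Λ, c ξ * chR R ξ x with he
  have h2b := Nat.two_pow_pos b
  have hR2 : 2 ^ b + b + 2 ≤ R := by omega
  have hLR : L + 2 ≤ R := by omega
  have hLR' : L ≤ R := by omega
  let Wc : Finset (Fin D → Fin (2 ^ b)) := {w | ∀ j, (1 / 2 : ℝ) ≤ win b (w j)}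
  have hScard : (2 ^ b) ^ D ≤ 2 ^ D * #Sc := by
    have h1 : #Sc = #{k : Fin (2 ^ b) | kD ≤ (k : ℕ) + 1} ^ D := card_pi_filter (fun k : Fin (2 ^ b) => kD ≤ (k : ℕ) + 1)
    rw [h1, ← mul_pow]
    apply Nat.pow_le_pow_left
    have h2 : #{k : Fin (2 ^ b) | ¬ (kD ≤ (k : ℕ) + 1)} ≤ kD := by
      have : #{k : Fin (2 ^ b) | ¬ (kD ≤ (k : ℕ) + 1)} ≤ #(range kD) := by
        apply Finset.card_le_card_of_injOn (fun k : Fin (2 ^ b) => (k : ℕ))
        · intro k hk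
          simp only [Finset.coe_filter, Finset.mem_univ, true_and, Set.mem_ofPred_eq, not_le] at hk
          simp only [Finset.coe_range, Set.mem_Iio]; omega
        · intro k _ k' _ h; exact Fin.ext h
      simpa using this
    have h3 := Finset.card_filter_add_card_filter_not (s := (Finset.univ : Finset (Fin (2 ^ b))))
      (fun k => kD ≤ (k : ℕ) + 1)
    rw [Finset.card_univ, Fintype.card_fin] at h3
    have h4 : b < 2 ^ b := Nat.lt_two_pow_self
    omega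
  have hWcard : (2 ^ b) ^ D ≤ 2 ^ D * #Wc := by
    have h1 : #Wc = #{k : Fin (2 ^ b) | (1 / 2 : ℝ) ≤ win b k} ^ D :=
      card_pi_filter (fun k : Fin (2 ^ b) => (1 / 2 : ℝ) ≤ win b k)
    rw [h1, ← mul_pow]
    apply Nat.pow_le_pow_left
    have := (win_half b).2
    convert! this
  let P := Sc ×ˢ Wc
  let good : Finset ((Fin D → Fin (2 ^ b)) × (Fin D → Fin (2 ^ b))) :=
    {g ∈ P | (#(Lam g.1 g.2 Λ) : ℝ) ≤ cr * 2 ^ L}
  set N : ℝ := (2 : ℝ) ^ (b * D) with hN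
  have hN' : ((2 : ℝ) ^ b) ^ D = N := by rw [hN, pow_mul]
  have hNpos : 0 < N := by positivity
  have hPcard : ((4 : ℝ) ^ D)⁻¹ * N ^ 2 ≤ #P := by
    have h1 : N ≤ 2 ^ D * (#Sc : ℝ) := by rw [← hN']; exact_mod_cast hScard
    have h2 : N ≤ 2 ^ D * (#Wc : ℝ) := by rw [← hN']; exact_mod_cast hWcard
    have h3 : N * N ≤ (2 ^ D * (#Sc : ℝ)) * (2 ^ D * (#Wc : ℝ)) := by gcongr
    have h4 : (#P : ℝ) = (#Sc : ℝ) * (#Wc : ℝ) := by
      simp only [P, Finset.card_product]; push_cast; ring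
    rw [h4, inv_mul_le_iff₀ (by positivity)]
    have h5 : (4 : ℝ) ^ D = 2 ^ D * 2 ^ D := by rw [← mul_pow]; norm_num
    rw [h5, pow_two]
    linarith
  have hbad : ((#P : ℝ) - good.card) * (cr * 2 ^ L) ≤ cr / (2 * 4 ^ D) * (N ^ 2 * 2 ^ L) := by
    have h1 : (#P : ℝ) - good.card = #{g ∈ P | ¬ (#(Lam g.1 g.2 Λ) : ℝ) ≤ cr * 2 ^ L} := by
      have := Finset.card_filter_add_card_filter_not (s := P)
        (fun g => (#(Lam g.1 g.2 Λ) : ℝ) ≤ cr * 2 ^ L)
      rw [← this]; push_cast; simp only [good]; ring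
    rw [h1]
    refine le_trans ?_ hcard
    refine le_trans ?_ (show ((∑ g ∈ P, #(Lam g.1 g.2 Λ) : ℕ) : ℝ) ≤ #Λ by
      exact_mod_cast sum_card_Lam Λ P)
    push_cast
    rw [← nsmul_eq_mul]
    refine le_trans (Finset.card_nsmul_le_sum _ (fun g => (#(Lam g.1 g.2 Λ) : ℝ)) _ ?_) ?_
    · intro g hg
      rw [Finset.mem_filter] at hg
      exact (lt_of_not_ge hg.2).le
    · exact Finset.sum_le_sum_of_subset_of_nonneg (Finset.filter_subset _ _) (fun _ _ _ => by positivity)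
  have hgood : 2⁻¹ * ((4 : ℝ) ^ D)⁻¹ * N ^ 2 ≤ good.card := by
    have h1 : ((#P : ℝ) - good.card) * (cr * 2 ^ L) ≤ (2⁻¹ * ((4 : ℝ) ^ D)⁻¹ * N ^ 2) * (cr * 2 ^ L) := by
      refine hbad.trans (le_of_eq ?_)
      field_simp
    have h2 : (#P : ℝ) - good.card ≤ 2⁻¹ * ((4 : ℝ) ^ D)⁻¹ * N ^ 2 := le_of_mul_le_mul_right h1 (by positivity)
    linarith
  -- the level
  set α : ℝ := N * ((2 : ℝ) ^ D)⁻¹ * (lam / 2) with hα
  have hαpos : 0 < α := by positivity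
  set F : (Fin D → YT b) → Fin (2 ^ R) → ℝ := fun y x0 => if α < ‖Phi b R y e x0‖ then 1 else 0 with hF
  have hF0 : ∀ y x0, 0 ≤ F y x0 := fun y x0 => by simp only [hF]; split_ifs <;> norm_num
  -- each good pair contributes
  have hpair : ∀ g ∈ good, β / 2 ≤ ((2 : ℝ) ^ (∑ j, ((g.1 j : ℕ) + 1)))⁻¹ * ((2 : ℝ) ^ R)⁻¹ *
      ∑ y0 : Fin (2 ^ (R - ell L g.1)), ∑ a : Blk L g.1,
        F (mkY g.1 g.2 a) (xx R (ell L g.1) ((ell_add g.1 hL1).2.2.trans hLR') a.1 y0) := by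
    rintro ⟨s, w⟩ hg
    simp only [good, P, Finset.mem_filter, Finset.mem_product] at hg
    obtain ⟨⟨hs, hw⟩, hcardg⟩ := hg
    have hw' : ∀ j, (1 / 2 : ℝ) ≤ win b (w j) := by simpa [Wc] using hw
    have hwprod : ((2 : ℝ) ^ D)⁻¹ ≤ ∏ j, win b (w j) := by
      calc ((2 : ℝ) ^ D)⁻¹ = ∏ _j : Fin D, (1 / 2 : ℝ) := by simp
        _ ≤ ∏ j, win b (w j) := Finset.prod_le_prod (fun _ _ => by norm_num) (fun j _ => hw' j)
    have hwpos : 0 < ∏ j, win b (w j) := lt_of_lt_of_le (by positivity) hwprod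
    have hl : ell L s ≤ R := (ell_add s hL1).2.2.trans hLR'
    have hsum : ∑ j, ((s j : ℕ) + 1) ≤ L := by have := hLs s; omega
    -- fixed fine coordinate
    have hy0 : ∀ y0 : Fin (2 ^ (R - ell L s)), β / 2 * 2 ^ L ≤ ∑ a : Blk L s,
        F (mkY s w a) (xx R (ell L s) hl a.1 y0) := by
      intro y0
      obtain ⟨τ, hτ1, hτ2⟩ := Phi_sub_eq hR2 hLR hL1 Sc σ Λ c hΛ s w hs hwpos.ne' hl y0
      set y : ℝ := ((y0 : ℕ) : ℝ) / 2 ^ (R - ell L s) with hy
      have hy_lt : y < 1 := by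
        rw [hy, div_lt_one (by positivity)]; exact_mod_cast y0.isLt
      have hy_nn : 0 ≤ y := by positivity
      -- nearest phase
      have hfl : ⌊y * K0⌋₊ < K0 := by
        rw [Nat.floor_lt (by positivity)]
        nlinarith
      set i : Fin K0 := ⟨⌊y * K0⌋₊, hfl⟩ with hi
      have hyi : |y - (i : ℕ) / K0| ≤ 1 / K0 := by
        have h1 := Nat.floor_le (show 0 ≤ y * K0 by positivity)
        have h2 := Nat.lt_floor_add_one (y * K0)
        have hKr : (0 : ℝ) < K0 := by linarith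
        have h3 : y - ((i : ℕ) : ℝ) / K0 = (y * K0 - ((i : ℕ) : ℝ)) / K0 := by field_simp
        rw [h3, abs_div, abs_of_pos hKr]
        gcongr
        rw [abs_le]
        simp only [hi]
        constructor <;> linarith
      set h : Blk L s → ℂ := (UU L s).mulVec (fun κ => PX L s y κ * ((DD1 L s κ * σ s κ : ℝ) : ℂ) - τ κ) with hh
      set h' : Blk L s → ℂ := (UP L s ((i : ℕ) / K0)).mulVec (fun κ => ((DD1 L s κ * σ s κ : ℝ) : ℂ) -
        (PX L s ((i : ℕ) / K0) κ)⁻¹ * τ κ) with hh'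
      have hτ' : (#{κ | (PX L s ((i : ℕ) / K0) κ)⁻¹ * τ κ ≠ 0} : ℝ) ≤ cr * 2 ^ L := by
        refine le_trans ?_ hcardg
        norm_cast
        refine le_trans (Finset.card_le_card ?_) hτ1
        intro κ hκ
        simp only [Finset.mem_filter, Finset.mem_univ, true_and] at hκ ⊢
        exact right_ne_zero_of_mul hκ
      have hb1 := hσ2 s hs i (fun κ => (PX L s ((i : ℕ) / K0) κ)⁻¹ * τ κ) hτ'
      -- difference
      have hdiff : ∀ a, h a - h' a = (UU L s).mulVec (fun κ => (PX L s y κ - PX L s ((i : ℕ) / K0) κ) *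
          ((DD1 L s κ * σ s κ : ℝ) : ℂ)) a := by
        intro a
        simp only [hh, hh', Matrix.mulVec, dotProduct, UP]
        rw [← Finset.sum_sub_distrib]
        apply Finset.sum_congr rfl
        intro κ _
        have hne : PX L s ((i : ℕ) / K0) κ ≠ 0 := by
          intro h0
          have := norm_PX L s ((i : ℕ) / K0) κ
          rw [h0] at this; simp at this
        field_simp
        ring
      have hd2 : ∑ a, ‖h a - h' a‖ ^ 2 ≤ (4 * Real.pi / K0) ^ 2 * 2 ^ L := by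
        simp only [hdiff]
        rw [Rigid.unitary_norm (UU L s) (UU_unitary L s hsum)]
        calc ∑ κ : Blk L s, ‖(PX L s y κ - PX L s ((i : ℕ) / K0) κ) * ((DD1 L s κ * σ s κ : ℝ) : ℂ)‖ ^ 2
            ≤ ∑ _κ : Blk L s, (4 * Real.pi / K0) ^ 2 := by
              apply Finset.sum_le_sum
              intro κ _
              have h1 : ‖(PX L s y κ - PX L s ((i : ℕ) / K0) κ) * ((DD1 L s κ * σ s κ : ℝ) : ℂ)‖ ≤
                  4 * Real.pi / K0 := by
                rw [norm_mul, Complex.norm_real, Real.norm_eq_abs, abs_mul]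
                have h2 : |DD1 L s κ| ≤ 1 := by
                  rw [abs_of_nonneg (DD1_bounds L s κ).1]; exact (DD1_bounds L s κ).2.1
                have h3 : |σ s κ| = 1 := by
                  rcases hσ1 s κ with h | h <;> rw [h] <;> simp
                rw [h3, mul_one]
                calc ‖PX L s y κ - PX L s ((i : ℕ) / K0) κ‖ * |DD1 L s κ|
                    ≤ (4 * Real.pi * |y - (i : ℕ) / K0|) * 1 := by
                      gcongr; exact PX_close L s _ _ κ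
                  _ ≤ (4 * Real.pi * (1 / K0)) * 1 := by gcongr
                  _ = _ := by ring
              gcongr
          _ = _ := by
              rw [Finset.sum_const, Finset.card_univ, card_Blk L s hsum, nsmul_eq_mul]
              push_cast; ring
      -- counting
      have hcount : ((#{a | lam / 2 < ‖h a - h' a‖} : ℕ) : ℝ) ≤ β / 2 * 2 ^ L := by
        have h1 : ((#{a | lam / 2 < ‖h a - h' a‖} : ℕ) : ℝ) * (lam / 2) ^ 2 ≤ (4 * Real.pi / K0) ^ 2 * 2 ^ L := by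
          refine le_trans ?_ hd2
          rw [← nsmul_eq_mul]
          refine le_trans (Finset.card_nsmul_le_sum _ (fun a => ‖h a - h' a‖ ^ 2) _ ?_)
            (Finset.sum_le_sum_of_subset_of_nonneg (Finset.filter_subset _ _) (fun _ _ _ => by positivity))
          intro a ha
          rw [Finset.mem_filter] at ha
          have := ha.2
          gcongr
        have hKr : (0 : ℝ) < K0 := by linarith
        have h2 : (4 * Real.pi / K0) ^ 2 ≤ β / 2 * (lam / 2) ^ 2 := by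
          rw [div_pow, div_le_iff₀ (by positivity)]
          rw [div_lt_iff₀ (by positivity)] at hK0big
          have h3 : (K0 : ℝ) ≤ (K0 : ℝ) ^ 2 := by nlinarith
          have h4 : (K0 : ℝ) * (lam ^ 2 * β) ≤ (K0 : ℝ) ^ 2 * (lam ^ 2 * β) := by gcongr
          nlinarith
        have h3 : ((#{a | lam / 2 < ‖h a - h' a‖} : ℕ) : ℝ) * (lam / 2) ^ 2 ≤ (β / 2 * 2 ^ L) * (lam / 2) ^ 2 := by
          refine h1.trans ?_
          calc (4 * Real.pi / K0) ^ 2 * 2 ^ L ≤ (β / 2 * (lam / 2) ^ 2) * 2 ^ L := by gcongr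
            _ = _ := by ring
        exact le_of_mul_le_mul_right h3 (by positivity)
      have hfin : β / 2 * 2 ^ L ≤ (#{a | lam / 2 < ‖h a‖} : ℕ) := by
        have h1 : #{a | lam < ‖h' a‖} ≤ #{a | lam / 2 < ‖h a‖} + #{a | lam / 2 < ‖h a - h' a‖} := by
          refine le_trans (Finset.card_le_card ?_) (Finset.card_union_le _ _)
          intro a ha
          simp only [Finset.mem_filter, Finset.mem_univ, true_and, Finset.mem_union] at ha ⊢
          by_contra hcon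
          push Not at hcon
          have h3 : ‖h' a‖ ≤ ‖h a‖ + ‖h a - h' a‖ := by
            have := norm_sub_le (h a) (h a - h' a)
            simpa using this
          linarith [hcon.1, hcon.2]
        have h2 : ((#{a | lam < ‖h' a‖} : ℕ) : ℝ) ≤ (#{a | lam / 2 < ‖h a‖} : ℕ) + (#{a | lam / 2 < ‖h a - h' a‖} : ℕ) := by
          exact_mod_cast h1
        have h3 : β * 2 ^ L ≤ ((#{a | lam < ‖h' a‖} : ℕ) : ℝ) := by convert! hb1
        linarith
      refine hfin.trans ?_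
      have hFa : ∀ a : Blk L s, (if lam / 2 < ‖h a‖ then (1 : ℝ) else 0) ≤
          F (mkY s w a) (xx R (ell L s) hl a.1 y0) := by
        intro a
        simp only [hF]
        by_cases hlt : lam / 2 < ‖h a‖
        · rw [if_pos hlt, if_pos]
          rw [he, hτ2 a, norm_mul, Complex.norm_real, Real.norm_eq_abs, hN', abs_of_nonneg (by positivity)]
          calc α = N * ((2 : ℝ) ^ D)⁻¹ * (lam / 2) := hα
            _ < (N * ∏ j, win b (w j)) * ‖h a‖ := by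
              have h5 : N * ((2 : ℝ) ^ D)⁻¹ ≤ N * ∏ j, win b (w j) := by gcongr
              have h6 : 0 < N * ((2 : ℝ) ^ D)⁻¹ := by positivity
              nlinarith
        · rw [if_neg hlt]
          split_ifs <;> norm_num
      calc ((#{a | lam / 2 < ‖h a‖} : ℕ) : ℝ) = ∑ a : Blk L s, (if lam / 2 < ‖h a‖ then (1 : ℝ) else 0) := by
            rw [Finset.sum_boole]
        _ ≤ _ := Finset.sum_le_sum (fun a _ => hFa a)
    have hsplit : ∑ j, ((s j : ℕ) + 1) + ell L s = L := by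
      have := (ell_add s hL1).1
      unfold ell; omega
    calc β / 2 = ((2 : ℝ) ^ (∑ j, ((s j : ℕ) + 1)))⁻¹ * ((2 : ℝ) ^ R)⁻¹ *
          ∑ _y0 : Fin (2 ^ (R - ell L s)), (β / 2 * 2 ^ L) := by
          rw [Finset.sum_const, Finset.card_univ, Fintype.card_fin, nsmul_eq_mul]
          have e1 : (2 : ℝ) ^ R = 2 ^ ell L s * 2 ^ (R - ell L s) := by rw [← pow_add]; congr 1; omega
          have e2 : (2 : ℝ) ^ L = 2 ^ (∑ j, ((s j : ℕ) + 1)) * 2 ^ ell L s := by rw [← pow_add, hsplit]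
          rw [e1, e2]
          push_cast
          field_simp
      _ ≤ _ := by
          simp only
          gcongr with y0 _
          exact hy0 y0
  have hsum := sum_targets_ge1 (L := L) F hF0 good hL1 hLR'
  have hB := hW b R (by omega) e α hαpos
  have hconv : ∑ y : Fin D → YT b, ∑ x0 : Fin (2 ^ R), (∏ j, nuY (y j)) * ((2 : ℝ) ^ R)⁻¹ * F y x0 =
      ∑ y : Fin D → YT b, ∑ x0 : Fin (2 ^ R),
        (if α < ‖Phi b R y e x0‖ then (∏ j, nuY (y j)) * ((2 : ℝ) ^ R)⁻¹ else 0) := by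
    apply Finset.sum_congr rfl; intro y _
    apply Finset.sum_congr rfl; intro x0 _
    simp only [hF]
    split_ifs <;> simp
  rw [hconv] at hsum
  have htot : (good.card : ℝ) * (β / 2) ≤ ∑ y : Fin D → YT b, ∑ x0 : Fin (2 ^ R),
        (if α < ‖Phi b R y e x0‖ then (∏ j, nuY (y j)) * ((2 : ℝ) ^ R)⁻¹ else 0) := by
    refine le_trans ?_ hsum
    rw [← nsmul_eq_mul]
    exact Finset.card_nsmul_le_sum _ _ _ hpair
  have hN2 : (((2 : ℝ) ^ b) ^ 2) ^ D = N ^ 2 := by rw [← hN']; ring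
  rw [hN2] at hB
  set A := ((2 : ℝ) ^ (R * (D + 1)))⁻¹ * ∑ x, ‖e x‖ with hA
  have h1 : α * ((2⁻¹ * ((4 : ℝ) ^ D)⁻¹ * N ^ 2) * (β / 2)) ≤ C * N ^ 2 * A := by
    refine le_trans ?_ hB
    gcongr
    refine le_trans ?_ htot
    gcongr
  rw [div_mul_eq_mul_div, div_le_iff₀ hC]
  have h2 : N ^ 2 * (((2 : ℝ) ^ D)⁻¹ * (lam / 2) * (2⁻¹ * ((4 : ℝ) ^ D)⁻¹ * (β / 2)) * N) ≤ N ^ 2 * (A * C) := by
    calc _ = α * ((2⁻¹ * ((4 : ℝ) ^ D)⁻¹ * N ^ 2) * (β / 2)) := by rw [hα]; ring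
      _ ≤ _ := h1
      _ = _ := by ring
  exact le_of_mul_le_mul_left h2 (by positivity)

end

end Pool.Agent.H72.MT
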