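import Pool.Agent.H72.MT.DyadicN

set_option autoImplicit false

namespace Pool.Agent.H72.MT

open Finset MeasureTheory
open scoped BigOperators ENNReal

noncomputable section

instance haarT_prob (d : ℕ) : IsProbabilityMeasure (haarT d) := by
  unfold haarT; infer_instance

lemma integral_mFourier_mul (d : ℕ) (k l : Fin d → ℤ) :
    ∫ x, UnitAddTorus.mFourier (-k) x * UnitAddTorus.mFourier l x ∂(haarT d) =
      if k = l then 1 else 0 := by
  have h := orthonormal_iff_ite.1 (UnitAddTorus.orthonormal_mFourier (d := Fin d)) k l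
  rw [← h, ContinuousMap.inner_toLp]
  apply integral_congr_ae
  refine Filter.Eventually.of_forall (fun x => ?_)
  simp only [UnitAddTorus.mFourier_neg]
  ring

/-- pairing with a trigonometric monomial as a continuous functional on `L_p` -/
def pairK (d : ℕ) (p p' : ℝ≥0∞) [Fact (1 ≤ p)] [Fact (1 ≤ p')] [ENNReal.HolderConjugate p' p]
    (k : Fin d → ℤ) : Lp ℂ p (haarT d) →L[ℂ] ℂ :=
  (ContinuousLinearMap.mul ℂ ℂ).lpPairing (haarT d) p' p
    (ContinuousMap.toLp (E := ℂ) p' (haarT d) ℂ (UnitAddTorus.mFourier (-k)))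

lemma pairK_apply (d : ℕ) (p p' : ℝ≥0∞) [Fact (1 ≤ p)] [Fact (1 ≤ p')] [ENNReal.HolderConjugate p' p]
    (k : Fin d → ℤ) (h : Lp ℂ p (haarT d)) : pairK d p p' k h = fc h k := by
  unfold pairK fc
  rw [ContinuousLinearMap.lpPairing_eq_integral]
  apply integral_congr_ae
  filter_upwards [ContinuousMap.coeFn_toLp (p := p') (𝕜 := ℂ) (haarT d) (UnitAddTorus.mFourier (-k))]
    with x hx
  rw [hx]; rfl

lemma uniq_fc (d : ℕ) (p p' : ℝ≥0∞) [Fact (1 ≤ p)] [Fact (1 ≤ p')] [ENNReal.HolderConjugate p' p]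
    (hp' : p' ≠ ∞) (h : Lp ℂ p (haarT d)) (h0 : ∀ k, fc h k = 0) : h = 0 := by
  set φ := (ContinuousLinearMap.mul ℂ ℂ).lpPairing (haarT d) p' p with hφ
  have hker : ∀ e : Lp ℂ p' (haarT d), φ.flip h e = 0 := by
    have h1 : (Submodule.span ℂ (Set.range (fun k : Fin d → ℤ =>
        ContinuousMap.toLp (E := ℂ) p' (haarT d) ℂ (UnitAddTorus.mFourier k)))).topologicalClosure ≤
        (φ.flip h).ker := by
      apply Submodule.topologicalClosure_minimal
      · rw [Submodule.span_le]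
        rintro _ ⟨k, rfl⟩
        have := h0 (-k)
        rw [← pairK_apply d p p'] at this
        unfold pairK at this
        simpa using this
      · exact (φ.flip h).isClosed_ker
    have h2 : (Submodule.span ℂ (Set.range (fun k : Fin d → ℤ =>
        ContinuousMap.toLp (E := ℂ) p' (haarT d) ℂ (UnitAddTorus.mFourier k)))).topologicalClosure = ⊤ :=
      UnitAddTorus.span_mFourierLp_closure_eq_top (d := Fin d) hp'
    rw [h2, top_le_iff] at h1
    intro e
    have : e ∈ (φ.flip h).ker := by rw [h1]; trivial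
    simpa using this
  -- the test function
  have hmeas : AEStronglyMeasurable (fun x => (starRingEnd ℂ) (h x) / (‖h x‖ : ℂ)) (haarT d) := by
    have := (Lp.aestronglyMeasurable h)
    have h1 : AEMeasurable (fun x => h x) (haarT d) := this.aemeasurable
    apply AEMeasurable.aestronglyMeasurable
    exact (Complex.continuous_conj.measurable.comp_aemeasurable h1).div
      (Complex.measurable_ofReal.comp_aemeasurable h1.norm)
  have hbdd : MemLp (fun x => (starRingEnd ℂ) (h x) / (‖h x‖ : ℂ)) p' (haarT d) := by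
    apply MemLp.of_bound hmeas 1
    refine Filter.Eventually.of_forall (fun x => ?_)
    rw [norm_div, Complex.norm_conj, Complex.norm_real, norm_norm]
    exact div_self_le_one _
  have h3 := hker (hbdd.toLp _)
  rw [ContinuousLinearMap.flip_apply, hφ, ContinuousLinearMap.lpPairing_eq_integral] at h3
  have h4 : ∫ x, ((‖h x‖ : ℝ) : ℂ) ∂(haarT d) = 0 := by
    rw [← h3]
    apply integral_congr_ae
    filter_upwards [hbdd.coeFn_toLp] with x hx
    rw [hx]
    show ((‖h x‖ : ℝ) : ℂ) = (starRingEnd ℂ) (h x) / (‖h x‖ : ℂ) * h x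
    by_cases hz : h x = 0
    · simp [hz]
    · have : (‖h x‖ : ℂ) ≠ 0 := by exact_mod_cast (norm_ne_zero_iff.2 hz)
      rw [div_mul_eq_mul_div, eq_div_iff this, ← Complex.normSq_eq_conj_mul_self,
        Complex.normSq_eq_norm_sq]
      push_cast; ring
  rw [integral_complex_ofReal] at h4
  have h5 : ∫ x, ‖h x‖ ∂(haarT d) = 0 := by exact_mod_cast h4
  have hint : Integrable h (haarT d) := by
    have := (Lp.memLp h).mono_exponent (Fact.out : (1 : ℝ≥0∞) ≤ p)
    exact memLp_one_iff_integrable.1 this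
  rw [integral_eq_zero_iff_of_nonneg (fun x => norm_nonneg _) hint.norm] at h5
  rw [Lp.eq_zero_iff_ae_eq_zero]
  filter_upwards [h5] with x hx
  simpa using hx

lemma mem_blk_iff (k : ℤ) (s : ℕ) : k ∈ blk s ↔ Nat.size k.natAbs = s := by
  unfold blk
  simp only [mem_filter, mem_Ioo]
  have habs : (k.natAbs : ℤ) = |k| := Int.natCast_natAbs k
  have h1 : (-(2 ^ s : ℤ) < k ∧ k < 2 ^ s) ↔ k.natAbs < 2 ^ s := by
    rw [← abs_lt, ← habs]
    exact_mod_cast Iff.rfl
  rw [h1, ← habs]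
  rw [Int.ofNat_le, ← Nat.size_le]
  constructor
  · rintro ⟨h2, h3⟩
    apply le_antisymm h2
    rcases Nat.eq_zero_or_pos s with rfl | hs
    · exact Nat.zero_le _
    · obtain ⟨r, rfl⟩ : ∃ r, s = r + 1 := ⟨s - 1, by omega⟩
      by_contra hcon
      have h4 : Nat.size k.natAbs ≤ r := by omega
      rw [Nat.size_le] at h4
      rw [pow_succ] at h3
      omega
  · rintro rfl
    refine ⟨le_rfl, ?_⟩
    rcases Nat.eq_zero_or_pos (Nat.size k.natAbs) with h2 | h2
    · rw [h2]; simp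
    · obtain ⟨r, hr⟩ : ∃ r, Nat.size k.natAbs = r + 1 := ⟨Nat.size k.natAbs - 1, by omega⟩
      have h4 : ¬ (Nat.size k.natAbs ≤ r) := by omega
      rw [Nat.size_le] at h4
      rw [hr, pow_succ]
      omega

lemma mem_rho_iff {d : ℕ} (k : Fin d → ℤ) (s : Fin d → ℕ) :
    k ∈ rho s ↔ (fun j => Nat.size (k j).natAbs) = s := by
  unfold rho
  rw [Fintype.mem_piFinset, funext_iff]
  exact forall_congr' (fun j => mem_blk_iff _ _)

/-- the block as a continuous function -/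
def dC {d : ℕ} (f : UnitAddTorus (Fin d) → ℂ) (s : Fin d → ℕ) : C(UnitAddTorus (Fin d), ℂ) :=
  ∑ k ∈ rho s, fc f k • UnitAddTorus.mFourier k

lemma dC_apply {d : ℕ} (f : UnitAddTorus (Fin d) → ℂ) (s : Fin d → ℕ) (x : UnitAddTorus (Fin d)) :
    dC f s x = delta s f x := by
  unfold dC delta
  rw [ContinuousMap.sum_apply]
  rfl

/-- the block as an element of `L_p` -/
def dL {d : ℕ} (p : ℝ≥0∞) [Fact (1 ≤ p)] (f : UnitAddTorus (Fin d) → ℂ) (s : Fin d → ℕ) :
    Lp ℂ p (haarT d) := ContinuousMap.toLp (E := ℂ) p (haarT d) ℂ (dC f s)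

lemma pairK_mFourier (d : ℕ) (p p' : ℝ≥0∞) [Fact (1 ≤ p)] [Fact (1 ≤ p')]
    [ENNReal.HolderConjugate p' p] (k l : Fin d → ℤ) :
    pairK d p p' k (ContinuousMap.toLp (E := ℂ) p (haarT d) ℂ (UnitAddTorus.mFourier l)) =
      if k = l then 1 else 0 := by
  rw [pairK_apply, ← integral_mFourier_mul]
  unfold fc
  apply integral_congr_ae
  filter_upwards [ContinuousMap.coeFn_toLp (p := p) (𝕜 := ℂ) (haarT d) (UnitAddTorus.mFourier l)]
    with x hx
  rw [hx]

lemma pairK_dL (d : ℕ) (p p' : ℝ≥0∞) [Fact (1 ≤ p)] [Fact (1 ≤ p')]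
    [ENNReal.HolderConjugate p' p] (k : Fin d → ℤ) (f : UnitAddTorus (Fin d) → ℂ) (s : Fin d → ℕ) :
    pairK d p p' k (dL p f s) = if k ∈ rho s then fc f k else 0 := by
  unfold dL dC
  rw [map_sum, map_sum]
  simp only [map_smul, pairK_mFourier, smul_eq_mul, mul_ite, mul_one, mul_zero]
  rw [Finset.sum_ite_eq]

lemma norm_toLp_rpow (d : ℕ) (q : ℝ) (hq : 1 ≤ q) [Fact (1 ≤ ENNReal.ofReal q)]
    (h : C(UnitAddTorus (Fin d), ℂ)) :
    ‖ContinuousMap.toLp (E := ℂ) (ENNReal.ofReal q) (haarT d) ℂ h‖ ^ q =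
      ∫ x, ‖h x‖ ^ q ∂(haarT d) := by
  have hq0 : 0 < q := by linarith
  have hae := ContinuousMap.coeFn_toLp (p := ENNReal.ofReal q) (𝕜 := ℂ) (haarT d) h
  have h1 := (Lp.memLp (ContinuousMap.toLp (E := ℂ) (ENNReal.ofReal q) (haarT d) ℂ h))
  rw [Lp.norm_def, h1.eLpNorm_eq_integral_rpow_norm (by simpa using hq0) ENNReal.ofReal_ne_top,
    ENNReal.toReal_ofReal hq0.le, ENNReal.toReal_ofReal]
  · rw [← Real.rpow_mul, inv_mul_cancel₀ hq0.ne', Real.rpow_one]
    · apply integral_congr_ae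
      filter_upwards [hae] with x hx
      rw [hx]
    · exact integral_nonneg (fun x => by positivity)
  · exact Real.rpow_nonneg (integral_nonneg (fun x => by positivity)) _

lemma nrm_delta {d : ℕ} (q : ℝ) (f : UnitAddTorus (Fin d) → ℂ) [Fact (1 ≤ ENNReal.ofReal q)]
    (s : Fin d → ℕ) : nrm q (delta s f) = ENNReal.ofReal ‖dL (ENNReal.ofReal q) f s‖ := by
  unfold nrm dL
  rw [Lp.norm_def, ENNReal.ofReal_toReal (Lp.eLpNorm_ne_top _)]
  apply eLpNorm_congr_ae
  filter_upwards [ContinuousMap.coeFn_toLp (p := ENNReal.ofReal q) (𝕜 := ℂ) (haarT d) (dC f s)]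
    with x hx
  rw [hx, dC_apply]

theorem tail_bound (d : ℕ) (q : ℝ) (hq : 1 < q) (hq2 : q ≤ 2) : ∃ C : ℝ, 0 < C ∧
    ∀ (f : UnitAddTorus (Fin d) → ℂ), MemLp f (ENNReal.ofReal q) (haarT d) →
    ∀ F : Finset (Fin d → ℕ),
      nrm q (fun x => f x - ∑ s ∈ F, delta s f x) ^ q ≤
        ENNReal.ofReal C * ∑' s : {s : Fin d → ℕ // s ∉ F}, nrm q (delta (s : Fin d → ℕ) f) ^ q := by
  classical
  obtain ⟨C, hC0, hC⟩ := dyadic_cont d q hq hq2
  refine ⟨C, hC0, ?_⟩
  intro f hf F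
  have hq0 : 0 < q := by linarith
  have hpq : (q.conjExponent).HolderConjugate q := (Real.HolderConjugate.conjExponent hq).symm
  have : Fact (1 ≤ ENNReal.ofReal q) := ⟨by rw [← ENNReal.ofReal_one]; exact ENNReal.ofReal_le_ofReal hq.le⟩
  have : Fact (1 ≤ ENNReal.ofReal q.conjExponent) :=
    ⟨by rw [← ENNReal.ofReal_one]; exact ENNReal.ofReal_le_ofReal hpq.lt.le⟩
  have : ENNReal.HolderConjugate (ENNReal.ofReal q.conjExponent) (ENNReal.ofReal q) :=
    Real.HolderConjugate.ennrealOfReal hpq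
  set p := ENNReal.ofReal q with hp
  set p' := ENNReal.ofReal q.conjExponent with hp'
  -- finite sums
  have hfin : ∀ G : Finset (Fin d → ℕ), ‖∑ s ∈ G, dL p f s‖ ^ q ≤ C * ∑ s ∈ G, ‖dL p f s‖ ^ q := by
    intro G
    have h1 := hC G (fc f)
    unfold dL
    rw [← map_sum, norm_toLp_rpow d q hq.le]
    have e1 : ∀ x, (∑ s ∈ G, dC f s) x = ∑ s ∈ G, ∑ ξ ∈ rho s, fc f ξ * UnitAddTorus.mFourier ξ x := by
      intro x
      rw [ContinuousMap.sum_apply]
      exact Finset.sum_congr rfl (fun s _ => dC_apply f s x)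
    have e2 : ∀ s, ‖ContinuousMap.toLp (E := ℂ) p (haarT d) ℂ (dC f s)‖ ^ q =
        ∫ x, ‖∑ ξ ∈ rho s, fc f ξ * UnitAddTorus.mFourier ξ x‖ ^ q ∂(haarT d) := by
      intro s
      refine (norm_toLp_rpow d q hq.le (dC f s)).trans ?_
      simp only [dC_apply]
      rfl
    simp only [e1, e2]
    exact h1
  have hnrm : ∀ s, nrm q (delta s f) ^ q = ENNReal.ofReal (‖dL p f s‖ ^ q) := by
    intro s
    rw [nrm_delta, ENNReal.ofReal_rpow_of_nonneg (norm_nonneg _) hq0.le]
  simp only [hnrm]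
  by_cases htop : ∑' s : {s : Fin d → ℕ // s ∉ F}, ENNReal.ofReal (‖dL p f (s : Fin d → ℕ)‖ ^ q) = ∞
  · rw [htop, ENNReal.mul_top (by simpa using hC0)]
    exact le_top
  have hsum : Summable (fun s : {s : Fin d → ℕ // s ∉ F} => ‖dL p f (s : Fin d → ℕ)‖ ^ q) := by
    have := ENNReal.summable_toReal htop
    refine this.congr (fun s => ?_)
    rw [ENNReal.toReal_ofReal (by positivity)]
  have hfin' : ∀ G : Finset {s : Fin d → ℕ // s ∉ F},
      ‖∑ s ∈ G, dL p f (s : Fin d → ℕ)‖ ^ q ≤ C * ∑ s ∈ G, ‖dL p f (s : Fin d → ℕ)‖ ^ q := by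
    intro G
    have := hfin (G.map (Function.Embedding.subtype _))
    rw [Finset.sum_map, Finset.sum_map] at this
    exact this
  have hS : Summable (fun s : {s : Fin d → ℕ // s ∉ F} => dL p f (s : Fin d → ℕ)) := by
    rw [summable_iff_vanishing_norm]
    intro ε hε
    obtain ⟨T, hT⟩ := (summable_iff_vanishing_norm.1 hsum) (ε ^ q / C) (by positivity)
    refine ⟨T, fun G hG => ?_⟩
    have h1 := hT G hG
    rw [Real.norm_of_nonneg (Finset.sum_nonneg (fun s _ => by positivity))] at h1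
    have h2 : ‖∑ s ∈ G, dL p f (s : Fin d → ℕ)‖ ^ q < ε ^ q := by
      calc _ ≤ C * ∑ s ∈ G, ‖dL p f (s : Fin d → ℕ)‖ ^ q := hfin' G
        _ < C * (ε ^ q / C) := by gcongr
        _ = ε ^ q := by field_simp
    exact (Real.rpow_lt_rpow_iff (norm_nonneg _) hε.le hq0).1 h2
  have hS2 : Summable (fun s : Fin d → ℕ => dL p f s) := (Finset.summable_compl_iff F).1 hS
  -- identification of the limit
  have hlim : hf.toLp f = ∑' s : Fin d → ℕ, dL p f s := by
    rw [← sub_eq_zero]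
    apply uniq_fc d p p' ENNReal.ofReal_ne_top
    intro k
    rw [← pairK_apply d p p' k, map_sub, sub_eq_zero, ContinuousLinearMap.map_tsum _ hS2,
      tsum_eq_single (fun j => Nat.size (k j).natAbs)]
    · rw [pairK_dL, if_pos ((mem_rho_iff k _).2 rfl), pairK_apply]
      unfold fc
      apply integral_congr_ae
      filter_upwards [hf.coeFn_toLp] with x hx
      rw [hx]
    · intro s hs
      rw [pairK_dL, if_neg]
      intro h
      exact hs ((mem_rho_iff k s).1 h).symm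
  have hdec : hf.toLp f - ∑ s ∈ F, dL p f s = ∑' s : {s : Fin d → ℕ // s ∉ F}, dL p f (s : Fin d → ℕ) := by
    rw [hlim, ← hS2.sum_add_tsum_subtype_compl F]
    abel
  have hbound : ‖∑' s : {s : Fin d → ℕ // s ∉ F}, dL p f (s : Fin d → ℕ)‖ ^ q ≤
      C * ∑' s : {s : Fin d → ℕ // s ∉ F}, ‖dL p f (s : Fin d → ℕ)‖ ^ q := by
    have h1 : Filter.Tendsto (fun G : Finset {s : Fin d → ℕ // s ∉ F} =>
        ‖∑ s ∈ G, dL p f (s : Fin d → ℕ)‖ ^ q) Filter.atTop
        (nhds (‖∑' s : {s : Fin d → ℕ // s ∉ F}, dL p f (s : Fin d → ℕ)‖ ^ q)) := by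
      exact (hS.hasSum.norm).rpow_const (Or.inr hq0.le)
    refine le_of_tendsto' h1 (fun G => (hfin' G).trans ?_)
    exact mul_le_mul_of_nonneg_left (hsum.sum_le_tsum G (fun s _ => by positivity)) hC0.le
  have hfinal : nrm q (fun x => f x - ∑ s ∈ F, delta s f x) =
      ENNReal.ofReal ‖∑' s : {s : Fin d → ℕ // s ∉ F}, dL p f (s : Fin d → ℕ)‖ := by
    rw [← hdec, Lp.norm_def, ENNReal.ofReal_toReal (Lp.eLpNorm_ne_top _)]
    unfold nrm
    apply eLpNorm_congr_ae
    have hsumF : (∑ s ∈ F, dL p f s : Lp ℂ p (haarT d)) =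
        ContinuousMap.toLp (E := ℂ) p (haarT d) ℂ (∑ s ∈ F, dC f s) := by
      rw [map_sum]; rfl
    rw [hsumF]
    filter_upwards [Lp.coeFn_sub (hf.toLp f)
      (ContinuousMap.toLp (E := ℂ) p (haarT d) ℂ (∑ s ∈ F, dC f s)), hf.coeFn_toLp,
      ContinuousMap.coeFn_toLp (p := p) (𝕜 := ℂ) (haarT d) (∑ s ∈ F, dC f s)]
      with x h1 h2 h3
    rw [h1, Pi.sub_apply, h2, h3, ContinuousMap.sum_apply]
    simp only [dC_apply]
  rw [hfinal, ENNReal.ofReal_rpow_of_nonneg (norm_nonneg _) hq0.le,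
    ← ENNReal.ofReal_tsum_of_nonneg (fun s => by positivity) hsum,
    ← ENNReal.ofReal_mul hC0.le]
  exact ENNReal.ofReal_le_ofReal hbound

end

end Pool.Agent.H72.MT
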