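import Pool.Agent.H72.MT.LowerDisc
import Pool.Agent.H72.MT.LowerDisc1
import Pool.Agent.H72.MT.Fnorm
import Pool.Agent.H72.MT.Tail

set_option autoImplicit false

namespace Pool.Agent.H72.MT

open Finset MeasureTheory
open scoped BigOperators ENNReal

noncomputable section

namespace LC

/-- one block of the extremal function on the torus -/
def fsC {D b : ℕ} (L : ℕ) (s : Fin D → Fin (2 ^ b)) (σ : Blk L s → ℝ)
    (x : UnitAddTorus (Fin (D + 1))) : ℂ :=
  ((Real.sqrt (2 ^ L))⁻¹ : ℝ) * ∑ w : Fin D → Fin (2 ^ b), ∑ κ : Blk L s,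
    (((∏ j, win b (w j)) * σ κ : ℝ) : ℂ) * UnitAddTorus.mFourier (freq L s w κ) x

lemma fsC_cont {D b : ℕ} (L : ℕ) (s : Fin D → Fin (2 ^ b)) (σ : Blk L s → ℝ) :
    Continuous (fsC L s σ) := by
  unfold fsC
  fun_prop

lemma fsC_grid {D b : ℕ} (L R : ℕ) (s : Fin D → Fin (2 ^ b)) (σ : Blk L s → ℝ)
    (x : Fin (D + 1) → Fin (2 ^ R)) :
    fsC L s σ (fun i => ((((x i : ℕ) : ℝ) / 2 ^ R : ℝ) : UnitAddCircle)) = fsR L R s σ x := by
  unfold fsC fsR
  simp only [DyN.mFourier_grid]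

/-- dyadic index of a block -/
def bidx {D b : ℕ} (L : ℕ) (s : Fin D → Fin (2 ^ b)) : Fin (D + 1) → ℕ :=
  Fin.cons (ell L s + 1) (fun j => b + (s j : ℕ) + 2)

lemma mem_blk_of {n : ℕ} {k : ℤ} (h1 : (2 : ℤ) ^ n ≤ k) (h2 : k < 2 ^ (n + 1)) :
    k ∈ blk (n + 1) := by
  have hp : (0 : ℤ) < 2 ^ n := by positivity
  have hp' : (0 : ℤ) < 2 ^ (n + 1) := by positivity
  unfold blk
  simp only [mem_filter, mem_Ioo]
  have e : (2 ^ (n + 1) / 2 : ℕ) = 2 ^ n := by rw [pow_succ]; omega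
  rw [e, abs_of_nonneg (by linarith)]
  push_cast
  exact ⟨⟨by linarith, h2⟩, h1⟩

lemma freq_mem_rho {D b : ℕ} (L : ℕ) (s w : Fin D → Fin (2 ^ b)) (κ : Blk L s) :
    freq L s w κ ∈ rho (bidx L s) := by
  unfold rho freq bidx
  rw [Fintype.mem_piFinset]
  intro j
  refine Fin.cases ?_ (fun j => ?_) j
  · simp only [Fin.cons_zero]
    have h1 : ((κ.1 : ℕ) : ℤ) < 2 ^ ell L s := by exact_mod_cast κ.1.isLt
    apply mem_blk_of
    · have : (0 : ℤ) ≤ ((κ.1 : ℕ) : ℤ) := by positivity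
      linarith
    · rw [pow_succ]; linarith
  · simp only [Fin.cons_succ]
    have h1 : ((κ.2 j : ℕ) : ℤ) < 2 ^ ((s j : ℕ) + 1) := by exact_mod_cast (κ.2 j).isLt
    have h0 : (0 : ℤ) ≤ ((κ.2 j : ℕ) : ℤ) := by positivity
    have h2 : ((w j : ℕ) : ℤ) + 1 ≤ 2 ^ b := by exact_mod_cast (w j).isLt
    have h3 : (0 : ℤ) ≤ ((w j : ℕ) : ℤ) := by positivity
    have e : b + (s j : ℕ) + 2 = (b + ((s j : ℕ) + 1)) + 1 := by ring
    rw [e]
    push_cast
    have hp : (0 : ℤ) < 2 ^ ((s j : ℕ) + 1) := by positivity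
    apply mem_blk_of
    · rw [pow_add]
      nlinarith [mul_nonneg h3 hp.le]
    · have e2 : (2 : ℤ) ^ (b + ((s j : ℕ) + 1) + 1) = 2 * (2 ^ b * 2 ^ ((s j : ℕ) + 1)) := by
        rw [pow_succ, pow_add]; ring
      rw [e2]
      nlinarith [mul_le_mul_of_nonneg_right h2 hp.le]

lemma bidx_inj {D b : ℕ} (L : ℕ) {s t : Fin D → Fin (2 ^ b)} (h : bidx L s = bidx L t) : s = t := by
  funext j
  have := congrFun h j.succ
  unfold bidx at this
  simp only [Fin.cons_succ] at this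
  exact Fin.ext (by omega)

lemma bidx_sum {D b : ℕ} (L : ℕ) (s : Fin D → Fin (2 ^ b)) (hL : D * 2 ^ b + 1 ≤ L) :
    ∑ j, bidx L s j = D * (b + 1) + L + 1 := by
  have h := ell_add (L := L) s hL
  unfold bidx
  rw [Fin.sum_univ_succ]
  simp only [Fin.cons_zero, Fin.cons_succ]
  have h2 : ∑ j : Fin D, (b + (s j : ℕ) + 2) = D * (b + 1) + ∑ j : Fin D, ((s j : ℕ) + 1) := by
    rw [show (fun j : Fin D => b + (s j : ℕ) + 2) = fun j : Fin D => (b + 1) + ((s j : ℕ) + 1) by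
      funext j; ring]
    rw [Finset.sum_add_distrib]
    simp
  rw [h2]
  unfold ell at h ⊢
  omega

/-- a general trigonometric polynomial -/
lemma delta_trig {d : ℕ} {ι : Type*} (A : Finset ι) (a : ι → ℂ) (g : ι → (Fin d → ℤ))
    (t : Fin d → ℕ) (x : UnitAddTorus (Fin d)) :
    delta t (fun x => ∑ i ∈ A, a i * UnitAddTorus.mFourier (g i) x) x =
      ∑ i ∈ A, if g i ∈ rho t then a i * UnitAddTorus.mFourier (g i) x else 0 := by
  classical
  have h1 : ∀ k, fc (fun x => ∑ i ∈ A, a i * UnitAddTorus.mFourier (g i) x) k =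
      ∑ i ∈ A, a i * (if k = g i then 1 else 0) := by
    intro k
    unfold fc
    have e : ∀ x : UnitAddTorus (Fin d), UnitAddTorus.mFourier (-k) x *
        ∑ i ∈ A, a i * UnitAddTorus.mFourier (g i) x =
        ∑ i ∈ A, a i * (UnitAddTorus.mFourier (-k) x * UnitAddTorus.mFourier (g i) x) := by
      intro x
      rw [Finset.mul_sum]
      exact Finset.sum_congr rfl (fun i _ => by ring)
    simp only [e]
    rw [integral_finsetSum]
    · refine Finset.sum_congr rfl (fun i _ => ?_)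
      rw [integral_const_mul, integral_mFourier_mul]
    · intro i _
      exact (DyN.integ d (UnitAddTorus.mFourier (-k) * UnitAddTorus.mFourier (g i))).const_mul _
  unfold delta
  simp only [h1, Finset.sum_mul]
  rw [Finset.sum_comm]
  refine Finset.sum_congr rfl (fun i _ => ?_)
  have h2 : ∀ k ∈ rho t, a i * (if k = g i then 1 else 0) * UnitAddTorus.mFourier k x =
      if k = g i then a i * UnitAddTorus.mFourier (g i) x else 0 := by
    intro k _
    split_ifs with h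
    · rw [h, mul_one]
    · simp
  rw [Finset.sum_congr rfl h2, Finset.sum_ite_eq']

/-- continuous functions: `nrm` as an integral -/
lemma nrm_cont {d : ℕ} {q : ℝ} (hq : 0 < q) {h : UnitAddTorus (Fin d) → ℂ} (hh : Continuous h) :
    nrm q h = ENNReal.ofReal ((∫ x, ‖h x‖ ^ q ∂(haarT d)) ^ (1 / q)) := by
  have hm : MemLp h (ENNReal.ofReal q) (haarT d) := by
    obtain ⟨C, hC⟩ := (isCompact_range hh).isBounded.exists_norm_le
    exact MemLp.of_bound hh.aestronglyMeasurable C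
      (Filter.Eventually.of_forall (fun x => hC _ ⟨x, rfl⟩))
  unfold nrm
  rw [hm.eLpNorm_eq_integral_rpow_norm (by simpa using hq) ENNReal.ofReal_ne_top,
    ENNReal.toReal_ofReal hq.le, one_div]

/-- total function -/
def fF {D b : ℕ} (L : ℕ) (Sc : Finset (Fin D → Fin (2 ^ b)))
    (σ : (s : Fin D → Fin (2 ^ b)) → Blk L s → ℝ) (x : UnitAddTorus (Fin (D + 1))) : ℂ :=
  ∑ s ∈ Sc, fsC L s (σ s) x

lemma delta_fF {D b : ℕ} (L : ℕ) (Sc : Finset (Fin D → Fin (2 ^ b)))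
    (σ : (s : Fin D → Fin (2 ^ b)) → Blk L s → ℝ) (t : Fin (D + 1) → ℕ)
    (x : UnitAddTorus (Fin (D + 1))) :
    delta t (fF L Sc σ) x = ∑ s ∈ Sc, if bidx L s = t then fsC L s (σ s) x else 0 := by
  classical
  let I := (s : Fin D → Fin (2 ^ b)) × ((Fin D → Fin (2 ^ b)) × Blk L s)
  let A : Finset I := Sc.sigma (fun s => Finset.univ)
  let a : I → ℂ := fun i => ((Real.sqrt (2 ^ L))⁻¹ : ℝ) * (((∏ j, win b (i.2.1 j)) * σ i.1 i.2.2 : ℝ) : ℂ)
  let g : I → (Fin (D + 1) → ℤ) := fun i => freq L i.1 i.2.1 i.2.2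
  have e : fF L Sc σ = fun x => ∑ i ∈ A, a i * UnitAddTorus.mFourier (g i) x := by
    funext x
    unfold fF fsC
    rw [Finset.sum_sigma]
    refine Finset.sum_congr rfl (fun s _ => ?_)
    rw [Fintype.sum_prod_type, Finset.mul_sum]
    refine Finset.sum_congr rfl (fun w _ => ?_)
    rw [Finset.mul_sum]
    refine Finset.sum_congr rfl (fun κ _ => ?_)
    simp only [a, g]
    ring
  rw [e, delta_trig, Finset.sum_sigma]
  refine Finset.sum_congr rfl (fun s _ => ?_)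
  by_cases h : bidx L s = t
  · rw [if_pos h]
    have h1 : ∀ i ∈ (Finset.univ : Finset ((Fin D → Fin (2 ^ b)) × Blk L s)),
        (if g ⟨s, i⟩ ∈ rho t then a ⟨s, i⟩ * UnitAddTorus.mFourier (g ⟨s, i⟩) x else 0) =
        a ⟨s, i⟩ * UnitAddTorus.mFourier (g ⟨s, i⟩) x := by
      intro i _
      rw [if_pos]
      rw [← h]
      exact freq_mem_rho L s i.1 i.2
    rw [Finset.sum_congr rfl h1]
    unfold fsC
    rw [Fintype.sum_prod_type, Finset.mul_sum]
    refine Finset.sum_congr rfl (fun w _ => ?_)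
    rw [Finset.mul_sum]
    refine Finset.sum_congr rfl (fun κ _ => ?_)
    simp only [a, g]
    ring
  · rw [if_neg h]
    refine Finset.sum_eq_zero (fun i _ => ?_)
    rw [if_neg]
    intro hmem
    exact h (DyN.rho_disj (freq_mem_rho L s i.1 i.2) hmem)

end LC

/-- passage from the grid to the torus -/
theorem lower_cont_of (D : ℕ) (p : ℝ) (hp : 1 ≤ p) (c₁ c₂ : ℝ) (b L : ℕ) (hc₁ : 0 < c₁)
    (hL : D * 2 ^ b + 1 ≤ L)
    (H : ∃ (Sc : Finset (Fin D → Fin (2 ^ b))) (σ : (s : Fin D → Fin (2 ^ b)) → Blk L s → ℝ),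
        (∀ s κ, σ s κ = 1 ∨ σ s κ = -1) ∧
        ∀ (R : ℕ), L + 2 ^ b + b + 3 ≤ R →
          ∀ (Λ : Finset (Fin (D + 1) → ℤ)) (c : (Fin (D + 1) → ℤ) → ℂ),
          (∀ ξ ∈ Λ, ∀ j, |ξ j| < 2 ^ (R - 1)) →
          (Λ.card : ℝ) ≤ c₂ * (((2 : ℝ) ^ (b * D)) ^ 2 * 2 ^ L) →
          (c₁ * 2 ^ (b * D)) ^ p ≤ ((2 : ℝ) ^ (R * (D + 1)))⁻¹ *
            ∑ x : Fin (D + 1) → Fin (2 ^ R),
              ‖∑ s ∈ Sc, fsR L R s (σ s) x - ∑ ξ ∈ Λ, c ξ * chR R ξ x‖ ^ p) :
      ∃ (f : UnitAddTorus (Fin (D + 1)) → ℂ) (S : Finset (Fin (D + 1) → ℕ)),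
        Continuous f ∧ S.card ≤ 2 ^ (b * D) ∧ (∀ s ∈ S, ∑ j, s j = D * (b + 1) + L + 1) ∧
        (∀ s, s ∉ S → ∀ x, delta s f x = 0) ∧
        (∀ s (q : ℝ), 1 ≤ q → q ≤ 2 →
          nrm q (delta s f) ≤ ENNReal.ofReal (((2 : ℝ) ^ (b * D)) ^ (1 - 1 / q))) ∧
        ∀ m : ℕ, (m : ℝ) ≤ c₂ * (((2 : ℝ) ^ (b * D)) ^ 2 * 2 ^ L) →
          ENNReal.ofReal (c₁ * 2 ^ (b * D)) ≤ sigmaF m p f := by
  classical
  obtain ⟨Sc, σ, hσ, hlow⟩ := H
  have hfc : Continuous (LC.fF L Sc σ) := by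
    unfold LC.fF
    exact continuous_finsetSum _ (fun s _ => LC.fsC_cont L s (σ s))
  refine ⟨LC.fF L Sc σ, Sc.image (LC.bidx L), hfc, ?_, ?_, ?_, ?_, ?_⟩
  · refine Finset.card_image_le.trans ((Finset.card_le_univ _).trans ?_)
    rw [Fintype.card_fun, Fintype.card_fin, Fintype.card_fin, pow_mul]
  · intro t ht
    obtain ⟨s, _, rfl⟩ := Finset.mem_image.1 ht
    exact LC.bidx_sum L s hL
  · intro t ht x
    rw [LC.delta_fF]
    refine Finset.sum_eq_zero (fun s hs => ?_)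
    rw [if_neg]
    rintro rfl
    exact ht (Finset.mem_image_of_mem _ hs)
  · intro t q hq1 hq2
    have hq0 : 0 < q := by linarith
    by_cases ht : t ∈ Sc.image (LC.bidx L)
    · obtain ⟨s, hs, rfl⟩ := Finset.mem_image.1 ht
      have e : delta (LC.bidx L s) (LC.fF L Sc σ) = LC.fsC L s (σ s) := by
        funext x
        rw [LC.delta_fF, Finset.sum_eq_single s]
        · rw [if_pos rfl]
        · intro s' _ hne
          rw [if_neg]
          intro h
          exact hne (LC.bidx_inj L h)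
        · intro h; exact absurd hs h
      rw [e, LC.nrm_cont hq0 (LC.fsC_cont L s (σ s))]
      apply ENNReal.ofReal_le_ofReal
      have hcp := DyN.cont_pow q hq0.le _ (LC.fsC_cont L s (σ s))
      have hlim := riemann (D + 1) ⟨_, hcp⟩
      have hle : ∫ x, ‖LC.fsC L s (σ s) x‖ ^ q ∂(haarT (D + 1)) ≤ ((2 : ℝ) ^ (b * D)) ^ (q - 1) := by
        refine le_of_tendsto hlim ?_
        filter_upwards [Filter.eventually_ge_atTop (L + 2 ^ b + b + 3)] with R hR
        simp only [ContinuousMap.coe_mk, LC.fsC_grid]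
        exact fsR_norm L R s (by have := (ell_add (L := L) s hL).1; omega) hR (σ s) (hσ s) q hq1 hq2
      calc (∫ x, ‖LC.fsC L s (σ s) x‖ ^ q ∂(haarT (D + 1))) ^ (1 / q)
          ≤ (((2 : ℝ) ^ (b * D)) ^ (q - 1)) ^ (1 / q) := by
            apply Real.rpow_le_rpow (integral_nonneg (fun x => by positivity)) hle (by positivity)
        _ = ((2 : ℝ) ^ (b * D)) ^ (1 - 1 / q) := by
            rw [← Real.rpow_mul (by positivity)]
            congr 1
            field_simp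
    · have e : delta t (LC.fF L Sc σ) = fun _ => 0 := by
        funext x
        rw [LC.delta_fF]
        refine Finset.sum_eq_zero (fun s hs => ?_)
        rw [if_neg]
        rintro rfl
        exact ht (Finset.mem_image_of_mem _ hs)
      rw [e]
      have : nrm q (fun _ : UnitAddTorus (Fin (D + 1)) => (0 : ℂ)) = 0 := by
        unfold nrm
        exact eLpNorm_zero
      rw [this]
      exact zero_le
  · intro m hm
    unfold sigmaF
    refine le_iInf₂ (fun k c => ?_)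
    have hp0 : 0 < p := by linarith
    have hcont : Continuous (fun x => LC.fF L Sc σ x - ∑ j, c j * UnitAddTorus.mFourier (k j) x) := by
      apply hfc.sub
      fun_prop
    rw [LC.nrm_cont hp0 hcont]
    apply ENNReal.ofReal_le_ofReal
    set Λ : Finset (Fin (D + 1) → ℤ) := Finset.univ.image k with hΛ
    set c' : (Fin (D + 1) → ℤ) → ℂ := fun ξ => ∑ j with k j = ξ, c j with hc'
    have hcard : (Λ.card : ℝ) ≤ m := by
      have : Λ.card ≤ m := by
        refine Finset.card_image_le.trans ?_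
        simp
      exact_mod_cast this
    have hsum : ∀ (R : ℕ) (x : Fin (D + 1) → Fin (2 ^ R)),
        ∑ j, c j * chR R (k j) x = ∑ ξ ∈ Λ, c' ξ * chR R ξ x := by
      intro R x
      rw [hΛ, hc', ← Finset.sum_fiberwise_of_maps_to (s := Finset.univ) (t := Finset.univ.image k)
        (g := k) (fun j hj => Finset.mem_image_of_mem _ hj)]
      refine Finset.sum_congr rfl (fun ξ _ => ?_)
      rw [Finset.sum_mul]
      refine Finset.sum_congr rfl (fun j hj => ?_)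
      rw [(Finset.mem_filter.1 hj).2]
    have hcp := DyN.cont_pow p hp0.le _ hcont
    have hlim := riemann (D + 1) ⟨_, hcp⟩
    have hge : (c₁ * 2 ^ (b * D)) ^ p ≤
        ∫ x, ‖LC.fF L Sc σ x - ∑ j, c j * UnitAddTorus.mFourier (k j) x‖ ^ p ∂(haarT (D + 1)) := by
      refine ge_of_tendsto hlim ?_
      have hbig : ∀ᶠ R : ℕ in Filter.atTop, ∀ ξ ∈ Λ, ∀ j, |ξ j| < 2 ^ (R - 1) := by
        rw [Finset.eventually_all]
        intro ξ _
        rw [Filter.eventually_all]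
        intro j
        filter_upwards [Filter.eventually_ge_atTop ((ξ j).natAbs + 1)] with R hR
        have h1 : (ξ j).natAbs < 2 ^ (R - 1) :=
          lt_of_le_of_lt (by omega) Nat.lt_two_pow_self
        have h2 : ((ξ j).natAbs : ℤ) < 2 ^ (R - 1) := by exact_mod_cast h1
        rwa [Int.natCast_natAbs] at h2
      filter_upwards [Filter.eventually_ge_atTop (L + 2 ^ b + b + 3), hbig] with R hR hR2
      have h0 := hlow R hR Λ c' hR2 (hcard.trans hm)
      simp only [ContinuousMap.coe_mk, LC.fF, LC.fsC_grid, DyN.mFourier_grid, hsum]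
      exact h0
    calc c₁ * 2 ^ (b * D) = ((c₁ * 2 ^ (b * D)) ^ p) ^ (1 / p) := by
          rw [← Real.rpow_mul (by positivity), mul_one_div_cancel hp0.ne', Real.rpow_one]
      _ ≤ _ := Real.rpow_le_rpow (by positivity) hge (by positivity)

/-- The extremal function on the torus (owner: helper72). -/
theorem lower_cont (D : ℕ) (p : ℝ) (hp : 1 < p ∨ (p = 1 ∧ D ≤ 1)) (hp2 : p < 2) :
    ∃ (c₁ c₂ : ℝ) (b₀ k₀ : ℕ), 0 < c₁ ∧ 0 < c₂ ∧ ∀ b L : ℕ, b₀ ≤ b → D * 2 ^ b + k₀ ≤ L →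
      ∃ (f : UnitAddTorus (Fin (D + 1)) → ℂ) (S : Finset (Fin (D + 1) → ℕ)),
        Continuous f ∧ S.card ≤ 2 ^ (b * D) ∧ (∀ s ∈ S, ∑ j, s j = D * (b + 1) + L + 1) ∧
        (∀ s, s ∉ S → ∀ x, delta s f x = 0) ∧
        (∀ s (q : ℝ), 1 ≤ q → q ≤ 2 →
          nrm q (delta s f) ≤ ENNReal.ofReal (((2 : ℝ) ^ (b * D)) ^ (1 - 1 / q))) ∧
        ∀ m : ℕ, (m : ℝ) ≤ c₂ * (((2 : ℝ) ^ (b * D)) ^ 2 * 2 ^ L) →
          ENNReal.ofReal (c₁ * 2 ^ (b * D)) ≤ sigmaF m p f := by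
  rcases hp with hp | ⟨rfl, hD⟩
  · obtain ⟨c₁, c₂, b₀, k₀, hc₁, hc₂, h⟩ := lower_disc D p hp hp2
    refine ⟨c₁, c₂, b₀, k₀ + 1, hc₁, hc₂, fun b L hb hL => ?_⟩
    exact lower_cont_of D p hp.le c₁ c₂ b L hc₁ (by omega) (h b L hb (by omega))
  · obtain ⟨c₁, c₂, b₀, k₀, hc₁, hc₂, h⟩ := lower_disc1 D hD
    refine ⟨c₁, c₂, b₀, k₀ + 1, hc₁, hc₂, fun b L hb hL => ?_⟩
    refine lower_cont_of D 1 le_rfl c₁ c₂ b L hc₁ (by omega) ?_
    obtain ⟨Sc, σ, hσ, h1⟩ := h b L hb (by omega)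
    refine ⟨Sc, σ, hσ, fun R hR Λ c hΛ hcard => ?_⟩
    have h2 := h1 R hR Λ c hΛ hcard
    simpa only [Real.rpow_one] using h2

end

end Pool.Agent.H72.MT
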