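import Pool.Agent.H72.MT.Tail
import Pool.Agent.H72.MT.Count

set_option autoImplicit false

namespace Pool.Agent.H72.MT

open Finset MeasureTheory
open scoped BigOperators ENNReal

noncomputable section

lemma sigmaF_le_of_card {d m : ℕ} (p : ℝ) (f : UnitAddTorus (Fin d) → ℂ)
    (A : Finset (Fin d → ℤ)) (hA : A.card ≤ m) (u : (Fin d → ℤ) → ℂ) :
    sigmaF m p f ≤ nrm p (fun x => f x - ∑ k ∈ A, u k * UnitAddTorus.mFourier k x) := by
  classical
  set e := A.equivFin with he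
  unfold sigmaF
  refine (iInf₂_le (fun j : Fin m => if h : (j : ℕ) < A.card then
      ((e.symm ⟨j, h⟩ : A) : Fin d → ℤ) else 0)
    (fun j : Fin m => if h : (j : ℕ) < A.card then u ((e.symm ⟨j, h⟩ : A) : Fin d → ℤ) else 0)).trans
    (le_of_eq ?_)
  congr 1
  funext x
  congr 1
  set G : ℕ → ℂ := fun j => if h : j < A.card then
    u ((e.symm ⟨j, h⟩ : A) : Fin d → ℤ) *
      UnitAddTorus.mFourier ((e.symm ⟨j, h⟩ : A) : Fin d → ℤ) x else 0 with hG
  have h1 : ∀ j : Fin m, (if h : (j : ℕ) < A.card then u ((e.symm ⟨j, h⟩ : A) : Fin d → ℤ) else 0) *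
      UnitAddTorus.mFourier (if h : (j : ℕ) < A.card then
      ((e.symm ⟨j, h⟩ : A) : Fin d → ℤ) else 0) x = G j := by
    intro j
    simp only [hG]
    by_cases h : (j : ℕ) < A.card
    · simp only [h, dif_pos]
    · simp only [h, dif_neg, not_false_eq_true, zero_mul]
  rw [Finset.sum_congr rfl (fun j _ => h1 j), Fin.sum_univ_eq_sum_range G m]
  have h2 : ∑ j ∈ range m, G j = ∑ j ∈ range A.card, G j := by
    symm
    apply Finset.sum_subset (by intro a; simp only [mem_range]; omega)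
    intro j _ hj
    simp only [mem_range] at hj
    simp only [hG, dif_neg hj]
  rw [h2, ← Fin.sum_univ_eq_sum_range G A.card]
  have h3 : ∀ j : Fin A.card, G j = u ((e.symm j : A) : Fin d → ℤ) *
      UnitAddTorus.mFourier ((e.symm j : A) : Fin d → ℤ) x := by
    intro j
    simp only [hG, dif_pos j.2]
  rw [Finset.sum_congr rfl (fun j _ => h3 j),
    Equiv.sum_comp e.symm (fun a : A => u (a : Fin d → ℤ) * UnitAddTorus.mFourier (a : Fin d → ℤ) x),
    Finset.sum_coe_sort A (fun k => u k * UnitAddTorus.mFourier k x)]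

lemma sigmaC_mono_p {d : ℕ} (m : ℕ) {p q : ℝ} (_hp : 0 < p) (hpq : p ≤ q)
    (F : Set (UnitAddTorus (Fin d) → ℂ)) (hF : ∀ f ∈ F, AEStronglyMeasurable f (haarT d)) :
    sigmaC m p F ≤ sigmaC m q F := by
  unfold sigmaC
  refine iSup₂_mono (fun f hf => ?_)
  unfold sigmaF
  refine iInf₂_mono (fun k c => ?_)
  unfold nrm
  apply eLpNorm_le_eLpNorm_of_exponent_le (ENNReal.ofReal_le_ofReal hpq)
  apply (hF f hf).sub
  apply Continuous.aestronglyMeasurable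
  fun_prop

lemma mem_blk_iff_size (k : ℤ) (s : ℕ) : k ∈ blk s ↔ Nat.size k.natAbs = s := by
  unfold blk
  simp only [mem_filter, mem_Ioo]
  have habs : (k.natAbs : ℤ) = |k| := Int.natCast_natAbs k
  have h1 : (-(2 ^ s : ℤ) < k ∧ k < 2 ^ s) ↔ k.natAbs < 2 ^ s := by
    rw [← abs_lt, ← habs]
    exact_mod_cast Iff.rfl
  rw [h1, ← habs]
  rw [Int.ofNat_le, ← Nat.size_le]
  constructor
  · rintro ⟨h2, h3⟩
    apply le_antisymm h2
    rcases Nat.eq_zero_or_pos s with rfl | hs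
    · exact Nat.zero_le _
    · obtain ⟨r, rfl⟩ : ∃ r, s = r + 1 := ⟨s - 1, by omega⟩
      by_contra hcon
      have h4 : Nat.size k.natAbs ≤ r := by omega
      rw [Nat.size_le] at h4
      rw [pow_succ] at h3
      omega
  · rintro rfl
    refine ⟨le_rfl, ?_⟩
    rcases Nat.eq_zero_or_pos (Nat.size k.natAbs) with h2 | h2
    · rw [h2]; simp
    · obtain ⟨r, hr⟩ : ∃ r, Nat.size k.natAbs = r + 1 := ⟨Nat.size k.natAbs - 1, by omega⟩
      have h4 : ¬ (Nat.size k.natAbs ≤ r) := by omega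
      rw [Nat.size_le] at h4
      rw [hr, pow_succ]
      omega

lemma mem_rho_iff_size {d : ℕ} (k : Fin d → ℤ) (s : Fin d → ℕ) :
    k ∈ rho s ↔ (fun j => Nat.size (k j).natAbs) = s := by
  unfold rho
  rw [Fintype.mem_piFinset, funext_iff]
  exact forall_congr' (fun j => mem_blk_iff_size _ _)

lemma rho_disjoint {d : ℕ} {s t : Fin d → ℕ} (h : s ≠ t) : Disjoint (rho s) (rho t) := by
  rw [Finset.disjoint_left]
  intro k hs ht
  exact h (((mem_rho_iff_size k s).1 hs).symm.trans ((mem_rho_iff_size k t).1 ht))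

/-- `sigmaF` is bounded by the tail over the complement of a set of blocks -/
lemma sigmaF_le_blocks {d m : ℕ} (p : ℝ) (f : UnitAddTorus (Fin d) → ℂ)
    (F : Finset (Fin d → ℕ)) (hF : (F.biUnion (fun s => rho s)).card ≤ m) :
    sigmaF m p f ≤ nrm p (fun x => f x - ∑ s ∈ F, delta s f x) := by
  classical
  refine (sigmaF_le_of_card p f _ hF (fc f)).trans (le_of_eq ?_)
  congr 1
  funext x
  rw [Finset.sum_biUnion]
  · rfl
  · intro s _ t _ hst
    exact rho_disjoint hst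

/-- tail sums, all `n ≥ 0` -/
lemma tail_sum' (d : ℕ) (hd : 1 ≤ d) (γ : ℝ) (hγ : 0 < γ) : ∃ C : ℝ, 0 < C ∧ ∀ n : ℕ,
    ∑' s : {s : Fin d → ℕ // s ∉ hyp d n}, ENNReal.ofReal ((2 : ℝ) ^ (-(γ * ∑ j, ((s : Fin d → ℕ) j : ℝ)))) ≤
      ENNReal.ofReal (C * (2 : ℝ) ^ (-(γ * n)) * ((n : ℝ) + 1) ^ (d - 1)) := by
  classical
  obtain ⟨C, hC, h⟩ := tail_sum d hd γ hγ
  set g : (Fin d → ℕ) → ℝ≥0∞ := fun s => ENNReal.ofReal ((2 : ℝ) ^ (-(γ * ∑ j, (s j : ℝ)))) with hg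
  -- the value for `n = 0`
  set B : ℝ := (∑ s ∈ hyp d 1, (2 : ℝ) ^ (-(γ * ∑ j, (s j : ℝ)))) +
    C * (2 : ℝ) ^ (-(γ * (1 : ℕ))) * ((1 : ℕ) : ℝ) ^ (d - 1) with hB
  have hB0 : 0 ≤ B := by positivity
  refine ⟨C + B, by positivity, fun n => ?_⟩
  rcases Nat.eq_zero_or_pos n with rfl | hn
  · have h1 : ∑' s : {s : Fin d → ℕ // s ∉ hyp d 0}, g s ≤ ∑' s : Fin d → ℕ, g s :=
      ENNReal.tsum_comp_le_tsum_of_injective Subtype.val_injective _
    have h2 : ∑' s : Fin d → ℕ, g s = ∑ s ∈ hyp d 1, g s + ∑' s : {s : Fin d → ℕ // s ∉ hyp d 1}, g s := by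
      have h := Summable.tsum_add_tsum_compl (f := g) (s := (hyp d 1 : Set (Fin d → ℕ)))
        ENNReal.summable ENNReal.summable
      rw [← h, Finset.tsum_subtype']
      rfl
    have h3 : ∑ s ∈ hyp d 1, g s = ENNReal.ofReal (∑ s ∈ hyp d 1, (2 : ℝ) ^ (-(γ * ∑ j, (s j : ℝ)))) := by
      rw [ENNReal.ofReal_sum_of_nonneg (fun s _ => by positivity)]
    refine h1.trans ?_
    rw [h2, h3]
    refine (add_le_add le_rfl (h 1 le_rfl)).trans ?_
    rw [← ENNReal.ofReal_add (by positivity) (by positivity)]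
    apply ENNReal.ofReal_le_ofReal
    rw [← hB]
    simp only [Nat.cast_zero, mul_zero, neg_zero, Real.rpow_zero, mul_one, zero_add, one_pow]
    linarith
  · refine (h n hn).trans (ENNReal.ofReal_le_ofReal ?_)
    have h1 : (n : ℝ) ^ (d - 1) ≤ ((n : ℝ) + 1) ^ (d - 1) := by gcongr; linarith
    have h2 : C * (2 : ℝ) ^ (-(γ * n)) ≤ (C + B) * (2 : ℝ) ^ (-(γ * n)) := by
      gcongr; linarith
    exact mul_le_mul h2 h1 (by positivity) (by positivity)

/-- choice of the level `n` for a given budget `m` -/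
lemma exists_level (d : ℕ) (C₁ : ℝ) (hC₁ : 1 ≤ C₁)
    (h : ∀ n : ℕ, 1 ≤ n → (((hyp d n).biUnion (fun s => rho s)).card : ℝ) ≤ C₁ * 2 ^ n * (n : ℝ) ^ (d - 1))
    (h0 : ((hyp d 0).biUnion (fun s => rho s)).card = 0) (m : ℕ) (hm : 2 ≤ m) :
    ∃ n : ℕ, ((hyp d n).biUnion (fun s => rho s)).card ≤ m ∧
      (m : ℝ) ≤ C₁ * 2 ^ (n + 1) * ((n : ℝ) + 1) ^ (d - 1) ∧ (n : ℝ) + 1 ≤ 4 * Real.log m := by
  classical
  set P : ℕ → Prop := fun n => n = 0 ∨ C₁ * 2 ^ n * (n : ℝ) ^ (d - 1) ≤ m with hP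
  have hm2 : (2 : ℝ) ≤ m := by exact_mod_cast hm
  have hlog2 : (1 / 2 : ℝ) < Real.log 2 := by have := Real.log_two_gt_d9; linarith
  have hlogm : Real.log 2 ≤ Real.log m := Real.log_le_log (by norm_num) hm2
  have hPbig : ∀ n, m ≤ n → ¬ P n := by
    intro n hn hPn
    rcases hPn with h1 | h1
    · omega
    · have hn1 : (1 : ℝ) ≤ n := by exact_mod_cast (by omega : 1 ≤ n)
      have h2 : (n : ℝ) < 2 ^ n := by exact_mod_cast Nat.lt_two_pow_self
      have h3 : (1 : ℝ) ≤ (n : ℝ) ^ (d - 1) := one_le_pow₀ hn1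
      have h4 : (m : ℝ) ≤ n := by exact_mod_cast hn
      have h5 : (2 : ℝ) ^ n ≤ C₁ * 2 ^ n * (n : ℝ) ^ (d - 1) := by
        calc (2 : ℝ) ^ n = 1 * 2 ^ n * 1 := by ring
          _ ≤ C₁ * 2 ^ n * (n : ℝ) ^ (d - 1) := by gcongr
      linarith
  set n := Nat.findGreatest P m with hn
  have hPn : P n := Nat.findGreatest_spec (P := P) (Nat.zero_le m) (Or.inl rfl)
  have hPn1 : ¬ P (n + 1) := by
    by_cases hle : n + 1 ≤ m
    · exact Nat.findGreatest_is_greatest (P := P) (n := m) (by omega) hle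
    · exact hPbig _ (by omega)
  refine ⟨n, ?_, ?_, ?_⟩
  · rcases Nat.eq_zero_or_pos n with h1 | h1
    · rw [h1, h0]; omega
    · rcases hPn with h2 | h2
      · omega
      · have := (h n h1).trans h2
        exact_mod_cast this
  · have : ¬ (C₁ * 2 ^ (n + 1) * ((n + 1 : ℕ) : ℝ) ^ (d - 1) ≤ m) := fun hc => hPn1 (Or.inr hc)
    push_cast at this
    linarith
  · rcases Nat.eq_zero_or_pos n with h1 | h1
    · rw [h1]; push_cast; linarith
    · rcases hPn with h2 | h2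
      · omega
      · have hn1 : (1 : ℝ) ≤ n := by exact_mod_cast h1
        have h3 : (1 : ℝ) ≤ (n : ℝ) ^ (d - 1) := one_le_pow₀ hn1
        have h5 : (2 : ℝ) ^ n ≤ m := by
          calc (2 : ℝ) ^ n = 1 * 2 ^ n * 1 := by ring
            _ ≤ C₁ * 2 ^ n * (n : ℝ) ^ (d - 1) := by gcongr
            _ ≤ m := h2
        have h6 : (n : ℝ) * Real.log 2 ≤ Real.log m := by
          rw [← Real.log_pow]; exact Real.log_le_log (by positivity) h5
        nlinarith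

/-- Upper bound for `H_q^r` (hyperbolic cross), from `tail_bound`, `card_hyp`, `tail_sum`. -/
theorem upperH (d : ℕ) (hd : 1 ≤ d) (q r : ℝ) (hq1 : 1 < q) (hq : q ≤ 2) (hr : 0 < r) :
    ∃ C : ℝ, 0 < C ∧ ∀ m : ℕ, 2 ≤ m →
      sigmaC m q (classH d q r) ≤
        ENNReal.ofReal (C * ((m : ℝ) ^ (-r) * (Real.log m) ^ (((d : ℝ) - 1) * (r + 1 / q)))) := by
  classical
  have hq0 : 0 < q := by linarith
  obtain ⟨C₀, hC₀, hcard⟩ := card_hyp d hd
  obtain ⟨C₂, hC₂, htail⟩ := tail_sum' d hd (r * q) (by positivity)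
  obtain ⟨C₃, hC₃, hT⟩ := tail_bound d q hq1 hq
  set C₁ := max 1 C₀ with hC₁
  have hC₁1 : 1 ≤ C₁ := le_max_left _ _
  have hC₁0 : C₀ ≤ C₁ := le_max_right _ _
  have hcard' : ∀ n : ℕ, 1 ≤ n → (((hyp d n).biUnion (fun s => rho s)).card : ℝ) ≤
      C₁ * 2 ^ n * (n : ℝ) ^ (d - 1) := by
    intro n hn
    refine (hcard n hn).trans ?_
    gcongr
  have h0 : ((hyp d 0).biUnion (fun s => rho s)).card = 0 := by
    have : hyp d 0 = ∅ := by
      unfold hyp
      rw [Finset.filter_eq_empty_iff]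
      intro s _; omega
    rw [this]; simp
  set E : ℝ := ((d : ℝ) - 1) * (r + 1 / q) with hE
  have hd1 : (0 : ℝ) ≤ (d : ℝ) - 1 := by
    have : (1 : ℝ) ≤ d := by exact_mod_cast hd
    linarith
  have hE0 : 0 ≤ E := by positivity
  refine ⟨(C₃ * C₂) ^ (1 / q) * (2 * C₁) ^ r * 4 ^ E, by positivity, ?_⟩
  intro m hm
  obtain ⟨n, hn1, hn2, hn3⟩ := exists_level d C₁ hC₁1 hcard' h0 m hm
  have hm0 : (0 : ℝ) < m := by exact_mod_cast (by omega : 0 < m)
  have hlogm : 0 < Real.log m := Real.log_pos (by exact_mod_cast (by omega : 1 < m))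
  unfold sigmaC
  refine iSup₂_le (fun f hf => ?_)
  refine (sigmaF_le_blocks q f (hyp d n) hn1).trans ?_
  -- q-th power bound
  have hpow : nrm q (fun x => f x - ∑ s ∈ hyp d n, delta s f x) ^ q ≤
      ENNReal.ofReal (C₃ * (C₂ * (2 : ℝ) ^ (-(r * q * n)) * ((n : ℝ) + 1) ^ (d - 1))) := by
    refine (hT f hf.1 (hyp d n)).trans ?_
    rw [ENNReal.ofReal_mul hC₃.le]
    gcongr
    refine (ENNReal.tsum_le_tsum (fun s => ?_)).trans (htail n)
    have h1 := hf.2 (s : Fin d → ℕ)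
    set S : ℝ := ∑ j, ((s : Fin d → ℕ) j : ℝ) with hS
    have h2 : nrm q (delta (s : Fin d → ℕ) f) ≤ ENNReal.ofReal ((2 : ℝ) ^ (-(r * S))) := by
      have hpos : (0 : ℝ) < (2 : ℝ) ^ (r * S) := by positivity
      calc nrm q (delta (s : Fin d → ℕ) f)
          = ENNReal.ofReal ((2 : ℝ) ^ (-(r * S))) * (ENNReal.ofReal ((2 : ℝ) ^ (r * S)) *
              nrm q (delta (s : Fin d → ℕ) f)) := by
            rw [← mul_assoc, ← ENNReal.ofReal_mul (by positivity), ← Real.rpow_add (by norm_num)]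
            simp
        _ ≤ ENNReal.ofReal ((2 : ℝ) ^ (-(r * S))) * 1 := by gcongr
        _ = _ := by rw [mul_one]
    calc nrm q (delta (s : Fin d → ℕ) f) ^ q ≤ (ENNReal.ofReal ((2 : ℝ) ^ (-(r * S)))) ^ q := by
          gcongr
      _ = ENNReal.ofReal ((2 : ℝ) ^ (-(r * q * S))) := by
          rw [ENNReal.ofReal_rpow_of_nonneg (by positivity) hq0.le, ← Real.rpow_mul (by norm_num)]
          congr 2; ring
  have hroot : nrm q (fun x => f x - ∑ s ∈ hyp d n, delta s f x) ≤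
      ENNReal.ofReal ((C₃ * (C₂ * (2 : ℝ) ^ (-(r * q * n)) * ((n : ℝ) + 1) ^ (d - 1))) ^ (1 / q)) := by
    rw [← ENNReal.ofReal_rpow_of_nonneg (by positivity) (by positivity), one_div]
    rw [ENNReal.le_rpow_inv_iff hq0]
    exact hpow
  refine hroot.trans (ENNReal.ofReal_le_ofReal ?_)
  -- real computation
  have hn0 : (0 : ℝ) < (n : ℝ) + 1 := by positivity
  have e1 : (C₃ * (C₂ * (2 : ℝ) ^ (-(r * q * n)) * ((n : ℝ) + 1) ^ (d - 1))) ^ (1 / q) =
      (C₃ * C₂) ^ (1 / q) * (((2 : ℝ) ^ n)⁻¹) ^ r * ((n : ℝ) + 1) ^ (((d : ℝ) - 1) * (1 / q)) := by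
    rw [show C₃ * (C₂ * (2 : ℝ) ^ (-(r * q * n)) * ((n : ℝ) + 1) ^ (d - 1)) =
      (C₃ * C₂) * (2 : ℝ) ^ (-(r * q * n)) * ((n : ℝ) + 1) ^ (d - 1) by ring]
    rw [Real.mul_rpow (by positivity) (by positivity), Real.mul_rpow (by positivity) (by positivity)]
    congr 1
    · congr 1
      rw [← Real.rpow_mul (by norm_num), ← Real.rpow_natCast 2 n, ← Real.rpow_neg (by norm_num),
        ← Real.rpow_mul (by norm_num)]
      congr 1
      field_simp
    · rw [← Real.rpow_natCast ((n : ℝ) + 1) (d - 1), ← Real.rpow_mul hn0.le]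
      congr 1
      rw [Nat.cast_sub hd]; push_cast; ring
  rw [e1]
  have e2 : ((2 : ℝ) ^ n)⁻¹ ≤ 2 * C₁ * ((n : ℝ) + 1) ^ (d - 1) / m := by
    rw [inv_eq_one_div, div_le_div_iff₀ (by positivity) hm0]
    rw [pow_succ] at hn2
    nlinarith [hn2]
  have e3 : (((2 : ℝ) ^ n)⁻¹) ^ r ≤ (2 * C₁) ^ r * ((n : ℝ) + 1) ^ (((d : ℝ) - 1) * r) * (m : ℝ) ^ (-r) := by
    calc (((2 : ℝ) ^ n)⁻¹) ^ r ≤ (2 * C₁ * ((n : ℝ) + 1) ^ (d - 1) / m) ^ r := by
          apply Real.rpow_le_rpow (by positivity) e2 hr.le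
      _ = _ := by
          rw [Real.div_rpow (by positivity) hm0.le, Real.mul_rpow (by positivity) (by positivity),
            Real.rpow_neg hm0.le, div_eq_mul_inv, ← Real.rpow_natCast ((n : ℝ) + 1) (d - 1),
            ← Real.rpow_mul hn0.le, Nat.cast_sub hd]
          push_cast; ring
  have e4 : ((n : ℝ) + 1) ^ E ≤ 4 ^ E * Real.log m ^ E := by
    rw [← Real.mul_rpow (by norm_num) hlogm.le]
    exact Real.rpow_le_rpow hn0.le hn3 hE0
  calc (C₃ * C₂) ^ (1 / q) * (((2 : ℝ) ^ n)⁻¹) ^ r * ((n : ℝ) + 1) ^ (((d : ℝ) - 1) * (1 / q))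
      ≤ (C₃ * C₂) ^ (1 / q) * ((2 * C₁) ^ r * ((n : ℝ) + 1) ^ (((d : ℝ) - 1) * r) * (m : ℝ) ^ (-r)) *
          ((n : ℝ) + 1) ^ (((d : ℝ) - 1) * (1 / q)) := by gcongr
    _ = (C₃ * C₂) ^ (1 / q) * (2 * C₁) ^ r * (m : ℝ) ^ (-r) * ((n : ℝ) + 1) ^ E := by
        rw [hE, mul_add, Real.rpow_add hn0]; ring
    _ ≤ (C₃ * C₂) ^ (1 / q) * (2 * C₁) ^ r * (m : ℝ) ^ (-r) * (4 ^ E * Real.log m ^ E) := by gcongr
    _ = _ := by ring

end

end Pool.Agent.H72.MT
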