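import Pool.Agent.H72.MT.LowerCont
import Pool.Agent.H72.MT.UpperH

set_option autoImplicit false

namespace Pool.Agent.H72.MT

open Finset MeasureTheory
open scoped BigOperators ENNReal

noncomputable section

lemma fc_smul {d : ℕ} (a : ℂ) (f : UnitAddTorus (Fin d) → ℂ) (k : Fin d → ℤ) :
    fc (fun x => a * f x) k = a * fc f k := by
  unfold fc
  rw [← integral_const_mul]
  congr 1
  funext x; ring

lemma delta_smul {d : ℕ} (a : ℂ) (f : UnitAddTorus (Fin d) → ℂ) (s : Fin d → ℕ) :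
    delta s (fun x => a * f x) = fun x => a * delta s f x := by
  funext x
  unfold delta
  rw [Finset.mul_sum]
  refine Finset.sum_congr rfl (fun k _ => ?_)
  rw [fc_smul]; ring

lemma nrm_smul {d : ℕ} (p : ℝ) (a : ℂ) (f : UnitAddTorus (Fin d) → ℂ) :
    nrm p (fun x => a * f x) = ‖a‖ₑ * nrm p f := by
  unfold nrm
  exact eLpNorm_const_smul a f _ _

lemma sigmaF_smul {d : ℕ} (m : ℕ) (p : ℝ) (a : ℂ) (ha : a ≠ 0) (f : UnitAddTorus (Fin d) → ℂ) :
    ‖a‖ₑ * sigmaF m p f ≤ sigmaF m p (fun x => a * f x) := by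
  conv_rhs => unfold sigmaF
  refine le_iInf₂ (fun k c => ?_)
  have h1 : (fun x => a * f x - ∑ j, c j * UnitAddTorus.mFourier (k j) x) =
      fun x => a * (f x - ∑ j, (a⁻¹ * c j) * UnitAddTorus.mFourier (k j) x) := by
    funext x
    rw [mul_sub, Finset.mul_sum]
    congr 1
    refine Finset.sum_congr rfl (fun j _ => ?_)
    field_simp
  rw [h1, nrm_smul]
  gcongr
  unfold sigmaF
  exact iInf₂_le (f := fun (k : Fin m → (Fin d → ℤ)) (c : Fin m → ℂ) =>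
    nrm p (fun x => f x - ∑ j, c j * UnitAddTorus.mFourier (k j) x)) k (fun j => a⁻¹ * c j)

lemma sigmaF_anti {d : ℕ} {m m' : ℕ} (h : m ≤ m') (p : ℝ) (f : UnitAddTorus (Fin d) → ℂ) :
    sigmaF m' p f ≤ sigmaF m p f := by
  classical
  conv_rhs => unfold sigmaF
  refine le_iInf₂ (fun k c => ?_)
  have hcard : (Finset.univ.image k).card ≤ m' := by
    refine Finset.card_image_le.trans ?_
    simpa using h
  refine (sigmaF_le_of_card p f (Finset.univ.image k) hcard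
    (fun ξ => ∑ j ∈ Finset.univ.filter (fun j => k j = ξ), c j)).trans (le_of_eq ?_)
  congr 1
  funext x
  congr 1
  rw [← Finset.sum_fiberwise_of_maps_to (s := Finset.univ) (t := Finset.univ.image k) (g := k)
    (fun j _ => Finset.mem_image_of_mem k (Finset.mem_univ j))]
  refine Finset.sum_congr rfl (fun ξ _ => ?_)
  rw [Finset.sum_mul]
  refine Finset.sum_congr rfl (fun j hj => ?_)
  rw [(Finset.mem_filter.1 hj).2]

lemma sigmaC_anti {d : ℕ} {m m' : ℕ} (h : m ≤ m') (p : ℝ) (F : Set (UnitAddTorus (Fin d) → ℂ)) :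
    sigmaC m' p F ≤ sigmaC m p F := by
  unfold sigmaC
  exact iSup₂_mono (fun f _ => sigmaF_anti h p f)

lemma memLp_of_cont {d : ℕ} (q : ℝ≥0∞) (f : UnitAddTorus (Fin d) → ℂ) (hf : Continuous f) :
    MemLp f q (haarT d) := by
  obtain ⟨C, hC⟩ := isCompact_univ.exists_bound_of_continuousOn hf.continuousOn
  exact MemLp.of_bound hf.aestronglyMeasurable C
    (Filter.Eventually.of_forall (fun x => hC x (Set.mem_univ x)))

/-- membership of a scaled extremal function in `H_q^r` -/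
lemma mem_classH {d : ℕ} (q r : ℝ) (f : UnitAddTorus (Fin d) → ℂ) (hf : Continuous f)
    (S : Finset (Fin d → ℕ)) (T : ℕ) (hT : ∀ s ∈ S, ∑ j, s j = T)
    (h0 : ∀ s, s ∉ S → ∀ x, delta s f x = 0) (A : ℝ) (_hA : 0 < A)
    (hn : ∀ s, nrm q (delta s f) ≤ ENNReal.ofReal A) (l : ℝ) (hl : 0 < l)
    (hlA : (2 : ℝ) ^ (r * T) * l * A ≤ 1) :
    (fun x => (l : ℂ) * f x) ∈ classH d q r := by
  refine ⟨memLp_of_cont _ _ (by fun_prop), fun s => ?_⟩
  rw [delta_smul, nrm_smul]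
  by_cases hs : s ∈ S
  · have h1 : (∑ j, (s j : ℝ)) = T := by rw [← hT s hs]; push_cast; rfl
    rw [h1]
    have h2 : ‖(l : ℂ)‖ₑ = ENNReal.ofReal l := by
      rw [← ofReal_norm]; simp [abs_of_pos hl]
    rw [h2]
    calc ENNReal.ofReal ((2 : ℝ) ^ (r * T)) * (ENNReal.ofReal l * nrm q (delta s f))
        ≤ ENNReal.ofReal ((2 : ℝ) ^ (r * T)) * (ENNReal.ofReal l * ENNReal.ofReal A) := by
          gcongr; exact hn s
      _ = ENNReal.ofReal ((2 : ℝ) ^ (r * T) * l * A) := by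
          rw [← ENNReal.ofReal_mul hl.le, ← ENNReal.ofReal_mul (by positivity)]
          congr 1; ring
      _ ≤ 1 := by
          rw [← ENNReal.ofReal_one]; exact ENNReal.ofReal_le_ofReal hlA
  · have h1 : delta s f = 0 := by funext x; exact h0 s hs x
    have h2 : nrm q (delta s f) = 0 := by rw [h1]; unfold nrm; exact eLpNorm_zero
    rw [h2]; simp

/-- membership of a scaled extremal function in `B_{q,θ}^r` -/
lemma mem_classB {d : ℕ} (q r θ : ℝ) (hθ : 1 ≤ θ) (f : UnitAddTorus (Fin d) → ℂ) (hf : Continuous f)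
    (S : Finset (Fin d → ℕ)) (T : ℕ) (hT : ∀ s ∈ S, ∑ j, s j = T)
    (h0 : ∀ s, s ∉ S → ∀ x, delta s f x = 0) (A N : ℝ) (_hA : 0 < A) (hN : (S.card : ℝ) ≤ N)
    (hN0 : 0 < N)
    (hn : ∀ s, nrm q (delta s f) ≤ ENNReal.ofReal A) (l : ℝ) (hl : 0 < l)
    (hlA : (2 : ℝ) ^ (r * T) * l * A ≤ N ^ (-(1 / θ))) :
    (fun x => (l : ℂ) * f x) ∈ classB d q θ r := by
  classical
  have hθ0 : 0 < θ := by linarith
  refine ⟨memLp_of_cont _ _ (by fun_prop), ?_⟩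
  have h2 : ‖(l : ℂ)‖ₑ = ENNReal.ofReal l := by
    rw [← ofReal_norm]; simp [abs_of_pos hl]
  have hz : ∀ s, s ∉ S → (ENNReal.ofReal ((2 : ℝ) ^ (r * ∑ j, (s j : ℝ))) *
      nrm q (delta s (fun x => (l : ℂ) * f x))) ^ θ = 0 := by
    intro s hs
    rw [delta_smul, nrm_smul]
    have h1 : delta s f = 0 := by funext x; exact h0 s hs x
    have h3 : nrm q (delta s f) = 0 := by rw [h1]; unfold nrm; exact eLpNorm_zero
    rw [h3, mul_zero, mul_zero, ENNReal.zero_rpow_of_pos hθ0]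
  rw [tsum_eq_sum hz]
  have hb : ∀ s ∈ S, (ENNReal.ofReal ((2 : ℝ) ^ (r * ∑ j, (s j : ℝ))) *
      nrm q (delta s (fun x => (l : ℂ) * f x))) ^ θ ≤ ENNReal.ofReal (N⁻¹) := by
    intro s hs
    rw [delta_smul, nrm_smul, h2]
    have h1 : (∑ j, (s j : ℝ)) = T := by rw [← hT s hs]; push_cast; rfl
    rw [h1]
    calc (ENNReal.ofReal ((2 : ℝ) ^ (r * T)) * (ENNReal.ofReal l * nrm q (delta s f))) ^ θ
        ≤ (ENNReal.ofReal ((2 : ℝ) ^ (r * T)) * (ENNReal.ofReal l * ENNReal.ofReal A)) ^ θ := by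
          gcongr; exact hn s
      _ = (ENNReal.ofReal ((2 : ℝ) ^ (r * T) * l * A)) ^ θ := by
          rw [← ENNReal.ofReal_mul hl.le, ← ENNReal.ofReal_mul (by positivity)]
          congr 2; ring
      _ ≤ (ENNReal.ofReal (N ^ (-(1 / θ)))) ^ θ := by
          gcongr
      _ = ENNReal.ofReal (N⁻¹) := by
          rw [ENNReal.ofReal_rpow_of_nonneg (by positivity) hθ0.le, ← Real.rpow_mul hN0.le]
          congr 1
          rw [show -(1 / θ) * θ = -1 by field_simp, Real.rpow_neg_one]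
  refine (Finset.sum_le_sum hb).trans ?_
  rw [Finset.sum_const, nsmul_eq_mul, ← ENNReal.ofReal_natCast, ← ENNReal.ofReal_mul (by positivity),
    ← ENNReal.ofReal_one]
  apply ENNReal.ofReal_le_ofReal
  rw [← div_eq_mul_inv, div_le_one hN0]; exact hN

lemma exists_L (X : ℝ) (hX : 0 < X) (L₀ : ℕ) (m : ℝ) (hm : X * 2 ^ L₀ ≤ m) :
    ∃ L : ℕ, L₀ ≤ L ∧ m ≤ X * 2 ^ L ∧ X * 2 ^ L ≤ 2 * m := by
  classical
  have hm0 : 0 < m := lt_of_lt_of_le (by positivity) hm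
  have hex : ∃ L : ℕ, L₀ ≤ L ∧ m ≤ X * 2 ^ L := by
    obtain ⟨n, hn⟩ := pow_unbounded_of_one_lt (m / X) (by norm_num : (1 : ℝ) < 2)
    refine ⟨max L₀ n, le_max_left _ _, ?_⟩
    have h1 : (2 : ℝ) ^ n ≤ 2 ^ (max L₀ n) := pow_le_pow_right₀ (by norm_num) (le_max_right _ _)
    have h2 := hn.le.trans h1
    rw [div_le_iff₀ hX] at h2
    linarith
  refine ⟨Nat.find hex, (Nat.find_spec hex).1, (Nat.find_spec hex).2, ?_⟩
  rcases (Nat.find_spec hex).1.lt_or_eq with h | h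
  · have h3 := Nat.find_min hex (m := Nat.find hex - 1) (by omega)
    obtain ⟨n, hn⟩ : ∃ n, Nat.find hex = n + 1 := ⟨Nat.find hex - 1, by omega⟩
    rw [hn] at h3 h ⊢
    simp only [Nat.add_sub_cancel] at h3
    have h4 : ¬ (m ≤ X * 2 ^ n) := fun hc => h3 ⟨by omega, hc⟩
    rw [pow_succ]
    push Not at h4
    linarith
  · rw [← h]; linarith

lemma val_bound (D : ℕ) (r β c₁ c₂ : ℝ) (b₀ k₀ : ℕ) (hr : 0 < r) (hc₁ : 0 < c₁) (hc₂ : 0 < c₂)
    (Φ : ℕ → ℝ≥0∞)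
    (hΦ : ∀ b L : ℕ, b₀ ≤ b → D * 2 ^ b + k₀ ≤ L → ∀ m : ℕ,
      (m : ℝ) ≤ c₂ * (((2 : ℝ) ^ (b * D)) ^ 2 * 2 ^ L) →
      ENNReal.ofReal (c₁ * ((2 : ℝ) ^ (-(r * (D * (b + 1) + L + 1 : ℕ))) * ((2 : ℝ) ^ (b * D)) ^ β)) ≤ Φ m)
    (b : ℕ) (hb : b₀ ≤ b) (m : ℕ) (hm : c₂ * ((2 : ℝ) ^ (b * D)) ^ 2 * 2 ^ (D * 2 ^ b + k₀) ≤ m) :
    ENNReal.ofReal (c₁ * (c₂ / 2 ^ (D + 2)) ^ r * ((m : ℝ) ^ (-r) * ((2 : ℝ) ^ (b * D)) ^ (r + β))) ≤ Φ m := by
  obtain ⟨L, hL, h1, h2⟩ := exists_L (c₂ * ((2 : ℝ) ^ (b * D)) ^ 2) (by positivity) _ _ hm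
  refine le_trans (ENNReal.ofReal_le_ofReal ?_) (hΦ b L hb hL m (by linarith))
  have hm0 : (0 : ℝ) < m := lt_of_lt_of_le (by positivity) hm
  set N : ℝ := (2 : ℝ) ^ (b * D) with hN
  have hN0 : 0 < N := by positivity
  have h3 : (2 : ℝ) ^ (D * (b + 1) + L + 1) ≤ 2 ^ (D + 2) * m / (c₂ * N) := by
    rw [le_div_iff₀ (by positivity)]
    have e1 : (2 : ℝ) ^ (D * (b + 1) + L + 1) = 2 ^ D * N * 2 ^ L * 2 := by
      rw [hN, pow_succ, pow_add, mul_add, mul_one, pow_add, mul_comm D b]; ring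
    rw [e1, pow_add]
    calc 2 ^ D * N * 2 ^ L * 2 * (c₂ * N) = 2 ^ D * 2 * (c₂ * N ^ 2 * 2 ^ L) := by ring
      _ ≤ 2 ^ D * 2 * (2 * m) := by gcongr
      _ = _ := by ring
  have h4 : (c₂ / 2 ^ (D + 2)) ^ r * ((m : ℝ) ^ (-r) * N ^ r) ≤
      (2 : ℝ) ^ (-(r * (D * (b + 1) + L + 1 : ℕ))) := by
    have e2 : (2 : ℝ) ^ (-(r * (D * (b + 1) + L + 1 : ℕ))) = (((2 : ℝ) ^ (D * (b + 1) + L + 1))⁻¹) ^ r := by
      rw [← Real.rpow_natCast, ← Real.rpow_neg (by norm_num), ← Real.rpow_mul (by norm_num)]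
      congr 1; ring
    have e3 : (c₂ / 2 ^ (D + 2)) ^ r * ((m : ℝ) ^ (-r) * N ^ r) =
        ((2 ^ (D + 2) * m / (c₂ * N))⁻¹) ^ r := by
      rw [Real.rpow_neg hm0.le, ← Real.inv_rpow hm0.le, ← Real.mul_rpow (by positivity) (by positivity),
        ← Real.mul_rpow (by positivity) (by positivity)]
      congr 1
      field_simp
    rw [e2, e3]
    apply Real.rpow_le_rpow (by positivity) _ hr.le
    exact inv_anti₀ (by positivity) h3
  calc c₁ * (c₂ / 2 ^ (D + 2)) ^ r * ((m : ℝ) ^ (-r) * N ^ (r + β))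
      = c₁ * ((c₂ / 2 ^ (D + 2)) ^ r * ((m : ℝ) ^ (-r) * N ^ r) * N ^ β) := by
        rw [Real.rpow_add hN0]; ring
    _ ≤ c₁ * ((2 : ℝ) ^ (-(r * (D * (b + 1) + L + 1 : ℕ))) * N ^ β) := by gcongr

/-- choice of parameters -/
lemma choose_bL (D : ℕ) (r β c₁ c₂ : ℝ) (b₀ k₀ : ℕ) (hr : 0 < r) (hc₁ : 0 < c₁) (hc₂ : 0 < c₂)
    (Φ : ℕ → ℝ≥0∞) (hanti : ∀ m m', m ≤ m' → Φ m' ≤ Φ m)
    (hΦ : ∀ b L : ℕ, b₀ ≤ b → D * 2 ^ b + k₀ ≤ L → ∀ m : ℕ,
      (m : ℝ) ≤ c₂ * (((2 : ℝ) ^ (b * D)) ^ 2 * 2 ^ L) →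
      ENNReal.ofReal (c₁ * ((2 : ℝ) ^ (-(r * (D * (b + 1) + L + 1 : ℕ))) * ((2 : ℝ) ^ (b * D)) ^ β)) ≤ Φ m) :
    ∃ c : ℝ, 0 < c ∧ ∀ m : ℕ, 2 ≤ m →
      ENNReal.ofReal (c * ((m : ℝ) ^ (-r) * (Real.log m) ^ ((D : ℝ) * max 0 (r + β)))) ≤ Φ m := by
  set e : ℝ := (D : ℝ) * max 0 (r + β) with he
  have he0 : 0 ≤ e := by positivity
  have hval := val_bound D r β c₁ c₂ b₀ k₀ hr hc₁ hc₂ Φ hΦ
  set B : ℝ := c₁ * (c₂ / 2 ^ (D + 2)) ^ r with hB
  have hB0 : 0 < B := by positivity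
  -- large `m`
  have hlarge : ∃ (c' : ℝ) (m₀ : ℕ), 0 < c' ∧ ∀ m : ℕ, m₀ ≤ m →
      ENNReal.ofReal (c' * ((m : ℝ) ^ (-r) * (Real.log m) ^ e)) ≤ Φ m := by
    rcases le_or_gt (r + β) 0 with hrb | hrb
    · have he' : e = 0 := by rw [he, max_eq_left hrb, mul_zero]
      refine ⟨B * ((2 : ℝ) ^ (b₀ * D)) ^ (r + β),
        ⌈c₂ * ((2 : ℝ) ^ (b₀ * D)) ^ 2 * 2 ^ (D * 2 ^ b₀ + k₀)⌉₊, by positivity, fun m hm => ?_⟩
      have h1 : c₂ * ((2 : ℝ) ^ (b₀ * D)) ^ 2 * 2 ^ (D * 2 ^ b₀ + k₀) ≤ m :=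
        (Nat.le_ceil _).trans (by exact_mod_cast hm)
      refine le_trans (ENNReal.ofReal_le_ofReal (le_of_eq ?_)) (hval b₀ le_rfl m h1)
      rw [he', Real.rpow_zero]; ring
    · have he' : e = (D : ℝ) * (r + β) := by rw [he, max_eq_right hrb.le]
      have ev1 : ∀ᶠ m : ℕ in Filter.atTop, c₂ * 2 ^ k₀ ≤ (m : ℝ) ^ (1 / 2 : ℝ) :=
        ((tendsto_rpow_atTop (by norm_num : (0 : ℝ) < 1 / 2)).comp
          tendsto_natCast_atTop_atTop).eventually_ge_atTop _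
      have ev2 : ∀ᶠ m : ℕ in Filter.atTop, (2 : ℝ) ^ b₀ * (8 * ((D : ℝ) + 1)) ≤ Real.log m :=
        (Real.tendsto_log_atTop.comp tendsto_natCast_atTop_atTop).eventually_ge_atTop _
      obtain ⟨m₀, hm₀⟩ := Filter.eventually_atTop.1 (ev1.and (ev2.and (Filter.eventually_ge_atTop 2)))
      refine ⟨B * (1 / (16 * ((D : ℝ) + 1))) ^ e, m₀, by positivity, fun m hm => ?_⟩
      obtain ⟨h1, h2, h3⟩ := hm₀ m hm
      have hm0 : (0 : ℝ) < m := by exact_mod_cast (by omega : 0 < m)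
      have hm1 : (1 : ℝ) ≤ m := by exact_mod_cast (by omega : 1 ≤ m)
      set u : ℝ := Real.log m / (8 * ((D : ℝ) + 1)) with hu
      have hu1 : (2 : ℝ) ^ b₀ ≤ u := by rw [hu, le_div_iff₀ (by positivity)]; exact h2
      have hu0 : 0 < u := lt_of_lt_of_le (by positivity) hu1
      set x : ℕ := ⌊u⌋₊ with hx
      have hx1 : 2 ^ b₀ ≤ x := by
        rw [hx]; apply Nat.le_floor; push_cast; exact hu1
      have hx0 : x ≠ 0 := by
        have : 0 < 2 ^ b₀ := by positivity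
        omega
      set b : ℕ := Nat.log 2 x with hb
      have hb0 : b₀ ≤ b := Nat.le_log_of_pow_le (by norm_num) hx1
      have hb1 : (2 : ℝ) ^ b ≤ u := by
        have h5 : 2 ^ b ≤ x := Nat.pow_log_le_self 2 hx0
        have h6 : (x : ℝ) ≤ u := Nat.floor_le hu0.le
        have h7 : (2 : ℝ) ^ b ≤ x := by exact_mod_cast h5
        linarith
      have hb2 : u ≤ 2 * 2 ^ b := by
        have h5 : x < 2 ^ (b + 1) := Nat.lt_pow_succ_log_self (by norm_num) x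
        have h6 : u < x + 1 := Nat.lt_floor_add_one u
        have h7 : (x : ℝ) + 1 ≤ 2 ^ (b + 1) := by exact_mod_cast h5
        rw [pow_succ] at h7
        linarith
      have hcond : c₂ * ((2 : ℝ) ^ (b * D)) ^ 2 * 2 ^ (D * 2 ^ b + k₀) ≤ m := by
        have h5 : (2 : ℝ) ^ (b * D) ≤ 2 ^ (2 ^ b * D) := by
          apply pow_le_pow_right₀ (by norm_num)
          exact Nat.mul_le_mul_right D Nat.lt_two_pow_self.le
        have h6 : ((2 : ℝ) ^ (b * D)) ^ 2 * 2 ^ (D * 2 ^ b + k₀) ≤ 2 ^ k₀ * 2 ^ (3 * (D * 2 ^ b)) := by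
          calc ((2 : ℝ) ^ (b * D)) ^ 2 * 2 ^ (D * 2 ^ b + k₀)
              ≤ ((2 : ℝ) ^ (2 ^ b * D)) ^ 2 * 2 ^ (D * 2 ^ b + k₀) := by gcongr
            _ = 2 ^ k₀ * 2 ^ (3 * (D * 2 ^ b)) := by
              rw [← pow_mul, ← pow_add, ← pow_add]; congr 1; ring
        have h7 : (2 : ℝ) ^ (3 * (D * 2 ^ b)) ≤ (m : ℝ) ^ (1 / 2 : ℝ) := by
          rw [← Real.rpow_natCast, Real.rpow_def_of_pos (by norm_num), Real.rpow_def_of_pos hm0]
          apply Real.exp_le_exp.2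
          push_cast
          have hlog2 : Real.log 2 ≤ 1 := by
            have := Real.log_two_lt_d9; linarith
          have hlog20 : 0 ≤ Real.log 2 := Real.log_nonneg (by norm_num)
          have h8 : (D : ℝ) * 2 ^ b ≤ Real.log m / 8 := by
            calc (D : ℝ) * 2 ^ b ≤ D * u := by gcongr
              _ ≤ ((D : ℝ) + 1) * u := by gcongr; linarith
              _ = Real.log m / 8 := by rw [hu]; field_simp
          have h9 : 0 ≤ (D : ℝ) * 2 ^ b := by positivity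
          have h10 : 0 ≤ Real.log m := Real.log_nonneg hm1
          calc Real.log 2 * (3 * ((D : ℝ) * 2 ^ b)) ≤ 1 * (3 * ((D : ℝ) * 2 ^ b)) := by gcongr
            _ ≤ Real.log m * (1 / 2) := by linarith
        calc c₂ * ((2 : ℝ) ^ (b * D)) ^ 2 * 2 ^ (D * 2 ^ b + k₀)
            = c₂ * (((2 : ℝ) ^ (b * D)) ^ 2 * 2 ^ (D * 2 ^ b + k₀)) := by ring
          _ ≤ c₂ * (2 ^ k₀ * 2 ^ (3 * (D * 2 ^ b))) := by gcongr
          _ = (c₂ * 2 ^ k₀) * 2 ^ (3 * (D * 2 ^ b)) := by ring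
          _ ≤ (m : ℝ) ^ (1 / 2 : ℝ) * (m : ℝ) ^ (1 / 2 : ℝ) := by gcongr
          _ = m := by rw [← Real.rpow_add hm0]; norm_num
      refine le_trans (ENNReal.ofReal_le_ofReal ?_) (hval b hb0 m hcond)
      have h5 : (1 / (16 * ((D : ℝ) + 1))) ^ e * Real.log m ^ e ≤ ((2 : ℝ) ^ (b * D)) ^ (r + β) := by
        have hlog0 : 0 ≤ Real.log m := Real.log_nonneg hm1
        rw [← Real.mul_rpow (by positivity) hlog0, he']
        rw [show (2 : ℝ) ^ (b * D) = ((2 : ℝ) ^ b) ^ (D : ℝ) by rw [Real.rpow_natCast, ← pow_mul],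
          ← Real.rpow_mul (by positivity)]
        apply Real.rpow_le_rpow (by positivity) _ (by positivity)
        have : 1 / (16 * ((D : ℝ) + 1)) * Real.log m = u / 2 := by rw [hu]; field_simp; ring
        rw [this]; linarith
      calc B * (1 / (16 * ((D : ℝ) + 1))) ^ e * ((m : ℝ) ^ (-r) * Real.log m ^ e)
          = B * ((m : ℝ) ^ (-r) * ((1 / (16 * ((D : ℝ) + 1))) ^ e * Real.log m ^ e)) := by ring
        _ ≤ B * ((m : ℝ) ^ (-r) * ((2 : ℝ) ^ (b * D)) ^ (r + β)) := by gcongr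
  -- all `m`
  obtain ⟨c', m₀, hc', hm₀⟩ := hlarge
  set M : ℕ := max m₀ 3 with hM
  have hM3 : 3 ≤ M := le_max_right _ _
  have hMm : m₀ ≤ M := le_max_left _ _
  have hlogM : 0 < Real.log M := Real.log_pos (by exact_mod_cast (by omega : 1 < M))
  have hM0 : (0 : ℝ) < M := by exact_mod_cast (by omega : 0 < M)
  set K : ℝ := Real.log M ^ e with hK
  have hK0 : 0 < K := by positivity
  set c'' : ℝ := c' * ((M : ℝ) ^ (-r) * K) with hc''
  have hc''0 : 0 < c'' := by positivity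
  refine ⟨min c' (c'' / K), by positivity, fun m hm => ?_⟩
  rcases le_or_gt M m with h | h
  · refine le_trans (ENNReal.ofReal_le_ofReal ?_) (hm₀ m (hMm.trans h))
    have hm1 : (1 : ℝ) ≤ m := by exact_mod_cast (by omega : 1 ≤ m)
    have hlog0 : 0 ≤ Real.log m := Real.log_nonneg hm1
    gcongr
    exact min_le_left _ _
  · refine le_trans (ENNReal.ofReal_le_ofReal ?_) ((hm₀ M hMm).trans (hanti m M h.le))
    rw [← hK, ← hc'']
    have hm1 : (1 : ℝ) ≤ m := by exact_mod_cast (by omega : 1 ≤ m)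
    have hm0 : (0 : ℝ) < m := by linarith
    have hlog0 : 0 ≤ Real.log m := Real.log_nonneg hm1
    have h1 : (m : ℝ) ^ (-r) ≤ 1 := Real.rpow_le_one_of_one_le_of_nonpos hm1 (by linarith)
    have h2 : Real.log m ^ e ≤ K := by
      apply Real.rpow_le_rpow hlog0 _ he0
      exact Real.log_le_log hm0 (by exact_mod_cast h.le)
    calc min c' (c'' / K) * ((m : ℝ) ^ (-r) * Real.log m ^ e)
        ≤ (c'' / K) * (1 * K) := by
          gcongr
          exact min_le_right _ _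
      _ = c'' := by field_simp

/-- Lower bound for `H_q^r`: scale `lower_cont` (D = d-1) by `2^{-r(D(b+1)+L+1)} (2^{bD})^{1/q-1}`;
given large `m` choose `2^b ~ log m / (8 d)` and `L` minimal with `m ≤ c₂ 2^{2bD} 2^L`;
small `m` by monotonicity of `sigmaF` in `m`. -/
theorem lowerH (d : ℕ) (hd : 1 ≤ d) (p q r : ℝ) (hp : 1 < p ∨ (p = 1 ∧ d ≤ 2)) (hpq : p < q) (hq : q ≤ 2) (hr : 0 < r) :
    ∃ c : ℝ, 0 < c ∧ ∀ m : ℕ, 2 ≤ m →
      ENNReal.ofReal (c * ((m : ℝ) ^ (-r) * (Real.log m) ^ (((d : ℝ) - 1) * (r + 1 / q)))) ≤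
        sigmaC m p (classH d q r) := by
  have hp1 : 1 ≤ p := by
    rcases hp with h | h
    · exact h.le
    · exact h.1.ge
  obtain ⟨D, rfl⟩ : ∃ D, d = D + 1 := ⟨d - 1, by omega⟩
  have hq0 : 0 < q := by linarith
  obtain ⟨c₁, c₂, b₀, k₀, hc₁, hc₂, hex⟩ := lower_cont D p (hp.imp id (fun h => ⟨h.1, by omega⟩)) (by linarith)
  have key := choose_bL D r (1 / q) c₁ c₂ b₀ k₀ hr hc₁ hc₂ (fun m => sigmaC m p (classH (D + 1) q r))
    (fun m m' h => sigmaC_anti h p _) ?_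
  · obtain ⟨c, hc, h⟩ := key
    refine ⟨c, hc, fun m hm => ?_⟩
    have h1 := h m hm
    rw [max_eq_right (by positivity)] at h1
    have h2 : (((D + 1 : ℕ) : ℝ) - 1) = D := by push_cast; ring
    rw [h2]
    exact h1
  · intro b L hb hL m hm
    obtain ⟨f, S, hfc, _, hS, hS0, hn, hlow⟩ := hex b L hb hL
    set N : ℝ := (2 : ℝ) ^ (b * D) with hN
    have hN0 : 0 < N := by positivity
    set T : ℕ := D * (b + 1) + L + 1 with hT
    set l : ℝ := (2 : ℝ) ^ (-(r * (T : ℕ))) * N ^ (1 / q - 1) with hl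
    have hl0 : 0 < l := by positivity
    have hmem : (fun x => (l : ℂ) * f x) ∈ classH (D + 1) q r := by
      refine mem_classH q r f hfc S T hS hS0 (N ^ (1 - 1 / q)) (by positivity)
        (fun s => hn s q (by linarith) hq) l hl0 (le_of_eq ?_)
      rw [hl, ← mul_assoc, ← Real.rpow_add (by norm_num), mul_assoc, ← Real.rpow_add hN0]
      simp
    have h1 : ENNReal.ofReal (l * (c₁ * N)) ≤ sigmaF m p (fun x => (l : ℂ) * f x) := by
      refine le_trans ?_ (sigmaF_smul m p (l : ℂ) (by exact_mod_cast hl0.ne') f)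
      have h2 : ‖(l : ℂ)‖ₑ = ENNReal.ofReal l := by
        rw [← ofReal_norm]; simp [abs_of_pos hl0]
      rw [h2, ENNReal.ofReal_mul hl0.le]
      gcongr
      exact hlow m hm
    refine le_trans (ENNReal.ofReal_le_ofReal (le_of_eq ?_)) (h1.trans ?_)
    · rw [hl]
      calc c₁ * ((2 : ℝ) ^ (-(r * (T : ℕ))) * N ^ (1 / q))
          = (2 : ℝ) ^ (-(r * (T : ℕ))) * c₁ * N ^ ((1 / q - 1) + 1) := by
            rw [sub_add_cancel]; ring
        _ = (2 : ℝ) ^ (-(r * (T : ℕ))) * c₁ * (N ^ (1 / q - 1) * N) := by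
            rw [Real.rpow_add hN0, Real.rpow_one]
        _ = _ := by ring
    · unfold sigmaC
      exact le_iSup₂ (f := fun (g : UnitAddTorus (Fin (D + 1)) → ℂ) (_ : g ∈ classH (D + 1) q r) =>
        sigmaF m p g) _ hmem

/-- Lower bound for `B_{q,θ}^r`: scale by an additional `(2^{bD})^{-1/θ}`; and for the exponent `0`
use `b = b₀` fixed. -/
theorem lowerB (d : ℕ) (hd : 1 ≤ d) (p q r θ : ℝ) (hp : 1 < p ∨ (p = 1 ∧ d ≤ 2)) (hpq : p < q) (hq : q ≤ 2) (hr : 0 < r)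
    (hθ : 1 ≤ θ) :
    ∃ c : ℝ, 0 < c ∧ ∀ m : ℕ, 2 ≤ m →
      ENNReal.ofReal (c * ((m : ℝ) ^ (-r) *
          (Real.log m) ^ (((d : ℝ) - 1) * max 0 (r + 1 / q - 1 / θ)))) ≤
        sigmaC m p (classB d q θ r) := by
  have hp1 : 1 ≤ p := by
    rcases hp with h | h
    · exact h.le
    · exact h.1.ge
  obtain ⟨D, rfl⟩ : ∃ D, d = D + 1 := ⟨d - 1, by omega⟩
  have hq0 : 0 < q := by linarith
  obtain ⟨c₁, c₂, b₀, k₀, hc₁, hc₂, hex⟩ := lower_cont D p (hp.imp id (fun h => ⟨h.1, by omega⟩)) (by linarith)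
  have key := choose_bL D r (1 / q - 1 / θ) c₁ c₂ b₀ k₀ hr hc₁ hc₂
    (fun m => sigmaC m p (classB (D + 1) q θ r)) (fun m m' h => sigmaC_anti h p _) ?_
  · obtain ⟨c, hc, h⟩ := key
    refine ⟨c, hc, fun m hm => ?_⟩
    have h1 := h m hm
    have h2 : (((D + 1 : ℕ) : ℝ) - 1) = D := by push_cast; ring
    rw [h2, show r + 1 / q - 1 / θ = r + (1 / q - 1 / θ) by ring]
    exact h1
  · intro b L hb hL m hm
    obtain ⟨f, S, hfc, hcard, hS, hS0, hn, hlow⟩ := hex b L hb hL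
    set N : ℝ := (2 : ℝ) ^ (b * D) with hN
    have hN0 : 0 < N := by positivity
    have hcardN : (S.card : ℝ) ≤ N := by rw [hN]; exact_mod_cast hcard
    set T : ℕ := D * (b + 1) + L + 1 with hT
    set l : ℝ := (2 : ℝ) ^ (-(r * (T : ℕ))) * N ^ (1 / q - 1 - 1 / θ) with hl
    have hl0 : 0 < l := by positivity
    have hmem : (fun x => (l : ℂ) * f x) ∈ classB (D + 1) q θ r := by
      refine mem_classB q r θ hθ f hfc S T hS hS0 (N ^ (1 - 1 / q)) N (by positivity) hcardN hN0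
        (fun s => hn s q (by linarith) hq) l hl0 (le_of_eq ?_)
      rw [hl, ← mul_assoc, ← Real.rpow_add (by norm_num), mul_assoc, ← Real.rpow_add hN0]
      rw [show r * (T : ℝ) + -(r * (T : ℝ)) = 0 by ring, Real.rpow_zero, one_mul]
      congr 1; ring
    have h1 : ENNReal.ofReal (l * (c₁ * N)) ≤ sigmaF m p (fun x => (l : ℂ) * f x) := by
      refine le_trans ?_ (sigmaF_smul m p (l : ℂ) (by exact_mod_cast hl0.ne') f)
      have h2 : ‖(l : ℂ)‖ₑ = ENNReal.ofReal l := by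
        rw [← ofReal_norm]; simp [abs_of_pos hl0]
      rw [h2, ENNReal.ofReal_mul hl0.le]
      gcongr
      exact hlow m hm
    refine le_trans (ENNReal.ofReal_le_ofReal (le_of_eq ?_)) (h1.trans ?_)
    · rw [hl]
      calc c₁ * ((2 : ℝ) ^ (-(r * (T : ℕ))) * N ^ (1 / q - 1 / θ))
          = (2 : ℝ) ^ (-(r * (T : ℕ))) * c₁ * N ^ ((1 / q - 1 - 1 / θ) + 1) := by
            rw [show (1 / q - 1 - 1 / θ) + 1 = 1 / q - 1 / θ by ring]; ring
        _ = (2 : ℝ) ^ (-(r * (T : ℕ))) * c₁ * (N ^ (1 / q - 1 - 1 / θ) * N) := by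
            rw [Real.rpow_add hN0, Real.rpow_one]
        _ = _ := by ring
    · unfold sigmaC
      exact le_iSup₂ (f := fun (g : UnitAddTorus (Fin (D + 1)) → ℂ) (_ : g ∈ classB (D + 1) q θ r) =>
        sigmaF m p g) _ hmem

end

end Pool.Agent.H72.MT
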