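import Pool.Agent.H72.MT.Basic2

set_option autoImplicit false

namespace Pool.Agent.H72.MT

open Finset
open scoped BigOperators

noncomputable section

/-- kernel of the band projection to `(ω 2^k, (ω+1) 2^k)`, `k ≥ 1`. -/
def KK (k ω : ℕ) (t : ℝ) : ℂ :=
  ee (((ω * 2 ^ k + 2 ^ (k - 1) : ℕ) : ℝ) * t) * (Fej (2 ^ (k - 1)) t : ℂ)

/-- discrete band projection, sampled at `a / 2^k`. -/
def Ph (R k ω a : ℕ) (e : ℕ → ℂ) : ℂ :=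
  ((2 : ℂ) ^ R)⁻¹ * ∑ x ∈ range (2 ^ R), e x * KK k ω ((a : ℝ) / 2 ^ k - (x : ℝ) / 2 ^ R)

/-- frequencies of `KK k ω`. -/
def bandF (k ω : ℕ) : Finset ℤ := Ioo ((ω : ℤ) * 2 ^ k) (((ω : ℤ) + 1) * 2 ^ k)

/-- centre of the band. -/
def ctr (k ω : ℕ) : ℤ := (ω : ℤ) * 2 ^ k + 2 ^ (k - 1)

lemma KK_expand {k : ℕ} (hk : 1 ≤ k) (ω : ℕ) (t : ℝ) :
    KK k ω t = ∑ ξ ∈ bandF k ω, (tri (2 ^ (k - 1)) (ξ - ctr k ω) : ℂ) * ee (ξ * t) := by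
  unfold KK
  rw [Fej_expand (by positivity), Finset.mul_sum]
  have h2 : (2 : ℤ) ^ k = 2 * 2 ^ (k - 1) := by
    obtain ⟨j, rfl⟩ : ∃ j, k = j + 1 := ⟨k - 1, by omega⟩
    rw [pow_succ]; simp; ring
  refine Finset.sum_bij' (fun m _ => m + ctr k ω) (fun ξ _ => ξ - ctr k ω) ?_ ?_ ?_ ?_ ?_
  · intro m hm
    simp only [mem_Ioo, bandF, ctr] at hm ⊢
    push_cast at hm
    constructor
    · linarith [hm.1]
    · rw [add_mul, one_mul, h2] at *; linarith [hm.2]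
  · intro ξ hξ
    simp only [mem_Ioo, bandF, ctr] at hξ ⊢
    push_cast
    rw [add_mul, one_mul, h2] at hξ
    rw [h2]
    constructor
    · linarith [hξ.1]
    · linarith [hξ.2]
  · intro m _; ring
  · intro ξ _; ring
  · intro m _
    rw [show m + ctr k ω - ctr k ω = m by ring]
    rw [show (((m + ctr k ω : ℤ) : ℝ) * t) = (((ω * 2 ^ k + 2 ^ (k - 1) : ℕ) : ℝ) * t) + m * t by
      unfold ctr; push_cast; ring, ee_add]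
    ring

/-- discrete Fourier coefficient -/
def dft (R : ℕ) (e : ℕ → ℂ) (ξ : ℤ) : ℂ :=
  ((2 ^ R : ℕ) : ℂ)⁻¹ * ∑ x ∈ range (2 ^ R), e x * ee (-(ξ * ((x : ℝ) / (2 ^ R : ℕ))))

lemma Ph_eq {k : ℕ} (hk : 1 ≤ k) (R ω a : ℕ) (e : ℕ → ℂ) :
    Ph R k ω a e = ∑ ξ ∈ bandF k ω,
      ((tri (2 ^ (k - 1)) (ξ - ctr k ω) : ℂ) * dft R e ξ) * ee (ξ * ((a : ℝ) / (2 ^ k : ℕ))) := by
  unfold Ph dft
  simp_rw [KK_expand hk, Finset.mul_sum]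
  rw [Finset.sum_comm]
  apply Finset.sum_congr rfl
  intro ξ _
  rw [Finset.sum_mul]
  apply Finset.sum_congr rfl
  intro x _
  rw [show (ξ : ℝ) * ((a : ℝ) / 2 ^ k - (x : ℝ) / 2 ^ R) = -(ξ * ((x : ℝ) / (2 ^ R : ℕ))) + ξ * ((a : ℝ) / (2 ^ k : ℕ)) by
    push_cast; ring, ee_add]
  push_cast; ring

lemma bandF_residue {k ω : ℕ} : ∀ ξ ∈ bandF k ω, ∀ η ∈ bandF k ω,
    (((2 ^ k : ℕ) : ℤ)) ∣ ξ - η → ξ = η := by
  intro ξ hξ η hη hd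
  simp only [bandF, mem_Ioo] at hξ hη
  have h1 : |ξ - η| < ((2 ^ k : ℕ) : ℤ) := by
    rw [abs_lt]; push_cast
    constructor
    · nlinarith [hξ.1, hη.2]
    · nlinarith [hξ.2, hη.1]
  have := Int.eq_zero_of_abs_lt_dvd hd h1
  linarith

lemma Ph_grid_l2 {k : ℕ} (hk : 1 ≤ k) (R ω : ℕ) (e : ℕ → ℂ) :
    ((2 : ℝ) ^ k)⁻¹ * ∑ a ∈ range (2 ^ k), ‖Ph R k ω a e‖ ^ 2 ≤ ∑ ξ ∈ bandF k ω, ‖dft R e ξ‖ ^ 2 := by
  have h1 : ∑ a ∈ range (2 ^ k), ‖Ph R k ω a e‖ ^ 2 =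
      ((2 ^ k : ℕ) : ℝ) * ∑ ξ ∈ bandF k ω, ‖(tri (2 ^ (k - 1)) (ξ - ctr k ω) : ℂ) * dft R e ξ‖ ^ 2 := by
    rw [← grid_parseval (2 ^ k) (by positivity) (bandF k ω) bandF_residue _ 0]
    apply Finset.sum_congr rfl
    intro a _
    rw [Ph_eq hk]; simp
  rw [h1]
  push_cast
  rw [inv_mul_cancel_left₀ (by positivity)]
  apply Finset.sum_le_sum
  intro ξ _
  rw [norm_mul]
  have h3 : ‖(tri (2 ^ (k - 1)) (ξ - ctr k ω) : ℂ)‖ ≤ 1 := by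
    rw [Complex.norm_real, Real.norm_eq_abs, abs_of_nonneg (tri_nonneg _ _)]; exact tri_le_one _ _
  have h4 : ‖(tri (2 ^ (k - 1)) (ξ - ctr k ω) : ℂ)‖ * ‖dft R e ξ‖ ≤ ‖dft R e ξ‖ := by
    nlinarith [norm_nonneg (dft R e ξ)]
  gcongr

lemma bandF_disj {b : ℕ} {k ω k' ω' : ℕ} (hω : ω ∈ Ico (2 ^ b) (2 ^ (b + 1)))
    (hω' : ω' ∈ Ico (2 ^ b) (2 ^ (b + 1))) {ξ : ℤ} (h : ξ ∈ bandF k ω) (h' : ξ ∈ bandF k' ω') :
    k = k' ∧ ω = ω' := by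
  wlog hkk : k ≤ k' generalizing k k' ω ω'
  · have := this hω' hω h' h (by omega); exact ⟨this.1.symm, this.2.symm⟩
  simp only [bandF, mem_Ioo, mem_Ico] at *
  rcases Nat.lt_or_ge k k' with hlt | hge
  · exfalso
    have h1 : ((ω : ℤ) + 1) ≤ 2 ^ (b + 1) := by exact_mod_cast hω.2
    have h2 : ((2 : ℤ) ^ b) ≤ ω' := by exact_mod_cast hω'.1
    have h3 : ((ω : ℤ) + 1) * 2 ^ k ≤ 2 ^ (b + 1) * 2 ^ k := by gcongr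
    have h4 : ((2 : ℤ) ^ b) * 2 ^ k' ≤ ω' * 2 ^ k' := by gcongr
    have h5 : (2 : ℤ) ^ (b + 1) * 2 ^ k ≤ 2 ^ b * 2 ^ k' := by
      rw [← pow_add, ← pow_add]; exact pow_le_pow_right₀ (by norm_num) (by omega)
    linarith [h.2, h'.1]
  · have hk : k = k' := le_antisymm hkk hge
    subst hk
    refine ⟨rfl, ?_⟩
    have h2k : (0 : ℤ) < 2 ^ k := by positivity
    have a1 : (ω : ℤ) * 2 ^ k < ((ω' : ℤ) + 1) * 2 ^ k := lt_trans h.1 h'.2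
    have a2 : (ω' : ℤ) * 2 ^ k < ((ω : ℤ) + 1) * 2 ^ k := lt_trans h'.1 h.2
    have b1 := lt_of_mul_lt_mul_right a1 h2k.le
    have b2 := lt_of_mul_lt_mul_right a2 h2k.le
    omega

lemma bandF_sub {b R k ω : ℕ} (hR : 2 ^ b + b + 1 ≤ R) (hk : k ∈ Icc 1 (2 ^ b))
    (hω : ω ∈ Ico (2 ^ b) (2 ^ (b + 1))) : bandF k ω ⊆ Ico 0 ((2 ^ R : ℕ) : ℤ) := by
  intro ξ h
  simp only [bandF, mem_Ioo, mem_Ico, mem_Icc] at *
  constructor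
  · have : (0 : ℤ) ≤ (ω : ℤ) * 2 ^ k := by positivity
    linarith
  · have h1 : ((ω : ℤ) + 1) ≤ 2 ^ (b + 1) := by exact_mod_cast hω.2
    have h3 : ((ω : ℤ) + 1) * 2 ^ k ≤ 2 ^ (b + 1) * 2 ^ (2 ^ b) := by
      have : (2 : ℤ) ^ k ≤ 2 ^ (2 ^ b) := pow_le_pow_right₀ (by norm_num) hk.2
      gcongr
    have h5 : (2 : ℤ) ^ (b + 1) * 2 ^ (2 ^ b) ≤ 2 ^ R := by
      rw [← pow_add]; exact pow_le_pow_right₀ (by norm_num) (by omega)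
    push_cast
    linarith [h.2]

/-- (2,2) bound. -/
theorem Ph_l2 (b R : ℕ) (hR : 2 ^ b + b + 1 ≤ R) (e : ℕ → ℂ) :
    ∑ k ∈ Icc 1 (2 ^ b), ∑ ω ∈ Ico (2 ^ b) (2 ^ (b + 1)),
      ((2 : ℝ) ^ k)⁻¹ * ∑ a ∈ range (2 ^ k), ‖Ph R k ω a e‖ ^ 2 ≤
      ((2 : ℝ) ^ R)⁻¹ * ∑ x ∈ range (2 ^ R), ‖e x‖ ^ 2 := by
  calc ∑ k ∈ Icc 1 (2 ^ b), ∑ ω ∈ Ico (2 ^ b) (2 ^ (b + 1)),
      ((2 : ℝ) ^ k)⁻¹ * ∑ a ∈ range (2 ^ k), ‖Ph R k ω a e‖ ^ 2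
      ≤ ∑ k ∈ Icc 1 (2 ^ b), ∑ ω ∈ Ico (2 ^ b) (2 ^ (b + 1)), ∑ ξ ∈ bandF k ω, ‖dft R e ξ‖ ^ 2 := by
        apply Finset.sum_le_sum; intro k hk
        apply Finset.sum_le_sum; intro ω _
        exact Ph_grid_l2 (Finset.mem_Icc.1 hk).1 R ω e
    _ = ∑ p ∈ Icc 1 (2 ^ b) ×ˢ Ico (2 ^ b) (2 ^ (b + 1)), ∑ ξ ∈ bandF p.1 p.2, ‖dft R e ξ‖ ^ 2 := by
        rw [Finset.sum_product]
    _ = ∑ ξ ∈ (Icc 1 (2 ^ b) ×ˢ Ico (2 ^ b) (2 ^ (b + 1))).biUnion (fun p => bandF p.1 p.2),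
          ‖dft R e ξ‖ ^ 2 := by
        rw [Finset.sum_biUnion]
        intro p hp q hq hpq
        simp only [Function.onFun]
        rw [Finset.disjoint_left]
        intro ξ h1 h2
        apply hpq
        have hp' := Finset.mem_product.1 (Finset.mem_coe.1 hp)
        have hq' := Finset.mem_product.1 (Finset.mem_coe.1 hq)
        have := bandF_disj hp'.2 hq'.2 h1 h2
        exact Prod.ext this.1 this.2
    _ ≤ ∑ ξ ∈ Ico 0 ((2 ^ R : ℕ) : ℤ), ‖dft R e ξ‖ ^ 2 := by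
        apply Finset.sum_le_sum_of_subset_of_nonneg
        · intro ξ hξ
          obtain ⟨p, hp, hξp⟩ := Finset.mem_biUnion.1 hξ
          have hp' := Finset.mem_product.1 hp
          exact bandF_sub hR hp'.1 hp'.2 hξp
        · intro _ _ _; positivity
    _ ≤ (((2 ^ R : ℕ) : ℝ))⁻¹ * ∑ x ∈ range (2 ^ R), ‖e x‖ ^ 2 := by
        refine grid_bessel (2 ^ R) (by positivity) _ ?_ e
        intro ξ hξ η hη hd
        simp only [mem_Ico] at hξ hη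
        have h1 : |ξ - η| < ((2 ^ R : ℕ) : ℤ) := by
          rw [abs_lt]; constructor <;> linarith [hξ.1, hξ.2, hη.1, hη.2]
        have := Int.eq_zero_of_abs_lt_dvd hd h1
        linarith
    _ = ((2 : ℝ) ^ R)⁻¹ * ∑ x ∈ range (2 ^ R), ‖e x‖ ^ 2 := by push_cast; rfl

end

end Pool.Agent.H72.MT
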