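import Pool.Agent.H72.MT.Weak
import Pool.Agent.H72.MT.Marc

set_option autoImplicit false

namespace Pool.Agent.H72.MT

open Finset
open scoped BigOperators

noncomputable section

/-- targets of the one-dimensional operator: scale `k+1`, window `2^b + w`, sample point `a`. -/
abbrev YT (b : ℕ) : Type := (k : Fin (2 ^ b)) × (Fin (2 ^ b) × Fin (2 ^ ((k : ℕ) + 1)))

/-- weight of a target -/
def nuY {b : ℕ} (y : YT b) : ℝ := ((2 : ℝ) ^ ((y.1 : ℕ) + 1))⁻¹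

/-- kernel of the normalised one-dimensional operator. -/
def KR (b R : ℕ) (y : YT b) (x : Fin (2 ^ R)) : ℂ :=
  (((2 : ℂ) ^ R)⁻¹ * 2 ^ b) * KK ((y.1 : ℕ) + 1) (2 ^ b + (y.2.1 : ℕ))
    (((y.2.2 : ℕ) : ℝ) / 2 ^ ((y.1 : ℕ) + 1) - ((x : ℕ) : ℝ) / 2 ^ R)

/-- extension by zero -/
def ext0 {N : ℕ} (e : Fin N → ℂ) (x : ℕ) : ℂ := if h : x < N then e ⟨x, h⟩ else 0

lemma sum_ext0 {N : ℕ} (e : Fin N → ℂ) (g : ℂ → ℝ) :
    ∑ x ∈ range N, g (ext0 e x) = ∑ x : Fin N, g (e x) := by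
  rw [Finset.sum_range]
  apply Finset.sum_congr rfl
  intro x _
  simp [ext0]

lemma KR_sum (b R : ℕ) (y : YT b) (e : Fin (2 ^ R) → ℂ) :
    ∑ x, KR b R y x * e x = (2 : ℂ) ^ b * Ph R ((y.1 : ℕ) + 1) (2 ^ b + (y.2.1 : ℕ)) (y.2.2 : ℕ) (ext0 e) := by
  unfold Ph KR
  rw [Finset.sum_range, Finset.mul_sum, Finset.mul_sum]
  apply Finset.sum_congr rfl
  intro x _
  simp only [ext0, Fin.is_lt, dif_pos, Fin.eta]
  ring

lemma sum_YT (b : ℕ) (F : ℕ → ℕ → ℕ → ℝ) :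
    ∑ y : YT b, F ((y.1 : ℕ) + 1) (2 ^ b + (y.2.1 : ℕ)) (y.2.2 : ℕ) =
      ∑ k ∈ Icc 1 (2 ^ b), ∑ ω ∈ Ico (2 ^ b) (2 ^ (b + 1)), ∑ a ∈ range (2 ^ k), F k ω a := by
  rw [Fintype.sum_sigma]
  have h1 : Icc 1 (2 ^ b) = Ico 1 (2 ^ b + 1) := by ext; simp
  rw [h1, Finset.sum_Ico_eq_sum_range, Finset.sum_range]
  apply Finset.sum_congr rfl
  intro k _
  rw [Fintype.sum_prod_type, Finset.sum_Ico_eq_sum_range,
    show 2 ^ (b + 1) - 2 ^ b = 2 ^ b by rw [pow_succ]; omega, Finset.sum_range]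
  apply Finset.sum_congr rfl
  intro w _
  rw [Nat.add_comm 1 (k : ℕ), Finset.sum_range]

/-- strong `(p,p)` bound of the one-dimensional operator, constant independent of `b` and `R`. -/
theorem Ph_strong (p : ℝ) (hp : 1 < p) (hp2 : p < 2) : ∃ C : ℝ, 0 < C ∧ ∀ (b R : ℕ),
    2 ^ b + b + 1 ≤ R → ∀ e : Fin (2 ^ R) → ℂ,
    ∑ y : YT b, nuY y * ‖∑ x, KR b R y x * e x‖ ^ p ≤
      (C * ((2 : ℝ) ^ b) ^ 2) * ∑ x, ((2 : ℝ) ^ R)⁻¹ * ‖e x‖ ^ p := by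
  obtain ⟨Cw, hCw, hw⟩ := Ph_weak
  refine ⟨2 * Cw * p / (p - 1) + 4 * 1 * p / (2 - p), ?_, ?_⟩
  · have h1 : 0 < p - 1 := by linarith
    have h2 : 0 < 2 - p := by linarith
    positivity
  intro b R hR e
  have key := marcinkiewicz (ι := Fin (2 ^ R)) (κ := YT b) (fun _ => ((2 : ℝ) ^ R)⁻¹) nuY
    (fun _ => by positivity) (fun _ => by unfold nuY; positivity)
    (fun e y => ∑ x, KR b R y x * e x)
    (by intro f g; funext y; simp only [Pi.add_apply, mul_add, Finset.sum_add_distrib])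
    (Cw * ((2 : ℝ) ^ b) ^ 2) (((2 : ℝ) ^ b) ^ 2) (by positivity) (by positivity) ?_ ?_ p hp hp2 e
  · refine key.trans (le_of_eq ?_)
    ring
  · intro f α hα
    have := hw b R hR (ext0 f) α hα
    rw [sum_ext0 f (fun z => ‖z‖)] at this
    rw [← Finset.mul_sum]
    refine le_trans (le_of_eq ?_) this
    congr 1
    have h2 : ∀ y : YT b, (if α < ‖∑ x, KR b R y x * f x‖ then nuY y else 0) =
        (fun k ω a => if α < ‖(2 : ℂ) ^ b * Ph R k ω a (ext0 f)‖ then ((2 : ℝ) ^ k)⁻¹ else 0)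
          ((y.1 : ℕ) + 1) (2 ^ b + (y.2.1 : ℕ)) (y.2.2 : ℕ) := by
      intro y
      simp only [KR_sum, nuY]
    refine (Finset.sum_congr rfl (fun y _ => h2 y)).trans ((sum_YT b (fun k ω a =>
      if α < ‖(2 : ℂ) ^ b * Ph R k ω a (ext0 f)‖ then ((2 : ℝ) ^ k)⁻¹ else 0)).trans ?_)
    apply Finset.sum_congr rfl; intro k _
    apply Finset.sum_congr rfl; intro ω _
    rw [← Finset.sum_filter, Finset.sum_const, nsmul_eq_mul, mul_comm]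
  · intro f
    have := Ph_l2 b R hR (ext0 f)
    rw [sum_ext0 f (fun z => ‖z‖ ^ 2)] at this
    rw [← Finset.mul_sum]
    have h2 : ∀ y : YT b, nuY y * ‖∑ x, KR b R y x * f x‖ ^ 2 =
        (fun k ω a => ((2 : ℝ) ^ b) ^ 2 * (((2 : ℝ) ^ k)⁻¹ * ‖Ph R k ω a (ext0 f)‖ ^ 2))
          ((y.1 : ℕ) + 1) (2 ^ b + (y.2.1 : ℕ)) (y.2.2 : ℕ) := by
      intro y
      simp only [KR_sum, nuY, norm_mul, norm_pow, Complex.norm_ofNat]
      ring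
    refine (le_of_eq ((Finset.sum_congr rfl (fun y _ => h2 y)).trans (sum_YT b (fun k ω a =>
      ((2 : ℝ) ^ b) ^ 2 * (((2 : ℝ) ^ k)⁻¹ * ‖Ph R k ω a (ext0 f)‖ ^ 2))))).trans ?_
    have h3 : ∑ k ∈ Icc 1 (2 ^ b), ∑ ω ∈ Ico (2 ^ b) (2 ^ (b + 1)), ∑ a ∈ range (2 ^ k),
        ((2 : ℝ) ^ b) ^ 2 * (((2 : ℝ) ^ k)⁻¹ * ‖Ph R k ω a (ext0 f)‖ ^ 2) =
        ((2 : ℝ) ^ b) ^ 2 * ∑ k ∈ Icc 1 (2 ^ b), ∑ ω ∈ Ico (2 ^ b) (2 ^ (b + 1)),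
          ((2 : ℝ) ^ k)⁻¹ * ∑ a ∈ range (2 ^ k), ‖Ph R k ω a (ext0 f)‖ ^ 2 := by
      simp_rw [Finset.mul_sum]
    rw [h3]
    gcongr

end

end Pool.Agent.H72.MT
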