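import Pool.Agent.H72.MT.UpperH

set_option autoImplicit false

namespace Pool.Agent.H72.MT

open Finset MeasureTheory
open scoped BigOperators ENNReal

noncomputable section

/-- the weighted block norm -/
def ubB {d : ℕ} (q r : ℝ) (f : UnitAddTorus (Fin d) → ℂ) (s : Fin d → ℕ) : ℝ≥0∞ :=
  ENNReal.ofReal ((2 : ℝ) ^ (r * ∑ j, (s j : ℝ))) * nrm q (delta s f)

lemma ub_nrm_eq {d : ℕ} (q r : ℝ) (f : UnitAddTorus (Fin d) → ℂ) (s : Fin d → ℕ) :
    nrm q (delta s f) = ENNReal.ofReal ((2 : ℝ) ^ (-(r * ∑ j, (s j : ℝ)))) * ubB q r f s := by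
  unfold ubB
  rw [← mul_assoc, ← ENNReal.ofReal_mul (by positivity), ← Real.rpow_add (by norm_num)]
  simp

lemma ub_nrm_pow {d : ℕ} {q : ℝ} (hq : 0 < q) (r : ℝ) (f : UnitAddTorus (Fin d) → ℂ)
    (s : Fin d → ℕ) :
    nrm q (delta s f) ^ q =
      ENNReal.ofReal ((2 : ℝ) ^ (-(r * q * ∑ j, (s j : ℝ)))) * ubB q r f s ^ q := by
  rw [ub_nrm_eq q r f s, ENNReal.mul_rpow_of_nonneg _ _ hq.le,
    ENNReal.ofReal_rpow_of_nonneg (by positivity) hq.le, ← Real.rpow_mul (by norm_num)]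
  congr 3; ring

lemma ub_finish {q r E B0 : ℝ} {m n : ℕ} (hq : 0 < q) (hE : 0 ≤ E) (hB0 : 0 ≤ B0) (hm : 2 ≤ m)
    (hn : (n : ℝ) + 1 ≤ 4 * Real.log m) {x : ℝ≥0∞}
    (hx : x ^ q ≤ ENNReal.ofReal (B0 * ((m : ℝ) ^ (-r) * ((n : ℝ) + 1) ^ E) ^ q)) :
    x ≤ ENNReal.ofReal (B0 ^ (1 / q) * 4 ^ E * ((m : ℝ) ^ (-r) * (Real.log m) ^ E)) := by
  have hlogm : 0 < Real.log m := Real.log_pos (by exact_mod_cast (by omega : 1 < m))
  have hn0 : (0 : ℝ) < (n : ℝ) + 1 := by positivity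
  have h1 : x ≤ ENNReal.ofReal ((B0 * ((m : ℝ) ^ (-r) * ((n : ℝ) + 1) ^ E) ^ q) ^ (1 / q)) := by
    rw [← ENNReal.ofReal_rpow_of_nonneg (by positivity) (by positivity), one_div]
    rw [ENNReal.le_rpow_inv_iff hq]
    exact hx
  refine h1.trans (ENNReal.ofReal_le_ofReal ?_)
  rw [Real.mul_rpow hB0 (by positivity), ← Real.rpow_mul (by positivity), mul_one_div,
    div_self hq.ne', Real.rpow_one]
  have e4 : ((n : ℝ) + 1) ^ E ≤ 4 ^ E * Real.log m ^ E := by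
    rw [← Real.mul_rpow (by norm_num) hlogm.le]
    exact Real.rpow_le_rpow hn0.le hn hE
  calc B0 ^ (1 / q) * ((m : ℝ) ^ (-r) * ((n : ℝ) + 1) ^ E)
      ≤ B0 ^ (1 / q) * ((m : ℝ) ^ (-r) * (4 ^ E * Real.log m ^ E)) := by gcongr
    _ = _ := by ring

lemma ub_hyp_zero (d : ℕ) : ((hyp d 0).biUnion (fun s => rho s)).card = 0 := by
  have : hyp d 0 = ∅ := by
    unfold hyp
    rw [Finset.filter_eq_empty_iff]
    intro s _; omega
  rw [this]; simp

/-- level for half of the budget -/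
lemma ub_level (d : ℕ) (hd : 1 ≤ d) : ∃ K : ℝ, 1 ≤ K ∧ ∀ m : ℕ, 2 ≤ m → ∃ n : ℕ,
    2 * ((hyp d n).biUnion (fun s => rho s)).card ≤ m ∧
      ((2 : ℝ) ^ n)⁻¹ ≤ K * ((n : ℝ) + 1) ^ (d - 1) / m ∧ (n : ℝ) + 1 ≤ 4 * Real.log m := by
  classical
  obtain ⟨C₀, hC₀, hcard⟩ := card_hyp d hd
  set C₁ := max 1 C₀ with hC₁
  have hC₁1 : 1 ≤ C₁ := le_max_left _ _
  have hC₁0 : C₀ ≤ C₁ := le_max_right _ _
  have hcard' : ∀ n : ℕ, 1 ≤ n → (((hyp d n).biUnion (fun s => rho s)).card : ℝ) ≤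
      C₁ * 2 ^ n * (n : ℝ) ^ (d - 1) := by
    intro n hn
    refine (hcard n hn).trans ?_
    gcongr
  refine ⟨8 * C₁, by linarith, ?_⟩
  intro m hm
  have hm0 : (0 : ℝ) < m := by exact_mod_cast (by omega : 0 < m)
  have hlog2 : (1 / 2 : ℝ) < Real.log 2 := by have := Real.log_two_gt_d9; linarith
  have hlogm : Real.log 2 ≤ Real.log m :=
    Real.log_le_log (by norm_num) (by exact_mod_cast hm)
  by_cases h4 : m < 4
  · refine ⟨0, ?_, ?_, ?_⟩
    · rw [ub_hyp_zero]; omega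
    · have h3 : (m : ℝ) ≤ 3 := by exact_mod_cast (by omega : m ≤ 3)
      simp only [pow_zero, inv_one, Nat.cast_zero, zero_add, one_pow, mul_one]
      rw [le_div_iff₀ hm0]; linarith
    · push_cast; linarith
  · push Not at h4
    obtain ⟨n, hn1, hn2, hn3⟩ := exists_level d C₁ hC₁1 hcard' (ub_hyp_zero d) (m / 2) (by omega)
    refine ⟨n, by omega, ?_, ?_⟩
    · have h5 : (m : ℝ) ≤ 4 * ((m / 2 : ℕ) : ℝ) := by
        have : m ≤ 4 * (m / 2) := by omega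
        exact_mod_cast this
      rw [inv_eq_one_div, div_le_div_iff₀ (by positivity) hm0]
      rw [pow_succ] at hn2
      nlinarith [hn2]
    · refine hn3.trans ?_
      have h6 : ((m / 2 : ℕ) : ℝ) ≤ m := by exact_mod_cast Nat.div_le_self m 2
      have h7 : (0 : ℝ) < ((m / 2 : ℕ) : ℝ) := by exact_mod_cast (by omega : 0 < m / 2)
      have := Real.log_le_log h7 h6
      linarith

lemma ub_card_le {d : ℕ} {A : Finset (Fin d → ℕ)} :
    ((A.biUnion (fun s => rho s)).card : ℝ) ≤ ∑ s ∈ A, (2 : ℝ) ^ d * 2 ^ (∑ j, s j) := by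
  classical
  have h1 : (A.biUnion (fun s => rho s)).card ≤ ∑ s ∈ A, (rho s).card := Finset.card_biUnion_le
  have h2 : ∑ s ∈ A, (rho s).card ≤ ∑ s ∈ A, 2 ^ d * 2 ^ (∑ j, s j) :=
    Finset.sum_le_sum (fun s _ => card_rho_le s)
  exact_mod_cast h1.trans h2

/-- pointwise estimate, real numbers -/
lemma ub_point {D : ℕ} {q r θ : ℝ} (hq : 0 < q) (hr : 0 < r) (hθ : 0 < θ) (hθq : θ ≤ q)
    {K : ℝ} (hK : 1 ≤ K) {m n : ℕ} (hm : 0 < m)
    (hn : ((2 : ℝ) ^ n)⁻¹ ≤ K * ((n : ℝ) + 1) ^ D / m)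
    {a y M G : ℝ} (hG : 1 ≤ G) (hM : (m : ℝ) = G * M)
    (ha0 : 0 ≤ a) (ha1 : a ≤ 1) (hy : (2 : ℝ) ^ n ≤ y) (hthr : y ≤ M → a ^ θ ≤ y / M) :
    y ^ (-(r * q)) * a ^ q ≤
      ((G * K) ^ (q / θ + r * q)) *
        ((m : ℝ) ^ (-r) * ((n : ℝ) + 1) ^ ((D : ℝ) * max 0 (r + 1 / q - 1 / θ))) ^ q * a ^ θ := by
  have hm0 : (0 : ℝ) < m := by exact_mod_cast hm
  have hG0 : 0 < G := by linarith
  have hK0 : 0 < K := by linarith
  have hM0 : 0 < M := by
    by_contra h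
    push Not at h
    nlinarith
  have hy0 : 0 < y := lt_of_lt_of_le (by positivity) hy
  have hn0 : (0 : ℝ) < (n : ℝ) + 1 := by positivity
  have hn1 : (1 : ℝ) ≤ (n : ℝ) + 1 := by
    have : (0 : ℝ) ≤ n := Nat.cast_nonneg n
    linarith
  have hqθ : 1 ≤ q / θ := by rw [le_div_iff₀ hθ]; linarith
  have hGK : 1 ≤ G * K := by nlinarith
  set e0 : ℝ := max 0 (r + 1 / q - 1 / θ) with he0
  have he00 : 0 ≤ e0 := le_max_left _ _
  have hRHS : ((m : ℝ) ^ (-r) * ((n : ℝ) + 1) ^ ((D : ℝ) * e0)) ^ q =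
      (m : ℝ) ^ (-(r * q)) * ((n : ℝ) + 1) ^ ((D : ℝ) * (e0 * q)) := by
    rw [Real.mul_rpow (by positivity) (by positivity), ← Real.rpow_mul hm0.le, ← Real.rpow_mul hn0.le]
    congr 2 <;> ring
  rw [hRHS]
  rcases eq_or_lt_of_le ha0 with h0 | ha
  · rw [← h0, Real.zero_rpow hq.ne', Real.zero_rpow hθ.ne']; simp
  have hW : (1 : ℝ) ≤ ((n : ℝ) + 1) ^ ((D : ℝ) * (e0 * q)) :=
    Real.one_le_rpow hn1 (by positivity)
  have hMpow : M ^ (-(r * q)) = G ^ (r * q) * (m : ℝ) ^ (-(r * q)) := by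
    rw [hM, Real.mul_rpow hG0.le hM0.le, ← mul_assoc, ← Real.rpow_add hG0]
    simp
  have hGle : G ^ (r * q) ≤ (G * K) ^ (q / θ + r * q) := by
    calc G ^ (r * q) ≤ (G * K) ^ (r * q) :=
          Real.rpow_le_rpow hG0.le (by nlinarith) (by positivity)
      _ ≤ (G * K) ^ (q / θ + r * q) := Real.rpow_le_rpow_of_exponent_le hGK (by linarith)
  -- bound by `a ^ θ * M ^ (-(r q))` is enough
  have hfin : y ^ (-(r * q)) * a ^ q ≤ a ^ θ * M ^ (-(r * q)) →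
      y ^ (-(r * q)) * a ^ q ≤ ((G * K) ^ (q / θ + r * q)) *
        ((m : ℝ) ^ (-(r * q)) * ((n : ℝ) + 1) ^ ((D : ℝ) * (e0 * q))) * a ^ θ := by
    intro h
    refine h.trans ?_
    rw [hMpow]
    calc a ^ θ * (G ^ (r * q) * (m : ℝ) ^ (-(r * q)))
        ≤ a ^ θ * ((G * K) ^ (q / θ + r * q) * ((m : ℝ) ^ (-(r * q)) * 1)) := by
          rw [mul_one]; gcongr
      _ ≤ a ^ θ * ((G * K) ^ (q / θ + r * q) * ((m : ℝ) ^ (-(r * q)) *
            ((n : ℝ) + 1) ^ ((D : ℝ) * (e0 * q)))) := by gcongr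
      _ = _ := by ring
  rcases le_or_gt y M with hyM | hyM
  · have h1 := hthr hyM
    have haq : a ^ q ≤ a ^ θ * (y / M) ^ (q / θ - 1) := by
      have : a ^ q = a ^ θ * (a ^ θ) ^ (q / θ - 1) := by
        rw [← Real.rpow_mul ha.le, ← Real.rpow_add ha]
        congr 1; field_simp; ring
      rw [this]
      gcongr
    have h2 : y ^ (-(r * q)) * a ^ q ≤ a ^ θ * (M ^ (-(q / θ - 1)) * y ^ (q / θ - 1 - r * q)) := by
      calc y ^ (-(r * q)) * a ^ q ≤ y ^ (-(r * q)) * (a ^ θ * (y / M) ^ (q / θ - 1)) := by gcongr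
        _ = _ := by
          rw [Real.div_rpow hy0.le hM0.le, Real.rpow_neg hM0.le,
            show q / θ - 1 - r * q = -(r * q) + (q / θ - 1) by ring, Real.rpow_add hy0]
          rw [div_eq_mul_inv]; ring
    rcases le_or_gt 0 (q / θ - 1 - r * q) with hκ | hκ
    · apply hfin
      refine h2.trans ?_
      gcongr
      calc M ^ (-(q / θ - 1)) * y ^ (q / θ - 1 - r * q)
          ≤ M ^ (-(q / θ - 1)) * M ^ (q / θ - 1 - r * q) := by gcongr
        _ = M ^ (-(r * q)) := by rw [← Real.rpow_add hM0]; congr 1; ring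
    · refine h2.trans ?_
      have he : e0 * q = -(q / θ - 1 - r * q) := by
        have h3 : r + 1 / q - 1 / θ = -(q / θ - 1 - r * q) / q := by field_simp; ring
        have h4 : 0 ≤ r + 1 / q - 1 / θ := by rw [h3]; apply div_nonneg (by linarith) hq.le
        rw [he0, max_eq_right h4, h3]; field_simp
      have h5 : y ^ (q / θ - 1 - r * q) ≤
          (K * ((n : ℝ) + 1) ^ D / m) ^ (e0 * q) := by
        calc y ^ (q / θ - 1 - r * q) ≤ ((2 : ℝ) ^ n) ^ (q / θ - 1 - r * q) :=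
              Real.rpow_le_rpow_of_nonpos (by positivity) hy hκ.le
          _ = (((2 : ℝ) ^ n)⁻¹) ^ (e0 * q) := by
              rw [he, Real.inv_rpow (by positivity), ← Real.rpow_neg (by positivity), neg_neg]
          _ ≤ _ := Real.rpow_le_rpow (by positivity) hn (by positivity)
      have h6 : (K * ((n : ℝ) + 1) ^ D / m) ^ (e0 * q) =
          K ^ (e0 * q) * ((n : ℝ) + 1) ^ ((D : ℝ) * (e0 * q)) * (m : ℝ) ^ (-(e0 * q)) := by
        rw [Real.div_rpow (by positivity) hm0.le, Real.mul_rpow hK0.le (by positivity),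
          Real.rpow_neg hm0.le, ← Real.rpow_natCast, ← Real.rpow_mul hn0.le, div_eq_mul_inv]
      have h7 : M ^ (-(q / θ - 1)) = G ^ (q / θ - 1) * (m : ℝ) ^ (-(q / θ - 1)) := by
        rw [hM, Real.mul_rpow hG0.le hM0.le, ← mul_assoc, ← Real.rpow_add hG0]
        simp
      have h8 : G ^ (q / θ - 1) * K ^ (e0 * q) ≤ (G * K) ^ (q / θ + r * q) := by
        rw [Real.mul_rpow hG0.le hK0.le]
        have e1 : G ^ (q / θ - 1) ≤ G ^ (q / θ + r * q) :=
          Real.rpow_le_rpow_of_exponent_le hG (by nlinarith)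
        have e2 : K ^ (e0 * q) ≤ K ^ (q / θ + r * q) :=
          Real.rpow_le_rpow_of_exponent_le hK (by rw [he]; linarith)
        gcongr
      calc a ^ θ * (M ^ (-(q / θ - 1)) * y ^ (q / θ - 1 - r * q))
          ≤ a ^ θ * (M ^ (-(q / θ - 1)) * (K ^ (e0 * q) * ((n : ℝ) + 1) ^ ((D : ℝ) * (e0 * q)) *
              (m : ℝ) ^ (-(e0 * q)))) := by
            rw [← h6]; gcongr
        _ = (G ^ (q / θ - 1) * K ^ (e0 * q)) * (((m : ℝ) ^ (-(q / θ - 1)) * (m : ℝ) ^ (-(e0 * q))) *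
              ((n : ℝ) + 1) ^ ((D : ℝ) * (e0 * q))) * a ^ θ := by rw [h7]; ring
        _ = (G ^ (q / θ - 1) * K ^ (e0 * q)) * ((m : ℝ) ^ (-(r * q)) *
              ((n : ℝ) + 1) ^ ((D : ℝ) * (e0 * q))) * a ^ θ := by
            rw [← Real.rpow_add hm0]
            congr 4
            rw [he]; ring
        _ ≤ _ := by gcongr
  · apply hfin
    have h1 : y ^ (-(r * q)) ≤ M ^ (-(r * q)) :=
      Real.rpow_le_rpow_of_nonpos hM0 hyM.le (by nlinarith [mul_pos hr hq])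
    have h2 : a ^ q ≤ a ^ θ := Real.rpow_le_rpow_of_exponent_ge ha ha1 hθq
    calc y ^ (-(r * q)) * a ^ q ≤ M ^ (-(r * q)) * a ^ θ := by gcongr
      _ = _ := by ring


lemma ub_holder {ι : Type*} (f g : ι → ℝ≥0∞) {p q : ℝ} (hp : 0 ≤ p) (hq : 0 ≤ q)
    (hpq : p + q = 1) : ∑' i, f i ^ p * g i ^ q ≤ (∑' i, f i) ^ p * (∑' i, g i) ^ q := by
  let _ : MeasurableSpace ι := ⊤
  have h := ENNReal.lintegral_mul_norm_pow_le (μ := (Measure.count : Measure ι)) (f := f) (g := g)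
    measurable_from_top.aemeasurable measurable_from_top.aemeasurable hp hq hpq
  simpa only [lintegral_count] using h

lemma ub_pow_sum {d : ℕ} (s : Fin d → ℕ) (c : ℝ) :
    (2 : ℝ) ^ (-(c * ∑ j, (s j : ℝ))) = ((2 : ℝ) ^ (∑ j, s j)) ^ (-c) := by
  rw [← Real.rpow_natCast, ← Real.rpow_mul (by norm_num)]
  congr 1
  push_cast
  ring

lemma upperB_lt (d : ℕ) (hd : 1 ≤ d) (q r θ : ℝ) (hq1 : 1 < q) (hq : q ≤ 2) (hr : 0 < r)
    (hθ : q < θ) :
    ∃ C : ℝ, 0 < C ∧ ∀ m : ℕ, 2 ≤ m →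
      sigmaC m q (classB d q θ r) ≤
        ENNReal.ofReal (C * ((m : ℝ) ^ (-r) *
          (Real.log m) ^ (((d : ℝ) - 1) * max 0 (r + 1 / q - 1 / θ)))) := by
  classical
  have hq0 : 0 < q := by linarith
  have hθ0 : 0 < θ := by linarith
  set t : ℝ := 1 - q / θ with ht
  have hqθ : q / θ < 1 := by rw [div_lt_one hθ0]; exact hθ
  have hqθ0 : 0 < q / θ := by positivity
  have ht0 : 0 < t := by rw [ht]; linarith
  obtain ⟨K, hK, hlev⟩ := ub_level d hd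
  obtain ⟨C₂, hC₂, htail⟩ := tail_sum' d hd (r * q / t) (by positivity)
  obtain ⟨C₃, hC₃, hT⟩ := tail_bound d q hq1 hq
  have he0 : 0 ≤ r + 1 / q - 1 / θ := by
    have : 1 / θ ≤ 1 / q := one_div_le_one_div_of_le hq0 hθ.le
    linarith
  rw [max_eq_right he0]
  set E : ℝ := ((d : ℝ) - 1) * (r + 1 / q - 1 / θ) with hE
  have hd1 : (0 : ℝ) ≤ (d : ℝ) - 1 := by
    have : (1 : ℝ) ≤ d := by exact_mod_cast hd
    linarith
  have hE0 : 0 ≤ E := by positivity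
  set B0 : ℝ := C₃ * (C₂ ^ t * K ^ (r * q)) with hB0
  refine ⟨B0 ^ (1 / q) * 4 ^ E, by positivity, ?_⟩
  intro m hm
  obtain ⟨n, hn1, hn2, hn3⟩ := hlev m hm
  have hm0 : (0 : ℝ) < m := by exact_mod_cast (by omega : 0 < m)
  have hn0 : (0 : ℝ) < (n : ℝ) + 1 := by positivity
  unfold sigmaC
  refine iSup₂_le (fun f hf => ?_)
  refine (sigmaF_le_blocks q f (hyp d n) (by omega)).trans ?_
  apply ub_finish hq0 hE0 (by positivity) hm hn3
  refine (hT f hf.1 (hyp d n)).trans ?_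
  have hsum : ∑' s, ubB q r f s ^ θ ≤ 1 := hf.2
  have h1 : ∑' s : {s : Fin d → ℕ // s ∉ hyp d n}, nrm q (delta (s : Fin d → ℕ) f) ^ q ≤
      ENNReal.ofReal ((C₂ * (2 : ℝ) ^ (-(r * q / t * n)) * ((n : ℝ) + 1) ^ (d - 1)) ^ t) := by
    calc ∑' s : {s : Fin d → ℕ // s ∉ hyp d n}, nrm q (delta (s : Fin d → ℕ) f) ^ q
        = ∑' s : {s : Fin d → ℕ // s ∉ hyp d n}, (ubB q r f (s : Fin d → ℕ) ^ θ) ^ (q / θ) *
            (ENNReal.ofReal ((2 : ℝ) ^ (-(r * q / t * ∑ j, ((s : Fin d → ℕ) j : ℝ))))) ^ t := by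
          refine tsum_congr (fun s => ?_)
          rw [ub_nrm_pow hq0, ← ENNReal.rpow_mul, mul_div_cancel₀ _ hθ0.ne', mul_comm,
            ENNReal.ofReal_rpow_of_nonneg (by positivity) ht0.le, ← Real.rpow_mul (by norm_num)]
          congr 3
          field_simp
      _ ≤ (∑' s : {s : Fin d → ℕ // s ∉ hyp d n}, ubB q r f (s : Fin d → ℕ) ^ θ) ^ (q / θ) *
          (∑' s : {s : Fin d → ℕ // s ∉ hyp d n},
            ENNReal.ofReal ((2 : ℝ) ^ (-(r * q / t * ∑ j, ((s : Fin d → ℕ) j : ℝ))))) ^ t :=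
          ub_holder _ _ hqθ0.le ht0.le (by rw [ht]; ring)
      _ ≤ 1 * (ENNReal.ofReal (C₂ * (2 : ℝ) ^ (-(r * q / t * n)) * ((n : ℝ) + 1) ^ (d - 1))) ^ t := by
          gcongr
          · have h2 : ∑' s : {s : Fin d → ℕ // s ∉ hyp d n}, ubB q r f (s : Fin d → ℕ) ^ θ ≤ 1 :=
              (ENNReal.tsum_comp_le_tsum_of_injective Subtype.val_injective
                (fun s => ubB q r f s ^ θ)).trans hsum
            calc _ ≤ (1 : ℝ≥0∞) ^ (q / θ) := by gcongr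
              _ = 1 := ENNReal.one_rpow _
          · exact htail n
      _ = _ := by rw [one_mul, ENNReal.ofReal_rpow_of_nonneg (by positivity) ht0.le]
  refine (mul_le_mul_right h1 _).trans ?_
  rw [← ENNReal.ofReal_mul hC₃.le]
  apply ENNReal.ofReal_le_ofReal
  have e1 : (C₂ * (2 : ℝ) ^ (-(r * q / t * n)) * ((n : ℝ) + 1) ^ (d - 1)) ^ t =
      C₂ ^ t * (((2 : ℝ) ^ n)⁻¹) ^ (r * q) * ((n : ℝ) + 1) ^ (((d : ℝ) - 1) * t) := by
    rw [Real.mul_rpow (by positivity) (by positivity), Real.mul_rpow (by positivity) (by positivity)]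
    congr 1
    · congr 1
      rw [← Real.rpow_mul (by norm_num), ← Real.rpow_natCast 2 n, ← Real.rpow_neg (by norm_num),
        ← Real.rpow_mul (by norm_num)]
      congr 1
      field_simp
    · rw [← Real.rpow_natCast ((n : ℝ) + 1) (d - 1), ← Real.rpow_mul hn0.le]
      congr 1
      rw [Nat.cast_sub hd]; push_cast; ring
  have e3 : (((2 : ℝ) ^ n)⁻¹) ^ (r * q) ≤
      K ^ (r * q) * ((n : ℝ) + 1) ^ (((d : ℝ) - 1) * (r * q)) * (m : ℝ) ^ (-(r * q)) := by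
    calc (((2 : ℝ) ^ n)⁻¹) ^ (r * q) ≤ (K * ((n : ℝ) + 1) ^ (d - 1) / m) ^ (r * q) := by
          apply Real.rpow_le_rpow (by positivity) hn2 (by positivity)
      _ = _ := by
          rw [Real.div_rpow (by positivity) hm0.le, Real.mul_rpow (by positivity) (by positivity),
            Real.rpow_neg hm0.le, div_eq_mul_inv, ← Real.rpow_natCast ((n : ℝ) + 1) (d - 1),
            ← Real.rpow_mul hn0.le, Nat.cast_sub hd]
          push_cast; ring
  have e5 : ((m : ℝ) ^ (-r) * ((n : ℝ) + 1) ^ E) ^ q =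
      (m : ℝ) ^ (-(r * q)) * (((n : ℝ) + 1) ^ (((d : ℝ) - 1) * (r * q)) *
        ((n : ℝ) + 1) ^ (((d : ℝ) - 1) * t)) := by
    rw [Real.mul_rpow (by positivity) (by positivity), ← Real.rpow_mul hm0.le,
      ← Real.rpow_mul hn0.le, ← Real.rpow_add hn0]
    congr 2
    · ring
    · rw [hE, ht]; field_simp; ring
  rw [e1, e5]
  calc C₃ * (C₂ ^ t * (((2 : ℝ) ^ n)⁻¹) ^ (r * q) * ((n : ℝ) + 1) ^ (((d : ℝ) - 1) * t))
      ≤ C₃ * (C₂ ^ t * (K ^ (r * q) * ((n : ℝ) + 1) ^ (((d : ℝ) - 1) * (r * q)) *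
          (m : ℝ) ^ (-(r * q))) * ((n : ℝ) + 1) ^ (((d : ℝ) - 1) * t)) := by gcongr
    _ = _ := by rw [hB0]; ring

lemma upperB_le (d : ℕ) (hd : 1 ≤ d) (q r θ : ℝ) (hq1 : 1 < q) (hq : q ≤ 2) (hr : 0 < r)
    (hθ1 : 1 ≤ θ) (hθ : θ ≤ q) :
    ∃ C : ℝ, 0 < C ∧ ∀ m : ℕ, 2 ≤ m →
      sigmaC m q (classB d q θ r) ≤
        ENNReal.ofReal (C * ((m : ℝ) ^ (-r) *
          (Real.log m) ^ (((d : ℝ) - 1) * max 0 (r + 1 / q - 1 / θ)))) := by
  classical
  have hq0 : 0 < q := by linarith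
  have hθ0 : 0 < θ := by linarith
  obtain ⟨K, hK, hlev⟩ := ub_level d hd
  obtain ⟨C₃, hC₃, hT⟩ := tail_bound d q hq1 hq
  set e0 : ℝ := max 0 (r + 1 / q - 1 / θ) with he0
  have he00 : 0 ≤ e0 := le_max_left _ _
  have hd1 : ((d : ℝ) - 1) = ((d - 1 : ℕ) : ℝ) := by rw [Nat.cast_sub hd]; simp
  set E : ℝ := ((d : ℝ) - 1) * e0 with hE
  have hE0 : 0 ≤ E := by rw [hE, hd1]; positivity
  set G : ℝ := 2 ^ (d + 1) with hG
  have hG1 : 1 ≤ G := one_le_pow₀ (by norm_num)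
  have hG0 : 0 < G := by positivity
  set B0 : ℝ := C₃ * (G * K) ^ (q / θ + r * q) with hB0
  refine ⟨B0 ^ (1 / q) * 4 ^ E, by positivity, ?_⟩
  intro m hm
  obtain ⟨n, hn1, hn2, hn3⟩ := hlev m hm
  have hm0 : (0 : ℝ) < m := by exact_mod_cast (by omega : 0 < m)
  unfold sigmaC
  refine iSup₂_le (fun f hf => ?_)
  have hsum : ∑' s, ubB q r f s ^ θ ≤ 1 := hf.2
  have hb1 : ∀ s, ubB q r f s ≤ 1 := by
    intro s
    by_contra hc
    push Not at hc
    have h1 : (1 : ℝ≥0∞) < ubB q r f s ^ θ := ENNReal.one_lt_rpow hc hθ0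
    exact absurd ((ENNReal.le_tsum s).trans hsum) (not_le.2 h1)
  set a : (Fin d → ℕ) → ℝ := fun s => (ubB q r f s).toReal with ha
  have hab : ∀ s, ubB q r f s = ENNReal.ofReal (a s) := fun s =>
    (ENNReal.ofReal_toReal (ne_top_of_le_ne_top ENNReal.one_ne_top (hb1 s))).symm
  have ha0 : ∀ s, 0 ≤ a s := fun s => ENNReal.toReal_nonneg
  have ha1 : ∀ s, a s ≤ 1 := by
    intro s
    have h1 := hb1 s
    rw [hab s] at h1
    exact ENNReal.ofReal_le_one.1 h1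
  have hsumA : ∀ A : Finset (Fin d → ℕ), ∑ s ∈ A, a s ^ θ ≤ 1 := by
    intro A
    have h1 : ENNReal.ofReal (∑ s ∈ A, a s ^ θ) ≤ 1 := by
      rw [ENNReal.ofReal_sum_of_nonneg (fun s _ => Real.rpow_nonneg (ha0 s) _)]
      calc ∑ s ∈ A, ENNReal.ofReal (a s ^ θ) = ∑ s ∈ A, ubB q r f s ^ θ := by
            refine Finset.sum_congr rfl (fun s _ => ?_)
            rw [hab s, ENNReal.ofReal_rpow_of_nonneg (ha0 s) hθ0.le]
        _ ≤ ∑' s, ubB q r f s ^ θ := ENNReal.sum_le_tsum A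
        _ ≤ 1 := hsum
    exact ENNReal.ofReal_le_one.1 h1
  set M : ℝ := m / G with hM
  have hMG : (m : ℝ) = G * M := by rw [hM]; field_simp
  have hM0 : 0 < M := by positivity
  set A : Finset (Fin d → ℕ) :=
    (hyp d (Nat.log 2 m + 1)).filter (fun s => (2 : ℝ) ^ (∑ j, s j) ≤ M * a s ^ θ) with hA
  set F : Finset (Fin d → ℕ) := hyp d n ∪ A with hF
  have hcardF : (F.biUnion (fun s => rho s)).card ≤ m := by
    have h1 : (F.biUnion (fun s => rho s)).card ≤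
        ((hyp d n).biUnion (fun s => rho s)).card + (A.biUnion (fun s => rho s)).card := by
      rw [hF, Finset.union_biUnion]
      exact Finset.card_union_le _ _
    have h2 : ((A.biUnion (fun s => rho s)).card : ℝ) ≤ m / 2 := by
      refine (ub_card_le (A := A)).trans ?_
      calc ∑ s ∈ A, (2 : ℝ) ^ d * 2 ^ (∑ j, s j) ≤ ∑ s ∈ A, (2 : ℝ) ^ d * (M * a s ^ θ) := by
            refine Finset.sum_le_sum (fun s hs => ?_)
            rw [hA, Finset.mem_filter] at hs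
            gcongr
            exact hs.2
        _ = 2 ^ d * M * ∑ s ∈ A, a s ^ θ := by rw [Finset.mul_sum]; simp only [mul_assoc]
        _ ≤ 2 ^ d * M * 1 := by gcongr; exact hsumA A
        _ = m / 2 := by rw [hM, hG, pow_succ]; field_simp
    have h3 : (2 * ((hyp d n).biUnion (fun s => rho s)).card : ℝ) ≤ m := by exact_mod_cast hn1
    have h4 : ((F.biUnion (fun s => rho s)).card : ℝ) ≤
        ((hyp d n).biUnion (fun s => rho s)).card + (A.biUnion (fun s => rho s)).card := by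
      exact_mod_cast h1
    have h5 : ((F.biUnion (fun s => rho s)).card : ℝ) ≤ m := by linarith
    exact_mod_cast h5
  refine (sigmaF_le_blocks q f F hcardF).trans ?_
  apply ub_finish hq0 hE0 (by positivity) hm hn3
  refine (hT f hf.1 F).trans ?_
  set B1 : ℝ := ((G * K) ^ (q / θ + r * q)) * ((m : ℝ) ^ (-r) * ((n : ℝ) + 1) ^ E) ^ q with hB1
  have hB10 : 0 ≤ B1 := by positivity
  have hpt : ∀ s : {s : Fin d → ℕ // s ∉ F}, nrm q (delta (s : Fin d → ℕ) f) ^ q ≤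
      ENNReal.ofReal B1 * ubB q r f (s : Fin d → ℕ) ^ θ := by
    rintro ⟨s, hs⟩
    simp only
    rw [ub_nrm_pow hq0, hab s, ENNReal.ofReal_rpow_of_nonneg (ha0 s) hq0.le,
      ENNReal.ofReal_rpow_of_nonneg (ha0 s) hθ0.le, ← ENNReal.ofReal_mul (by positivity),
      ← ENNReal.ofReal_mul hB10]
    apply ENNReal.ofReal_le_ofReal
    rw [ub_pow_sum]
    rw [hF, Finset.mem_union, not_or] at hs
    have hns : n ≤ ∑ j, s j := by
      rcases Nat.eq_zero_or_pos n with h0 | h0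
      · omega
      · exact not_lt.1 (fun h => hs.1 ((mem_hyp h0 s).2 h))
    have hthr : (2 : ℝ) ^ (∑ j, s j) ≤ M → a s ^ θ ≤ (2 : ℝ) ^ (∑ j, s j) / M := by
      intro hyM
      by_contra hc
      push Not at hc
      apply hs.2
      rw [hA, Finset.mem_filter]
      constructor
      · rw [mem_hyp (by omega)]
        have h1 : (2 : ℝ) ^ (∑ j, s j) ≤ m := by
          refine hyM.trans ?_
          rw [hM]
          exact div_le_self hm0.le hG1
        have h2 : 2 ^ (∑ j, s j) ≤ m := by exact_mod_cast h1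
        have h3 := Nat.le_log_of_pow_le (by norm_num) h2
        omega
      · rw [div_lt_iff₀ hM0] at hc
        linarith
    have h := ub_point (D := d - 1) hq0 hr hθ0 hθ hK (by omega : 0 < m) hn2 hG1 hMG (ha0 s) (ha1 s)
      (y := (2 : ℝ) ^ (∑ j, s j)) (pow_le_pow_right₀ (by norm_num) hns) hthr
    rw [hB1, hE, hd1]
    exact h
  calc ENNReal.ofReal C₃ * ∑' s : {s : Fin d → ℕ // s ∉ F}, nrm q (delta (s : Fin d → ℕ) f) ^ q
      ≤ ENNReal.ofReal C₃ * ∑' s : {s : Fin d → ℕ // s ∉ F},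
          ENNReal.ofReal B1 * ubB q r f (s : Fin d → ℕ) ^ θ := by
        gcongr with s
        exact hpt s
    _ = ENNReal.ofReal C₃ * (ENNReal.ofReal B1 *
          ∑' s : {s : Fin d → ℕ // s ∉ F}, ubB q r f (s : Fin d → ℕ) ^ θ) := by
        rw [ENNReal.tsum_mul_left]
    _ ≤ ENNReal.ofReal C₃ * (ENNReal.ofReal B1 * 1) := by
        gcongr
        exact (ENNReal.tsum_comp_le_tsum_of_injective Subtype.val_injective
          (fun s => ubB q r f s ^ θ)).trans hsum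
    _ = _ := by
        rw [mul_one, ← ENNReal.ofReal_mul hC₃.le, hB0, hB1]
        congr 1; ring

/-- Upper bound for `B_{q,θ}^r`. `θ > q`: hyperbolic cross + Hölder in `s`.
`θ ≤ q`: keep all blocks with `|s|_1 < n` and the blocks with `2^{|s|} ≤ M a_s^θ`,
`a_s = 2^{r|s|} ‖δ_s f‖_q`; error in `L_q` by `tail_bound`. -/
theorem upperB (d : ℕ) (hd : 1 ≤ d) (q r θ : ℝ) (hq1 : 1 < q) (hq : q ≤ 2) (hr : 0 < r) (hθ : 1 ≤ θ) :
    ∃ C : ℝ, 0 < C ∧ ∀ m : ℕ, 2 ≤ m →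
      sigmaC m q (classB d q θ r) ≤
        ENNReal.ofReal (C * ((m : ℝ) ^ (-r) *
          (Real.log m) ^ (((d : ℝ) - 1) * max 0 (r + 1 / q - 1 / θ)))) := by
  rcases le_or_gt θ q with h | h
  · exact upperB_le d hd q r θ hq1 hq hr hθ h
  · exact upperB_lt d hd q r θ hq1 hq hr h

end

end Pool.Agent.H72.MT
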