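import Pool.Agent.H72.MT.Op

/-!
Weak (1,1) bound of the one-dimensional operator `Ph` (discrete Calderón–Zygmund argument), helper93.
Auxiliary lemmas live in the namespace `Pool.Agent.H72.MT.Wk`.
-/

set_option autoImplicit false

namespace Pool.Agent.H72.MT

open Finset
open scoped BigOperators

noncomputable section

namespace Wk

/-! ### distance to the nearest integer and `ee` -/

lemma norm_one_sub_ee (t : ℝ) : ‖1 - ee t‖ = 2 * |Real.sin (Real.pi * t)| := by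
  have h1 : 1 - ee t = -(2 * Complex.I) * (Real.sin (Real.pi * t) : ℂ) * ee (t / 2) := by
    have h2 : ee t = ee (t / 2) * ee (t / 2) := by rw [← ee_add]; congr 1; ring
    have h3 : ee (-(t / 2)) * ee (t / 2) = 1 := by rw [← ee_add]; simp [ee_zero]
    have h4 : (Real.sin (Real.pi * t) : ℂ) = (ee (-(t / 2)) - ee (t / 2)) * Complex.I / 2 := by
      rw [Complex.ofReal_sin, Complex.sin]
      unfold ee
      congr 2
      congr 1
      · congr 1; push_cast; ring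
      · congr 1; push_cast; ring
    rw [h4, h2]
    have h5 : Complex.I * Complex.I = -1 := Complex.I_mul_I
    linear_combination (-(1:ℂ)) * h3 + ((ee (-(t / 2)) - ee (t / 2)) * ee (t / 2)) * h5
  rw [h1, norm_mul, norm_mul, norm_ee, norm_neg, norm_mul, Complex.norm_I, Complex.norm_real]
  simp

lemma norm_one_sub_ee_le (t : ℝ) : ‖1 - ee t‖ ≤ 2 * Real.pi * |t| := by
  rw [norm_one_sub_ee]
  have h1 : |Real.sin (Real.pi * t)| ≤ |Real.pi * t| := Real.abs_sin_le_abs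
  rw [abs_mul, abs_of_pos Real.pi_pos] at h1
  linarith

lemma dZ_nonneg (t : ℝ) : 0 ≤ dZ t := abs_nonneg _

lemma dZ_le_half (t : ℝ) : dZ t ≤ 1 / 2 := abs_sub_round t

lemma dZ_le_abs_sub (t : ℝ) (m : ℤ) : dZ t ≤ |t - m| := round_le t m

lemma dZ_add_le (s t : ℝ) : dZ (s + t) ≤ dZ s + |t| := by
  have h := dZ_le_abs_sub (s + t) (round s)
  have h2 : s + t - (round s : ℝ) = (s - round s) + t := by ring
  rw [h2] at h
  exact h.trans (abs_add_le _ _)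

lemma dZ_le_add (s t : ℝ) : dZ s ≤ dZ t + |s - t| := by
  have := dZ_add_le t (s - t)
  rwa [show t + (s - t) = s by ring] at this

lemma four_dZ_le (t : ℝ) : 4 * dZ t ≤ ‖1 - ee t‖ := by
  have h1 : ee t = ee (t - round t) := by
    have := ee_add_int (t - round t) (round t)
    rw [← this]; congr 1; ring
  rw [h1, norm_one_sub_ee]
  set s := t - (round t : ℝ) with hs
  have hs2 : |s| ≤ 1 / 2 := abs_sub_round t
  have h3 : dZ t = |s| := rfl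
  rw [h3]
  have h4 : |Real.sin (Real.pi * s)| = Real.sin (Real.pi * |s|) := by
    rcases le_total 0 s with h | h
    · rw [abs_of_nonneg h, abs_of_nonneg]
      apply Real.sin_nonneg_of_nonneg_of_le_pi
      · positivity
      · rw [abs_of_nonneg h] at hs2; nlinarith [Real.pi_pos]
    · rw [abs_of_nonpos h, mul_neg, Real.sin_neg, abs_of_nonpos]
      have : 0 ≤ Real.sin (Real.pi * -s) := by
        apply Real.sin_nonneg_of_nonneg_of_le_pi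
        · nlinarith [Real.pi_pos]
        · rw [abs_of_nonpos h] at hs2; nlinarith [Real.pi_pos]
      rw [mul_neg, Real.sin_neg] at this
      linarith
  rw [h4]
  have h5 := Real.mul_le_sin (x := Real.pi * |s|) (by positivity) (by nlinarith [Real.pi_pos])
  have h6 : 2 / Real.pi * (Real.pi * |s|) = 2 * |s| := by
    field_simp
  linarith

/-- Dirichlet sum. -/
def Dir (h : ℕ) (t : ℝ) : ℂ := ∑ j ∈ range h, ee (j * t)

lemma Fej_eq (h : ℕ) (t : ℝ) : Fej h t = ‖Dir h t‖ ^ 2 / h := rfl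

lemma Dir_mul (h : ℕ) (t : ℝ) : Dir h t * (ee t - 1) = ee (h * t) - 1 := by
  unfold Dir
  simp_rw [ee_mul_nat]
  exact geom_sum_mul _ _

lemma norm_Dir_le (h : ℕ) (t : ℝ) : ‖Dir h t‖ * (4 * dZ t) ≤ 2 := by
  have h1 : ‖Dir h t‖ * ‖ee t - 1‖ ≤ 2 := by
    rw [← norm_mul, Dir_mul]
    calc ‖ee (h * t) - 1‖ ≤ ‖ee (h * t)‖ + ‖(1 : ℂ)‖ := norm_sub_le _ _
      _ = 2 := by rw [norm_ee]; norm_num
  have h2 := four_dZ_le t
  rw [norm_sub_rev] at h2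
  nlinarith [norm_nonneg (Dir h t)]

/-- pointwise decay of the Fejér kernel -/
lemma Fej_le {h : ℕ} (hh : 0 < h) (t : ℝ) (ht : 0 < dZ t) : Fej h t ≤ 1 / (4 * h * dZ t ^ 2) := by
  have h1 := norm_Dir_le h t
  have h2 : (0 : ℝ) < h := by exact_mod_cast hh
  rw [Fej_eq, div_le_div_iff₀ h2 (by positivity)]
  have h3 : (‖Dir h t‖ * (4 * dZ t)) ^ 2 ≤ 4 := by
    have : 0 ≤ ‖Dir h t‖ * (4 * dZ t) := by positivity
    nlinarith
  nlinarith

/-! ### counting and tail sums on the grid -/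

/-- signed position of the grid point `a / N` relative to `y`, in units of `1/N`. -/
def phiZ (N : ℕ) (y : ℝ) (a : ℕ) : ℤ := (a : ℤ) - N * round ((a : ℝ) / N - y)

lemma phiZ_inj (N : ℕ) (y : ℝ) : Set.InjOn (phiZ N y) (range N) := by
  intro a ha b hb hab
  simp only [coe_range, Set.mem_Iio] at ha hb
  unfold phiZ at hab
  have h1 : (a : ℤ) % N = (b : ℤ) % N := by
    have : (a : ℤ) - b = N * (round ((a : ℝ) / N - y) - round ((b : ℝ) / N - y)) := by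
      linarith
    exact (Int.emod_emod_of_dvd _ (dvd_refl _)).symm.trans (by
      rw [Int.emod_emod_of_dvd _ (dvd_refl _)]
      exact Int.emod_eq_emod_iff_emod_sub_eq_zero.2 (by rw [this]; simp))
  rw [Int.emod_eq_of_lt (by omega) (by omega), Int.emod_eq_of_lt (by omega) (by omega)] at h1
  exact_mod_cast h1

lemma phiZ_dist {N : ℕ} (hN : 0 < N) (y : ℝ) (a : ℕ) :
    |(phiZ N y a : ℝ) - N * y| = N * dZ ((a : ℝ) / N - y) := by
  have h2 : (0 : ℝ) < N := by exact_mod_cast hN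
  unfold phiZ dZ
  have : (((a : ℤ) - N * round ((a : ℝ) / N - y) : ℤ) : ℝ) - N * y =
      N * ((a : ℝ) / N - y - round ((a : ℝ) / N - y)) := by
    push_cast; field_simp; ring
  rw [this, abs_mul, abs_of_pos h2]

/-- number of grid points near `y` -/
lemma grid_count {N : ℕ} (hN : 0 < N) (y ρ : ℝ) (hρ : 0 ≤ ρ) :
    (#((range N).filter (fun a : ℕ => dZ ((a : ℝ) / N - y) ≤ ρ)) : ℝ) ≤ 2 * ρ * N + 1 := by
  have h2 : (0 : ℝ) < N := by exact_mod_cast hN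
  have h1 : #((range N).filter (fun a : ℕ => dZ ((a : ℝ) / N - y) ≤ ρ)) ≤ #(Icc ⌈N * y - N * ρ⌉ ⌊N * y + N * ρ⌋) := by
    apply Finset.card_le_card_of_injOn (phiZ N y)
    · intro a ha
      simp only [coe_filter, Set.mem_setOf_eq, mem_range] at ha
      simp only [coe_Icc, Set.mem_Icc, Int.ceil_le, Int.le_floor]
      have h3 := phiZ_dist hN y a
      have h4 : |(phiZ N y a : ℝ) - N * y| ≤ N * ρ := by
        rw [h3]; exact mul_le_mul_of_nonneg_left ha.2 h2.le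
      rw [abs_le] at h4
      constructor <;> linarith [h4.1, h4.2]
    · intro a ha b hb hab
      simp only [coe_filter, Set.mem_setOf_eq] at ha hb
      exact phiZ_inj N y (by simpa using ha.1) (by simpa using hb.1) hab
  have h5 : (#(Icc ⌈N * y - N * ρ⌉ ⌊N * y + N * ρ⌋) : ℝ) ≤ 2 * ρ * N + 1 := by
    rw [Int.card_Icc]
    have h6 : (⌊N * y + N * ρ⌋ : ℝ) ≤ N * y + N * ρ := Int.floor_le _
    have h7 : N * y - N * ρ ≤ (⌈N * y - N * ρ⌉ : ℝ) := Int.le_ceil _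
    rcases le_total 0 (⌊N * y + N * ρ⌋ + 1 - ⌈N * y - N * ρ⌉) with h | h
    · have h8 : (((⌊N * y + N * ρ⌋ + 1 - ⌈N * y - N * ρ⌉).toNat : ℕ) : ℝ) =
        (⌊N * y + N * ρ⌋ : ℝ) + 1 - ⌈N * y - N * ρ⌉ := by
        have : (((⌊N * y + N * ρ⌋ + 1 - ⌈N * y - N * ρ⌉).toNat : ℤ) : ℝ) =
          ((⌊N * y + N * ρ⌋ + 1 - ⌈N * y - N * ρ⌉ : ℤ) : ℝ) := by rw [Int.toNat_of_nonneg h]
        push_cast at this
        exact this
      rw [h8]; linarith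
    · rw [Int.toNat_of_nonpos h]
      have : 0 ≤ ρ * N := by positivity
      push_cast
      linarith
  have h1' : (#((range N).filter (fun a : ℕ => dZ ((a : ℝ) / N - y) ≤ ρ)) : ℝ) ≤
    (#(Icc ⌈N * y - N * ρ⌉ ⌊N * y + N * ρ⌋) : ℝ) := by exact_mod_cast h1
  exact h1'.trans h5

/-- tail of `∑ 1/s²` over integers to the right -/
lemma tail_right (z D : ℝ) (hD : 1 ≤ D) (S : Finset ℤ) (hS : ∀ u ∈ S, D ≤ (u : ℝ) - z) :
    ∑ u ∈ S, 1 / ((u : ℝ) - z) ^ 2 ≤ 2 / D := by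
  -- map `u` to `u - u0`, `u0 = ⌈z + D⌉`
  set u0 : ℤ := ⌈z + D⌉ with hu0
  have hu0' : z + D ≤ (u0 : ℝ) := Int.le_ceil _
  have hge : ∀ u ∈ S, u0 ≤ u := by
    intro u hu
    apply Int.ceil_le.2
    linarith [hS u hu]
  obtain ⟨K, hK⟩ : ∃ K : ℕ, ∀ u ∈ S, (u - u0).toNat < K := by
    refine ⟨(S.sup fun u => (u - u0).toNat) + 1, fun u hu => ?_⟩
    exact Nat.lt_succ_of_le (Finset.le_sup (f := fun u => (u - u0).toNat) hu)
  have h1 : ∑ u ∈ S, 1 / ((u : ℝ) - z) ^ 2 ≤ ∑ n ∈ range K, 1 / (((u0 : ℝ) + n) - z) ^ 2 := by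
    have : ∑ u ∈ S, 1 / ((u : ℝ) - z) ^ 2 =
        ∑ n ∈ S.image (fun u => (u - u0).toNat), 1 / (((u0 : ℝ) + n) - z) ^ 2 := by
      rw [Finset.sum_image]
      · apply Finset.sum_congr rfl
        intro u hu
        have h2 : (((u - u0).toNat : ℤ) : ℝ) = ((u - u0 : ℤ) : ℝ) := by
          rw [Int.toNat_of_nonneg (by linarith [hge u hu])]
        push_cast at h2
        rw [h2]; ring_nf
      · intro u hu v hv huv
        have := hge u hu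
        have := hge v hv
        simp only at huv
        omega
    rw [this]
    apply Finset.sum_le_sum_of_subset_of_nonneg
    · intro n hn
      obtain ⟨u, hu, rfl⟩ := Finset.mem_image.1 hn
      exact Finset.mem_range.2 (hK u hu)
    · intro _ _ _; positivity
  refine h1.trans ?_
  have h3 : ∀ K : ℕ, ∑ n ∈ range K, 1 / (((u0 : ℝ) + n) - z) ^ 2 ≤
      1 / ((u0 : ℝ) - z - 1 / 2) - 1 / ((u0 : ℝ) + K - z - 1 / 2) := by
    intro K
    induction K with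
    | zero => simp
    | succ K ih =>
      rw [Finset.sum_range_succ]
      have hK0 : (0 : ℝ) ≤ K := Nat.cast_nonneg K
      have hs : 1 ≤ (u0 : ℝ) + K - z := by linarith
      set s := (u0 : ℝ) + K - z with hs'
      have h4 : 1 / s ^ 2 ≤ 1 / (s - 1 / 2) - 1 / (s + 1 / 2) := by
        rw [div_sub_div _ _ (by linarith) (by linarith), div_le_div_iff₀ (by positivity)]
        · nlinarith
        · have : 0 < s - 1 / 2 := by linarith
          positivity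
      have h5 : (u0 : ℝ) + ((K + 1 : ℕ) : ℝ) - z - 1 / 2 = s + 1 / 2 := by push_cast; rw [hs']; ring
      rw [h5]
      linarith
  refine (h3 K).trans ?_
  have hK0 : (0 : ℝ) ≤ K := Nat.cast_nonneg K
  have h6 : 0 ≤ 1 / ((u0 : ℝ) + K - z - 1 / 2) := by
    apply div_nonneg zero_le_one; linarith
  have h7 : 1 / ((u0 : ℝ) - z - 1 / 2) ≤ 2 / D := by
    rw [div_le_div_iff₀ (by linarith) (by linarith)]; linarith
  linarith

lemma tail_both (z D : ℝ) (hD : 1 ≤ D) (S : Finset ℤ) (hS : ∀ u ∈ S, D ≤ |(u : ℝ) - z|) :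
    ∑ u ∈ S, 1 / ((u : ℝ) - z) ^ 2 ≤ 4 / D := by
  rw [← Finset.sum_filter_add_sum_filter_not S (fun u : ℤ => z ≤ (u : ℝ))]
  have h1 := tail_right z D hD (S.filter (fun u : ℤ => z ≤ (u : ℝ))) (by
    intro u hu
    rw [mem_filter] at hu
    have := hS u hu.1
    rwa [abs_of_nonneg (by linarith [hu.2])] at this)
  have h2 := tail_right (-z) D hD ((S.filter (fun u : ℤ => ¬ z ≤ (u : ℝ))).image (fun u => -u)) (by
    intro u hu
    obtain ⟨v, hv, rfl⟩ := Finset.mem_image.1 hu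
    rw [mem_filter] at hv
    have := hS v hv.1
    rw [abs_of_nonpos (by linarith [not_le.1 hv.2])] at this
    push_cast; linarith)
  rw [Finset.sum_image (by intro a _ b _ h; simpa using h)] at h2
  have h3 : ∀ u ∈ S.filter (fun u : ℤ => ¬ z ≤ (u : ℝ)), 1 / (((-u : ℤ) : ℝ) - -z) ^ 2 = 1 / ((u : ℝ) - z) ^ 2 := by
    intro u _
    congr 1; push_cast; ring
  rw [Finset.sum_congr rfl h3] at h2
  have h4 : (4 : ℝ) / D = 2 / D + 2 / D := by ring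
  linarith

/-- tail of the Fejér kernel on the grid `ℤ / 2h` -/
lemma Fej_tail {h : ℕ} (hh : 0 < h) (y r : ℝ) (hr : 1 ≤ (2 * h : ℕ) * r) :
    (((2 * h : ℕ) : ℝ))⁻¹ * ∑ a ∈ (range (2 * h)).filter (fun a : ℕ => r ≤ dZ ((a : ℝ) / (2 * h : ℕ) - y)),
      Fej h ((a : ℝ) / (2 * h : ℕ) - y) ≤ 2 / ((2 * h : ℕ) * r) := by
  have hN : 0 < 2 * h := by omega
  have hNr : (0 : ℝ) < ((2 * h : ℕ) : ℝ) := by exact_mod_cast hN
  have hhr : (0 : ℝ) < h := by exact_mod_cast hh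
  have hN2 : ((2 * h : ℕ) : ℝ) = 2 * h := by push_cast; ring
  have hr0 : 0 < r := by
    by_contra hcon
    have : ((2 * h : ℕ) : ℝ) * r ≤ 0 := mul_nonpos_of_nonneg_of_nonpos hNr.le (not_lt.1 hcon)
    linarith
  have h1 : ∀ a ∈ ((range (2 * h)).filter (fun a : ℕ => r ≤ dZ ((a : ℝ) / (2 * h : ℕ) - y))),
      Fej h ((a : ℝ) / (2 * h : ℕ) - y) ≤
        h * (1 / ((phiZ (2 * h) y a : ℝ) - (2 * h : ℕ) * y) ^ 2) := by
    intro a ha
    rw [mem_filter] at ha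
    have hd : 0 < dZ ((a : ℝ) / (2 * h : ℕ) - y) := lt_of_lt_of_le hr0 ha.2
    refine (Fej_le hh _ hd).trans (le_of_eq ?_)
    rw [← sq_abs ((phiZ (2 * h) y a : ℝ) - (2 * h : ℕ) * y), phiZ_dist hN, hN2]
    field_simp
    ring
  have h2 := Finset.sum_le_sum h1
  rw [← Finset.mul_sum] at h2
  have h3 : ∑ a ∈ (range (2 * h)).filter (fun a : ℕ => r ≤ dZ ((a : ℝ) / (2 * h : ℕ) - y)),
      (1 / ((phiZ (2 * h) y a : ℝ) - (2 * h : ℕ) * y) ^ 2) ≤ 4 / ((2 * h : ℕ) * r) := by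
    have h4 := tail_both ((2 * h : ℕ) * y) ((2 * h : ℕ) * r) hr
      (((range (2 * h)).filter (fun a : ℕ => r ≤ dZ ((a : ℝ) / (2 * h : ℕ) - y))).image (phiZ (2 * h) y)) (by
        intro u hu
        obtain ⟨a, ha, rfl⟩ := Finset.mem_image.1 hu
        rw [mem_filter] at ha
        rw [phiZ_dist hN]
        exact mul_le_mul_of_nonneg_left ha.2 hNr.le)
    rw [Finset.sum_image] at h4
    · exact h4
    · intro a ha b hb hab
      simp only [coe_filter, Set.mem_setOf_eq] at ha hb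
      exact phiZ_inj (2 * h) y (by simpa using ha.1) (by simpa using hb.1) hab
  calc (((2 * h : ℕ) : ℝ))⁻¹ * ∑ a ∈ (range (2 * h)).filter (fun a : ℕ => r ≤ dZ ((a : ℝ) / (2 * h : ℕ) - y)),
      Fej h ((a : ℝ) / (2 * h : ℕ) - y)
      ≤ (((2 * h : ℕ) : ℝ))⁻¹ * (h * (4 / ((2 * h : ℕ) * r))) := by
        apply mul_le_mul_of_nonneg_left _ (by positivity)
        exact h2.trans (mul_le_mul_of_nonneg_left h3 hhr.le)
    _ = 2 / ((2 * h : ℕ) * r) := by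
        rw [hN2]; field_simp; ring


/-- modulated Dirichlet sum. -/
def EDir (c h : ℕ) (t : ℝ) : ℂ := ∑ j ∈ range h, ee (((c + j : ℕ) : ℝ) * t)

lemma EDir_eq (c h : ℕ) (t : ℝ) : EDir c h t = ee ((c : ℝ) * t) * Dir h t := by
  unfold EDir Dir
  rw [Finset.mul_sum]
  apply Finset.sum_congr rfl
  intro j _
  rw [← ee_add]; congr 1; push_cast; ring

lemma EDir_sum_image (c h : ℕ) (v : ℤ → ℂ) (t : ℝ) :
    ∑ ξ ∈ (range h).image (fun j : ℕ => ((c + j : ℕ) : ℤ)), v ξ * ee (ξ * t) =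
      ∑ j ∈ range h, v ((c + j : ℕ) : ℤ) * ee (((c + j : ℕ) : ℝ) * t) := by
  rw [Finset.sum_image]
  · apply Finset.sum_congr rfl
    intro j _
    simp
  · intro a _ b _ hab
    simp only at hab
    have : (c + a : ℕ) = (c + b : ℕ) := by exact_mod_cast hab
    omega

lemma image_residue (c h N : ℕ) (hN : h ≤ N) :
    ∀ ξ ∈ (range h).image (fun j : ℕ => ((c + j : ℕ) : ℤ)),
    ∀ η ∈ (range h).image (fun j : ℕ => ((c + j : ℕ) : ℤ)), (N : ℤ) ∣ ξ - η → ξ = η := by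
  intro ξ hξ η hη hd
  obtain ⟨a, ha, rfl⟩ := Finset.mem_image.1 hξ
  obtain ⟨b, hb, rfl⟩ := Finset.mem_image.1 hη
  rw [Finset.mem_range] at ha hb
  have h1 : |((c + a : ℕ) : ℤ) - ((c + b : ℕ) : ℤ)| < (N : ℤ) := by
    rw [abs_lt]; push_cast; constructor <;> omega
  have := Int.eq_zero_of_abs_lt_dvd hd h1
  linarith

lemma EDir_parseval (c h N : ℕ) (hN0 : 0 < N) (hN : h ≤ N) (v : ℤ → ℂ) (y : ℝ) :
    ∑ a ∈ range N, ‖∑ j ∈ range h, v ((c + j : ℕ) : ℤ) * ee (((c + j : ℕ) : ℝ) * ((a : ℝ) / N - y))‖ ^ 2 =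
      N * ∑ j ∈ range h, ‖v ((c + j : ℕ) : ℤ)‖ ^ 2 := by
  have key := grid_parseval N hN0 _ (image_residue c h N hN) v y
  simp_rw [EDir_sum_image] at key
  rw [key]
  congr 1
  rw [Finset.sum_image]
  intro a _ b _ hab
  simp only at hab
  have : (c + a : ℕ) = (c + b : ℕ) := by exact_mod_cast hab
  omega

lemma EDir_mom0 (c h N : ℕ) (hN0 : 0 < N) (hN : h ≤ N) (y : ℝ) :
    ∑ a ∈ range N, ‖EDir c h ((a : ℝ) / N - y)‖ ^ 2 = N * h := by
  have := EDir_parseval c h N hN0 hN (fun _ => 1) y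
  simp only [one_mul] at this
  unfold EDir
  rw [this]; simp

lemma EDir_mom1 (c h N : ℕ) (hN0 : 0 < N) (hN : h ≤ N) (y y' : ℝ) :
    ∑ a ∈ range N, ‖EDir c h ((a : ℝ) / N - y) - EDir c h ((a : ℝ) / N - y')‖ ^ 2 ≤
      N * h * (2 * Real.pi * (c + h) * |y - y'|) ^ 2 := by
  have h1 : ∀ a : ℕ, EDir c h ((a : ℝ) / N - y) - EDir c h ((a : ℝ) / N - y') =
      ∑ j ∈ range h, (1 - ee ((((c + j : ℕ) : ℤ) : ℝ) * (y - y'))) * ee (((c + j : ℕ) : ℝ) * ((a : ℝ) / N - y)) := by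
    intro a
    unfold EDir
    rw [← Finset.sum_sub_distrib]
    apply Finset.sum_congr rfl
    intro j _
    rw [sub_mul, one_mul, ← ee_add]
    congr 2
    push_cast; ring
  simp_rw [h1]
  rw [EDir_parseval c h N hN0 hN (fun ξ => 1 - ee ((ξ : ℝ) * (y - y'))) y, mul_assoc]
  apply mul_le_mul_of_nonneg_left _ (by positivity)
  calc ∑ j ∈ range h, ‖1 - ee ((((c + j : ℕ) : ℤ) : ℝ) * (y - y'))‖ ^ 2
      ≤ ∑ j ∈ range h, (2 * Real.pi * (c + h) * |y - y'|) ^ 2 := by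
        apply Finset.sum_le_sum
        intro j hj
        have hj' : (j : ℝ) ≤ h := by exact_mod_cast (Finset.mem_range.1 hj).le
        apply pow_le_pow_left₀ (norm_nonneg _)
        refine (norm_one_sub_ee_le _).trans ?_
        rw [abs_mul, mul_assoc (2 * Real.pi) ((c : ℝ) + h)]
        apply mul_le_mul_of_nonneg_left _ (by positivity)
        apply mul_le_mul_of_nonneg_right _ (abs_nonneg _)
        push_cast
        rw [abs_of_nonneg (by positivity)]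
        linarith
    _ = h * (2 * Real.pi * (c + h) * |y - y'|) ^ 2 := by
        rw [Finset.sum_const, card_range, nsmul_eq_mul]

/-- Cauchy–Schwarz in the form used below. -/
lemma sum_mul_le_of_sq {ι : Type*} (s : Finset ι) (f g : ι → ℝ) (A B : ℝ) (hA : 0 ≤ A) (hB : 0 ≤ B)
    (hf : ∑ i ∈ s, f i ^ 2 ≤ A ^ 2) (hg : ∑ i ∈ s, g i ^ 2 ≤ B ^ 2) : ∑ i ∈ s, f i * g i ≤ A * B := by
  have h1 := Finset.sum_mul_sq_le_sq_mul_sq s f g
  have h2 : (∑ i ∈ s, f i ^ 2) * ∑ i ∈ s, g i ^ 2 ≤ A ^ 2 * B ^ 2 := by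
    apply mul_le_mul hf hg (Finset.sum_nonneg fun _ _ => by positivity) (by positivity)
  have h3 : (∑ i ∈ s, f i * g i) ^ 2 ≤ (A * B) ^ 2 := by rw [mul_pow]; exact h1.trans h2
  exact abs_le_of_sq_le_sq' h3 (by positivity) |>.2

lemma KK_eq {k : ℕ} (ω : ℕ) (t : ℝ) :
    KK k ω t = EDir (ω * 2 ^ k + 2 ^ (k - 1)) (2 ^ (k - 1)) t *
      (starRingEnd ℂ) (Dir (2 ^ (k - 1)) t) * ((2 : ℂ) ^ (k - 1))⁻¹ := by
  unfold KK
  rw [EDir_eq, Fej_eq, Complex.ofReal_div]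
  have h1 : ((‖Dir (2 ^ (k - 1)) t‖ ^ 2 : ℝ) : ℂ) =
      (Dir (2 ^ (k - 1)) t) * (starRingEnd ℂ) (Dir (2 ^ (k - 1)) t) := by
    rw [Complex.mul_conj, Complex.normSq_eq_norm_sq]
  rw [h1]
  push_cast
  ring

lemma norm_KK (k ω : ℕ) (t : ℝ) : ‖KK k ω t‖ = Fej (2 ^ (k - 1)) t := by
  unfold KK
  rw [norm_mul, norm_ee, one_mul, Complex.norm_real, Real.norm_eq_abs, abs_of_nonneg (Fej_nonneg _ _)]

/-- `L¹` regularity of the kernel on the grid. -/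
lemma KK_reg {k : ℕ} (hk : 1 ≤ k) (ω : ℕ) (y y' : ℝ) :
    ((2 : ℝ) ^ k)⁻¹ * ∑ a ∈ range (2 ^ k), ‖KK k ω ((a : ℝ) / 2 ^ k - y) - KK k ω ((a : ℝ) / 2 ^ k - y')‖ ≤
      2 * Real.pi * ((ω + 2) * 2 ^ k) * |y - y'| := by
  set c := ω * 2 ^ k + 2 ^ (k - 1) with hc
  set h := 2 ^ (k - 1) with hh
  have hh2 : 2 ^ k = 2 * h := by
    obtain ⟨j, rfl⟩ : ∃ j, k = j + 1 := ⟨k - 1, by omega⟩
    rw [hh, pow_succ]; simp; ring
  have hhpos : 0 < h := by positivity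
  have hhr : (0 : ℝ) < h := by exact_mod_cast hhpos
  have hN : h ≤ 2 ^ k := by omega
  have hNr : ((2 ^ k : ℕ) : ℝ) = 2 ^ k := by push_cast; rfl
  have hN2 : (2 : ℝ) ^ k = 2 * h := by rw [← hNr, hh2]; push_cast; ring
  have hN0 : (0 : ℝ) < 2 ^ k := by positivity
  -- pointwise
  have hpt : ∀ a : ℕ, ‖KK k ω ((a : ℝ) / 2 ^ k - y) - KK k ω ((a : ℝ) / 2 ^ k - y')‖ ≤
      (h : ℝ)⁻¹ * (‖EDir c h ((a : ℝ) / (2 ^ k : ℕ) - y) - EDir c h ((a : ℝ) / (2 ^ k : ℕ) - y')‖ *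
          ‖EDir 0 h ((a : ℝ) / (2 ^ k : ℕ) - y)‖) +
      (h : ℝ)⁻¹ * (‖EDir c h ((a : ℝ) / (2 ^ k : ℕ) - y')‖ *
          ‖EDir 0 h ((a : ℝ) / (2 ^ k : ℕ) - y) - EDir 0 h ((a : ℝ) / (2 ^ k : ℕ) - y')‖) := by
    intro a
    rw [hNr, KK_eq, KK_eq]
    rw [← hc, ← hh]
    have h0 : ∀ t, Dir h t = EDir 0 h t := by
      intro t; rw [EDir_eq]; simp [ee_zero]
    simp_rw [h0]
    have h1 : ((2 : ℂ) ^ (k - 1))⁻¹ = ((h : ℝ)⁻¹ : ℂ) := by
      rw [hh]; push_cast; rfl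
    rw [h1]
    set E := EDir c h ((a : ℝ) / 2 ^ k - y)
    set E' := EDir c h ((a : ℝ) / 2 ^ k - y')
    set D := EDir 0 h ((a : ℝ) / 2 ^ k - y)
    set D' := EDir 0 h ((a : ℝ) / 2 ^ k - y')
    have h2 : E * (starRingEnd ℂ) D * ((h : ℝ)⁻¹ : ℂ) - E' * (starRingEnd ℂ) D' * ((h : ℝ)⁻¹ : ℂ) =
        ((h : ℝ)⁻¹ : ℂ) * ((E - E') * (starRingEnd ℂ) D) + ((h : ℝ)⁻¹ : ℂ) * (E' * (starRingEnd ℂ) (D - D')) := by
      rw [map_sub]; ring
    rw [h2]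
    refine (norm_add_le _ _).trans (le_of_eq ?_)
    have h3 : ‖((h : ℝ)⁻¹ : ℂ)‖ = (h : ℝ)⁻¹ := by
      rw [norm_inv, Complex.norm_real, Real.norm_of_nonneg hhr.le]
    rw [norm_mul, norm_mul, norm_mul, norm_mul, h3]
    rw [RCLike.norm_conj, RCLike.norm_conj]
  have hs1 := sum_mul_le_of_sq (range (2 ^ k))
    (fun a : ℕ => ‖EDir c h ((a : ℝ) / (2 ^ k : ℕ) - y) - EDir c h ((a : ℝ) / (2 ^ k : ℕ) - y')‖)
    (fun a : ℕ => ‖EDir 0 h ((a : ℝ) / (2 ^ k : ℕ) - y)‖)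
    (Real.sqrt ((2 ^ k : ℕ) * h) * (2 * Real.pi * (c + h) * |y - y'|)) (Real.sqrt ((2 ^ k : ℕ) * h))
    (by positivity) (by positivity)
    (by
      rw [mul_pow, Real.sq_sqrt (by positivity)]
      exact EDir_mom1 c h (2 ^ k) (by positivity) hN y y')
    (by
      rw [Real.sq_sqrt (by positivity)]
      exact le_of_eq (EDir_mom0 0 h (2 ^ k) (by positivity) hN y))
  have hs2 := sum_mul_le_of_sq (range (2 ^ k))
    (fun a : ℕ => ‖EDir c h ((a : ℝ) / (2 ^ k : ℕ) - y')‖)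
    (fun a : ℕ => ‖EDir 0 h ((a : ℝ) / (2 ^ k : ℕ) - y) - EDir 0 h ((a : ℝ) / (2 ^ k : ℕ) - y')‖)
    (Real.sqrt ((2 ^ k : ℕ) * h)) (Real.sqrt ((2 ^ k : ℕ) * h) * (2 * Real.pi * ((0 : ℕ) + h) * |y - y'|))
    (by positivity) (by positivity)
    (by
      rw [Real.sq_sqrt (by positivity)]
      exact le_of_eq (EDir_mom0 c h (2 ^ k) (by positivity) hN y'))
    (by
      rw [mul_pow, Real.sq_sqrt (by positivity)]
      exact EDir_mom1 0 h (2 ^ k) (by positivity) hN y y')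
  have hsq : Real.sqrt ((2 ^ k : ℕ) * h) * Real.sqrt ((2 ^ k : ℕ) * h) = 2 ^ k * h := by
    rw [Real.mul_self_sqrt (by positivity), hNr]
  have hsum : ∑ a ∈ range (2 ^ k), ‖KK k ω ((a : ℝ) / 2 ^ k - y) - KK k ω ((a : ℝ) / 2 ^ k - y')‖ ≤
      2 ^ k * (2 * Real.pi * (c + h) * |y - y'|) + 2 ^ k * (2 * Real.pi * h * |y - y'|) := by
    calc ∑ a ∈ range (2 ^ k), ‖KK k ω ((a : ℝ) / 2 ^ k - y) - KK k ω ((a : ℝ) / 2 ^ k - y')‖
        ≤ ∑ a ∈ range (2 ^ k), ((h : ℝ)⁻¹ * (‖EDir c h ((a : ℝ) / (2 ^ k : ℕ) - y) - EDir c h ((a : ℝ) / (2 ^ k : ℕ) - y')‖ *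
          ‖EDir 0 h ((a : ℝ) / (2 ^ k : ℕ) - y)‖) +
      (h : ℝ)⁻¹ * (‖EDir c h ((a : ℝ) / (2 ^ k : ℕ) - y')‖ *
          ‖EDir 0 h ((a : ℝ) / (2 ^ k : ℕ) - y) - EDir 0 h ((a : ℝ) / (2 ^ k : ℕ) - y')‖)) :=
          Finset.sum_le_sum (fun a _ => hpt a)
      _ ≤ (h : ℝ)⁻¹ * (Real.sqrt ((2 ^ k : ℕ) * h) * (2 * Real.pi * (c + h) * |y - y'|) * Real.sqrt ((2 ^ k : ℕ) * h)) +
          (h : ℝ)⁻¹ * (Real.sqrt ((2 ^ k : ℕ) * h) * (Real.sqrt ((2 ^ k : ℕ) * h) * (2 * Real.pi * ((0 : ℕ) + h) * |y - y'|))) := by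
          rw [Finset.sum_add_distrib, ← Finset.mul_sum, ← Finset.mul_sum]
          exact add_le_add (mul_le_mul_of_nonneg_left hs1 (by positivity))
            (mul_le_mul_of_nonneg_left hs2 (by positivity))
      _ = (h : ℝ)⁻¹ * ((Real.sqrt ((2 ^ k : ℕ) * h) * Real.sqrt ((2 ^ k : ℕ) * h)) * (2 * Real.pi * (c + h) * |y - y'|)) +
          (h : ℝ)⁻¹ * ((Real.sqrt ((2 ^ k : ℕ) * h) * Real.sqrt ((2 ^ k : ℕ) * h)) * (2 * Real.pi * h * |y - y'|)) := by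
          simp only [Nat.cast_zero, zero_add]; ring
      _ = 2 ^ k * (2 * Real.pi * (c + h) * |y - y'|) + 2 ^ k * (2 * Real.pi * h * |y - y'|) := by
          rw [hsq]; field_simp
  rw [inv_mul_le_iff₀ hN0]
  refine hsum.trans ?_
  have hcr : (c : ℝ) + h + h = ω * 2 ^ k + (h : ℝ) + h + h := by
    rw [hc]; push_cast; ring
  have hle : (c : ℝ) + h + h ≤ (ω + 2) * 2 ^ k := by
    rw [hcr, hN2]; nlinarith
  calc 2 ^ k * (2 * Real.pi * (c + h) * |y - y'|) + 2 ^ k * (2 * Real.pi * h * |y - y'|)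
      = 2 ^ k * (2 * Real.pi * (c + h + h) * |y - y'|) := by ring
    _ ≤ 2 ^ k * (2 * Real.pi * ((ω + 2) * 2 ^ k) * |y - y'|) := by gcongr

lemma norm_Ph_le (R k ω a : ℕ) (u : ℕ → ℂ) :
    ‖Ph R k ω a u‖ ≤ ((2 : ℝ) ^ R)⁻¹ * ∑ x ∈ range (2 ^ R), ‖u x‖ *
      Fej (2 ^ (k - 1)) ((a : ℝ) / 2 ^ k - (x : ℝ) / 2 ^ R) := by
  unfold Ph
  rw [norm_mul]
  have h1 : ‖((2 : ℂ) ^ R)⁻¹‖ = ((2 : ℝ) ^ R)⁻¹ := by
    rw [norm_inv, norm_pow, Complex.norm_ofNat]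
  rw [h1]
  apply mul_le_mul_of_nonneg_left _ (by positivity)
  refine (norm_sum_le _ _).trans (le_of_eq ?_)
  apply Finset.sum_congr rfl
  intro x _
  rw [norm_mul, norm_KK]

/-- far estimate -/
lemma Ph_far {k : ℕ} (hk : 1 ≤ k) (R ω : ℕ) (u : ℕ → ℂ) (T : Finset ℕ)
    (hu : ∀ x ∈ range (2 ^ R), x ∉ T → u x = 0) (y0 s r : ℝ)
    (hT : ∀ x ∈ T, |(x : ℝ) / 2 ^ R - y0| ≤ s) (hr : 1 ≤ 2 ^ k * r) (A : Finset ℕ)
    (hA : A ⊆ range (2 ^ k)) (hAd : ∀ a ∈ A, r + s ≤ dZ ((a : ℝ) / 2 ^ k - y0)) :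
    ((2 : ℝ) ^ k)⁻¹ * ∑ a ∈ A, ‖Ph R k ω a u‖ ≤
      2 / (2 ^ k * r) * (((2 : ℝ) ^ R)⁻¹ * ∑ x ∈ range (2 ^ R), ‖u x‖) := by
  have hh2 : 2 ^ k = 2 * 2 ^ (k - 1) := by
    obtain ⟨j, rfl⟩ : ∃ j, k = j + 1 := ⟨k - 1, by omega⟩
    rw [pow_succ]; simp; ring
  have hN2 : (((2 * 2 ^ (k - 1) : ℕ) : ℕ) : ℝ) = 2 ^ k := by rw [← hh2]; push_cast; rfl
  calc ((2 : ℝ) ^ k)⁻¹ * ∑ a ∈ A, ‖Ph R k ω a u‖
      ≤ ((2 : ℝ) ^ k)⁻¹ * ∑ a ∈ A, ((2 : ℝ) ^ R)⁻¹ * ∑ x ∈ range (2 ^ R), ‖u x‖ *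
      Fej (2 ^ (k - 1)) ((a : ℝ) / 2 ^ k - (x : ℝ) / 2 ^ R) := by
        gcongr; exact norm_Ph_le _ _ _ _ _
    _ = ((2 : ℝ) ^ R)⁻¹ * ∑ x ∈ range (2 ^ R), ‖u x‖ *
        (((2 : ℝ) ^ k)⁻¹ * ∑ a ∈ A, Fej (2 ^ (k - 1)) ((a : ℝ) / 2 ^ k - (x : ℝ) / 2 ^ R)) := by
        rw [← Finset.mul_sum, Finset.sum_comm, ← mul_assoc, mul_comm ((2 : ℝ) ^ k)⁻¹, mul_assoc,
          Finset.mul_sum]
        congr 1
        apply Finset.sum_congr rfl
        intro x _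
        rw [← Finset.mul_sum]; ring
    _ ≤ ((2 : ℝ) ^ R)⁻¹ * ∑ x ∈ range (2 ^ R), ‖u x‖ * (2 / (2 ^ k * r)) := by
        apply mul_le_mul_of_nonneg_left _ (by positivity)
        apply Finset.sum_le_sum
        intro x hx
        by_cases hxT : x ∈ T
        · apply mul_le_mul_of_nonneg_left _ (norm_nonneg _)
          have key := Fej_tail (h := 2 ^ (k - 1)) (by positivity) ((x : ℝ) / 2 ^ R) r (by rw [hN2]; exact hr)
          rw [hN2] at key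
          refine le_trans ?_ key
          apply mul_le_mul_of_nonneg_left _ (by positivity)
          apply Finset.sum_le_sum_of_subset_of_nonneg
          · intro a ha
            rw [mem_filter, ← hh2]
            refine ⟨hA ha, ?_⟩
            have h1 := hAd a ha
            have h2 := dZ_le_add ((a : ℝ) / 2 ^ k - y0) ((a : ℝ) / 2 ^ k - (x : ℝ) / 2 ^ R)
            have h3 : (a : ℝ) / 2 ^ k - y0 - ((a : ℝ) / 2 ^ k - (x : ℝ) / 2 ^ R) = (x : ℝ) / 2 ^ R - y0 := by ring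
            rw [h3] at h2
            have h4 := hT x hxT
            linarith
          · intro _ _ _; exact Fej_nonneg _ _
        · rw [hu x hx hxT]; simp
    _ = 2 / (2 ^ k * r) * (((2 : ℝ) ^ R)⁻¹ * ∑ x ∈ range (2 ^ R), ‖u x‖) := by
        rw [← Finset.sum_mul]; ring

/-- near estimate -/
lemma Ph_near {k : ℕ} (hk : 1 ≤ k) (R ω : ℕ) (u : ℕ → ℂ) (T : Finset ℕ)
    (hu : ∀ x ∈ range (2 ^ R), x ∉ T → u x = 0) (hu0 : ∑ x ∈ range (2 ^ R), u x = 0) (y0 s : ℝ)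
    (hT : ∀ x ∈ T, |(x : ℝ) / 2 ^ R - y0| ≤ s) :
    ((2 : ℝ) ^ k)⁻¹ * ∑ a ∈ range (2 ^ k), ‖Ph R k ω a u‖ ≤
      2 * Real.pi * ((ω + 2) * 2 ^ k) * s * (((2 : ℝ) ^ R)⁻¹ * ∑ x ∈ range (2 ^ R), ‖u x‖) := by
  have h1 : ‖((2 : ℂ) ^ R)⁻¹‖ = ((2 : ℝ) ^ R)⁻¹ := by
    rw [norm_inv, norm_pow, Complex.norm_ofNat]
  have hPh : ∀ a : ℕ, ‖Ph R k ω a u‖ ≤ ((2 : ℝ) ^ R)⁻¹ * ∑ x ∈ range (2 ^ R), ‖u x‖ *
      ‖KK k ω ((a : ℝ) / 2 ^ k - (x : ℝ) / 2 ^ R) - KK k ω ((a : ℝ) / 2 ^ k - y0)‖ := by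
    intro a
    have h2 : Ph R k ω a u = ((2 : ℂ) ^ R)⁻¹ * ∑ x ∈ range (2 ^ R), u x *
      (KK k ω ((a : ℝ) / 2 ^ k - (x : ℝ) / 2 ^ R) - KK k ω ((a : ℝ) / 2 ^ k - y0)) := by
      unfold Ph
      congr 1
      simp_rw [mul_sub]
      rw [Finset.sum_sub_distrib, ← Finset.sum_mul, hu0]; simp
    rw [h2, norm_mul, h1]
    apply mul_le_mul_of_nonneg_left _ (by positivity)
    refine (norm_sum_le _ _).trans (le_of_eq ?_)
    apply Finset.sum_congr rfl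
    intro x _
    rw [norm_mul]
  calc ((2 : ℝ) ^ k)⁻¹ * ∑ a ∈ range (2 ^ k), ‖Ph R k ω a u‖
      ≤ ((2 : ℝ) ^ k)⁻¹ * ∑ a ∈ range (2 ^ k), ((2 : ℝ) ^ R)⁻¹ * ∑ x ∈ range (2 ^ R), ‖u x‖ *
      ‖KK k ω ((a : ℝ) / 2 ^ k - (x : ℝ) / 2 ^ R) - KK k ω ((a : ℝ) / 2 ^ k - y0)‖ := by
        gcongr; exact hPh _
    _ = ((2 : ℝ) ^ R)⁻¹ * ∑ x ∈ range (2 ^ R), ‖u x‖ *
        (((2 : ℝ) ^ k)⁻¹ * ∑ a ∈ range (2 ^ k),
        ‖KK k ω ((a : ℝ) / 2 ^ k - (x : ℝ) / 2 ^ R) - KK k ω ((a : ℝ) / 2 ^ k - y0)‖) := by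
        rw [← Finset.mul_sum, Finset.sum_comm, ← mul_assoc, mul_comm ((2 : ℝ) ^ k)⁻¹, mul_assoc,
          Finset.mul_sum]
        congr 1
        apply Finset.sum_congr rfl
        intro x _
        rw [← Finset.mul_sum]; ring
    _ ≤ ((2 : ℝ) ^ R)⁻¹ * ∑ x ∈ range (2 ^ R), ‖u x‖ * (2 * Real.pi * ((ω + 2) * 2 ^ k) * s) := by
        apply mul_le_mul_of_nonneg_left _ (by positivity)
        apply Finset.sum_le_sum
        intro x hx
        by_cases hxT : x ∈ T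
        · apply mul_le_mul_of_nonneg_left _ (norm_nonneg _)
          refine (KK_reg hk ω ((x : ℝ) / 2 ^ R) y0).trans ?_
          apply mul_le_mul_of_nonneg_left (hT x hxT) (by positivity)
        · rw [hu x hx hxT]; simp
    _ = 2 * Real.pi * ((ω + 2) * 2 ^ k) * s * (((2 : ℝ) ^ R)⁻¹ * ∑ x ∈ range (2 ^ R), ‖u x‖) := by
        rw [← Finset.sum_mul]; ring


/-! ### geometric sums over injections -/

lemma geom_inj_le (r : ℝ) (hr0 : 0 ≤ r) (hr1 : r < 1) (S : Finset ℕ) (g : ℕ → ℕ)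
    (hg : Set.InjOn g S) : ∑ k ∈ S, r ^ g k ≤ (1 - r)⁻¹ := by
  rw [← Finset.sum_image (f := fun n => r ^ n) hg]
  exact sum_le_hasSum _ (fun i _ => by positivity) (hasSum_geometric_of_lt_one hr0 hr1)

/-- radius of the affected set -/
def rr (b k j : ℕ) : ℝ := 2 ^ b * ((2 : ℝ) ^ j)⁻¹ * (3 / 4) ^ (k + b - j)

/-- affected set of a block of level `j` at position `y0` -/
def Aff (b k j : ℕ) (y0 : ℝ) : Finset ℕ :=
  if j ≤ k + b then (range (2 ^ k)).filter (fun a : ℕ => dZ ((a : ℝ) / 2 ^ k - y0) ≤ rr b k j + ((2 : ℝ) ^ j)⁻¹)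
  else ∅

lemma rr_nonneg (b k j : ℕ) : 0 ≤ rr b k j := by unfold rr; positivity

lemma pow_rr {b k j : ℕ} (h : j ≤ k + b) : 2 ^ k * rr b k j = (3 / 2) ^ (k + b - j) := by
  obtain ⟨i, hi⟩ : ∃ i, k + b = j + i := ⟨k + b - j, by omega⟩
  have h2 : k + b - j = i := by omega
  unfold rr
  rw [h2]
  have h3 : (2 : ℝ) ^ k * 2 ^ b = 2 ^ j * 2 ^ i := by rw [← pow_add, ← pow_add, hi]
  calc (2 : ℝ) ^ k * (2 ^ b * ((2 : ℝ) ^ j)⁻¹ * (3 / 4) ^ i)
      = (2 ^ k * 2 ^ b) * ((2 : ℝ) ^ j)⁻¹ * (3 / 4) ^ i := by ring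
    _ = 2 ^ i * (3 / 4) ^ i := by rw [h3]; field_simp
    _ = (3 / 2) ^ i := by rw [← mul_pow]; norm_num

lemma Aff_count_one {b k j : ℕ} (h : j ≤ k + b) (y0 : ℝ) :
    ((2 : ℝ) ^ k)⁻¹ * #(Aff b k j y0) ≤
      ((2 : ℝ) ^ j)⁻¹ * (2 + 2 * 2 ^ b * (3 / 4) ^ (k + b - j) + 2 ^ b * (1 / 2) ^ (k + b - j)) := by
  unfold Aff
  rw [if_pos h]
  have h1 := grid_count (N := 2 ^ k) (by positivity) y0 (rr b k j + ((2 : ℝ) ^ j)⁻¹)
    (by have := rr_nonneg b k j; positivity)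
  have hN : ((2 ^ k : ℕ) : ℝ) = 2 ^ k := by push_cast; rfl
  rw [hN] at h1
  obtain ⟨i, hi⟩ : ∃ i, k + b = j + i := ⟨k + b - j, by omega⟩
  have h2 : k + b - j = i := by omega
  have h3 : (2 : ℝ) ^ k * 2 ^ b = 2 ^ j * 2 ^ i := by rw [← pow_add, ← pow_add, hi]
  rw [inv_mul_le_iff₀ (by positivity)]
  refine h1.trans (le_of_eq ?_)
  unfold rr
  rw [h2]
  have h4 : (2 : ℝ) ^ k * (((2 : ℝ) ^ j)⁻¹ * (2 ^ b * (1 / 2) ^ i)) = 1 := by
    calc (2 : ℝ) ^ k * (((2 : ℝ) ^ j)⁻¹ * (2 ^ b * (1 / 2) ^ i))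
        = (2 ^ k * 2 ^ b) * ((2 : ℝ) ^ j)⁻¹ * (1 / 2) ^ i := by ring
      _ = 2 ^ i * (1 / 2) ^ i := by rw [h3]; field_simp
      _ = 1 := by rw [← mul_pow]; norm_num
  linear_combination (-(1 : ℝ)) * h4

/-- total size of the affected sets -/
lemma Aff_count (b j : ℕ) (y0 : ℝ) :
    ∑ k ∈ Icc 1 (2 ^ b), ((2 : ℝ) ^ k)⁻¹ * #(Aff b k j y0) ≤ 12 * 2 ^ b * ((2 : ℝ) ^ j)⁻¹ := by
  have h0 : ∑ k ∈ Icc 1 (2 ^ b), ((2 : ℝ) ^ k)⁻¹ * #(Aff b k j y0) =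
      ∑ k ∈ (Icc 1 (2 ^ b)).filter (fun k => j ≤ k + b), ((2 : ℝ) ^ k)⁻¹ * #(Aff b k j y0) := by
    rw [Finset.sum_filter]
    apply Finset.sum_congr rfl
    intro k _
    split_ifs with h
    · rfl
    · unfold Aff; rw [if_neg h]; simp
  rw [h0]
  set S := (Icc 1 (2 ^ b)).filter (fun k => j ≤ k + b) with hS
  have hinj : Set.InjOn (fun k => k + b - j) (S : Set ℕ) := by
    intro x hx y hy hxy
    simp only [hS, coe_filter, Set.mem_ofPred_eq] at hx hy hxy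
    omega
  have hcard : (#S : ℝ) ≤ 2 ^ b := by
    have : #S ≤ 2 ^ b := by
      refine (Finset.card_filter_le _ _).trans ?_
      simp
    exact_mod_cast this
  calc ∑ k ∈ S, ((2 : ℝ) ^ k)⁻¹ * #(Aff b k j y0)
      ≤ ∑ k ∈ S, ((2 : ℝ) ^ j)⁻¹ * (2 + 2 * 2 ^ b * (3 / 4) ^ (k + b - j) + 2 ^ b * (1 / 2) ^ (k + b - j)) := by
        apply Finset.sum_le_sum
        intro k hk
        rw [hS, mem_filter] at hk
        exact Aff_count_one hk.2 y0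
    _ = ((2 : ℝ) ^ j)⁻¹ * (2 * #S + 2 * 2 ^ b * ∑ k ∈ S, (3 / 4 : ℝ) ^ (k + b - j) +
          2 ^ b * ∑ k ∈ S, (1 / 2 : ℝ) ^ (k + b - j)) := by
        rw [← Finset.mul_sum, Finset.sum_add_distrib, Finset.sum_add_distrib, ← Finset.mul_sum, ← Finset.mul_sum,
          Finset.sum_const, nsmul_eq_mul]
        ring
    _ ≤ ((2 : ℝ) ^ j)⁻¹ * (2 * 2 ^ b + 2 * 2 ^ b * 4 + 2 ^ b * 2) := by
        have e1 : ∑ k ∈ S, (3 / 4 : ℝ) ^ (k + b - j) ≤ 4 := by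
          refine (geom_inj_le (3 / 4) (by norm_num) (by norm_num) S _ hinj).trans (by norm_num)
        have e2 : ∑ k ∈ S, (1 / 2 : ℝ) ^ (k + b - j) ≤ 2 := by
          refine (geom_inj_le (1 / 2) (by norm_num) (by norm_num) S _ hinj).trans (by norm_num)
        gcongr
    _ = 12 * 2 ^ b * ((2 : ℝ) ^ j)⁻¹ := by ring

/-- `L¹` bound off the affected sets -/
lemma block_bad (b R j ω : ℕ) (hω : ω < 2 ^ (b + 1)) (u : ℕ → ℂ) (T : Finset ℕ)
    (hu : ∀ x ∈ range (2 ^ R), x ∉ T → u x = 0) (hu0 : ∑ x ∈ range (2 ^ R), u x = 0) (y0 : ℝ)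
    (hT : ∀ x ∈ T, |(x : ℝ) / 2 ^ R - y0| ≤ ((2 : ℝ) ^ j)⁻¹) :
    ∑ k ∈ Icc 1 (2 ^ b), ((2 : ℝ) ^ k)⁻¹ * ∑ a ∈ range (2 ^ k) \ Aff b k j y0, ‖Ph R k ω a u‖ ≤
      25 * (((2 : ℝ) ^ R)⁻¹ * ∑ x ∈ range (2 ^ R), ‖u x‖) := by
  set U := ((2 : ℝ) ^ R)⁻¹ * ∑ x ∈ range (2 ^ R), ‖u x‖ with hU
  have hU0 : 0 ≤ U := by
    rw [hU]; exact mul_nonneg (by positivity) (Finset.sum_nonneg fun _ _ => norm_nonneg _)
  rw [← Finset.sum_filter_add_sum_filter_not (Icc 1 (2 ^ b)) (fun k => j ≤ k + b)]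
  set S := (Icc 1 (2 ^ b)).filter (fun k => j ≤ k + b) with hS
  set S' := (Icc 1 (2 ^ b)).filter (fun k => ¬ j ≤ k + b) with hS'
  have hinj : Set.InjOn (fun k => k + b - j) (S : Set ℕ) := by
    intro x hx y hy hxy
    simp only [hS, coe_filter, Set.mem_ofPred_eq] at hx hy hxy
    omega
  have hinj' : Set.InjOn (fun k => j - b - 1 - k) (S' : Set ℕ) := by
    intro x hx y hy hxy
    simp only [hS', coe_filter, Set.mem_ofPred_eq] at hx hy hxy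
    omega
  have h1 : ∑ k ∈ S, ((2 : ℝ) ^ k)⁻¹ * ∑ a ∈ range (2 ^ k) \ Aff b k j y0, ‖Ph R k ω a u‖ ≤ 6 * U := by
    calc ∑ k ∈ S, ((2 : ℝ) ^ k)⁻¹ * ∑ a ∈ range (2 ^ k) \ Aff b k j y0, ‖Ph R k ω a u‖
        ≤ ∑ k ∈ S, 2 * (2 / 3) ^ (k + b - j) * U := by
          apply Finset.sum_le_sum
          intro k hk
          rw [hS, mem_filter, mem_Icc] at hk
          have hkk := pow_rr hk.2
          have hr1 : 1 ≤ 2 ^ k * rr b k j := by
            rw [hkk]; exact one_le_pow₀ (by norm_num)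
          refine (Ph_far hk.1.1 R ω u T hu y0 (((2 : ℝ) ^ j)⁻¹) (rr b k j) hT hr1 _ Finset.sdiff_subset ?_).trans ?_
          · intro a ha
            rw [mem_sdiff] at ha
            have h2 := ha.2
            unfold Aff at h2
            rw [if_pos hk.2, mem_filter] at h2
            by_contra hcon
            exact h2 ⟨ha.1, (not_le.1 hcon).le⟩
          · rw [hkk, ← hU]
            apply mul_le_mul_of_nonneg_right _ hU0
            apply le_of_eq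
            rw [div_eq_mul_inv, ← inv_pow]; norm_num
      _ = 2 * U * ∑ k ∈ S, (2 / 3 : ℝ) ^ (k + b - j) := by
          rw [Finset.mul_sum]; apply Finset.sum_congr rfl; intro k _; ring
      _ ≤ 2 * U * 3 := by
          apply mul_le_mul_of_nonneg_left _ (by positivity)
          exact (geom_inj_le (2 / 3) (by norm_num) (by norm_num) S _ hinj).trans (by norm_num)
      _ = 6 * U := by ring
  have h2 : ∑ k ∈ S', ((2 : ℝ) ^ k)⁻¹ * ∑ a ∈ range (2 ^ k) \ Aff b k j y0, ‖Ph R k ω a u‖ ≤ 19 * U := by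
    have hωr : (ω : ℝ) + 2 ≤ 3 * 2 ^ b := by
      have h3 : (ω : ℝ) + 1 ≤ 2 ^ (b + 1) := by exact_mod_cast hω
      have h4 : (1 : ℝ) ≤ 2 ^ b := one_le_pow₀ (by norm_num)
      rw [pow_succ] at h3
      linarith
    calc ∑ k ∈ S', ((2 : ℝ) ^ k)⁻¹ * ∑ a ∈ range (2 ^ k) \ Aff b k j y0, ‖Ph R k ω a u‖
        ≤ ∑ k ∈ S', 3 * Real.pi * (1 / 2) ^ (j - b - 1 - k) * U := by
          apply Finset.sum_le_sum
          intro k hk
          rw [hS', mem_filter, mem_Icc] at hk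
          have h5 := Ph_near hk.1.1 R ω u T hu hu0 y0 (((2 : ℝ) ^ j)⁻¹) hT
          calc ((2 : ℝ) ^ k)⁻¹ * ∑ a ∈ range (2 ^ k) \ Aff b k j y0, ‖Ph R k ω a u‖
              ≤ ((2 : ℝ) ^ k)⁻¹ * ∑ a ∈ range (2 ^ k), ‖Ph R k ω a u‖ := by
                apply mul_le_mul_of_nonneg_left _ (by positivity)
                exact Finset.sum_le_sum_of_subset_of_nonneg Finset.sdiff_subset (fun _ _ _ => norm_nonneg _)
            _ ≤ 2 * Real.pi * ((ω + 2) * 2 ^ k) * ((2 : ℝ) ^ j)⁻¹ * U := h5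
            _ ≤ 2 * Real.pi * ((3 * 2 ^ b) * 2 ^ k) * ((2 : ℝ) ^ j)⁻¹ * U := by gcongr
            _ = 3 * Real.pi * (1 / 2) ^ (j - b - 1 - k) * U := by
                obtain ⟨i, hi⟩ : ∃ i, j = k + b + 1 + i := ⟨j - (k + b + 1), by omega⟩
                have h6 : j - b - 1 - k = i := by omega
                rw [h6, hi, pow_add, pow_add, pow_add]
                have h7 : (1 / 2 : ℝ) ^ i = ((2 : ℝ) ^ i)⁻¹ := by rw [one_div, inv_pow]
                rw [h7]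
                field_simp
      _ = 3 * Real.pi * U * ∑ k ∈ S', (1 / 2 : ℝ) ^ (j - b - 1 - k) := by
          rw [Finset.mul_sum]; apply Finset.sum_congr rfl; intro k _; ring
      _ ≤ 3 * Real.pi * U * 2 := by
          apply mul_le_mul_of_nonneg_left _ (by positivity)
          exact (geom_inj_le (1 / 2) (by norm_num) (by norm_num) S' _ hinj').trans (by norm_num)
      _ ≤ 19 * U := by
          have := Real.pi_lt_d2
          nlinarith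
  linarith

/-! ### Calderón–Zygmund decomposition -/

/-- dyadic block of level `j` -/
def blk (R j q : ℕ) : Finset ℕ := Ico (q * 2 ^ (R - j)) ((q + 1) * 2 ^ (R - j))

lemma mem_blk {R j q x : ℕ} : x ∈ blk R j q ↔ x / 2 ^ (R - j) = q := by
  unfold blk
  rw [mem_Ico, Nat.div_eq_iff (by positivity)]
  have h : 0 < 2 ^ (R - j) := by positivity
  constructor
  · rintro ⟨h1, h2⟩
    constructor
    · exact h1
    · rw [add_mul, one_mul] at h2; omega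
  · rintro ⟨h1, h2⟩
    constructor
    · exact h1
    · rw [add_mul, one_mul]; omega

lemma card_blk (R j q : ℕ) : #(blk R j q) = 2 ^ (R - j) := by
  unfold blk
  rw [Nat.card_Ico, add_mul, one_mul, Nat.add_sub_cancel_left]

lemma blk_subset {R j q : ℕ} (hj : j ≤ R) (hq : q < 2 ^ j) : blk R j q ⊆ range (2 ^ R) := by
  intro x hx
  unfold blk at hx
  rw [mem_Ico] at hx
  rw [mem_range]
  calc x < (q + 1) * 2 ^ (R - j) := hx.2
    _ ≤ 2 ^ j * 2 ^ (R - j) := by gcongr; omega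
    _ = 2 ^ R := by rw [← pow_add]; congr 1; omega

/-- averages of `‖e‖` -/
def avgB (R : ℕ) (e : ℕ → ℂ) (j q : ℕ) : ℝ := ((2 : ℝ) ^ (R - j))⁻¹ * ∑ x ∈ blk R j q, ‖e x‖

/-- averages of `e` -/
def cavg (R : ℕ) (e : ℕ → ℂ) (j q : ℕ) : ℂ := ((2 : ℂ) ^ (R - j))⁻¹ * ∑ x ∈ blk R j q, e x

lemma norm_cavg_le (R : ℕ) (e : ℕ → ℂ) (j q : ℕ) : ‖cavg R e j q‖ ≤ avgB R e j q := by
  unfold cavg avgB
  rw [norm_mul, norm_inv, norm_pow, Complex.norm_ofNat]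
  apply mul_le_mul_of_nonneg_left (norm_sum_le _ _) (by positivity)

/-- stopped blocks -/
def Bad (R : ℕ) (e : ℕ → ℂ) (lam : ℝ) (j q : ℕ) : Prop :=
  lam < avgB R e j q ∧ ∀ i < j, avgB R e i (q / 2 ^ (j - i)) ≤ lam

open Classical in
/-- finset of stopped blocks -/
def Pb (R : ℕ) (e : ℕ → ℂ) (lam : ℝ) : Finset (ℕ × ℕ) :=
  ((range (R + 1)) ×ˢ (range (2 ^ R))).filter (fun p => p.2 < 2 ^ p.1 ∧ Bad R e lam p.1 p.2)

lemma mem_Pb {R : ℕ} {e : ℕ → ℂ} {lam : ℝ} {p : ℕ × ℕ} :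
    p ∈ Pb R e lam ↔ p.1 ≤ R ∧ p.2 < 2 ^ p.1 ∧ Bad R e lam p.1 p.2 := by
  classical
  unfold Pb
  rw [mem_filter, mem_product, mem_range, mem_range]
  constructor
  · rintro ⟨⟨h1, _⟩, h3, h4⟩; exact ⟨by omega, h3, h4⟩
  · rintro ⟨h1, h3, h4⟩
    exact ⟨⟨by omega, lt_of_lt_of_le h3 (Nat.pow_le_pow_right (by norm_num) h1)⟩, h3, h4⟩

lemma div_blk {R i j x : ℕ} (hij : i ≤ j) (hj : j ≤ R) : x / 2 ^ (R - j) / 2 ^ (j - i) = x / 2 ^ (R - i) := by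
  rw [Nat.div_div_eq_div_mul, ← pow_add]
  congr 2; omega

lemma Pb_unique {R : ℕ} {e : ℕ → ℂ} {lam : ℝ} {p p' : ℕ × ℕ} (hp : p ∈ Pb R e lam)
    (hp' : p' ∈ Pb R e lam) {x : ℕ} (hx : x ∈ blk R p.1 p.2) (hx' : x ∈ blk R p'.1 p'.2) : p = p' := by
  rw [mem_Pb] at hp hp'
  rw [mem_blk] at hx hx'
  rcases lt_trichotomy p.1 p'.1 with h | h | h
  · exfalso
    have h1 := hp'.2.2.2 p.1 h
    rw [← hx', div_blk h.le hp'.1, hx] at h1
    linarith [hp.2.2.1]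
  · ext
    · exact h
    · rw [← hx, ← hx', h]
  · exfalso
    have h1 := hp.2.2.2 p'.1 h
    rw [← hx, div_blk h.le hp.1, hx'] at h1
    linarith [hp'.2.2.1]

lemma Pb_sum_le (R : ℕ) (e : ℕ → ℂ) (lam : ℝ) :
    ∑ p ∈ Pb R e lam, ∑ x ∈ blk R p.1 p.2, ‖e x‖ ≤ ∑ x ∈ range (2 ^ R), ‖e x‖ := by
  rw [← Finset.sum_biUnion]
  · apply Finset.sum_le_sum_of_subset_of_nonneg
    · intro x hx
      obtain ⟨p, hp, hxp⟩ := Finset.mem_biUnion.1 hx
      rw [mem_Pb] at hp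
      exact blk_subset hp.1 hp.2.1 hxp
    · intro _ _ _; exact norm_nonneg _
  · intro p hp p' hp' hne
    simp only [Function.onFun]
    rw [Finset.disjoint_left]
    intro x hx hx'
    exact hne (Pb_unique (Finset.mem_coe.1 hp) (Finset.mem_coe.1 hp') hx hx')

lemma Pb_measure (R : ℕ) (e : ℕ → ℂ) (lam : ℝ) :
    lam * ∑ p ∈ Pb R e lam, ((2 : ℝ) ^ p.1)⁻¹ ≤ ((2 : ℝ) ^ R)⁻¹ * ∑ x ∈ range (2 ^ R), ‖e x‖ := by
  have h1 : ∀ p ∈ Pb R e lam, lam * ((2 : ℝ) ^ p.1)⁻¹ ≤ ((2 : ℝ) ^ R)⁻¹ * ∑ x ∈ blk R p.1 p.2, ‖e x‖ := by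
    intro p hp
    rw [mem_Pb] at hp
    have h2 := hp.2.2.1
    unfold avgB at h2
    have h3 : (2 : ℝ) ^ R = 2 ^ p.1 * 2 ^ (R - p.1) := by rw [← pow_add]; congr 1; omega
    rw [h3, mul_inv, mul_assoc, mul_comm lam]
    exact mul_le_mul_of_nonneg_left h2.le (by positivity)
  rw [Finset.mul_sum]
  refine (Finset.sum_le_sum h1).trans ?_
  rw [← Finset.mul_sum]
  exact mul_le_mul_of_nonneg_left (Pb_sum_le R e lam) (by positivity)

/-- bad parts -/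
def uu (R : ℕ) (e : ℕ → ℂ) (p : ℕ × ℕ) (x : ℕ) : ℂ :=
  if x ∈ blk R p.1 p.2 then e x - cavg R e p.1 p.2 else 0

/-- good part -/
def gg (R : ℕ) (e : ℕ → ℂ) (lam : ℝ) (x : ℕ) : ℂ := e x - ∑ p ∈ Pb R e lam, uu R e p x

lemma sum_uu {R : ℕ} {e : ℕ → ℂ} {lam : ℝ} {p : ℕ × ℕ} (hp : p ∈ Pb R e lam) :
    ∑ x ∈ range (2 ^ R), uu R e p x = 0 := by
  rw [mem_Pb] at hp
  unfold uu
  rw [← Finset.sum_filter]
  have h1 : (range (2 ^ R)).filter (fun x => x ∈ blk R p.1 p.2) = blk R p.1 p.2 := by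
    ext x
    rw [mem_filter]
    exact ⟨fun h => h.2, fun h => ⟨blk_subset hp.1 hp.2.1 h, h⟩⟩
  rw [h1, Finset.sum_sub_distrib, Finset.sum_const, card_blk, nsmul_eq_mul]
  unfold cavg
  push_cast
  rw [mul_inv_cancel_left₀ (pow_ne_zero _ two_ne_zero)]
  simp

lemma sum_norm_uu {R : ℕ} {e : ℕ → ℂ} {lam : ℝ} {p : ℕ × ℕ} (hp : p ∈ Pb R e lam) :
    ∑ x ∈ range (2 ^ R), ‖uu R e p x‖ ≤ 2 * ∑ x ∈ blk R p.1 p.2, ‖e x‖ := by
  rw [mem_Pb] at hp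
  have h0 : ∀ x, ‖uu R e p x‖ = if x ∈ blk R p.1 p.2 then ‖e x - cavg R e p.1 p.2‖ else 0 := by
    intro x; unfold uu; split_ifs <;> simp
  simp_rw [h0]
  rw [← Finset.sum_filter]
  have h1 : (range (2 ^ R)).filter (fun x => x ∈ blk R p.1 p.2) = blk R p.1 p.2 := by
    ext x
    rw [mem_filter]
    exact ⟨fun h => h.2, fun h => ⟨blk_subset hp.1 hp.2.1 h, h⟩⟩
  rw [h1]
  calc ∑ x ∈ blk R p.1 p.2, ‖e x - cavg R e p.1 p.2‖
      ≤ ∑ x ∈ blk R p.1 p.2, (‖e x‖ + avgB R e p.1 p.2) := by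
        apply Finset.sum_le_sum
        intro x _
        exact (norm_sub_le _ _).trans (by gcongr; exact norm_cavg_le _ _ _ _)
    _ = 2 * ∑ x ∈ blk R p.1 p.2, ‖e x‖ := by
        rw [Finset.sum_add_distrib, Finset.sum_const, card_blk, nsmul_eq_mul]
        unfold avgB
        push_cast
        rw [mul_inv_cancel_left₀ (by positivity)]
        ring

lemma sum_sum_norm_uu (R : ℕ) (e : ℕ → ℂ) (lam : ℝ) :
    ∑ p ∈ Pb R e lam, ∑ x ∈ range (2 ^ R), ‖uu R e p x‖ ≤ 2 * ∑ x ∈ range (2 ^ R), ‖e x‖ := by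
  refine (Finset.sum_le_sum (fun p hp => sum_norm_uu hp)).trans ?_
  rw [← Finset.mul_sum]
  exact mul_le_mul_of_nonneg_left (Pb_sum_le R e lam) (by norm_num)

lemma sum_norm_gg (R : ℕ) (e : ℕ → ℂ) (lam : ℝ) :
    ∑ x ∈ range (2 ^ R), ‖gg R e lam x‖ ≤ 3 * ∑ x ∈ range (2 ^ R), ‖e x‖ := by
  calc ∑ x ∈ range (2 ^ R), ‖gg R e lam x‖
      ≤ ∑ x ∈ range (2 ^ R), (‖e x‖ + ∑ p ∈ Pb R e lam, ‖uu R e p x‖) := by
        apply Finset.sum_le_sum
        intro x _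
        unfold gg
        exact (norm_sub_le _ _).trans (by gcongr; exact norm_sum_le _ _)
    _ = ∑ x ∈ range (2 ^ R), ‖e x‖ + ∑ p ∈ Pb R e lam, ∑ x ∈ range (2 ^ R), ‖uu R e p x‖ := by
        rw [Finset.sum_add_distrib, Finset.sum_comm (s := Pb R e lam)]
    _ ≤ 3 * ∑ x ∈ range (2 ^ R), ‖e x‖ := by linarith [sum_sum_norm_uu R e lam]

lemma avgB_nonneg (R : ℕ) (e : ℕ → ℂ) (j q : ℕ) : 0 ≤ avgB R e j q := by
  unfold avgB
  exact mul_nonneg (by positivity) (Finset.sum_nonneg fun _ _ => norm_nonneg _)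

lemma avgB_parent {R : ℕ} (e : ℕ → ℂ) {j q : ℕ} (hj : j + 1 ≤ R) :
    avgB R e (j + 1) q ≤ 2 * avgB R e j (q / 2) := by
  unfold avgB
  have h1 : (2 : ℝ) ^ (R - j) = 2 * 2 ^ (R - (j + 1)) := by
    rw [show R - j = (R - (j + 1)) + 1 by omega, pow_succ]; ring
  rw [h1, mul_inv, ← mul_assoc, ← mul_assoc]
  rw [show (2 : ℝ) * 2⁻¹ = 1 by norm_num, one_mul]
  apply mul_le_mul_of_nonneg_left _ (by positivity)
  apply Finset.sum_le_sum_of_subset_of_nonneg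
  · intro x hx
    rw [mem_blk] at hx ⊢
    rw [← hx]
    have := div_blk (R := R) (i := j) (j := j + 1) (x := x) (by omega) hj
    rw [← this]; simp
  · intro _ _ _; exact norm_nonneg _

lemma norm_gg_le {R : ℕ} {e : ℕ → ℂ} {lam : ℝ} (hlam : 0 < lam) (h0 : avgB R e 0 0 ≤ lam)
    {x : ℕ} (hx : x < 2 ^ R) : ‖gg R e lam x‖ ≤ 2 * lam := by
  by_cases hex : ∃ p ∈ Pb R e lam, x ∈ blk R p.1 p.2
  · obtain ⟨p, hp, hxp⟩ := hex
    have h1 : gg R e lam x = cavg R e p.1 p.2 := by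
      unfold gg
      rw [Finset.sum_eq_single p]
      · unfold uu; rw [if_pos hxp]; ring
      · intro p' hp' hne
        unfold uu
        rw [if_neg]
        intro hx'
        exact hne (Pb_unique hp' hp hx' hxp)
      · intro h; exact absurd hp h
    rw [h1]
    refine (norm_cavg_le _ _ _ _).trans ?_
    rw [mem_Pb] at hp
    obtain ⟨hpR, hpq, hbad⟩ := hp
    rcases hj : p.1 with _ | j
    · exfalso
      rw [hj] at hpq hbad
      have : p.2 = 0 := by simpa using hpq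
      rw [this] at hbad
      linarith [hbad.1]
    · rw [hj] at hbad hpR
      refine (avgB_parent e hpR).trans ?_
      have := hbad.2 j (by omega)
      rw [show j + 1 - j = 1 by omega, pow_one] at this
      linarith
  · push Not at hex
    have h1 : gg R e lam x = e x := by
      unfold gg
      rw [Finset.sum_eq_zero]
      · ring
      · intro p hp
        unfold uu
        rw [if_neg (hex p hp)]
    rw [h1]
    have h2 : ∀ j, j ≤ R → avgB R e j (x / 2 ^ (R - j)) ≤ lam := by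
      intro j
      induction j using Nat.strong_induction_on with
      | _ j ih =>
        intro hj
        by_contra hcon
        have hb : (j, x / 2 ^ (R - j)) ∈ Pb R e lam := by
          rw [mem_Pb]
          refine ⟨hj, ?_, not_le.1 hcon, ?_⟩
          · show x / 2 ^ (R - j) < 2 ^ j
            rw [Nat.div_lt_iff_lt_mul (by positivity), ← pow_add]
            rw [show j + (R - j) = R by omega]; exact hx
          · intro i hi
            show avgB R e i (x / 2 ^ (R - j) / 2 ^ (j - i)) ≤ lam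
            rw [div_blk hi.le hj]
            exact ih i hi (by omega)
        exact hex _ hb (mem_blk.2 rfl)
    have h3 := h2 R le_rfl
    unfold avgB at h3
    rw [Nat.sub_self] at h3
    have h4 : blk R R (x / 2 ^ 0) = {x} := by
      ext z
      rw [mem_blk, mem_singleton]
      simp
    rw [h4, Finset.sum_singleton] at h3
    simp only [pow_zero, inv_one, one_mul] at h3
    linarith


lemma Ph_decomp (R k ω a : ℕ) (e : ℕ → ℂ) (lam : ℝ) :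
    Ph R k ω a e = Ph R k ω a (gg R e lam) + ∑ p ∈ Pb R e lam, Ph R k ω a (uu R e p) := by
  unfold Ph
  rw [← Finset.mul_sum, ← mul_add]
  congr 1
  rw [Finset.sum_comm, ← Finset.sum_add_distrib]
  apply Finset.sum_congr rfl
  intro x _
  rw [← Finset.sum_mul, ← add_mul]
  congr 1
  unfold gg
  ring

lemma blk_pos {R : ℕ} {p : ℕ × ℕ} (hp : p.1 ≤ R) {x : ℕ} (hx : x ∈ blk R p.1 p.2) :
    |(x : ℝ) / 2 ^ R - (p.2 : ℝ) / 2 ^ p.1| ≤ ((2 : ℝ) ^ p.1)⁻¹ := by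
  unfold blk at hx
  rw [mem_Ico] at hx
  have h3 : (2 : ℝ) ^ R = 2 ^ p.1 * 2 ^ (R - p.1) := by rw [← pow_add]; congr 1; omega
  have h1 : (p.2 : ℝ) * 2 ^ (R - p.1) ≤ x := by exact_mod_cast hx.1
  have h2 : (x : ℝ) ≤ (p.2 + 1) * 2 ^ (R - p.1) := by exact_mod_cast hx.2.le
  have h4 : (x : ℝ) / 2 ^ R - (p.2 : ℝ) / 2 ^ p.1 = (x - p.2 * 2 ^ (R - p.1)) / 2 ^ R := by
    rw [h3]; field_simp
  rw [h4, abs_of_nonneg (by apply div_nonneg (by linarith) (by positivity)), div_le_iff₀ (by positivity), h3,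
    inv_mul_cancel_left₀ (by positivity)]
  linarith

end Wk

open Wk in
/-- weak (1,1) bound, absolute constant (proof/MP_c90581_an section 2). -/
theorem Ph_weak : ∃ C : ℝ, 0 < C ∧ ∀ (b R : ℕ), 2 ^ b + b + 1 ≤ R → ∀ (e : ℕ → ℂ) (α : ℝ), 0 < α →
    α * ∑ k ∈ Icc 1 (2 ^ b), ∑ ω ∈ Ico (2 ^ b) (2 ^ (b + 1)),
      ((2 : ℝ) ^ k)⁻¹ * #{a ∈ range (2 ^ k) | α < ‖(2 : ℂ) ^ b * Ph R k ω a e‖} ≤
      C * ((2 : ℝ) ^ b) ^ 2 * (((2 : ℝ) ^ R)⁻¹ * ∑ x ∈ range (2 ^ R), ‖e x‖) := by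
  refine ⟨136, by norm_num, ?_⟩
  intro b R hR e α hα
  set n1 := ((2 : ℝ) ^ R)⁻¹ * ∑ x ∈ range (2 ^ R), ‖e x‖ with hn1
  have hn10 : 0 ≤ n1 := by
    rw [hn1]; exact mul_nonneg (by positivity) (Finset.sum_nonneg fun _ _ => norm_nonneg _)
  have hcardω : (#(Ico (2 ^ b) (2 ^ (b + 1))) : ℝ) = 2 ^ b := by
    have : #(Ico (2 ^ b) (2 ^ (b + 1))) = 2 ^ b := by
      rw [Nat.card_Ico, pow_succ]; omega
    rw [this]; push_cast; rfl
  have hcardk : (#(Icc 1 (2 ^ b)) : ℝ) = 2 ^ b := by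
    have : #(Icc 1 (2 ^ b)) = 2 ^ b := by simp
    rw [this]; push_cast; rfl
  rcases lt_or_ge α n1 with hlt | hge
  · -- trivial case
    have h1 : ∑ k ∈ Icc 1 (2 ^ b), ∑ ω ∈ Ico (2 ^ b) (2 ^ (b + 1)),
      ((2 : ℝ) ^ k)⁻¹ * (#{a ∈ range (2 ^ k) | α < ‖(2 : ℂ) ^ b * Ph R k ω a e‖} : ℝ) ≤
        ((2 : ℝ) ^ b) ^ 2 := by
      calc ∑ k ∈ Icc 1 (2 ^ b), ∑ ω ∈ Ico (2 ^ b) (2 ^ (b + 1)),
          ((2 : ℝ) ^ k)⁻¹ * (#{a ∈ range (2 ^ k) | α < ‖(2 : ℂ) ^ b * Ph R k ω a e‖} : ℝ)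
          ≤ ∑ k ∈ Icc 1 (2 ^ b), ∑ ω ∈ Ico (2 ^ b) (2 ^ (b + 1)), (1 : ℝ) := by
            apply Finset.sum_le_sum; intro k _
            apply Finset.sum_le_sum; intro ω _
            rw [inv_mul_le_iff₀ (by positivity), mul_one]
            have : #{a ∈ range (2 ^ k) | α < ‖(2 : ℂ) ^ b * Ph R k ω a e‖} ≤ 2 ^ k := by
              refine (Finset.card_filter_le _ _).trans ?_
              simp
            exact_mod_cast this
        _ = ((2 : ℝ) ^ b) ^ 2 := by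
            simp only [Finset.sum_const, nsmul_eq_mul, mul_one]
            rw [hcardω, hcardk]; ring
    calc α * ∑ k ∈ Icc 1 (2 ^ b), ∑ ω ∈ Ico (2 ^ b) (2 ^ (b + 1)),
          ((2 : ℝ) ^ k)⁻¹ * (#{a ∈ range (2 ^ k) | α < ‖(2 : ℂ) ^ b * Ph R k ω a e‖} : ℝ)
        ≤ α * ((2 : ℝ) ^ b) ^ 2 := mul_le_mul_of_nonneg_left h1 hα.le
      _ ≤ n1 * ((2 : ℝ) ^ b) ^ 2 := by gcongr
      _ ≤ 136 * ((2 : ℝ) ^ b) ^ 2 * n1 := by nlinarith [mul_nonneg hn10 (sq_nonneg ((2 : ℝ) ^ b))]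
  · -- main case
    have hblk0 : blk R 0 0 = range (2 ^ R) := by
      unfold blk; simp
    have havg0 : avgB R e 0 0 ≤ α := by
      unfold avgB; rw [hblk0]; simpa using hge
    set P := Pb R e α with hP
    set yy : ℕ × ℕ → ℝ := fun p => (p.2 : ℝ) / 2 ^ p.1 with hyy
    -- pointwise
    have hpt : ∀ k ω a : ℕ, (if α < ‖(2 : ℂ) ^ b * Ph R k ω a e‖ then α else 0) ≤
        (∑ p ∈ P, if a ∈ Aff b k p.1 (yy p) then α else 0) +
        4 / α * ((2 : ℝ) ^ b) ^ 2 * ‖Ph R k ω a (gg R e α)‖ ^ 2 +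
        2 * (2 : ℝ) ^ b * ∑ p ∈ P, (if a ∉ Aff b k p.1 (yy p) then ‖Ph R k ω a (uu R e p)‖ else 0) := by
      intro k ω a
      have t1 : 0 ≤ ∑ p ∈ P, if a ∈ Aff b k p.1 (yy p) then α else 0 := by
        apply Finset.sum_nonneg; intro p _; split_ifs <;> linarith
      have t2 : 0 ≤ 4 / α * ((2 : ℝ) ^ b) ^ 2 * ‖Ph R k ω a (gg R e α)‖ ^ 2 := by positivity
      have t3 : 0 ≤ 2 * (2 : ℝ) ^ b * ∑ p ∈ P, (if a ∉ Aff b k p.1 (yy p) then ‖Ph R k ω a (uu R e p)‖ else 0) := by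
        apply mul_nonneg (by positivity)
        apply Finset.sum_nonneg; intro p _
        split_ifs <;> first | exact le_rfl | exact norm_nonneg _
      split_ifs with hc
      · by_cases hex : ∃ p ∈ P, a ∈ Aff b k p.1 (yy p)
        · obtain ⟨p, hp, hap⟩ := hex
          have h1 : α ≤ ∑ p ∈ P, if a ∈ Aff b k p.1 (yy p) then α else 0 := by
            have := Finset.single_le_sum (f := fun p => if a ∈ Aff b k p.1 (yy p) then α else 0)
              (fun q _ => by split_ifs <;> linarith) hp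
            simpa [hap] using this
          linarith
        · push Not at hex
          set A := (2 : ℝ) ^ b * ‖Ph R k ω a (gg R e α)‖ with hA
          set B := (2 : ℝ) ^ b * ∑ p ∈ P, ‖Ph R k ω a (uu R e p)‖ with hB
          have h1 : α < A + B := by
            refine lt_of_lt_of_le hc ?_
            rw [norm_mul, norm_pow, Complex.norm_ofNat, Ph_decomp R k ω a e α, hA, hB, ← mul_add]
            apply mul_le_mul_of_nonneg_left _ (by positivity)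
            exact (norm_add_le _ _).trans (by gcongr; exact norm_sum_le _ _)
          have h2 : ∑ p ∈ P, (if a ∉ Aff b k p.1 (yy p) then ‖Ph R k ω a (uu R e p)‖ else 0) =
              ∑ p ∈ P, ‖Ph R k ω a (uu R e p)‖ := by
            apply Finset.sum_congr rfl
            intro p hp
            rw [if_pos (hex p hp)]
          rw [h2]
          have h3 : 4 / α * ((2 : ℝ) ^ b) ^ 2 * ‖Ph R k ω a (gg R e α)‖ ^ 2 = 4 / α * A ^ 2 := by
            rw [hA]; ring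
          have h4 : 2 * (2 : ℝ) ^ b * ∑ p ∈ P, ‖Ph R k ω a (uu R e p)‖ = 2 * B := by
            rw [hB]; ring
          rw [h3, h4]
          have hA0 : 0 ≤ A := by positivity
          have hB0 : 0 ≤ B := by
            rw [hB]; exact mul_nonneg (by positivity) (Finset.sum_nonneg fun _ _ => norm_nonneg _)
          rcases le_or_gt (α / 2) A with hle | hlt
          · have h5 : α ≤ 4 / α * A ^ 2 := by
              rw [div_mul_eq_mul_div, le_div_iff₀ hα]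
              nlinarith
            linarith
          · have h5 : 0 ≤ 4 / α * A ^ 2 := by positivity
            linarith
      · linarith
    -- sum up
    have hcount : ∀ k ω : ℕ, α * (#{a ∈ range (2 ^ k) | α < ‖(2 : ℂ) ^ b * Ph R k ω a e‖} : ℝ) =
        ∑ a ∈ range (2 ^ k), (if α < ‖(2 : ℂ) ^ b * Ph R k ω a e‖ then α else 0) := by
      intro k ω
      rw [← Finset.sum_filter, Finset.sum_const, nsmul_eq_mul, mul_comm]
    have hAff_sub : ∀ k j y, Aff b k j y ⊆ range (2 ^ k) := by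
      intro k j y
      unfold Aff
      split_ifs
      · exact Finset.filter_subset _ _
      · exact Finset.empty_subset _
    -- T1
    have hT1 : ∑ k ∈ Icc 1 (2 ^ b), ∑ ω ∈ Ico (2 ^ b) (2 ^ (b + 1)), ((2 : ℝ) ^ k)⁻¹ *
        ∑ a ∈ range (2 ^ k), (∑ p ∈ P, if a ∈ Aff b k p.1 (yy p) then α else 0) ≤
        12 * ((2 : ℝ) ^ b) ^ 2 * n1 := by
      have h1 : ∀ k, ∑ a ∈ range (2 ^ k), (∑ p ∈ P, if a ∈ Aff b k p.1 (yy p) then α else 0) =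
          ∑ p ∈ P, α * #(Aff b k p.1 (yy p)) := by
        intro k
        rw [Finset.sum_comm]
        apply Finset.sum_congr rfl
        intro p _
        rw [← Finset.sum_filter, Finset.sum_const, nsmul_eq_mul, mul_comm]
        congr 3
        ext a
        rw [mem_filter]
        exact ⟨fun h => h.2, fun h => ⟨hAff_sub _ _ _ h, h⟩⟩
      simp_rw [h1]
      rw [Finset.sum_comm]
      calc ∑ ω ∈ Ico (2 ^ b) (2 ^ (b + 1)), ∑ k ∈ Icc 1 (2 ^ b), ((2 : ℝ) ^ k)⁻¹ *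
            ∑ p ∈ P, α * #(Aff b k p.1 (yy p))
          = ∑ ω ∈ Ico (2 ^ b) (2 ^ (b + 1)), ∑ p ∈ P, α * ∑ k ∈ Icc 1 (2 ^ b), ((2 : ℝ) ^ k)⁻¹ *
            #(Aff b k p.1 (yy p)) := by
            apply Finset.sum_congr rfl; intro ω _
            simp_rw [Finset.mul_sum]
            rw [Finset.sum_comm]
            apply Finset.sum_congr rfl; intro p _
            apply Finset.sum_congr rfl; intro k _
            ring
        _ ≤ ∑ ω ∈ Ico (2 ^ b) (2 ^ (b + 1)), ∑ p ∈ P, α * (12 * 2 ^ b * ((2 : ℝ) ^ p.1)⁻¹) := by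
            apply Finset.sum_le_sum; intro ω _
            apply Finset.sum_le_sum; intro p _
            exact mul_le_mul_of_nonneg_left (Aff_count b p.1 (yy p)) hα.le
        _ = 12 * ((2 : ℝ) ^ b) ^ 2 * (α * ∑ p ∈ P, ((2 : ℝ) ^ p.1)⁻¹) := by
            rw [Finset.sum_const, nsmul_eq_mul, hcardω, Finset.mul_sum, Finset.mul_sum, Finset.mul_sum]
            apply Finset.sum_congr rfl; intro p _; ring
        _ ≤ 12 * ((2 : ℝ) ^ b) ^ 2 * n1 := by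
            apply mul_le_mul_of_nonneg_left (Pb_measure R e α) (by positivity)
    -- T2
    have hT2 : ∑ k ∈ Icc 1 (2 ^ b), ∑ ω ∈ Ico (2 ^ b) (2 ^ (b + 1)), ((2 : ℝ) ^ k)⁻¹ *
        ∑ a ∈ range (2 ^ k), (4 / α * ((2 : ℝ) ^ b) ^ 2 * ‖Ph R k ω a (gg R e α)‖ ^ 2) ≤
        24 * ((2 : ℝ) ^ b) ^ 2 * n1 := by
      calc ∑ k ∈ Icc 1 (2 ^ b), ∑ ω ∈ Ico (2 ^ b) (2 ^ (b + 1)), ((2 : ℝ) ^ k)⁻¹ *
          ∑ a ∈ range (2 ^ k), (4 / α * ((2 : ℝ) ^ b) ^ 2 * ‖Ph R k ω a (gg R e α)‖ ^ 2)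
          = 4 / α * ((2 : ℝ) ^ b) ^ 2 * ∑ k ∈ Icc 1 (2 ^ b), ∑ ω ∈ Ico (2 ^ b) (2 ^ (b + 1)),
            ((2 : ℝ) ^ k)⁻¹ * ∑ a ∈ range (2 ^ k), ‖Ph R k ω a (gg R e α)‖ ^ 2 := by
            simp_rw [Finset.mul_sum]
            apply Finset.sum_congr rfl; intro k _
            apply Finset.sum_congr rfl; intro ω _
            apply Finset.sum_congr rfl; intro a _
            ring
        _ ≤ 4 / α * ((2 : ℝ) ^ b) ^ 2 * (((2 : ℝ) ^ R)⁻¹ * ∑ x ∈ range (2 ^ R), ‖gg R e α x‖ ^ 2) := by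
            apply mul_le_mul_of_nonneg_left (Ph_l2 b R hR _) (by positivity)
        _ ≤ 4 / α * ((2 : ℝ) ^ b) ^ 2 * (((2 : ℝ) ^ R)⁻¹ * ∑ x ∈ range (2 ^ R), 2 * α * ‖gg R e α x‖) := by
            gcongr with x hx
            rw [pow_two]
            exact mul_le_mul_of_nonneg_right (norm_gg_le hα havg0 (mem_range.1 hx)) (norm_nonneg _)
        _ = 8 * ((2 : ℝ) ^ b) ^ 2 * (((2 : ℝ) ^ R)⁻¹ * ∑ x ∈ range (2 ^ R), ‖gg R e α x‖) := by
            rw [← Finset.mul_sum]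
            field_simp
            ring
        _ ≤ 8 * ((2 : ℝ) ^ b) ^ 2 * (((2 : ℝ) ^ R)⁻¹ * (3 * ∑ x ∈ range (2 ^ R), ‖e x‖)) := by
            gcongr
            exact sum_norm_gg R e α
        _ = 24 * ((2 : ℝ) ^ b) ^ 2 * n1 := by rw [hn1]; ring
    -- T3
    have hT3 : ∑ k ∈ Icc 1 (2 ^ b), ∑ ω ∈ Ico (2 ^ b) (2 ^ (b + 1)), ((2 : ℝ) ^ k)⁻¹ *
        ∑ a ∈ range (2 ^ k), (2 * (2 : ℝ) ^ b * ∑ p ∈ P,
          (if a ∉ Aff b k p.1 (yy p) then ‖Ph R k ω a (uu R e p)‖ else 0)) ≤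
        100 * ((2 : ℝ) ^ b) ^ 2 * n1 := by
      have h1 : ∀ k ω, ∑ a ∈ range (2 ^ k), (2 * (2 : ℝ) ^ b * ∑ p ∈ P,
          (if a ∉ Aff b k p.1 (yy p) then ‖Ph R k ω a (uu R e p)‖ else 0)) =
          2 * (2 : ℝ) ^ b * ∑ p ∈ P, ∑ a ∈ range (2 ^ k) \ Aff b k p.1 (yy p), ‖Ph R k ω a (uu R e p)‖ := by
        intro k ω
        rw [← Finset.mul_sum, Finset.sum_comm]
        congr 1
        apply Finset.sum_congr rfl
        intro p _
        rw [← Finset.sum_filter]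
        congr 1
        ext a
        rw [mem_filter, mem_sdiff]
      simp_rw [h1]
      rw [Finset.sum_comm]
      calc ∑ ω ∈ Ico (2 ^ b) (2 ^ (b + 1)), ∑ k ∈ Icc 1 (2 ^ b), ((2 : ℝ) ^ k)⁻¹ * (2 * (2 : ℝ) ^ b *
            ∑ p ∈ P, ∑ a ∈ range (2 ^ k) \ Aff b k p.1 (yy p), ‖Ph R k ω a (uu R e p)‖)
          = 2 * (2 : ℝ) ^ b * ∑ ω ∈ Ico (2 ^ b) (2 ^ (b + 1)), ∑ p ∈ P, ∑ k ∈ Icc 1 (2 ^ b), ((2 : ℝ) ^ k)⁻¹ *
            ∑ a ∈ range (2 ^ k) \ Aff b k p.1 (yy p), ‖Ph R k ω a (uu R e p)‖ := by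
            rw [Finset.mul_sum]
            apply Finset.sum_congr rfl; intro ω _
            rw [Finset.sum_comm, Finset.mul_sum]
            apply Finset.sum_congr rfl; intro k _
            rw [Finset.mul_sum, Finset.mul_sum, Finset.mul_sum]
            apply Finset.sum_congr rfl; intro p _
            ring
        _ ≤ 2 * (2 : ℝ) ^ b * ∑ ω ∈ Ico (2 ^ b) (2 ^ (b + 1)), ∑ p ∈ P,
            25 * (((2 : ℝ) ^ R)⁻¹ * ∑ x ∈ range (2 ^ R), ‖uu R e p x‖) := by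
            apply mul_le_mul_of_nonneg_left _ (by positivity)
            apply Finset.sum_le_sum; intro ω hω
            apply Finset.sum_le_sum; intro p hp
            have hp' := mem_Pb.1 hp
            apply block_bad b R p.1 ω (mem_Ico.1 hω).2 (uu R e p) (blk R p.1 p.2)
            · intro x _ hx
              unfold uu; rw [if_neg hx]
            · exact sum_uu hp
            · intro x hx
              exact blk_pos hp'.1 hx
        _ = 50 * ((2 : ℝ) ^ b) ^ 2 * (((2 : ℝ) ^ R)⁻¹ * ∑ p ∈ P, ∑ x ∈ range (2 ^ R), ‖uu R e p x‖) := by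
            rw [Finset.sum_const, nsmul_eq_mul, hcardω, ← Finset.mul_sum, ← Finset.mul_sum]
            ring
        _ ≤ 50 * ((2 : ℝ) ^ b) ^ 2 * (((2 : ℝ) ^ R)⁻¹ * (2 * ∑ x ∈ range (2 ^ R), ‖e x‖)) := by
            gcongr
            exact sum_sum_norm_uu R e α
        _ = 100 * ((2 : ℝ) ^ b) ^ 2 * n1 := by rw [hn1]; ring
    -- conclude
    calc α * ∑ k ∈ Icc 1 (2 ^ b), ∑ ω ∈ Ico (2 ^ b) (2 ^ (b + 1)),
          ((2 : ℝ) ^ k)⁻¹ * (#{a ∈ range (2 ^ k) | α < ‖(2 : ℂ) ^ b * Ph R k ω a e‖} : ℝ)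
        = ∑ k ∈ Icc 1 (2 ^ b), ∑ ω ∈ Ico (2 ^ b) (2 ^ (b + 1)),
          ((2 : ℝ) ^ k)⁻¹ * ∑ a ∈ range (2 ^ k), (if α < ‖(2 : ℂ) ^ b * Ph R k ω a e‖ then α else 0) := by
          rw [Finset.mul_sum]
          apply Finset.sum_congr rfl; intro k _
          rw [Finset.mul_sum]
          apply Finset.sum_congr rfl; intro ω _
          rw [← hcount]; ring
      _ ≤ ∑ k ∈ Icc 1 (2 ^ b), ∑ ω ∈ Ico (2 ^ b) (2 ^ (b + 1)),
          ((2 : ℝ) ^ k)⁻¹ * ∑ a ∈ range (2 ^ k), ((∑ p ∈ P, if a ∈ Aff b k p.1 (yy p) then α else 0) +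
        4 / α * ((2 : ℝ) ^ b) ^ 2 * ‖Ph R k ω a (gg R e α)‖ ^ 2 +
        2 * (2 : ℝ) ^ b * ∑ p ∈ P, (if a ∉ Aff b k p.1 (yy p) then ‖Ph R k ω a (uu R e p)‖ else 0)) := by
          apply Finset.sum_le_sum; intro k _
          apply Finset.sum_le_sum; intro ω _
          apply mul_le_mul_of_nonneg_left _ (by positivity)
          exact Finset.sum_le_sum (fun a _ => hpt k ω a)
      _ = (∑ k ∈ Icc 1 (2 ^ b), ∑ ω ∈ Ico (2 ^ b) (2 ^ (b + 1)), ((2 : ℝ) ^ k)⁻¹ *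
        ∑ a ∈ range (2 ^ k), (∑ p ∈ P, if a ∈ Aff b k p.1 (yy p) then α else 0)) +
        (∑ k ∈ Icc 1 (2 ^ b), ∑ ω ∈ Ico (2 ^ b) (2 ^ (b + 1)), ((2 : ℝ) ^ k)⁻¹ *
        ∑ a ∈ range (2 ^ k), (4 / α * ((2 : ℝ) ^ b) ^ 2 * ‖Ph R k ω a (gg R e α)‖ ^ 2)) +
        (∑ k ∈ Icc 1 (2 ^ b), ∑ ω ∈ Ico (2 ^ b) (2 ^ (b + 1)), ((2 : ℝ) ^ k)⁻¹ *
        ∑ a ∈ range (2 ^ k), (2 * (2 : ℝ) ^ b * ∑ p ∈ P,
          (if a ∉ Aff b k p.1 (yy p) then ‖Ph R k ω a (uu R e p)‖ else 0))) := by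
          simp only [Finset.sum_add_distrib, mul_add]
      _ ≤ 12 * ((2 : ℝ) ^ b) ^ 2 * n1 + 24 * ((2 : ℝ) ^ b) ^ 2 * n1 + 100 * ((2 : ℝ) ^ b) ^ 2 * n1 :=
          add_le_add (add_le_add hT1 hT2) hT3
      _ = 136 * ((2 : ℝ) ^ b) ^ 2 * n1 := by ring

end

end Pool.Agent.H72.MT
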